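import Mathlib

/-! # ABSA: solution operators of a Hilbert complex (abstract)

`T : H0 → H1`, `S : H1 → H2` closed operators (as relations), `S T = 0`; `ker S = range T` with bound, and
`‖f‖ ≤ C ‖S f‖` on `(ker S)^⊥`.

PROOF. `ker T = {v | T v 0}`, `Z = ker S = {α | S α 0}` are closed submodules, `Rg = {k | ∃ f, S f k}` is a submodule.
`S1`: for `α ∈ Z` let `T u α` (`h1`), `u' = u - P_{ker T} u`: `T u' α`, `u' ⊥ ker T`, unique with these properties,
`‖u'‖ ≤ ‖u‖ ≤ C ‖α‖`; linear by uniqueness. `S1 α = u'(P_Z α)`. (`LinearMap.mkContinuous`.)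
`S2`: for `k ∈ Rg`, `S f k`, `f' = f - P_Z f` satisfies `S f' k`, `f' ⊥ Z`, is unique, `‖f'‖ ≤ C ‖k‖` (`h2`).
`Rg` is closed: if `k_i → k`, `k_i ∈ Rg`, the `f'_i` form a Cauchy sequence, `f'_i → f`, `S f k` since the graph is closed.
`S2 k = f'(P_Rg k)`. `dom`: `k' = P_Rg k`. -/

set_option autoImplicit false

namespace DN

open Set Filter Topology

section

variable {H0 H1 H2 : Type*} [NormedAddCommGroup H0] [InnerProductSpace ℂ H0] [CompleteSpace H0]
  [NormedAddCommGroup H1] [InnerProductSpace ℂ H1] [CompleteSpace H1]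
  [NormedAddCommGroup H2] [InnerProductSpace ℂ H2] [CompleteSpace H2]

/-- a closed linear operator, as a relation -/
structure IsClosedOp (T : H0 → H1 → Prop) : Prop where
  zero : T 0 0
  lin : ∀ u v α β (c : ℂ), T u α → T v β → T (u + c • v) (α + c • β)
  uniq : ∀ u α β, T u α → T u β → α = β
  closed : IsClosed {q : H0 × H1 | T q.1 q.2}

/-- `S1` is the canonical solution operator of `T`, extended by `0` to `(ker S)^⊥`. -/
structure IsSol1 (T : H0 → H1 → Prop) (S : H1 → H2 → Prop) (S1 : H1 →L[ℂ] H0) : Prop where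
  sol : ∀ α, S α 0 → T (S1 α) α
  orth : ∀ α v, T v 0 → inner ℂ v (S1 α) = 0
  zero : ∀ α, (∀ β, S β 0 → inner ℂ β α = 0) → S1 α = 0

/-- `S2` is the canonical solution operator of `S`, extended by `0` to `(range S)^⊥`. -/
structure IsSol2 (S : H1 → H2 → Prop) (S2 : H2 →L[ℂ] H1) : Prop where
  sol : ∀ f k, S f k → (∀ α, S α 0 → inner ℂ α f = 0) → S2 k = f
  dom : ∀ k, ∃ k', S (S2 k) k' ∧ ‖k'‖ ≤ ‖k‖ ∧ ∀ f l, S f l → inner ℂ l (k - k') = 0
  orth : ∀ k α, S α 0 → inner ℂ α (S2 k) = 0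
  zero : ∀ k, (∀ f l, S f l → inner ℂ l k = 0) → S2 k = 0

/-- kernel of a closed operator as a submodule -/
def ABSA_ker {T : H0 → H1 → Prop} (hT : IsClosedOp T) : Submodule ℂ H0 where
  carrier := {v | T v 0}
  zero_mem' := hT.zero
  add_mem' := by
    intro a b ha hb
    have h := hT.lin a b 0 0 1 ha hb
    simpa using h
  smul_mem' := by
    intro c a ha
    have h := hT.lin 0 a 0 0 c hT.zero ha
    simpa using h

omit [CompleteSpace H0] [CompleteSpace H1] in
theorem ABSA_mem_ker {T : H0 → H1 → Prop} (hT : IsClosedOp T) (v : H0) :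
    v ∈ ABSA_ker hT ↔ T v 0 := Iff.rfl

omit [CompleteSpace H0] [CompleteSpace H1] in
theorem ABSA_ker_closed {T : H0 → H1 → Prop} (hT : IsClosedOp T) :
    IsClosed (ABSA_ker hT : Set H0) := by
  have h : IsClosed ((fun v : H0 => (v, (0 : H1))) ⁻¹' {q : H0 × H1 | T q.1 q.2}) :=
    hT.closed.preimage (by fun_prop)
  exact h

/-- range of a closed operator as a submodule -/
def ABSA_rg {T : H0 → H1 → Prop} (hT : IsClosedOp T) : Submodule ℂ H1 where
  carrier := {k | ∃ f, T f k}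
  zero_mem' := ⟨0, hT.zero⟩
  add_mem' := by
    rintro a b ⟨f, ha⟩ ⟨g, hb⟩
    have h := hT.lin f g a b 1 ha hb
    exact ⟨f + (1 : ℂ) • g, by simpa using h⟩
  smul_mem' := by
    rintro c a ⟨f, ha⟩
    have h := hT.lin 0 f 0 a c hT.zero ha
    exact ⟨0 + c • f, by simpa using h⟩

omit [CompleteSpace H1] in
/-- the canonical solution -/
theorem ABSA_canon {T : H0 → H1 → Prop} (hT : IsClosedOp T) (u : H0) (α : H1) (h : T u α) :
    ∃ u', T u' α ∧ (∀ v, T v 0 → inner ℂ v u' = 0) ∧ ‖u'‖ ≤ ‖u‖ := by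
  have : CompleteSpace (ABSA_ker hT) := (ABSA_ker_closed hT).completeSpace_coe
  refine ⟨u - (ABSA_ker hT).starProjection u, ?_, ?_, ?_⟩
  · have h1 : T ((ABSA_ker hT).starProjection u) 0 :=
      (ABSA_mem_ker hT _).1 (Submodule.starProjection_apply_mem _ u)
    have h2 := hT.lin _ _ _ _ (-1) h h1
    simpa [sub_eq_add_neg] using h2
  · intro v hv
    have h1 := (ABSA_ker hT).sub_starProjection_mem_orthogonal u
    exact (Submodule.mem_orthogonal _ _).1 h1 v ((ABSA_mem_ker hT v).2 hv)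
  · rw [← Submodule.starProjection_orthogonal_val]
    exact Submodule.norm_starProjection_apply_le _ _

omit [CompleteSpace H0] [CompleteSpace H1] in
theorem ABSA_unique {T : H0 → H1 → Prop} (hT : IsClosedOp T) (u v : H0) (α : H1) (hu : T u α)
    (hv : T v α) (hu' : ∀ w, T w 0 → inner ℂ w u = 0) (hv' : ∀ w, T w 0 → inner ℂ w v = 0) :
    u = v := by
  have h : T (u - v) 0 := by
    have h2 := hT.lin _ _ _ _ (-1) hu hv
    simpa [sub_eq_add_neg] using h2
  have h3 : inner ℂ (u - v) (u - v) = 0 := by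
    rw [inner_sub_right, hu' _ h, hv' _ h, sub_zero]
  rw [inner_self_eq_zero] at h3
  exact sub_eq_zero.1 h3

omit [CompleteSpace H0] [CompleteSpace H1] in
theorem ABSA_mk {T : H0 → H1 → Prop} (hT : IsClosedOp T) (V : Submodule ℂ H1)
    [V.HasOrthogonalProjection] (C : ℝ)
    (hV : ∀ α ∈ V, ∃ u, T u α ∧ (∀ w, T w 0 → inner ℂ w u = 0) ∧ ‖u‖ ≤ C * ‖α‖) :
    ∃ F : H1 →L[ℂ] H0, ∀ α, T (F α) (V.starProjection α) ∧
      (∀ w, T w 0 → inner ℂ w (F α) = 0) := by
  have hex : ∀ α : H1, ∃ u, T u (V.starProjection α) ∧ (∀ w, T w 0 → inner ℂ w u = 0) ∧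
      ‖u‖ ≤ C * ‖V.starProjection α‖ := fun α => hV _ (Submodule.starProjection_apply_mem _ α)
  choose g hg1 hg2 hg3 using hex
  have hlin : ∀ (a b : H1) (c : ℂ), g (a + c • b) = g a + c • g b := by
    intro a b c
    refine ABSA_unique hT _ _ _ (hg1 _) ?_ (hg2 _) ?_
    · have h := hT.lin _ _ _ _ c (hg1 a) (hg1 b)
      simpa using h
    · intro w hw
      rw [inner_add_right, inner_smul_right, hg2 a w hw, hg2 b w hw]
      simp
  have hg0 : g 0 = 0 := by
    have h := hlin 0 0 (-1)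
    simpa using h
  let G : H1 →ₗ[ℂ] H0 :=
    { toFun := g
      map_add' := by
        intro a b
        have h := hlin a b 1
        simpa using h
      map_smul' := by
        intro c a
        have h := hlin 0 a c
        simpa [hg0] using h }
  refine ⟨G.mkContinuous |C| ?_, ?_⟩
  · intro α
    have h1 : ‖g α‖ ≤ C * ‖V.starProjection α‖ := hg3 α
    have h2 : ‖V.starProjection α‖ ≤ ‖α‖ := Submodule.norm_starProjection_apply_le _ _
    calc ‖G α‖ = ‖g α‖ := rfl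
      _ ≤ C * ‖V.starProjection α‖ := h1
      _ ≤ |C| * ‖V.starProjection α‖ := by gcongr; exact le_abs_self C
      _ ≤ |C| * ‖α‖ := by gcongr
  · intro α
    exact ⟨hg1 α, hg2 α⟩

theorem ABSA_rg_closed {T : H0 → H1 → Prop} (hT : IsClosedOp T) (C : ℝ)
    (h2 : ∀ f k, T f k → (∀ α, T α 0 → inner ℂ α f = 0) → ‖f‖ ≤ C * ‖k‖) :
    IsClosed (ABSA_rg hT : Set H1) := by
  apply IsSeqClosed.isClosed
  intro k k0 hk hlim
  have hex : ∀ n, ∃ f, T f (k n) ∧ (∀ v, T v 0 → inner ℂ v f = 0) := by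
    intro n
    obtain ⟨f, hf⟩ := hk n
    obtain ⟨f', h1, h3, _⟩ := ABSA_canon hT f (k n) hf
    exact ⟨f', h1, h3⟩
  choose f hf1 hf2 using hex
  have hb : ∀ n m, ‖f n - f m‖ ≤ |C| * ‖k n - k m‖ := by
    intro n m
    have h1 : T (f n - f m) (k n - k m) := by
      have h3 := hT.lin _ _ _ _ (-1) (hf1 n) (hf1 m)
      simpa [sub_eq_add_neg] using h3
    have h3 := h2 _ _ h1 (by
      intro α hα
      rw [inner_sub_right, hf2 n α hα, hf2 m α hα, sub_zero])
    refine h3.trans ?_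
    gcongr
    exact le_abs_self C
  have hcs : CauchySeq f := by
    have hk' : CauchySeq k := hlim.cauchySeq
    rw [Metric.cauchySeq_iff] at hk' ⊢
    intro ε hε
    obtain ⟨N, hN⟩ := hk' (ε / (|C| + 1)) (by positivity)
    refine ⟨N, fun m hm n hn => ?_⟩
    have h1 := hN m hm n hn
    rw [dist_eq_norm] at h1 ⊢
    calc ‖f m - f n‖ ≤ |C| * ‖k m - k n‖ := hb m n
      _ ≤ (|C| + 1) * ‖k m - k n‖ := by gcongr; linarith
      _ < (|C| + 1) * (ε / (|C| + 1)) := by gcongr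
      _ = ε := by field_simp
  obtain ⟨f0, hf0⟩ := cauchySeq_tendsto_of_complete hcs
  have h4 : Tendsto (fun n => (f n, k n)) atTop (𝓝 (f0, k0)) := hf0.prodMk_nhds hlim
  have h5 : (f0, k0) ∈ {q : H0 × H1 | T q.1 q.2} :=
    hT.closed.mem_of_tendsto h4 (Eventually.of_forall fun n => hf1 n)
  exact ⟨f0, h5⟩

theorem exists_sol {T : H0 → H1 → Prop} {S : H1 → H2 → Prop} (hT : IsClosedOp T)
    (hS : IsClosedOp S) (hST : ∀ u α, T u α → S α 0) (C : ℝ)
    (h1 : ∀ α, S α 0 → ∃ u, T u α ∧ ‖u‖ ≤ C * ‖α‖)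
    (h2 : ∀ f k, S f k → (∀ α, S α 0 → inner ℂ α f = 0) → ‖f‖ ≤ C * ‖k‖) :
    ∃ (S1 : H1 →L[ℂ] H0) (S2 : H2 →L[ℂ] H1), IsSol1 T S S1 ∧ IsSol2 S S2 := by
  have : CompleteSpace (ABSA_ker hS) := (ABSA_ker_closed hS).completeSpace_coe
  have : CompleteSpace (ABSA_rg hS) := (ABSA_rg_closed hS C h2).completeSpace_coe
  obtain ⟨S1, hS1⟩ := ABSA_mk hT (ABSA_ker hS) C (by
    intro α hα
    obtain ⟨u, hu, hub⟩ := h1 α hα
    obtain ⟨u', h3, h4, h5⟩ := ABSA_canon hT u α hu
    exact ⟨u', h3, h4, h5.trans hub⟩)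
  obtain ⟨S2, hS2⟩ := ABSA_mk hS (ABSA_rg hS) C (by
    rintro k ⟨f, hf⟩
    obtain ⟨f', h3, h4, _⟩ := ABSA_canon hS f k hf
    exact ⟨f', h3, h4, h2 f' k h3 h4⟩)
  refine ⟨S1, S2, ⟨?_, ?_, ?_⟩, ⟨?_, ?_, ?_, ?_⟩⟩
  · intro α hα
    have h := (hS1 α).1
    rwa [Submodule.starProjection_eq_self_iff.2 ((ABSA_mem_ker hS α).2 hα)] at h
  · intro α v hv
    exact (hS1 α).2 v hv
  · intro α hα
    have h0 : (ABSA_ker hS).starProjection α = 0 := by
      rw [Submodule.starProjection_apply_eq_zero_iff, Submodule.mem_orthogonal]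
      intro β hβ
      exact hα β hβ
    have h := (hS1 α).1
    rw [h0] at h
    have h6 := (hS1 α).2 _ h
    rwa [inner_self_eq_zero] at h6
  · intro f k hf hfo
    have hk : (ABSA_rg hS).starProjection k = k :=
      Submodule.starProjection_eq_self_iff.2 ⟨f, hf⟩
    have h := (hS2 k).1
    rw [hk] at h
    exact ABSA_unique hS _ _ _ h hf (hS2 k).2 hfo
  · intro k
    refine ⟨(ABSA_rg hS).starProjection k, (hS2 k).1, Submodule.norm_starProjection_apply_le _ _, ?_⟩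
    intro f l hl
    have h := (ABSA_rg hS).sub_starProjection_mem_orthogonal k
    exact (Submodule.mem_orthogonal _ _).1 h l ⟨f, hl⟩
  · intro k α hα
    exact (hS2 k).2 α hα
  · intro k hk
    have h0 : (ABSA_rg hS).starProjection k = 0 := by
      rw [Submodule.starProjection_apply_eq_zero_iff, Submodule.mem_orthogonal]
      rintro l ⟨f, hl⟩
      exact hk f l hl
    have h := (hS2 k).1
    rw [h0] at h
    have h6 := (hS2 k).2 _ h
    rwa [inner_self_eq_zero] at h6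

end

end DN
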