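import Pool.Agent.H49.DN.ABSA

/-! # ABSB: the Neumann operator of a Hilbert complex (abstract)

PROOF. `N = S1† ∘ S1 + S2 ∘ S2†` (`ContinuousLinearMap.adjoint`); compact: `IsCompactOperator.clm_comp`,
`.comp_clm`, `.add`. Let `Z = ker S` (closed submodule), `P = ` orthogonal projection onto `Z`.
(a) `S1 α = S1 (P α)` (`zero` applied to `α - P α`), `T (S1 α) (P α)`. `S1† u ∈ Z` for all `u`: it is orthogonal to
`Z^⊥ ⊆ ker S1` (`Submodule.orthogonal_orthogonal`). Similarly `S2† α` is orthogonal to all `k` in `(range S)^⊥`, so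
`S2† α ∈ closure (range S)`; with `dom`: for `k = S2† α`, `k - k' ⊥ range S`, hence `k - k' ⊥ k` and `⊥ k'`
(`k'` in the range), so `k = k'`: `S (S2 k₀) k₀ ...` — precisely: for every `k` in `((range S)^⊥)^⊥` one has `S (S2 k) k`.
(b) `Box (N g) g`: take `u = S1 g`, `a = P g`, `k = S2† g`, `b = g - P g`.
 `T u a`: (a). `T^* (N g) = u`: for `T v α`: `⟨α, S1† S1 g⟩ = ⟨S1 α, S1 g⟩`, `S1 α = v - P_{ker T} v` (both solve `T · = α`,
 difference in `ker T`, `S1 α ⊥ ker T`), `S1 g ⊥ ker T`: `= ⟨v, S1 g⟩`; `⟨α, S2 S2† g⟩ = 0` by `orth` (`α ∈ Z` by `hST`).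
 `S (N g) k`: `S (S1† S1 g) 0` (in `Z`), `S (S2 k) k` by (a); `lin`. `S^* k = b`: for `S h l`:
 `⟨l, S2† g⟩ = ⟨S2 l, g⟩`, `S2 l = h - P h` (`sol` applied to `h - P h`, `S (h - P h) l`), `⟨h - P h, g⟩ = ⟨h, g - P g⟩`.
(c) `Box f g → N g = f`: `g = a + b`. `N a = P f`: `S2† a = 0` (`⟨S2† a, k⟩ = ⟨a, S2 k⟩ = 0`, `a ∈ Z` by `hST`);
 `S1 a = u`: both solve `T · = a`, `u ⊥ ker T` (for `T v 0`: `⟨0, f⟩ = ⟨v, u⟩`); `⟨S1† u, h⟩ = ⟨u, S1 h⟩`, and
 `T (S1 h) (P h)` gives `⟨P h, f⟩ = ⟨S1 h, u⟩`, so `S1† u = P f`. `N b = f - P f`: `b ⊥ Z` (for `S h 0`: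
 `⟨0, k⟩ = ⟨h, b⟩`), so `S1 b = 0`; `S2† b = k`: `⟨l, S2† b⟩ = ⟨S2 l, b⟩ = ⟨l', k⟩` where `S (S2 l) l'` (from `dom`) and
 `⟨l - l', k⟩ = 0` since `k` is in the range (`S f k`); `S2 k = f - P f` by `sol`. -/

set_option autoImplicit false

namespace DN

open Set Filter Topology

section

variable {H0 H1 H2 : Type*} [NormedAddCommGroup H0] [InnerProductSpace ℂ H0] [CompleteSpace H0]
  [NormedAddCommGroup H1] [InnerProductSpace ℂ H1] [CompleteSpace H1]
  [NormedAddCommGroup H2] [InnerProductSpace ℂ H2] [CompleteSpace H2]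

omit [CompleteSpace H0] [CompleteSpace H1] in
private theorem ABSB_add {T : H0 → H1 → Prop} (hT : IsClosedOp T) {u v : H0} {α β : H1} (h : T u α)
    (h' : T v β) : T (u + v) (α + β) := by
  have := hT.lin u v α β 1 h h'
  rwa [one_smul, one_smul] at this

omit [CompleteSpace H0] [CompleteSpace H1] in
private theorem ABSB_sub {T : H0 → H1 → Prop} (hT : IsClosedOp T) {u v : H0} {α β : H1} (h : T u α)
    (h' : T v β) : T (u - v) (α - β) := by
  have := hT.lin u v α β (-1) h h'
  rwa [neg_one_smul, neg_one_smul, ← sub_eq_add_neg, ← sub_eq_add_neg] at this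

omit [CompleteSpace H2] in
private theorem ABSB_proj {S : H1 → H2 → Prop} (hS : IsClosedOp S) (g : H1) :
    ∃ p, S p 0 ∧ ∀ β, S β 0 → inner ℂ β (g - p) = 0 := by
  let Z : Submodule ℂ H1 :=
    { carrier := {α | S α 0}
      zero_mem' := hS.zero
      add_mem' := fun {a b} ha hb => by
        have := ABSB_add hS ha hb
        rwa [add_zero] at this
      smul_mem' := fun c a ha => by
        have := hS.lin 0 a 0 0 c hS.zero ha
        rwa [smul_zero, zero_add, zero_add] at this }
  have hZ : IsClosed (Z : Set H1) := by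
    have h1 : Continuous (fun α : H1 => (α, (0 : H2))) := continuous_id.prodMk continuous_const
    exact hS.closed.preimage h1
  haveI : CompleteSpace Z := hZ.completeSpace_coe
  refine ⟨Z.starProjection g, ?_, ?_⟩
  · exact Submodule.starProjection_apply_mem Z g
  · intro β hβ
    exact Submodule.inner_right_of_mem_orthogonal (K := Z) hβ (Submodule.sub_starProjection_mem_orthogonal g)

theorem exists_neumann {T : H0 → H1 → Prop} {S : H1 → H2 → Prop} (hT : IsClosedOp T)
    (hS : IsClosedOp S) (hST : ∀ u α, T u α → S α 0) {S1 : H1 →L[ℂ] H0} {S2 : H2 →L[ℂ] H1}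
    (h1 : IsSol1 T S S1) (h2 : IsSol2 S S2) (c1 : IsCompactOperator S1)
    (c2 : IsCompactOperator S2) :
    ∃ N : H1 →L[ℂ] H1, IsCompactOperator N ∧
      (∀ g, ∃ u k a b, (∀ v α, T v α → inner ℂ α (N g) = inner ℂ v u) ∧ T u a ∧ S (N g) k ∧
        (∀ h l, S h l → inner ℂ l k = inner ℂ h b) ∧ g = a + b) ∧
      ∀ f g, (∃ u k a b, (∀ v α, T v α → inner ℂ α f = inner ℂ v u) ∧ T u a ∧ S f k ∧
        (∀ h l, S h l → inner ℂ l k = inner ℂ h b) ∧ g = a + b) → N g = f := by
  choose P hP1 hP2 using ABSB_proj hS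
  have sym0 : ∀ x y : H1, inner ℂ x y = 0 → inner ℂ y x = 0 := fun x y h => inner_eq_zero_symm.mp h
  have sym2 : ∀ x y : H2, inner ℂ x y = 0 → inner ℂ y x = 0 := fun x y h => inner_eq_zero_symm.mp h
  -- S1
  have F2 : ∀ g, S1 g = S1 (P g) := by
    intro g
    have h := h1.zero (g - P g) (hP2 g)
    rw [map_sub, sub_eq_zero] at h
    exact h
  have F2' : ∀ g, T (S1 g) (P g) := by
    intro g
    rw [F2]
    exact h1.sol _ (hP1 g)
  have F3 : ∀ u, S (ContinuousLinearMap.adjoint S1 u) 0 := by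
    intro u
    set w := ContinuousLinearMap.adjoint S1 u with hw
    have e1 : inner ℂ (w - P w) w = 0 := by
      rw [hw, ContinuousLinearMap.adjoint_inner_right, ← hw, h1.zero (w - P w) (hP2 w), inner_zero_left]
    have e2 : inner ℂ (w - P w) (P w) = 0 := sym0 _ _ (hP2 w _ (hP1 w))
    have e3 : w - P w = 0 := by
      rw [← inner_self_eq_zero (𝕜 := ℂ), inner_sub_right, e1, e2, sub_zero]
    rw [sub_eq_zero] at e3
    rw [e3]
    exact hP1 w
  have F4 : ∀ α, S (S2 (ContinuousLinearMap.adjoint S2 α)) (ContinuousLinearMap.adjoint S2 α) := by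
    intro α
    set k := ContinuousLinearMap.adjoint S2 α with hk
    obtain ⟨k', hk1, -, hk3⟩ := h2.dom k
    have e1 : inner ℂ (k - k') k = 0 := by
      rw [hk, ContinuousLinearMap.adjoint_inner_right, ← hk, h2.zero (k - k') hk3, inner_zero_left]
    have e2 : inner ℂ (k - k') k' = 0 := sym2 _ _ (hk3 _ _ hk1)
    have e3 : k - k' = 0 := by
      rw [← inner_self_eq_zero (𝕜 := ℂ), inner_sub_right, e1, e2, sub_zero]
    rw [sub_eq_zero] at e3
    rw [← e3] at hk1
    exact hk1
  refine ⟨(ContinuousLinearMap.adjoint S1).comp S1 + S2.comp (ContinuousLinearMap.adjoint S2), ?_, ?_, ?_⟩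
  · exact (c1.clm_comp (ContinuousLinearMap.adjoint S1)).add (c2.comp_clm (ContinuousLinearMap.adjoint S2))
  · intro g
    refine ⟨S1 g, ContinuousLinearMap.adjoint S2 g, P g, g - P g, ?_, F2' g, ?_, ?_, by abel⟩
    · intro v α hv
      have hα := hST v α hv
      have e1 : inner ℂ α (S2 (ContinuousLinearMap.adjoint S2 g)) = 0 := h2.orth _ α hα
      have e2 : T (v - S1 α) 0 := by
        have := ABSB_sub hT hv (h1.sol α hα)
        rwa [sub_self] at this
      have e3 := h1.orth g _ e2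
      rw [inner_sub_left, sub_eq_zero] at e3
      change inner ℂ α (ContinuousLinearMap.adjoint S1 (S1 g) + S2 (ContinuousLinearMap.adjoint S2 g)) = _
      rw [inner_add_right, e1, add_zero, ContinuousLinearMap.adjoint_inner_right, e3]
    · have := ABSB_add hS (F3 (S1 g)) (F4 g)
      rw [zero_add] at this
      exact this
    · intro h l hl
      have e1 : S (h - P h) l := by
        have := ABSB_sub hS hl (hP1 h)
        rwa [sub_zero] at this
      have e2 := h2.sol _ _ e1 (hP2 h)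
      rw [ContinuousLinearMap.adjoint_inner_right, e2]
      have e3 : inner ℂ (h - P h) (P g) = 0 := sym0 _ _ (hP2 h _ (hP1 g))
      have e4 : inner ℂ (P h) (g - P g) = 0 := hP2 g _ (hP1 h)
      have e5 : inner ℂ (h - P h) (g - P g) = inner ℂ (h - P h) g := by
        rw [inner_sub_right, e3, sub_zero]
      rw [← e5, inner_sub_left, e4, sub_zero]
  · rintro f g ⟨u, k, a, b, hi, hii, hiii, hiv, rfl⟩
    have ha : S a 0 := hST _ _ hii
    have n1 : ContinuousLinearMap.adjoint S2 a = 0 := by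
      apply ext_inner_left ℂ
      intro l
      rw [ContinuousLinearMap.adjoint_inner_right, inner_zero_right]
      exact sym0 _ _ (h2.orth l a ha)
    have n2 : S1 a = u := by
      have e1 : T (u - S1 a) 0 := by
        have := ABSB_sub hT hii (h1.sol a ha)
        rwa [sub_self] at this
      have e2 : inner ℂ (u - S1 a) u = 0 := by
        have := hi _ _ e1
        rw [inner_zero_left] at this
        exact this.symm
      have e3 : inner ℂ (u - S1 a) (S1 a) = 0 := h1.orth a _ e1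
      have e4 : u - S1 a = 0 := by
        rw [← inner_self_eq_zero (𝕜 := ℂ), inner_sub_right, e2, e3, sub_zero]
      rw [sub_eq_zero] at e4
      exact e4.symm
    have n3 : ContinuousLinearMap.adjoint S1 u = P f := by
      apply ext_inner_left ℂ
      intro h
      rw [ContinuousLinearMap.adjoint_inner_right, ← hi _ _ (F2' h)]
      have e1 : inner ℂ (P h) (f - P f) = 0 := hP2 f _ (hP1 h)
      have e2 : inner ℂ (h - P h) (P f) = 0 := sym0 _ _ (hP2 h _ (hP1 f))
      rw [inner_sub_right, sub_eq_zero] at e1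
      rw [inner_sub_left, sub_eq_zero] at e2
      rw [e1, e2]
    have hb : ∀ β, S β 0 → inner ℂ β b = 0 := by
      intro β hβ
      have := hiv _ _ hβ
      rw [inner_zero_left] at this
      exact this.symm
    have n4 : S1 b = 0 := h1.zero b hb
    have n5 : ContinuousLinearMap.adjoint S2 b = k := by
      apply ext_inner_left ℂ
      intro l
      obtain ⟨l', hl1, -, hl3⟩ := h2.dom l
      rw [ContinuousLinearMap.adjoint_inner_right, ← hiv _ _ hl1]
      have e1 : inner ℂ (l - l') k = 0 := sym2 _ _ (hl3 _ _ hiii)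
      rw [inner_sub_left, sub_eq_zero] at e1
      exact e1.symm
    have n6 : S2 k = f - P f := by
      apply h2.sol _ _ _ (hP2 f)
      have := ABSB_sub hS hiii (hP1 f)
      rwa [sub_zero] at this
    change ContinuousLinearMap.adjoint S1 (S1 (a + b)) + S2 (ContinuousLinearMap.adjoint S2 (a + b)) = f
    rw [map_add S1, n2, n4, add_zero, n3, map_add (ContinuousLinearMap.adjoint S2), n1, zero_add, n5, n6]
    abel

end

end DN
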