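import Pool.Agent.H49.DN.IBP

/-! # APR: the a priori identity (Morrey-Kohn-Hörmander) for compactly supported smooth forms

PROOF. `e = exp(-φ)` (smooth, real), `δ_j w = dd j w - w dd j φ`, `⟨u, v⟩ = ∫ u conj(v) e`.
(1) `δ_j w * e = dd j (w e)`, `conj (δ_k v) e = dbar k (conj(v) e)`.
(2) `⟨w, δ_k v⟩ = ∫ w dbar k (conj(v) e) = -⟨dbar k w, v⟩`; `⟨δ_j w, v⟩ = ∫ dd j (w e) conj(v) = -⟨w, dbar j v⟩`
(`dd j (conj v) = conj (dbar j v)`), for smooth `w`, `v`, one with compact support.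
(3) `dbar k (δ_j w) = δ_j (dbar k w) - w * dbar k (dd j φ)` (`dbar_dd_comm`).
(4) `⟨δ_j F_j, δ_k F_k⟩ = -⟨dbar k (δ_j F_j), F_k⟩ = -⟨δ_j dbar k F_j, F_k⟩ + ⟨F_j dbar k dd j φ, F_k⟩
   = ⟨dbar k F_j, dbar j F_k⟩ + ∫ φ_{j k̄} F_j conj(F_k) e`.
(5) Sum over `j, k`: `∫ |∑ δ_j F_j|² e = ∑∑ ⟨dbar k F_j, dbar j F_k⟩ + ∫ ∑∑ φ_{jk̄} F_j conj(F_k) e`, take real parts.
(6) `½ ∑∑ |dbar j F_k - dbar k F_j|² = ∑∑ |dbar k F_j|² - ∑∑ Re (dbar j F_k conj (dbar k F_j))`. Add. -/

set_option autoImplicit false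

namespace DN

open MeasureTheory Set Filter Topology ContDiff

variable {n : ℕ}

theorem APR_mul {u v : Cn n → ℂ} (hu : Test univ u) (hv : ContDiff ℝ ∞ v) :
    Test univ (fun z => u z * v z) := by
  have h := hu.mul isOpen_univ hv.contDiffOn (subset_univ _)
  have e : (fun z => u z * v z) = fun z => v z * u z := by
    funext z
    ring
  rw [e]
  exact h

theorem APR_int {f : Cn n → ℂ} (hf : Test univ f) : Integrable f volume :=
  hf.smooth.continuous.integrable_of_hasCompactSupport hf.supp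

theorem APR_da {u : Cn n → ℂ} (hu : ContDiff ℝ ∞ u) (z : Cn n) : DifferentiableAt ℝ u z :=
  (hu.differentiable (by simp)).differentiableAt

theorem APR_smoothPhi {φ : Cn n → ℝ} (hφ : ContDiff ℝ ∞ φ) : ContDiff ℝ ∞ (cx φ) :=
  Complex.ofRealCLM.contDiff.comp hφ

theorem APR_smoothConj {u : Cn n → ℂ} (hu : ContDiff ℝ ∞ u) :
    ContDiff ℝ ∞ (fun z => (starRingEnd ℂ) (u z)) :=
  Complex.conjCLE.contDiff.comp hu

/-- the weight -/
noncomputable def APR_E (φ : Cn n → ℝ) : Cn n → ℂ := cx (fun w => Real.exp (-φ w))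

theorem APR_smoothE {φ : Cn n → ℝ} (hφ : ContDiff ℝ ∞ φ) : ContDiff ℝ ∞ (APR_E φ) :=
  APR_smoothPhi (Real.contDiff_exp.comp hφ.neg)

theorem APR_conjE (φ : Cn n → ℝ) (z : Cn n) : (starRingEnd ℂ) (APR_E φ z) = APR_E φ z :=
  Complex.conj_ofReal _

theorem APR_ddE {φ : Cn n → ℝ} (hφ : ContDiff ℝ ∞ φ) (k : Fin n) (z : Cn n) :
    dd k (APR_E φ) z = -APR_E φ z * dd k (cx φ) z := by
  have hg : HasDerivAt (fun x : ℝ => Real.exp (-x)) (-Real.exp (-φ z)) (φ z) := by
    have h := (Real.hasDerivAt_exp (-φ z)).comp (φ z) (hasDerivAt_neg (φ z))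
    simpa [Function.comp_def] using h
  have h := dd_comp (g := fun x : ℝ => Real.exp (-x))
    ((hφ.differentiable (by simp)).differentiableAt (x := z)) hg.differentiableAt k
  rw [hg.deriv] at h
  unfold APR_E
  rw [h]
  unfold cx
  push_cast
  ring

theorem APR_key1 {φ : Cn n → ℝ} (hφ : ContDiff ℝ ∞ φ) {f : Cn n → ℂ}
    (hf : ContDiff ℝ ∞ f) (k : Fin n) (z : Cn n) :
    dd k (fun w => f w * APR_E φ w) z = (dd k f z - f z * dd k (cx φ) z) * APR_E φ z := by
  rw [dd_mul (APR_da hf z) (APR_da (APR_smoothE hφ) z), APR_ddE hφ]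
  ring

theorem APR_key2 {φ : Cn n → ℝ} (hφ : ContDiff ℝ ∞ φ) {f : Cn n → ℂ}
    (hf : ContDiff ℝ ∞ f) (k : Fin n) (z : Cn n) :
    dbar k (fun w => (starRingEnd ℂ) (f w) * APR_E φ w) z =
      (starRingEnd ℂ) (dd k f z - f z * dd k (cx φ) z) * APR_E φ z := by
  have h1 : (fun w => (starRingEnd ℂ) (f w) * APR_E φ w) =
      fun w => (starRingEnd ℂ) (f w * APR_E φ w) := by
    funext w
    rw [map_mul, APR_conjE]
  rw [h1, dbar_conj (APR_da (hf.mul (APR_smoothE hφ)) z), APR_key1 hφ hf, map_mul, APR_conjE]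

theorem APR_term {φ : Cn n → ℝ} (hφ : ContDiff ℝ ∞ φ) {a b : Cn n → ℂ} (ha : Test univ a)
    (hb : Test univ b) (j k : Fin n) :
    ∫ z, (dd j a z - a z * dd j (cx φ) z) *
        ((starRingEnd ℂ) (dd k b z - b z * dd k (cx φ) z) * APR_E φ z) =
      (∫ z, dbar k a z * (starRingEnd ℂ) (dbar j b z) * APR_E φ z) +
        ∫ z, dd j (dbar k (cx φ)) z * a z * (starRingEnd ℂ) (b z) * APR_E φ z := by
  have hΦ := APR_smoothPhi hφ
  have hE := APR_smoothE hφ
  have hbE : Test univ (fun z => (starRingEnd ℂ) (b z) * APR_E φ z) := APR_mul hb.conj hE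
  have hddΦ := contDiff_dd hΦ j
  have hdda := contDiff_dd ha.smooth j
  have hu : ContDiff ℝ ∞ (fun z => dd j a z - a z * dd j (cx φ) z) :=
    hdda.sub (ha.smooth.mul hddΦ)
  have hdbΦ : ContDiff ℝ ∞ (dd j (dbar k (cx φ))) := contDiff_dd (contDiff_dbar hΦ k) j
  have hdba : Test univ (dbar k a) := ha.dbar k
  have hone : (1 : WithTop ℕ∞) ≤ ∞ := by exact_mod_cast le_top
  have htwo : (2 : WithTop ℕ∞) ≤ ∞ := WithTop.coe_le_coe.2 le_top
  -- first integration by parts
  have e1 : ∫ z, (dd j a z - a z * dd j (cx φ) z) *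
        ((starRingEnd ℂ) (dd k b z - b z * dd k (cx φ) z) * APR_E φ z) =
      - ∫ z, dbar k (fun z => dd j a z - a z * dd j (cx φ) z) z *
        ((starRingEnd ℂ) (b z) * APR_E φ z) := by
    rw [← ibp_dbar (hu.of_le hone) (hbE.smooth.of_le hone) (Or.inr hbE.supp) k]
    congr 1
    funext z
    rw [APR_key2 hφ hb.smooth]
  -- the commutator
  have e2 : ∀ z, dbar k (fun z => dd j a z - a z * dd j (cx φ) z) z =
      (dd j (dbar k a) z - dbar k a z * dd j (cx φ) z) -
        dd j (dbar k (cx φ)) z * a z := by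
    intro z
    have s1 := dbar_sub (APR_da hdda z) (APR_da (ha.smooth.mul hddΦ) z) k
    have s2 := dbar_mul (APR_da ha.smooth z) (APR_da hddΦ z) k
    rw [s1, s2, dbar_dd_comm ((ha.smooth.of_le htwo).contDiffAt) j k,
      dbar_dd_comm ((hΦ.of_le htwo).contDiffAt) j k]
    ring
  -- second integration by parts
  have e3 : ∫ z, (dd j (dbar k a) z - dbar k a z * dd j (cx φ) z) *
        APR_E φ z * (starRingEnd ℂ) (b z) =
      - ∫ z, dbar k a z * APR_E φ z * (starRingEnd ℂ) (dbar j b z) := by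
    have h1 := ibp_dd (u := fun z => dbar k a z * APR_E φ z)
      (v := fun z => (starRingEnd ℂ) (b z))
      ((hdba.smooth.mul hE).of_le hone) (hb.conj.smooth.of_le hone) (Or.inr hb.conj.supp) j
    have h2 : ∫ z, dbar k a z * APR_E φ z * dd j (fun z => (starRingEnd ℂ) (b z)) z =
        ∫ z, dbar k a z * APR_E φ z * (starRingEnd ℂ) (dbar j b z) := by
      apply integral_congr_ae
      filter_upwards with z
      rw [dd_conj (APR_da hb.smooth z)]
    rw [h2] at h1
    rw [h1, neg_neg]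
    apply integral_congr_ae
    filter_upwards with z
    rw [APR_key1 hφ hdba.smooth]
  -- integrability
  have i1 : Integrable (fun z => (dd j (dbar k a) z - dbar k a z * dd j (cx φ) z) *
        APR_E φ z * (starRingEnd ℂ) (b z)) volume := by
    have : Test univ (fun z => (starRingEnd ℂ) (b z) *
        ((dd j (dbar k a) z - dbar k a z * dd j (cx φ) z) * APR_E φ z)) :=
      APR_mul hb.conj (((contDiff_dd hdba.smooth j).sub (hdba.smooth.mul hddΦ)).mul hE)
    refine (APR_int this).congr ?_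
    filter_upwards with z
    ring
  have i2 : Integrable (fun z => dd j (dbar k (cx φ)) z * a z *
        (starRingEnd ℂ) (b z) * APR_E φ z) volume := by
    have : Test univ (fun z => (starRingEnd ℂ) (b z) *
        (dd j (dbar k (cx φ)) z * a z * APR_E φ z)) :=
      APR_mul hb.conj ((hdbΦ.mul ha.smooth).mul hE)
    refine (APR_int this).congr ?_
    filter_upwards with z
    ring
  have e4 : ∫ z, dbar k (fun z => dd j a z - a z * dd j (cx φ) z) z *
        ((starRingEnd ℂ) (b z) * APR_E φ z) =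
      (∫ z, (dd j (dbar k a) z - dbar k a z * dd j (cx φ) z) *
        APR_E φ z * (starRingEnd ℂ) (b z)) -
      ∫ z, dd j (dbar k (cx φ)) z * a z * (starRingEnd ℂ) (b z) * APR_E φ z := by
    rw [← integral_sub i1 i2]
    apply integral_congr_ae
    filter_upwards with z
    rw [e2]
    ring
  rw [e1, e4, e3]
  have e5 : ∫ z, dbar k a z * APR_E φ z * (starRingEnd ℂ) (dbar j b z) =
      ∫ z, dbar k a z * (starRingEnd ℂ) (dbar j b z) * APR_E φ z := by
    apply integral_congr_ae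
    filter_upwards with z
    ring
  rw [e5]
  ring

theorem APR_normint {f : Cn n → ℂ} {φ : Cn n → ℝ} (hφ : ContDiff ℝ ∞ φ) (hf : Test univ f) :
    Integrable (fun z => ‖f z‖ ^ 2 * Real.exp (-φ z)) volume := by
  apply Continuous.integrable_of_hasCompactSupport
  · exact (hf.smooth.continuous.norm.pow 2).mul (Real.continuous_exp.comp hφ.continuous.neg)
  · apply HasCompactSupport.intro hf.supp
    intro z hz
    have := image_eq_zero_of_notMem_tsupport hz
    simp [this]

theorem apriori {F : Fin n → Cn n → ℂ} {φ : Cn n → ℝ} (hφ : ContDiff ℝ ∞ φ)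
    (hF : ∀ j, ContDiff ℝ ∞ (F j)) (hs : ∀ j, HasCompactSupport (F j)) :
    (∫ z, ‖∑ j, (dd j (F j) z - F j z * dd j (cx φ) z)‖ ^ 2 * Real.exp (-φ z)) +
      1 / 2 * ∑ j, ∑ k, ∫ z, ‖dbar j (F k) z - dbar k (F j) z‖ ^ 2 * Real.exp (-φ z) =
    (∑ j, ∑ k, ∫ z, ‖dbar k (F j) z‖ ^ 2 * Real.exp (-φ z)) +
      ∫ z, levi φ z (fun j => F j z) * Real.exp (-φ z) := by
  have hα : ∀ j, Test univ (F j) := fun j => ⟨hF j, hs j, subset_univ _⟩
  have hΦ := APR_smoothPhi hφ
  have hE := APR_smoothE hφ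
  have hEr : ∀ z, APR_E φ z = ((Real.exp (-φ z) : ℝ) : ℂ) := fun z => rfl
  -- the three families of integrable functions
  have i1 : ∀ j k, Integrable (fun z => (dd j (F j) z - F j z * dd j (cx φ) z) *
        ((starRingEnd ℂ) (dd k (F k) z - F k z * dd k (cx φ) z) * APR_E φ z)) volume := by
    intro j k
    have h1 : ContDiff ℝ ∞ (fun z => dd k (F k) z - F k z * dd k (cx φ) z) :=
      (contDiff_dd (hα k).smooth k).sub ((hα k).smooth.mul (contDiff_dd hΦ k))
    have h2 := APR_smoothConj h1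
    have h3 := APR_mul ((hα j).dd j) (h2.mul hE)
    have h4 := APR_mul (hα j) ((contDiff_dd hΦ j).mul (h2.mul hE))
    refine ((APR_int h3).sub (APR_int h4)).congr ?_
    filter_upwards with z
    simp only [Pi.sub_apply]
    ring
  have i2 : ∀ j k, Integrable (fun z => dbar k (F j) z * (starRingEnd ℂ) (dbar j (F k) z) *
      APR_E φ z) volume := by
    intro j k
    have h2 := APR_smoothConj (contDiff_dbar (hα k).smooth j)
    refine (APR_int (APR_mul ((hα j).dbar k) (h2.mul hE))).congr ?_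
    filter_upwards with z
    ring
  have i3 : ∀ j k, Integrable (fun z => dd j (dbar k (cx φ)) z * F j z *
        (starRingEnd ℂ) (F k z) * APR_E φ z) volume := by
    intro j k
    have h2 := APR_smoothConj (hα k).smooth
    refine (APR_int (APR_mul (hα j)
      (((contDiff_dd (contDiff_dbar hΦ k) j).mul h2).mul hE))).congr ?_
    filter_upwards with z
    ring
  -- the complex identity
  have A : ((∫ z, ‖∑ j, (dd j (F j) z - F j z * dd j (cx φ) z)‖ ^ 2 * Real.exp (-φ z) : ℝ) : ℂ) =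
      ∑ j, ∑ k, ∫ z, (dd j (F j) z - F j z * dd j (cx φ) z) *
        ((starRingEnd ℂ) (dd k (F k) z - F k z * dd k (cx φ) z) * APR_E φ z) := by
    rw [← integral_complex_ofReal]
    simp_rw [← integral_finsetSum _ (fun k _ => i1 _ k)]
    rw [← integral_finsetSum _ (fun j _ => integrable_finsetSum _ (fun k _ => i1 j k))]
    apply integral_congr_ae
    filter_upwards with z
    have h1 : ((‖∑ j, (dd j (F j) z - F j z * dd j (cx φ) z)‖ ^ 2 * Real.exp (-φ z) : ℝ) : ℂ) =
        (∑ j, (dd j (F j) z - F j z * dd j (cx φ) z)) *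
          (starRingEnd ℂ) (∑ j, (dd j (F j) z - F j z * dd j (cx φ) z)) * APR_E φ z := by
      rw [hEr, Complex.mul_conj, Complex.normSq_eq_norm_sq]
      push_cast
      ring
    rw [h1, map_sum, Finset.sum_mul_sum, Finset.sum_mul]
    apply Finset.sum_congr rfl
    intro j _
    rw [Finset.sum_mul]
    apply Finset.sum_congr rfl
    intro k _
    ring
  have B : (∑ j, ∑ k, ∫ z, dd j (dbar k (cx φ)) z * F j z *
        (starRingEnd ℂ) (F k z) * APR_E φ z).re =
      ∫ z, levi φ z (fun j => F j z) * Real.exp (-φ z) := by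
    simp_rw [← integral_finsetSum _ (fun k _ => i3 _ k)]
    rw [← integral_finsetSum _ (fun j _ => integrable_finsetSum _ (fun k _ => i3 j k))]
    have h0 := integral_re (𝕜 := ℂ) (integrable_finsetSum Finset.univ
      (fun j _ => integrable_finsetSum Finset.univ (fun k _ => i3 j k)))
    refine Eq.trans h0.symm ?_
    apply integral_congr_ae
    filter_upwards with z
    unfold levi
    rw [← Complex.re_mul_ofReal, Finset.sum_mul]
    show (_ : ℂ).re = _
    congr 1
    apply Finset.sum_congr rfl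
    intro j _
    rw [Finset.sum_mul]
    apply Finset.sum_congr rfl
    intro k _
    rw [hEr]
  have C : ((∫ z, ‖∑ j, (dd j (F j) z - F j z * dd j (cx φ) z)‖ ^ 2 * Real.exp (-φ z) : ℝ) : ℂ) =
      (∑ j, ∑ k, ∫ z, dbar k (F j) z * (starRingEnd ℂ) (dbar j (F k) z) * APR_E φ z) +
      ∑ j, ∑ k, ∫ z, dd j (dbar k (cx φ)) z * F j z * (starRingEnd ℂ) (F k z) * APR_E φ z := by
    rw [A, ← Finset.sum_add_distrib]
    apply Finset.sum_congr rfl
    intro j _
    rw [← Finset.sum_add_distrib]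
    apply Finset.sum_congr rfl
    intro k _
    exact APR_term hφ (hα j) (hα k) j k
  have C' := congrArg Complex.re C
  rw [Complex.add_re, Complex.ofReal_re, B, Complex.re_sum] at C'
  simp_rw [Complex.re_sum] at C'
  -- the mixed terms
  have D : ∀ j k, (1 / 2) * ∫ z, ‖dbar j (F k) z - dbar k (F j) z‖ ^ 2 * Real.exp (-φ z) =
      1 / 2 * (∫ z, ‖dbar j (F k) z‖ ^ 2 * Real.exp (-φ z)) +
      1 / 2 * (∫ z, ‖dbar k (F j) z‖ ^ 2 * Real.exp (-φ z)) -
      (∫ z, dbar k (F j) z * (starRingEnd ℂ) (dbar j (F k) z) * APR_E φ z).re := by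
    intro j k
    have h0 : (∫ z, dbar k (F j) z * (starRingEnd ℂ) (dbar j (F k) z) * APR_E φ z).re =
        ∫ z, (dbar k (F j) z * (starRingEnd ℂ) (dbar j (F k) z) * APR_E φ z).re :=
      (integral_re (𝕜 := ℂ) (i2 j k)).symm
    have n1 := APR_normint hφ ((hα k).dbar j)
    have n2 := APR_normint hφ ((hα j).dbar k)
    have n3 : Integrable (fun z => (dbar k (F j) z * (starRingEnd ℂ) (dbar j (F k) z) *
      APR_E φ z).re) volume := (i2 j k).re
    rw [h0, ← integral_const_mul, ← integral_const_mul, ← integral_const_mul,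
      ← integral_add (n1.const_mul _) (n2.const_mul _)]
    refine Eq.trans ?_ (integral_sub ((n1.const_mul _).add (n2.const_mul _)) n3)
    apply integral_congr_ae
    filter_upwards with z
    rw [hEr, Complex.re_mul_ofReal]
    set a := dbar j (F k) z
    set b := dbar k (F j) z
    have h3 : ‖a - b‖ ^ 2 = ‖a‖ ^ 2 + ‖b‖ ^ 2 - 2 * (b * (starRingEnd ℂ) a).re := by
      rw [← Complex.normSq_eq_norm_sq, ← Complex.normSq_eq_norm_sq, ← Complex.normSq_eq_norm_sq,
        Complex.normSq_sub]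
      congr 2
      rw [← Complex.conj_re, map_mul, Complex.conj_conj, mul_comm]
    rw [h3]
    ring
  have D' : 1 / 2 * ∑ j, ∑ k, ∫ z, ‖dbar j (F k) z - dbar k (F j) z‖ ^ 2 * Real.exp (-φ z) =
      (∑ j, ∑ k, ∫ z, ‖dbar k (F j) z‖ ^ 2 * Real.exp (-φ z)) -
      ∑ j, ∑ k, (∫ z, dbar k (F j) z * (starRingEnd ℂ) (dbar j (F k) z) * APR_E φ z).re := by
    have h1 : 1 / 2 * ∑ j, ∑ k, ∫ z, ‖dbar j (F k) z - dbar k (F j) z‖ ^ 2 * Real.exp (-φ z) =
        ∑ j, ∑ k, (1 / 2 * (∫ z, ‖dbar j (F k) z‖ ^ 2 * Real.exp (-φ z)) +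
      1 / 2 * (∫ z, ‖dbar k (F j) z‖ ^ 2 * Real.exp (-φ z)) -
      (∫ z, dbar k (F j) z * (starRingEnd ℂ) (dbar j (F k) z) * APR_E φ z).re) := by
      rw [Finset.mul_sum]
      apply Finset.sum_congr rfl
      intro j _
      rw [Finset.mul_sum]
      apply Finset.sum_congr rfl
      intro k _
      exact D j k
    rw [h1]
    simp_rw [Finset.sum_sub_distrib, Finset.sum_add_distrib, ← Finset.mul_sum]
    have h2 : ∑ j, ∑ k, (∫ z, ‖dbar j (F k) z‖ ^ 2 * Real.exp (-φ z)) =
        ∑ j, ∑ k, (∫ z, ‖dbar k (F j) z‖ ^ 2 * Real.exp (-φ z)) := Finset.sum_comm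
    rw [h2]
    ring
  rw [D', C']
  ring

end DN
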