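import Pool.Agent.H49.DN.WAP

/-! # BASA: the basic estimate with a cut off

PROOF. `η = η m`, real smooth, compact support `T = tsupport η ⊆ D`; on `T` the continuous functions `φ, l` are
bounded, so `η F_j`, ... are in `L²(ℂ^n)` and vanish off `T` (they are `0` off `D` because `η = 0` there).
(1) Weak divergence of `η F`: for a test function `θ` on `univ`, `τ = η exp(φ - l) θ` is a test function on `D` and
`dd j τ = exp(φ - l) (η dd j θ + θ dd j η + η θ dd j (φ - l))`. Insert `τ` in `h1`: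
`∑ ∫ η F_j dd j θ = -∫ W' θ`, `W' = ∑ F_j dd j η + η ∑ F_j (dd j φ - dd j l) - η exp(l) W`, so
`W' - ∑ (η F_j) dd j φ = ∑ F_j dd j η - η ∑ F_j dd j l - η exp(l) W`.
(2) Weak curl of `η F`: insert `η θ` in `h2`: `G'_{jk} = η G_{jk} + F_k dbar j η - F_j dbar k η`.
(3) Replace `φ` by the globally smooth `φ' = χ φ`, `χ` a smooth cut off, `= 1` near `T ∪ ⋃ tsupport (θ j k)`, with compact
support in `D` (`exists_contDiff_tsupport_subset` or similar). `weak_apriori` for `η F, W', G', φ'` gives `R ≥ 0` and the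
inequality with `R`.
(4) `R ≤ Q`: `|W' - ∑ η F_j dd j φ|² ≤ 2 η² |∑ F_j dd j l|² + 2 |∑ F_j dd j η - η exp(l) W|²`,
`|∑ F_j dd j l|² ≤ nsq F * nsq (dd l)` (Cauchy-Schwarz), `levi φ z (η F) = η² levi φ z F ≥ η² (M + 2 nsq (dd l)) nsq F`
(`Weights.levi`). -/

set_option autoImplicit false

namespace DN

open MeasureTheory Set Filter Topology ContDiff

variable {n : ℕ}

private theorem BASA_set {D T : Set (Cn n)} (hTD : T ⊆ D) {E : Type*} [NormedAddCommGroup E]
    [NormedSpace ℝ E] {f : Cn n → E} (hf : ∀ z, z ∉ T → f z = 0) :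
    ∫ z in D, f z = ∫ z, f z :=
  setIntegral_eq_integral_of_forall_compl_eq_zero fun z hz => hf z fun h => hz (hTD h)

private theorem BASA_mem {D : Set (Cn n)} {u : Cn n → ℂ} {wt : Cn n → ℝ}
    (hu : AEStronglyMeasurable u (volume.restrict D)) (hω : ContinuousOn wt D)
    (hi : IntegrableOn (fun z => ‖u z‖ ^ 2 * Real.exp (wt z)) D) {g : Cn n → ℂ} (hg : Continuous g)
    {T : Set (Cn n)} (hT : IsCompact T) (hTD : T ⊆ D) (hgT : ∀ z, z ∉ T → g z = 0) :
    MemLp (fun z => u z * g z) 2 volume := by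
  have hTm : MeasurableSet T := hT.isClosed.measurableSet
  have e1 : (fun z => u z * g z) = T.indicator (fun z => u z * g z) := by
    funext z
    by_cases hz : z ∈ T
    · rw [indicator_of_mem hz]
    · rw [indicator_of_notMem hz, hgT z hz, mul_zero]
  have hm : AEStronglyMeasurable (fun z => u z * g z) volume := by
    rw [e1, aestronglyMeasurable_indicator_iff hTm]
    exact (hu.mono_measure (Measure.restrict_mono hTD le_rfl)).mul
      hg.aestronglyMeasurable.restrict
  rw [memLp_two_iff_integrable_sq_norm hm]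
  have hsup : Function.support (fun z => ‖u z * g z‖ ^ 2) ⊆ T := by
    intro z hz
    by_contra h
    apply hz
    simp only
    rw [hgT z h]
    simp
  rw [← integrableOn_iff_integrable_of_support_subset hsup]
  have hc : ContinuousOn (fun z => ‖g z‖ ^ 2 * Real.exp (-wt z)) T :=
    (hg.norm.pow 2).continuousOn.mul (Real.continuous_exp.comp_continuousOn (hω.mono hTD).neg)
  obtain ⟨C, hC⟩ := hT.exists_bound_of_continuousOn hc
  refine ((hi.mono_set hTD).const_mul C).mono' ?_ ?_
  · exact (hm.norm.pow 2).restrict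
  · refine (ae_restrict_iff' hTm).2 (Eventually.of_forall fun z hz => ?_)
    have h1 := hC z hz
    rw [Real.norm_of_nonneg (by positivity)] at h1
    rw [Real.norm_of_nonneg (by positivity)]
    have h2 : ‖u z * g z‖ ^ 2 = ‖g z‖ ^ 2 * Real.exp (-wt z) * (‖u z‖ ^ 2 * Real.exp (wt z)) := by
      rw [norm_mul, mul_pow]
      have h3 : Real.exp (-wt z) * Real.exp (wt z) = 1 := by
        rw [← Real.exp_add, neg_add_cancel, Real.exp_zero]
      linear_combination (-(‖u z‖ ^ 2 * ‖g z‖ ^ 2)) * h3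
    rw [h2]
    exact mul_le_mul_of_nonneg_right h1 (by positivity)

private theorem BASA_mem' {D : Set (Cn n)} {u : Cn n → ℂ} {wt : Cn n → ℝ}
    (hu : AEStronglyMeasurable u (volume.restrict D)) (hω : ContinuousOn wt D)
    (hi : IntegrableOn (fun z => ‖u z‖ ^ 2 * Real.exp (wt z)) D) {g : Cn n → ℂ} (hg : Continuous g)
    {T : Set (Cn n)} (hT : IsCompact T) (hTD : T ⊆ D) (hgT : ∀ z, z ∉ T → g z = 0) :
    MemLp (fun z => g z * u z) 2 volume := by
  have h := BASA_mem hu hω hi hg hT hTD hgT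
  have e : (fun z => g z * u z) = fun z => u z * g z := by
    funext z
    ring
  rw [e]
  exact h

private theorem BASA_sqint {w : Cn n → ℂ} (hw : MemLp w 2 volume) {T : Set (Cn n)}
    (hT : IsCompact T) (hw0 : ∀ z, z ∉ T → w z = 0) {φ : Cn n → ℝ} (hφ : Continuous φ) :
    Integrable (fun z => ‖w z‖ ^ 2 * Real.exp (-φ z)) volume := by
  have hg : Continuous fun z : Cn n => ((Real.exp (-φ z / 2) : ℝ) : ℂ) := by fun_prop
  have h1 := (WAP_mul (WAP_const hw) hT hg (fun _ => hw0) hw0).lim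
  rw [memLp_two_iff_integrable_sq_norm h1.1] at h1
  refine h1.congr (Eventually.of_forall fun z => ?_)
  simp only
  rw [norm_mul, mul_pow, Complex.norm_real, Real.norm_of_nonneg (Real.exp_pos _).le, sq,
    ← Real.exp_add, mul_comm]
  congr 2
  ring

private theorem BASA_levi_int {f : Fin n → Cn n → ℂ} {φ : Cn n → ℝ} {K : Set (Cn n)}
    (hK : IsCompact K) (hφ : ContDiff ℝ ∞ φ) (hf : ∀ j, MemLp (f j) 2 volume)
    (hf0 : ∀ j z, z ∉ K → f j z = 0) :
    Integrable (fun z => levi φ z (fun j => f j z) * Real.exp (-φ z)) volume := by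
  have hcx : ContDiff ℝ ∞ (cx φ) := Complex.ofRealCLM.contDiff.comp hφ
  have hL : ∀ j k : Fin n, Continuous fun z : Cn n =>
      ((Real.exp (-φ z) : ℝ) : ℂ) * dd j (dbar k (cx φ)) z := fun j k =>
    (Complex.continuous_ofReal.comp (Real.continuous_exp.comp hφ.continuous.neg)).mul
      (contDiff_dd (contDiff_dbar hcx k) j).continuous
  have hint : ∀ j k : Fin n, Integrable (fun z => ((Real.exp (-φ z) : ℝ) *
      dd j (dbar k (cx φ)) z) * f j z * (starRingEnd ℂ) (f k z)) volume := by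
    intro j k
    have h1 := (WAP_mul (WAP_const (hf j)) hK (hL j k) (fun _ => hf0 j) (hf0 j)).lim
    have h2 : MemLp (fun z => (starRingEnd ℂ) (f k z)) 2 volume := (hf k).star
    exact h1.integrable_mul h2
  have hI : Integrable (fun z => ∑ j, ∑ k, ((Real.exp (-φ z) : ℝ) *
        dd j (dbar k (cx φ)) z) * f j z * (starRingEnd ℂ) (f k z)) volume :=
    integrable_finsetSum _ fun j _ => integrable_finsetSum _ fun k _ => hint j k
  refine hI.re.congr (Eventually.of_forall fun z => ?_)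
  simp only [RCLike.re_eq_complex_re]
  have h5 : ∑ j, ∑ k, ((Real.exp (-φ z) : ℝ) * dd j (dbar k (cx φ)) z) * f j z *
      (starRingEnd ℂ) (f k z) = ((Real.exp (-φ z) : ℝ) : ℂ) * ∑ j, ∑ k,
        dd j (dbar k (cx φ)) z * f j z * (starRingEnd ℂ) (f k z) := by
    rw [Finset.mul_sum]
    refine Finset.sum_congr rfl fun j _ => ?_
    rw [Finset.mul_sum]
    refine Finset.sum_congr rfl fun k _ => ?_
    ring
  rw [h5, Complex.re_ofReal_mul, levi, mul_comm]

private theorem BASA_cs (a b : Fin n → ℂ) : ‖∑ j, a j * b j‖ ^ 2 ≤ nsq a * nsq b := by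
  have h1 : ‖∑ j, a j * b j‖ ≤ ∑ j, ‖a j‖ * ‖b j‖ := by
    refine (norm_sum_le _ _).trans (le_of_eq ?_)
    exact Finset.sum_congr rfl fun j _ => norm_mul _ _
  have h2 : ‖∑ j, a j * b j‖ ^ 2 ≤ (∑ j, ‖a j‖ * ‖b j‖) ^ 2 :=
    pow_le_pow_left₀ (norm_nonneg _) h1 2
  refine h2.trans ?_
  unfold nsq
  exact Finset.sum_mul_sq_le_sq_mul_sq _ _ _

private theorem BASA_levi_smul (φ : Cn n → ℝ) (z : Cn n) (t : ℝ) (a : Fin n → ℂ) :
    levi φ z (fun j => (t : ℂ) * a j) = t ^ 2 * levi φ z a := by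
  unfold levi
  rw [← Complex.re_ofReal_mul]
  congr 1
  rw [Finset.mul_sum]
  refine Finset.sum_congr rfl fun j _ => ?_
  rw [Finset.mul_sum]
  refine Finset.sum_congr rfl fun k _ => ?_
  rw [map_mul, Complex.conj_ofReal]
  push_cast
  ring

private theorem BASA_extend {D T : Set (Cn n)} (hD : IsOpen D) (hT : IsCompact T) (hTD : T ⊆ D)
    {φ : Cn n → ℝ} (hφ : ContDiffOn ℝ ∞ φ D) :
    ∃ φ' : Cn n → ℝ, ContDiff ℝ ∞ φ' ∧ ∀ z ∈ T, φ' =ᶠ[𝓝 z] φ := by
  obtain ⟨L, hL, hTL, hLD⟩ := exists_compact_between hT hD hTD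
  obtain ⟨χ, h1, h2, _⟩ := exists_contMDiffMap_one_nhds_of_subset_interior
    (n := (⊤ : ℕ∞)) (modelWithCornersSelf ℝ (Cn n)) hT.isClosed hTL
  have hχ : ContDiff ℝ ∞ (χ : Cn n → ℝ) := χ.contMDiff.contDiff
  refine ⟨fun z => χ z * φ z, ?_, ?_⟩
  · rw [contDiff_iff_contDiffAt]
    intro z
    by_cases hz : z ∈ L
    · exact hχ.contDiffAt.mul (hφ.contDiffAt (hD.mem_nhds (hLD hz)))
    · have h3 : (fun z => χ z * φ z) =ᶠ[𝓝 z] fun _ => 0 := by
        filter_upwards [hL.isClosed.isOpen_compl.mem_nhds hz] with w hw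
        rw [h2 w hw, zero_mul]
      exact contDiffAt_const.congr_of_eventuallyEq h3
  · intro z hz
    have h3 : ∀ᶠ w in 𝓝 z, χ w = 1 := h1.filter_mono (nhds_le_nhdsSet hz)
    filter_upwards [h3] with w hw
    rw [hw, one_mul]

private theorem BASA_core {D K : Set (Cn n)} {M : ℝ} {p : Cn n} {φ l : Cn n → ℝ}
    {η : ℕ → Cn n → ℝ} (hw : Weights D K M p φ l η) {F : Fin n → Cn n → ℂ} {W : Cn n → ℂ}
    {Gf : Fin n → Fin n → Cn n → ℂ}
    (hFm : ∀ j, AEStronglyMeasurable (F j) (volume.restrict D))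
    (hWm : AEStronglyMeasurable W (volume.restrict D))
    (hGm : ∀ j k, AEStronglyMeasurable (Gf j k) (volume.restrict D))
    (hF : IntegrableOn (fun z => nsq (fun j => F j z) * Real.exp (l z - φ z)) D)
    (hW : IntegrableOn (fun z => ‖W z‖ ^ 2 * Real.exp (2 * l z - φ z)) D)
    (hG : ∀ j k, IntegrableOn (fun z => ‖Gf j k z‖ ^ 2 * Real.exp (-φ z)) D)
    (h1 : ∀ θ, Test D θ → ∫ z in D, (∑ j, F j z * dd j θ z) * (Real.exp (l z - φ z) : ℂ) =
      ∫ z in D, W z * θ z * (Real.exp (2 * l z - φ z) : ℂ))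
    (h2 : ∀ θ, Test D θ → ∀ j k,
      ∫ z in D, (F k z * dbar j θ z - F j z * dbar k θ z) = -∫ z in D, Gf j k z * θ z) (m : ℕ)
    {Q : ℝ} (hQ : Q = 2 * (∫ z in D, ‖(∑ j, F j z * dd j (cx (η m)) z) -
          (η m z : ℂ) * (Real.exp (l z) : ℂ) * W z‖ ^ 2 * Real.exp (-φ z)) +
        1 / 2 * (∑ j, ∑ k, ∫ z in D, ‖(η m z : ℂ) * Gf j k z + F k z * dbar j (cx (η m)) z -
          F j z * dbar k (cx (η m)) z‖ ^ 2 * Real.exp (-φ z)) -
        M * ∫ z in D, η m z ^ 2 * nsq (fun j => F j z) * Real.exp (-φ z))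
    {φ' l' : Cn n → ℝ} (hφ' : ContDiff ℝ ∞ φ') (hl' : ContDiff ℝ ∞ l')
    (eφ : ∀ z ∈ tsupport (η m), φ' =ᶠ[𝓝 z] φ) (el : ∀ z ∈ tsupport (η m), l' =ᶠ[𝓝 z] l) :
    0 ≤ Q ∧ ∀ θ : Fin n → Fin n → Cn n → ℂ, (∀ j k, Test univ (θ j k)) →
      ‖∑ j, ∑ k, ∫ z, (η m z : ℂ) * F j z * dbar k (θ j k) z‖ ^ 2 ≤
        Q * ∑ j, ∑ k, ∫ z, ‖θ j k z‖ ^ 2 * Real.exp (φ' z) := by
  set T : Set (Cn n) := tsupport (η m) with hTdef
  have hT : IsCompact T := hw.esupp m
  have hTD : T ⊆ D := hw.esub m
  set e : Cn n → ℂ := cx (η m) with hedef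
  have he : ContDiff ℝ ∞ e := APR_smoothPhi (hw.esmooth m)
  have hcφ : ContDiff ℝ ∞ (cx φ') := APR_smoothPhi hφ'
  have hcl : ContDiff ℝ ∞ (cx l') := APR_smoothPhi hl'
  have e0 : ∀ z, z ∉ T → e z = 0 := by
    intro z hz
    show ((η m z : ℝ) : ℂ) = 0
    rw [image_eq_zero_of_notMem_tsupport hz, Complex.ofReal_zero]
  have eev : ∀ z, z ∉ T → e =ᶠ[𝓝 z] fun _ => 0 := by
    intro z hz
    filter_upwards [(isClosed_tsupport (η m)).isOpen_compl.mem_nhds hz] with w hw'
    exact e0 w hw'
  have de0 : ∀ j z, z ∉ T → dd j e z = 0 := fun j z hz => by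
    rw [dd_congr (eev z hz) j, dd_const]
  have be0 : ∀ j z, z ∉ T → dbar j e z = 0 := fun j z hz => by
    rw [dbar_congr (eev z hz) j, dbar_const]
  have cφ : ContinuousOn φ D := hw.smooth.continuousOn
  have cl : ContinuousOn l D := hw.smoothl.continuousOn
  have cde : ∀ j, Continuous (dd j e) := fun j => (contDiff_dd he j).continuous
  have cbe : ∀ j, Continuous (dbar j e) := fun j => (contDiff_dbar he j).continuous
  have cdφ : ∀ j, Continuous (dd j (cx φ')) := fun j => (contDiff_dd hcφ j).continuous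
  have cdl : ∀ j, Continuous (dd j (cx l')) := fun j => (contDiff_dd hcl j).continuous
  have cexpl : Continuous fun z => ((Real.exp (l' z) : ℝ) : ℂ) :=
    Complex.continuous_ofReal.comp (Real.continuous_exp.comp hl'.continuous)
  -- integrability of the components
  have hFj : ∀ j, IntegrableOn (fun z => ‖F j z‖ ^ 2 * Real.exp (l z - φ z)) D := by
    intro j
    refine hF.mono' ?_ ?_
    · exact ((hFm j).norm.pow 2).mul
        ((Real.continuous_exp.comp_continuousOn (cl.sub cφ)).aestronglyMeasurable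
          hw.isOpen.measurableSet)
    · refine Eventually.of_forall fun z => ?_
      rw [Real.norm_of_nonneg (by positivity)]
      refine mul_le_mul_of_nonneg_right ?_ (Real.exp_pos _).le
      unfold nsq
      exact Finset.single_le_sum (f := fun i => ‖F i z‖ ^ 2) (fun i _ => by positivity)
        (Finset.mem_univ j)
  have mF : ∀ j {g : Cn n → ℂ}, Continuous g → (∀ z, z ∉ T → g z = 0) →
      MemLp (fun z => F j z * g z) 2 volume := fun j g hg hg0 =>
    BASA_mem (hFm j) (cl.sub cφ) (hFj j) hg hT hTD hg0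
  have mF' : ∀ j {g : Cn n → ℂ}, Continuous g → (∀ z, z ∉ T → g z = 0) →
      MemLp (fun z => g z * F j z) 2 volume := fun j g hg hg0 =>
    BASA_mem' (hFm j) (cl.sub cφ) (hFj j) hg hT hTD hg0
  have mW' : ∀ {g : Cn n → ℂ}, Continuous g → (∀ z, z ∉ T → g z = 0) →
      MemLp (fun z => g z * W z) 2 volume := fun {g} hg hg0 =>
    BASA_mem' hWm ((continuousOn_const.mul cl).sub cφ) hW hg hT hTD hg0
  have mG' : ∀ j k {g : Cn n → ℂ}, Continuous g → (∀ z, z ∉ T → g z = 0) →
      MemLp (fun z => g z * Gf j k z) 2 volume := fun j k g hg hg0 =>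
    BASA_mem' (hGm j k) cφ.neg (hG j k) hg hT hTD hg0
  -- the cut off objects
  set a : Fin n → Cn n → ℂ := fun j z => dd j e z + e z * (dd j (cx φ') z - dd j (cx l') z)
    with ha
  have ca : ∀ j, Continuous (a j) := fun j =>
    (cde j).add (he.continuous.mul ((cdφ j).sub (cdl j)))
  have a0 : ∀ j z, z ∉ T → a j z = 0 := by
    intro j z hz
    simp only [ha]
    rw [de0 j z hz, e0 z hz]
    ring
  set F' : Fin n → Cn n → ℂ := fun j z => e z * F j z with hF'
  set Y : Cn n → ℂ := fun z => e z * ((Real.exp (l' z) : ℝ) : ℂ) * W z with hY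
  set W' : Cn n → ℂ := fun z => (∑ j, F j z * a j z) - Y z with hW'
  set G' : Fin n → Fin n → Cn n → ℂ := fun j k z =>
    e z * Gf j k z + F k z * dbar j e z - F j z * dbar k e z with hG'
  have mF1 : ∀ j, MemLp (F' j) 2 volume := fun j => mF' j he.continuous e0
  have F0 : ∀ j z, z ∉ T → F' j z = 0 := fun j z hz => by
    simp only [hF']
    rw [e0 z hz, zero_mul]
  have mY : MemLp Y 2 volume := mW' (g := fun z => e z * ((Real.exp (l' z) : ℝ) : ℂ))
    (he.continuous.mul cexpl) fun z hz => by rw [e0 z hz, zero_mul]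
  have mFa : MemLp (fun z => ∑ j, F j z * a j z) 2 volume := by
    have := memLp_finsetSum (μ := volume) (p := 2) Finset.univ
      (f := fun j z => F j z * a j z) (fun j _ => mF j (ca j) (a0 j))
    exact this
  have mW1 : MemLp W' 2 volume := mFa.sub mY
  have W0 : ∀ z, z ∉ T → W' z = 0 := fun z hz => by
    simp only [hW', hY]
    rw [e0 z hz, Finset.sum_eq_zero fun j _ => by rw [a0 j z hz, mul_zero]]
    ring
  have mG1 : ∀ j k, MemLp (G' j k) 2 volume := fun j k =>
    ((mG' j k he.continuous e0).add (mF k (cbe j) (be0 j))).sub (mF j (cbe k) (be0 k))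
  have G0 : ∀ j k z, z ∉ T → G' j k z = 0 := fun j k z hz => by
    simp only [hG']
    rw [e0 z hz, be0 j z hz, be0 k z hz]
    ring
  have hTest : ∀ v : Cn n → ℂ, ContDiff ℝ ∞ v → Test D (fun z => v z * e z) := by
    intro v hv
    have h3 : Function.support e = Function.support (η m) := by
      ext z
      simp only [Function.mem_support, hedef, cx, ne_eq, Complex.ofReal_eq_zero]
    have h4 : tsupport e = T := by
      unfold tsupport at hTdef ⊢
      rw [h3, hTdef]
    have h5 : Test D e := ⟨he, by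
      unfold HasCompactSupport
      rw [h4]
      exact hT, by rw [h4]; exact hTD⟩
    exact h5.mul isOpen_univ hv.contDiffOn (subset_univ _)
  -- the weak divergence
  have H1 : ∀ θ, Test univ θ → ∑ j, ∫ z, F' j z * dd j θ z = -∫ z, W' z * θ z := by
    intro θ hθ
    have hθ2 : MemLp θ 2 volume := hθ.smooth.continuous.memLp_of_hasCompactSupport hθ.supp
    have hdθ2 : ∀ j, MemLp (dd j θ) 2 volume := fun j =>
      (contDiff_dd hθ.smooth j).continuous.memLp_of_hasCompactSupport (hθ.dd j).supp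
    set E : Cn n → ℝ := fun z => Real.exp (φ' z - l' z) with hE
    have hEs : ContDiff ℝ ∞ (cx E) := APR_smoothPhi (Real.contDiff_exp.comp (hφ'.sub hl'))
    have ddE : ∀ j z, dd j (cx E) z =
        ((E z : ℝ) : ℂ) * (dd j (cx φ') z - dd j (cx l') z) := by
      intro j z
      have h3 := dd_comp (g := Real.exp) (v := fun w => φ' w - l' w) (z := z)
        (((hφ'.sub hl').differentiable (by simp)).differentiableAt)
        Real.differentiable_exp.differentiableAt j
      rw [Real.deriv_exp] at h3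
      have h4 : cx (fun w => φ' w - l' w) = fun w => cx φ' w - cx l' w := by
        funext w
        simp only [cx]
        push_cast
        ring
      rw [h4, dd_sub (APR_da hcφ z) (APR_da hcl z)] at h3
      exact h3
    have hτ := hTest (fun z => cx E z * θ z) (hEs.mul hθ.smooth)
    have h3 := h1 _ hτ
    have ddτ : ∀ j z, dd j (fun z => cx E z * θ z * e z) z =
        ((E z : ℝ) : ℂ) * (e z * dd j θ z + a j z * θ z) := by
      intro j z
      rw [dd_mul (APR_da (hEs.mul hθ.smooth) z) (APR_da he z),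
        dd_mul (APR_da hEs z) (APR_da hθ.smooth z), ddE]
      simp only [ha, cx]
      ring
    have hX : ∀ z, (∑ j, F j z * dd j (fun z => cx E z * θ z * e z) z) *
        ((Real.exp (l z - φ z) : ℝ) : ℂ) =
        (∑ j, F' j z * dd j θ z) + W' z * θ z + Y z * θ z := by
      intro z
      by_cases hz : z ∈ T
      · have h4 : l z - φ z = -(φ' z - l' z) := by
          rw [(eφ z hz).self_of_nhds, (el z hz).self_of_nhds]
          ring
        have h5 : ((E z : ℝ) : ℂ) * ((Real.exp (l z - φ z) : ℝ) : ℂ) = 1 := by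
          rw [h4, hE, ← Complex.ofReal_mul, ← Real.exp_add, add_neg_cancel, Real.exp_zero,
            Complex.ofReal_one]
        have h6 : (∑ j, F j z * dd j (fun z => cx E z * θ z * e z) z) =
            ((E z : ℝ) : ℂ) * ∑ j, (F' j z * dd j θ z + F j z * a j z * θ z) := by
          rw [Finset.mul_sum]
          refine Finset.sum_congr rfl fun j _ => ?_
          rw [ddτ]
          simp only [hF']
          ring
        rw [h6, mul_right_comm, h5, one_mul, Finset.sum_add_distrib, ← Finset.sum_mul]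
        simp only [hW']
        ring
      · rw [W0 z hz, Finset.sum_eq_zero fun j _ => by
            rw [ddτ, e0 z hz, a0 j z hz]
            ring,
          Finset.sum_eq_zero fun j _ => by rw [F0 j z hz, zero_mul]]
        simp only [hY]
        rw [e0 z hz]
        ring
    have hY2 : ∀ z, W z * (cx E z * θ z * e z) * ((Real.exp (2 * l z - φ z) : ℝ) : ℂ) =
        Y z * θ z := by
      intro z
      by_cases hz : z ∈ T
      · have h4 : ((E z : ℝ) : ℂ) * ((Real.exp (2 * l z - φ z) : ℝ) : ℂ) =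
            ((Real.exp (l' z) : ℝ) : ℂ) := by
          rw [hE, ← Complex.ofReal_mul, ← Real.exp_add, (eφ z hz).self_of_nhds,
            (el z hz).self_of_nhds]
          congr 2
          ring
        simp only [hY]
        rw [← h4]
        simp only [cx]
        ring
      · simp only [hY]
        rw [e0 z hz]
        ring
    simp only [hX, hY2] at h3
    have iF : ∀ j, Integrable (fun z => F' j z * dd j θ z) volume := fun j =>
      (mF1 j).integrable_mul (hdθ2 j)
    have iX1 : Integrable (fun z => ∑ j, F' j z * dd j θ z) volume :=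
      integrable_finsetSum _ fun j _ => iF j
    have iW : Integrable (fun z => W' z * θ z) volume := mW1.integrable_mul hθ2
    have iY : Integrable (fun z => Y z * θ z) volume := mY.integrable_mul hθ2
    have iXW : Integrable (fun z => (∑ j, F' j z * dd j θ z) + W' z * θ z) volume := iX1.add iW
    rw [BASA_set hTD (f := fun z => (∑ j, F' j z * dd j θ z) + W' z * θ z + Y z * θ z)
      (fun z hz => by
        simp only [hY]
        rw [W0 z hz, e0 z hz, Finset.sum_eq_zero fun j _ => by rw [F0 j z hz, zero_mul]]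
        ring),
      BASA_set hTD (f := fun z => Y z * θ z) (fun z hz => by
        simp only [hY]
        rw [e0 z hz]
        ring), integral_add iXW iY, integral_add iX1 iW] at h3
    rw [← integral_finsetSum _ fun j _ => iF j]
    linear_combination h3
  -- the weak curl
  have H2 : ∀ θ, Test univ θ → ∀ j k,
      ∫ z, (F' k z * dbar j θ z - F' j z * dbar k θ z) = -∫ z, G' j k z * θ z := by
    intro θ hθ j k
    have hθ2 : MemLp θ 2 volume := hθ.smooth.continuous.memLp_of_hasCompactSupport hθ.supp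
    have hdθ2 : ∀ j, MemLp (dbar j θ) 2 volume := fun j =>
      (contDiff_dbar hθ.smooth j).continuous.memLp_of_hasCompactSupport (hθ.dbar j).supp
    have h3 := h2 _ (hTest θ hθ.smooth) j k
    have dbσ : ∀ j z, dbar j (fun z => θ z * e z) z = dbar j θ z * e z + θ z * dbar j e z :=
      fun j z => dbar_mul (APR_da hθ.smooth z) (APR_da he z) j
    have hZ : ∀ z, F k z * dbar j (fun z => θ z * e z) z - F j z * dbar k (fun z => θ z * e z) z =
        (F' k z * dbar j θ z - F' j z * dbar k θ z) + G' j k z * θ z -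
          (e z * Gf j k z) * θ z := by
      intro z
      rw [dbσ, dbσ]
      simp only [hF', hG']
      ring
    have hZ2 : ∀ z, Gf j k z * (θ z * e z) = (e z * Gf j k z) * θ z := fun z => by ring
    simp only [hZ, hZ2] at h3
    have i1 : Integrable (fun z => F' k z * dbar j θ z - F' j z * dbar k θ z) volume :=
      ((mF1 k).integrable_mul (hdθ2 j)).sub ((mF1 j).integrable_mul (hdθ2 k))
    have i2 : Integrable (fun z => G' j k z * θ z) volume := (mG1 j k).integrable_mul hθ2
    have i3 : Integrable (fun z => (e z * Gf j k z) * θ z) volume :=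
      (mG' j k he.continuous e0).integrable_mul hθ2
    have i12 : Integrable (fun z => (F' k z * dbar j θ z - F' j z * dbar k θ z) +
      G' j k z * θ z) volume := i1.add i2
    rw [BASA_set hTD (f := fun z => (F' k z * dbar j θ z - F' j z * dbar k θ z) +
          G' j k z * θ z - (e z * Gf j k z) * θ z)
      (fun z hz => by
        rw [F0 k z hz, F0 j z hz, G0 j k z hz, e0 z hz]
        ring),
      BASA_set hTD (f := fun z => (e z * Gf j k z) * θ z) (fun z hz => by
        rw [e0 z hz]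
        ring), integral_sub i12 i3, integral_add i1 i2] at h3
    linear_combination h3
  obtain ⟨hR0, hR⟩ := weak_apriori hT hφ' mF1 F0 mW1 W0 mG1 G0 H1 H2 rfl
  set R : ℝ := (∫ z, ‖W' z - ∑ j, F' j z * dd j (cx φ') z‖ ^ 2 * Real.exp (-φ' z)) +
      1 / 2 * (∑ j, ∑ k, ∫ z, ‖G' j k z‖ ^ 2 * Real.exp (-φ' z)) -
      ∫ z, levi φ' z (fun j => F' j z) * Real.exp (-φ' z) with hRdef
  -- comparison
  set A : Cn n → ℂ := fun z => (∑ j, F j z * dd j e z) - Y z with hA
  have mA : MemLp A 2 volume := by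
    have := memLp_finsetSum (μ := volume) (p := 2) Finset.univ
      (f := fun j z => F j z * dd j e z) (fun j _ => mF j (cde j) (de0 j))
    exact MemLp.sub this mY
  have A0 : ∀ z, z ∉ T → A z = 0 := fun z hz => by
    simp only [hA, hY]
    rw [e0 z hz, Finset.sum_eq_zero fun j _ => by rw [de0 j z hz, mul_zero]]
    ring
  have ephi : ∀ z ∈ T, φ' z = φ z := fun z hz => (eφ z hz).self_of_nhds
  have ell : ∀ z ∈ T, l' z = l z := fun z hz => (el z hz).self_of_nhds
  have q1 : ∫ z in D, ‖(∑ j, F j z * dd j e z) -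
      (η m z : ℂ) * (Real.exp (l z) : ℂ) * W z‖ ^ 2 * Real.exp (-φ z) =
      ∫ z, ‖A z‖ ^ 2 * Real.exp (-φ' z) := by
    rw [← BASA_set hTD (f := fun z => ‖A z‖ ^ 2 * Real.exp (-φ' z)) (fun z hz => by
      rw [A0 z hz]
      simp)]
    congr 1
    funext z
    by_cases hz : z ∈ T
    · simp only [hA, hY]
      rw [ephi z hz, ell z hz]
      rfl
    · rw [A0 z hz, Finset.sum_eq_zero fun j _ => by rw [de0 j z hz, mul_zero],
        image_eq_zero_of_notMem_tsupport hz]
      simp
  have q2 : ∀ j k, ∫ z in D, ‖(η m z : ℂ) * Gf j k z + F k z * dbar j e z -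
      F j z * dbar k e z‖ ^ 2 * Real.exp (-φ z) = ∫ z, ‖G' j k z‖ ^ 2 * Real.exp (-φ' z) := by
    intro j k
    rw [← BASA_set hTD (f := fun z => ‖G' j k z‖ ^ 2 * Real.exp (-φ' z)) (fun z hz => by
      rw [G0 j k z hz]
      simp)]
    congr 1
    funext z
    by_cases hz : z ∈ T
    · simp only [hG']
      rw [ephi z hz]
      rfl
    · rw [G0 j k z hz, be0 j z hz, be0 k z hz, image_eq_zero_of_notMem_tsupport hz]
      simp
  have hnsq : ∀ z, η m z ^ 2 * nsq (fun j => F j z) = ∑ j, ‖F' j z‖ ^ 2 := by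
    intro z
    unfold nsq
    rw [Finset.mul_sum]
    refine Finset.sum_congr rfl fun j _ => ?_
    simp only [hF', hedef, cx]
    rw [norm_mul, mul_pow, Complex.norm_real, Real.norm_eq_abs, sq_abs]
  have q3 : ∫ z in D, η m z ^ 2 * nsq (fun j => F j z) * Real.exp (-φ z) =
      ∫ z, (∑ j, ‖F' j z‖ ^ 2) * Real.exp (-φ' z) := by
    rw [← BASA_set hTD (f := fun z => (∑ j, ‖F' j z‖ ^ 2) * Real.exp (-φ' z)) (fun z hz => by
      rw [Finset.sum_eq_zero fun j _ => by rw [F0 j z hz]; simp]
      simp)]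
    congr 1
    funext z
    rw [hnsq]
    by_cases hz : z ∈ T
    · rw [ephi z hz]
    · rw [Finset.sum_eq_zero fun j _ => by rw [F0 j z hz]; simp]
      simp
  rw [q1, q3] at hQ
  simp only [q2] at hQ
  have I1 : Integrable (fun z => ‖W' z - ∑ j, F' j z * dd j (cx φ') z‖ ^ 2 *
      Real.exp (-φ' z)) volume := by
    refine BASA_sqint (w := fun z => W' z - ∑ j, F' j z * dd j (cx φ') z) ?_ hT ?_ hφ'.continuous
    · refine mW1.sub ?_
      have := memLp_finsetSum (μ := volume) (p := 2) Finset.univ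
        (f := fun j z => F j z * (e z * dd j (cx φ') z)) (fun j _ =>
          mF j (he.continuous.mul (cdφ j)) (fun z hz => by rw [e0 z hz, zero_mul]))
      refine this.ae_eq (Eventually.of_forall fun z => ?_)
      refine Finset.sum_congr rfl fun j _ => ?_
      simp only [hF']
      ring
    · intro z hz
      rw [W0 z hz, Finset.sum_eq_zero fun j _ => by rw [F0 j z hz, zero_mul]]
      ring
  have I2 := BASA_levi_int hT hφ' mF1 F0
  have I3 : Integrable (fun z => ‖A z‖ ^ 2 * Real.exp (-φ' z)) volume :=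
    BASA_sqint mA hT A0 hφ'.continuous
  have I4 : Integrable (fun z => (∑ j, ‖F' j z‖ ^ 2) * Real.exp (-φ' z)) volume := by
    simp only [Finset.sum_mul]
    exact integrable_finsetSum _ fun j _ => BASA_sqint (mF1 j) hT (F0 j) hφ'.continuous
  have hpt : ∀ z, ‖W' z - ∑ j, F' j z * dd j (cx φ') z‖ ^ 2 * Real.exp (-φ' z) -
      levi φ' z (fun j => F' j z) * Real.exp (-φ' z) ≤
      2 * (‖A z‖ ^ 2 * Real.exp (-φ' z)) - M * ((∑ j, ‖F' j z‖ ^ 2) * Real.exp (-φ' z)) := by
    intro z
    have hexp : 0 < Real.exp (-φ' z) := Real.exp_pos _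
    by_cases hz : z ∈ T
    · set B : ℂ := e z * ∑ j, F j z * dd j (cx l') z with hB
      have e1 : W' z - ∑ j, F' j z * dd j (cx φ') z = A z - B := by
        simp only [hW', hA, hB, ha, hF']
        rw [Finset.mul_sum]
        have e2 : ∑ j, F j z * (dd j e z + e z * (dd j (cx φ') z - dd j (cx l') z)) =
            (∑ j, F j z * dd j e z) + (∑ j, e z * F j z * dd j (cx φ') z) -
              ∑ j, e z * (F j z * dd j (cx l') z) := by
          rw [← Finset.sum_add_distrib, ← Finset.sum_sub_distrib]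
          refine Finset.sum_congr rfl fun j _ => ?_
          ring
        rw [e2]
        ring
      have e3 : ‖A z - B‖ ^ 2 ≤ 2 * ‖A z‖ ^ 2 + 2 * ‖B‖ ^ 2 := by
        have h3 : ‖A z - B‖ ≤ ‖A z‖ + ‖B‖ := norm_sub_le _ _
        have h4 : ‖A z - B‖ ^ 2 ≤ (‖A z‖ + ‖B‖) ^ 2 := pow_le_pow_left₀ (norm_nonneg _) h3 2
        nlinarith [sq_nonneg (‖A z‖ - ‖B‖)]
      have e4 : ‖B‖ ^ 2 ≤ η m z ^ 2 * (nsq (fun j => F j z) * nsq (fun j => dd j (cx l) z)) := by
        rw [hB, norm_mul, mul_pow]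
        have h3 : ‖e z‖ ^ 2 = η m z ^ 2 := by
          simp only [hedef, cx]
          rw [Complex.norm_real, Real.norm_eq_abs, sq_abs]
        rw [h3]
        refine mul_le_mul_of_nonneg_left ?_ (sq_nonneg _)
        have h4 : ∀ j, dd j (cx l') z = dd j (cx l) z := fun j => by
          refine dd_congr ?_ j
          filter_upwards [el z hz] with w hw'
          simp only [cx]
          rw [hw']
        simp only [h4]
        exact BASA_cs _ _
      have e5 : levi φ' z (fun j => F' j z) = η m z ^ 2 * levi φ z (fun j => F j z) := by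
        rw [levi_congr (eφ z hz)]
        exact BASA_levi_smul φ z (η m z) _
      have e6 := hw.levi z (hTD hz) (fun j => F j z)
      have e7 : η m z ^ 2 * ((M + 2 * nsq (fun j => dd j (cx l) z)) * nsq (fun j => F j z)) ≤
          η m z ^ 2 * levi φ z (fun j => F j z) := mul_le_mul_of_nonneg_left e6 (sq_nonneg _)
      rw [e1, e5, ← hnsq]
      have e8 : ‖A z - B‖ ^ 2 - η m z ^ 2 * levi φ z (fun j => F j z) ≤
          2 * ‖A z‖ ^ 2 - M * (η m z ^ 2 * nsq (fun j => F j z)) := by
        nlinarith [e3, e4, e7]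
      have e9 := mul_le_mul_of_nonneg_right e8 hexp.le
      linarith
    · rw [W0 z hz, A0 z hz, Finset.sum_eq_zero fun j _ => by rw [F0 j z hz, zero_mul],
        Finset.sum_eq_zero fun j _ => by rw [F0 j z hz]; simp]
      have e5 : levi φ' z (fun j => F' j z) = 0 := by
        unfold levi
        rw [Finset.sum_eq_zero fun j _ => by
          simp only [F0 j z hz]
          simp]
        simp
      rw [e5]
      simp
  have hRQ : R ≤ Q := by
    have h3 := integral_mono (I1.sub I2) ((I3.const_mul 2).sub (I4.const_mul M)) hpt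
    simp only [Pi.sub_apply] at h3
    rw [integral_sub I1 I2, integral_sub (I3.const_mul 2) (I4.const_mul M), integral_const_mul,
      integral_const_mul] at h3
    rw [hRdef, hQ]
    linarith
  refine ⟨hR0.trans hRQ, fun θ hθ => (hR θ hθ).trans ?_⟩
  refine mul_le_mul_of_nonneg_right hRQ ?_
  exact Finset.sum_nonneg fun j _ => Finset.sum_nonneg fun k _ =>
    integral_nonneg fun z => by positivity

theorem basic_cut {D K : Set (Cn n)} {M : ℝ} {p : Cn n} {φ l : Cn n → ℝ} {η : ℕ → Cn n → ℝ}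
    (hw : Weights D K M p φ l η) (hM : 0 ≤ M) {F : Fin n → Cn n → ℂ} {W : Cn n → ℂ}
    {Gf : Fin n → Fin n → Cn n → ℂ}
    (hFm : ∀ j, AEStronglyMeasurable (F j) (volume.restrict D))
    (hWm : AEStronglyMeasurable W (volume.restrict D))
    (hGm : ∀ j k, AEStronglyMeasurable (Gf j k) (volume.restrict D))
    (hF : IntegrableOn (fun z => nsq (fun j => F j z) * Real.exp (l z - φ z)) D)
    (hW : IntegrableOn (fun z => ‖W z‖ ^ 2 * Real.exp (2 * l z - φ z)) D)
    (hG : ∀ j k, IntegrableOn (fun z => ‖Gf j k z‖ ^ 2 * Real.exp (-φ z)) D)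
    (h1 : ∀ θ, Test D θ → ∫ z in D, (∑ j, F j z * dd j θ z) * (Real.exp (l z - φ z) : ℂ) =
      ∫ z in D, W z * θ z * (Real.exp (2 * l z - φ z) : ℂ))
    (h2 : ∀ θ, Test D θ → ∀ j k,
      ∫ z in D, (F k z * dbar j θ z - F j z * dbar k θ z) = -∫ z in D, Gf j k z * θ z) (m : ℕ)
    {Q : ℝ} (hQ : Q = 2 * (∫ z in D, ‖(∑ j, F j z * dd j (cx (η m)) z) -
          (η m z : ℂ) * (Real.exp (l z) : ℂ) * W z‖ ^ 2 * Real.exp (-φ z)) +
        1 / 2 * (∑ j, ∑ k, ∫ z in D, ‖(η m z : ℂ) * Gf j k z + F k z * dbar j (cx (η m)) z -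
          F j z * dbar k (cx (η m)) z‖ ^ 2 * Real.exp (-φ z)) -
        M * ∫ z in D, η m z ^ 2 * nsq (fun j => F j z) * Real.exp (-φ z)) :
    0 ≤ Q ∧ ∀ θ : Fin n → Fin n → Cn n → ℂ, (∀ j k, Test D (θ j k)) →
      ‖∑ j, ∑ k, ∫ z in D, (η m z : ℂ) * F j z * dbar k (θ j k) z‖ ^ 2 ≤
        Q * ∑ j, ∑ k, ∫ z in D, ‖θ j k z‖ ^ 2 * Real.exp (φ z) := by
  have hT : IsCompact (tsupport (η m)) := hw.esupp m
  have hTD : tsupport (η m) ⊆ D := hw.esub m
  constructor
  · obtain ⟨φ', hφ', eφ⟩ := BASA_extend hw.isOpen hT hTD hw.smooth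
    obtain ⟨l', hl', el⟩ := BASA_extend hw.isOpen hT hTD hw.smoothl
    exact (BASA_core hw hFm hWm hGm hF hW hG h1 h2 m hQ hφ' hl' eφ el).1
  · intro θ hθ
    set T' : Set (Cn n) := tsupport (η m) ∪ ⋃ j, ⋃ k, tsupport (θ j k) with hT'
    have hT'c : IsCompact T' := hT.union (isCompact_iUnion fun j => isCompact_iUnion fun k =>
      (hθ j k).supp)
    have hT'D : T' ⊆ D := union_subset hTD (iUnion_subset fun j => iUnion_subset fun k =>
      (hθ j k).sub)
    obtain ⟨φ', hφ', eφ⟩ := BASA_extend hw.isOpen hT'c hT'D hw.smooth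
    obtain ⟨l', hl', el⟩ := BASA_extend hw.isOpen hT'c hT'D hw.smoothl
    have h3 := (BASA_core hw hFm hWm hGm hF hW hG h1 h2 m hQ hφ' hl'
      (fun z hz => eφ z (Or.inl hz)) (fun z hz => el z (Or.inl hz))).2 θ
      (fun j k => ⟨(hθ j k).smooth, (hθ j k).supp, subset_univ _⟩)
    have h4 : ∀ j k, ∫ z in D, (η m z : ℂ) * F j z * dbar k (θ j k) z =
        ∫ z, (η m z : ℂ) * F j z * dbar k (θ j k) z := fun j k =>
      BASA_set hTD fun z hz => by
        rw [image_eq_zero_of_notMem_tsupport hz]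
        simp
    have h5 : ∀ j k, ∫ z in D, ‖θ j k z‖ ^ 2 * Real.exp (φ z) =
        ∫ z, ‖θ j k z‖ ^ 2 * Real.exp (φ' z) := by
      intro j k
      rw [← BASA_set (D := D) (T := tsupport (θ j k)) (hθ j k).sub
        (f := fun z => ‖θ j k z‖ ^ 2 * Real.exp (φ' z)) (fun z hz => by
          rw [image_eq_zero_of_notMem_tsupport hz]
          simp)]
      congr 1
      funext z
      by_cases hz : z ∈ tsupport (θ j k)
      · rw [(eφ z (Or.inr (mem_iUnion.2 ⟨j, mem_iUnion.2 ⟨k, hz⟩⟩))).self_of_nhds]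
      · rw [image_eq_zero_of_notMem_tsupport hz]
        simp
    simp only [h4, h5]
    exact h3

end DN
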