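import Pool.Agent.H49.DN.BASA

/-! # BASB: the basic estimate

PROOF. Let `m → ∞` in `basic_cut`. Dominated convergence: `η m → 1` pointwise on `D`, `0 ≤ η m ≤ 1`, the derivatives
`dd j (cx (η m)) z`, `dbar j (cx (η m)) z` vanish for large `m` (`elim`, `dd_congr`, `dbar_congr`, `dd_const`), and
`nsq (dd η) = nsq (dbar η) ≤ exp l` (`egrad`; `dd j (cx η) = conj (dbar j (cx η))`, `dbar_conj`). Dominating functions:
`|∑ F_j dd j η|² exp(-φ) ≤ nsq F exp(l - φ)`, `|η exp(l) W|² exp(-φ) ≤ ‖W‖² exp(2l - φ)`, `‖G‖² exp(-φ)`,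
`nsq F exp(-φ) ≤ nsq F exp(l - φ)`. So `Q_m → R - M ∫ nsq F exp(-φ)` where `R` is the right side, which gives (i); (ii): the
left side converges to `∑∑ ∫ F_j dbar k θ_jk` (dominated by `‖F_j dbar k θ_jk‖`, integrable: compact support in `D`,
`exp(l - φ)` bounded below there), and `M ∫ ... ≥ 0`. -/

set_option autoImplicit false

namespace DN

open MeasureTheory Set Filter Topology ContDiff

variable {n : ℕ}

private theorem BASB_nsq_nonneg (a : Fin n → ℂ) : 0 ≤ nsq a :=
  Finset.sum_nonneg fun _ _ => by positivity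

private theorem BASB_le_nsq (a : Fin n → ℂ) (j : Fin n) : ‖a j‖ ^ 2 ≤ nsq a :=
  Finset.single_le_sum (f := fun j => ‖a j‖ ^ 2) (fun _ _ => by positivity) (Finset.mem_univ j)

private theorem BASB_cs (a b : Fin n → ℂ) : ‖∑ j, a j * b j‖ ^ 2 ≤ nsq a * nsq b := by
  have h1 : ‖∑ j, a j * b j‖ ≤ ∑ j, ‖a j‖ * ‖b j‖ := by
    refine (norm_sum_le _ _).trans (le_of_eq (Finset.sum_congr rfl fun j _ => ?_))
    rw [norm_mul]
  have h2 := Finset.sum_mul_sq_le_sq_mul_sq Finset.univ (fun j => ‖a j‖) (fun j => ‖b j‖)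
  refine (pow_le_pow_left₀ (norm_nonneg _) h1 2).trans h2

private theorem BASB_two (a b : ℂ) : ‖a - b‖ ^ 2 ≤ 2 * ‖a‖ ^ 2 + 2 * ‖b‖ ^ 2 := by
  have h1 := norm_sub_le a b
  have h2 := pow_le_pow_left₀ (norm_nonneg _) h1 2
  nlinarith [sq_nonneg (‖a‖ - ‖b‖)]

private theorem BASB_three (a b c : ℂ) :
    ‖a + b - c‖ ^ 2 ≤ 4 * ‖a‖ ^ 2 + 4 * ‖b‖ ^ 2 + 4 * ‖c‖ ^ 2 := by
  have h1 := BASB_two (a + b) c
  have h2 := BASB_two a (-b)
  rw [sub_neg_eq_add, norm_neg] at h2
  have h3 : 0 ≤ ‖c‖ ^ 2 := by positivity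
  linarith

private theorem BASB_ddcx {v : Cn n → ℝ} {z : Cn n} (hv : DifferentiableAt ℝ v z) (j : Fin n) :
    ‖dd j (cx v) z‖ = ‖dbar j (cx v) z‖ := by
  have h1 : DifferentiableAt ℝ (cx v) z :=
    (Complex.ofRealCLM.differentiableAt (x := v z)).comp z hv
  have h2 := dbar_conj h1 j
  have h3 : (fun w => (starRingEnd ℂ) (cx v w)) = cx v := by
    funext w
    exact Complex.conj_ofReal _
  rw [h3] at h2
  rw [h2, RCLike.norm_conj]

private theorem BASB_cxs {v : Cn n → ℝ} (hv : ContDiff ℝ ∞ v) : ContDiff ℝ ∞ (cx v) :=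
  Complex.ofRealCLM.contDiff.comp hv

private theorem BASB_add {D : Set (Cn n)} {f g : Cn n → ℝ} (hf : IntegrableOn f D)
    (hg : IntegrableOn g D) (a b : ℝ) : IntegrableOn (fun z => a * f z + b * g z) D := by
  have h := Integrable.add (Integrable.const_mul hf a) (Integrable.const_mul hg b)
  exact h

/-- limit of a sequence which is pointwise eventually constant -/
private theorem BASB_dom {D : Set (Cn n)} (hD : IsOpen D) {E : Type*} [NormedAddCommGroup E]
    [NormedSpace ℝ E] {f : ℕ → Cn n → E}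
    {g : Cn n → E} {B : Cn n → ℝ} (hm : ∀ m, AEStronglyMeasurable (f m) (volume.restrict D))
    (hB : IntegrableOn B D) (hb : ∀ m, ∀ z ∈ D, ‖f m z‖ ≤ B z)
    (hl : ∀ z ∈ D, ∀ᶠ m in atTop, f m z = g z) :
    Tendsto (fun m => ∫ z in D, f m z) atTop (𝓝 (∫ z in D, g z)) := by
  refine tendsto_integral_of_dominated_convergence B hm hB (fun m => ?_) ?_
  · exact (ae_restrict_iff' hD.measurableSet).2 (Filter.Eventually.of_forall fun z hz => hb m z hz)
  · refine (ae_restrict_iff' hD.measurableSet).2 (Filter.Eventually.of_forall fun z hz => ?_)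
    exact tendsto_const_nhds.congr' ((hl z hz).mono fun m h => h.symm)

theorem basic {D K : Set (Cn n)} {M : ℝ} {p : Cn n} {φ l : Cn n → ℝ} {η : ℕ → Cn n → ℝ}
    (hw : Weights D K M p φ l η) (hM : 0 ≤ M) {F : Fin n → Cn n → ℂ} {W : Cn n → ℂ}
    {Gf : Fin n → Fin n → Cn n → ℂ}
    (hFm : ∀ j, AEStronglyMeasurable (F j) (volume.restrict D))
    (hWm : AEStronglyMeasurable W (volume.restrict D))
    (hGm : ∀ j k, AEStronglyMeasurable (Gf j k) (volume.restrict D))
    (hF : IntegrableOn (fun z => nsq (fun j => F j z) * Real.exp (l z - φ z)) D)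
    (hW : IntegrableOn (fun z => ‖W z‖ ^ 2 * Real.exp (2 * l z - φ z)) D)
    (hG : ∀ j k, IntegrableOn (fun z => ‖Gf j k z‖ ^ 2 * Real.exp (-φ z)) D)
    (h1 : ∀ θ, Test D θ → ∫ z in D, (∑ j, F j z * dd j θ z) * (Real.exp (l z - φ z) : ℂ) =
      ∫ z in D, W z * θ z * (Real.exp (2 * l z - φ z) : ℂ))
    (h2 : ∀ θ, Test D θ → ∀ j k,
      ∫ z in D, (F k z * dbar j θ z - F j z * dbar k θ z) = -∫ z in D, Gf j k z * θ z)
    {R : ℝ} (hR : R = 2 * (∫ z in D, ‖W z‖ ^ 2 * Real.exp (2 * l z - φ z)) +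
        1 / 2 * ∑ j, ∑ k, ∫ z in D, ‖Gf j k z‖ ^ 2 * Real.exp (-φ z)) :
    M * (∫ z in D, nsq (fun j => F j z) * Real.exp (-φ z)) ≤ R ∧
    ∀ θ : Fin n → Fin n → Cn n → ℂ, (∀ j k, Test D (θ j k)) →
      ‖∑ j, ∑ k, ∫ z in D, F j z * dbar k (θ j k) z‖ ^ 2 ≤
        R * ∑ j, ∑ k, ∫ z in D, ‖θ j k z‖ ^ 2 * Real.exp (φ z) := by
  have hDo := hw.isOpen
  have hDm : MeasurableSet D := hDo.measurableSet
  have hφc : ContinuousOn φ D := hw.smooth.continuousOn
  have hlc : ContinuousOn l D := hw.smoothl.continuousOn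
  have hφm : AEStronglyMeasurable φ (volume.restrict D) := hφc.aestronglyMeasurable hDm
  have hlm : AEStronglyMeasurable l (volume.restrict D) := hlc.aestronglyMeasurable hDm
  have hem : AEStronglyMeasurable (fun z => Real.exp (-φ z)) (volume.restrict D) :=
    (Real.continuous_exp.comp_continuousOn hφc.neg).aestronglyMeasurable hDm
  have helm : AEStronglyMeasurable (fun z => (Real.exp (l z) : ℂ)) (volume.restrict D) :=
    (Complex.continuous_ofReal.comp_continuousOn
      (Real.continuous_exp.comp_continuousOn hlc)).aestronglyMeasurable hDm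
  have hηd : ∀ m z, DifferentiableAt ℝ (η m) z := fun m z =>
    ((hw.esmooth m).differentiable (by simp)).differentiableAt
  have hdbm : ∀ m j, AEStronglyMeasurable (dbar j (cx (η m))) (volume.restrict D) := fun m j =>
    (contDiff_dbar (BASB_cxs (hw.esmooth m)) j).continuous.aestronglyMeasurable
  have hddm : ∀ m j, AEStronglyMeasurable (dd j (cx (η m))) (volume.restrict D) := fun m j =>
    (contDiff_dd (BASB_cxs (hw.esmooth m)) j).continuous.aestronglyMeasurable
  have hηm : ∀ m, AEStronglyMeasurable (fun z => (η m z : ℂ)) (volume.restrict D) := fun m =>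
    (BASB_cxs (hw.esmooth m)).continuous.aestronglyMeasurable
  have hηrm : ∀ m, AEStronglyMeasurable (fun z => η m z) (volume.restrict D) := fun m =>
    (hw.esmooth m).continuous.aestronglyMeasurable
  have hnm : AEStronglyMeasurable (fun z => nsq (fun j => F j z)) (volume.restrict D) := by
    unfold nsq
    exact Finset.aestronglyMeasurable_fun_sum _ fun j _ => ((hFm j).norm.pow 2)
  -- pointwise bounds
  have gb : ∀ m, ∀ z ∈ D, nsq (fun j => dd j (cx (η m)) z) ≤ Real.exp (l z) := by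
    intro m z hz
    have h := hw.egrad m z hz
    unfold nsq at h ⊢
    simp only [BASB_ddcx (hηd m z)]
    exact h
  have gb2 : ∀ m, ∀ z ∈ D, ∀ j, ‖dbar j (cx (η m)) z‖ ^ 2 ≤ Real.exp (l z) := by
    intro m z hz j
    exact (BASB_le_nsq (fun j => dbar j (cx (η m)) z) j).trans (hw.egrad m z hz)
  have eb : ∀ z ∈ D, Real.exp (-φ z) ≤ Real.exp (l z - φ z) := by
    intro z hz
    have := hw.nonneg z hz
    exact Real.exp_le_exp.2 (by linarith)
  have hη1 : ∀ m z, ‖(η m z : ℂ)‖ ≤ 1 := by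
    intro m z
    rw [Complex.norm_real, Real.norm_eq_abs, abs_of_nonneg (hw.enonneg m z)]
    exact hw.ele m z
  have hη2 : ∀ m z, ‖(η m z : ℂ)‖ ^ 2 ≤ 1 := fun m z =>
    pow_le_one₀ (norm_nonneg _) (hη1 m z)
  -- the limits of the derivatives
  have elim0 : ∀ z ∈ D, ∀ᶠ m in atTop, η m z = 1 ∧ (∀ j, dd j (cx (η m)) z = 0) ∧
      (∀ j, dbar j (cx (η m)) z = 0) := by
    intro z hz
    filter_upwards [hw.elim z hz] with m hm
    have h3 : cx (η m) =ᶠ[𝓝 z] fun _ => (1 : ℂ) := by
      filter_upwards [hm] with w hw'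
      show ((η m w : ℝ) : ℂ) = 1
      rw [hw', Complex.ofReal_one]
    refine ⟨hm.self_of_nhds, fun j => ?_, fun j => ?_⟩
    · rw [dd_congr h3, dd_const]
    · rw [dbar_congr h3, dbar_const]
  -- first limit
  have L1 : Tendsto (fun m => ∫ z in D, ‖(∑ j, F j z * dd j (cx (η m)) z) -
      (η m z : ℂ) * (Real.exp (l z) : ℂ) * W z‖ ^ 2 * Real.exp (-φ z)) atTop
      (𝓝 (∫ z in D, ‖W z‖ ^ 2 * Real.exp (2 * l z - φ z))) := by
    refine BASB_dom hDo (B := fun z => 2 * (nsq (fun j => F j z) * Real.exp (l z - φ z)) +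
      2 * (‖W z‖ ^ 2 * Real.exp (2 * l z - φ z))) ?_ (BASB_add hF hW 2 2)
      ?_ ?_
    · intro m
      refine AEStronglyMeasurable.mul (AEStronglyMeasurable.pow (AEStronglyMeasurable.norm ?_) 2)
        hem
      exact (Finset.aestronglyMeasurable_fun_sum _ fun j _ => (hFm j).mul (hddm m j)).sub
        (((hηm m).mul helm).mul hWm)
    · intro m z hz
      rw [Real.norm_eq_abs, abs_of_nonneg (by positivity)]
      have k1 := BASB_two (∑ j, F j z * dd j (cx (η m)) z)
        ((η m z : ℂ) * (Real.exp (l z) : ℂ) * W z)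
      have k2 := BASB_cs (fun j => F j z) (fun j => dd j (cx (η m)) z)
      have k3 := mul_le_mul_of_nonneg_left (gb m z hz) (BASB_nsq_nonneg fun j => F j z)
      have k4 : ‖(η m z : ℂ) * (Real.exp (l z) : ℂ) * W z‖ ^ 2 ≤
          Real.exp (2 * l z) * ‖W z‖ ^ 2 := by
        rw [norm_mul, norm_mul, mul_pow, mul_pow]
        have : ‖(Real.exp (l z) : ℂ)‖ ^ 2 = Real.exp (2 * l z) := by
          rw [Complex.norm_real, Real.norm_eq_abs, abs_of_pos (Real.exp_pos _), ← Real.exp_nat_mul]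
          norm_num
        rw [this]
        have k5 : 0 ≤ Real.exp (2 * l z) * ‖W z‖ ^ 2 := by positivity
        calc ‖(η m z : ℂ)‖ ^ 2 * Real.exp (2 * l z) * ‖W z‖ ^ 2
            = ‖(η m z : ℂ)‖ ^ 2 * (Real.exp (2 * l z) * ‖W z‖ ^ 2) := by ring
          _ ≤ 1 * (Real.exp (2 * l z) * ‖W z‖ ^ 2) := mul_le_mul_of_nonneg_right (hη2 m z) k5
          _ = _ := one_mul _
      have k6 : Real.exp (l z - φ z) = Real.exp (l z) * Real.exp (-φ z) := by
        rw [← Real.exp_add]; ring_nf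
      have k7 : Real.exp (2 * l z - φ z) = Real.exp (2 * l z) * Real.exp (-φ z) := by
        rw [← Real.exp_add]; ring_nf
      rw [k6, k7]
      calc _ ≤ (2 * (nsq (fun j => F j z) * Real.exp (l z)) +
            2 * (Real.exp (2 * l z) * ‖W z‖ ^ 2)) * Real.exp (-φ z) := by
            refine mul_le_mul_of_nonneg_right ?_ (Real.exp_pos _).le
            linarith
        _ = _ := by ring
    · intro z hz
      filter_upwards [elim0 z hz] with m hm
      obtain ⟨e1, e2, -⟩ := hm
      simp only [e1, e2, mul_zero, Finset.sum_const_zero, zero_sub, norm_neg, Complex.ofReal_one,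
        one_mul]
      rw [norm_mul, mul_pow, Complex.norm_real, Real.norm_eq_abs, abs_of_pos (Real.exp_pos _),
        ← Real.exp_nat_mul]
      have k7 : Real.exp (2 * l z - φ z) = Real.exp (2 * l z) * Real.exp (-φ z) := by
        rw [← Real.exp_add]; ring_nf
      rw [k7]
      push_cast
      ring
  -- second limit
  have L2 : ∀ j k, Tendsto (fun m => ∫ z in D, ‖(η m z : ℂ) * Gf j k z +
      F k z * dbar j (cx (η m)) z - F j z * dbar k (cx (η m)) z‖ ^ 2 * Real.exp (-φ z)) atTop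
      (𝓝 (∫ z in D, ‖Gf j k z‖ ^ 2 * Real.exp (-φ z))) := by
    intro j k
    refine BASB_dom hDo (B := fun z => 4 * (‖Gf j k z‖ ^ 2 * Real.exp (-φ z)) +
      8 * (nsq (fun j => F j z) * Real.exp (l z - φ z))) ?_
      (BASB_add (hG j k) hF 4 8) ?_ ?_
    · intro m
      refine AEStronglyMeasurable.mul (AEStronglyMeasurable.pow (AEStronglyMeasurable.norm ?_) 2)
        hem
      exact (((hηm m).mul (hGm j k)).add ((hFm k).mul (hdbm m j))).sub ((hFm j).mul (hdbm m k))
    · intro m z hz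
      rw [Real.norm_eq_abs, abs_of_nonneg (by positivity)]
      have k1 := BASB_three ((η m z : ℂ) * Gf j k z) (F k z * dbar j (cx (η m)) z)
        (F j z * dbar k (cx (η m)) z)
      have k2 : ‖(η m z : ℂ) * Gf j k z‖ ^ 2 ≤ ‖Gf j k z‖ ^ 2 := by
        rw [norm_mul, mul_pow]
        calc ‖(η m z : ℂ)‖ ^ 2 * ‖Gf j k z‖ ^ 2 ≤ 1 * ‖Gf j k z‖ ^ 2 :=
              mul_le_mul_of_nonneg_right (hη2 m z) (by positivity)
          _ = _ := one_mul _
      have k3 : ∀ i i' : Fin n, ‖F i z * dbar i' (cx (η m)) z‖ ^ 2 ≤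
          nsq (fun j => F j z) * Real.exp (l z) := by
        intro i i'
        rw [norm_mul, mul_pow]
        exact mul_le_mul (BASB_le_nsq (fun j => F j z) i) (gb2 m z hz i') (by positivity)
          (BASB_nsq_nonneg _)
      have k6 : Real.exp (l z - φ z) = Real.exp (l z) * Real.exp (-φ z) := by
        rw [← Real.exp_add]; ring_nf
      rw [k6]
      have k4 := k3 k j
      have k5 := k3 j k
      calc _ ≤ (4 * ‖Gf j k z‖ ^ 2 + 8 * (nsq (fun j => F j z) * Real.exp (l z))) *
            Real.exp (-φ z) := by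
            refine mul_le_mul_of_nonneg_right ?_ (Real.exp_pos _).le
            linarith
        _ = _ := by ring
    · intro z hz
      filter_upwards [elim0 z hz] with m hm
      obtain ⟨e1, -, e2⟩ := hm
      simp only [e1, e2, mul_zero, add_zero, sub_zero, Complex.ofReal_one, one_mul]
  -- third limit
  have L3 : Tendsto (fun m => ∫ z in D, η m z ^ 2 * nsq (fun j => F j z) * Real.exp (-φ z)) atTop
      (𝓝 (∫ z in D, nsq (fun j => F j z) * Real.exp (-φ z))) := by
    refine BASB_dom hDo (B := fun z => nsq (fun j => F j z) * Real.exp (l z - φ z)) ?_ hF ?_ ?_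
    · intro m
      exact (((hηrm m).pow 2).mul hnm).mul hem
    · intro m z hz
      have k1 := BASB_nsq_nonneg (fun j => F j z)
      rw [Real.norm_eq_abs, abs_of_nonneg (by positivity)]
      have k2 : η m z ^ 2 ≤ 1 := pow_le_one₀ (hw.enonneg m z) (hw.ele m z)
      have k3 : η m z ^ 2 * nsq (fun j => F j z) ≤ nsq (fun j => F j z) := by
        have := mul_le_mul_of_nonneg_right k2 k1
        linarith
      exact mul_le_mul k3 (eb z hz) (Real.exp_pos _).le k1
    · intro z hz
      filter_upwards [elim0 z hz] with m hm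
      rw [hm.1]
      ring
  have LQ := ((L1.const_mul 2).add ((tendsto_finsetSum Finset.univ fun j _ =>
    tendsto_finsetSum Finset.univ fun k _ => L2 j k).const_mul (1 / 2))).sub (L3.const_mul M)
  rw [← hR] at LQ
  have hcut := fun m => basic_cut hw hM hFm hWm hGm hF hW hG h1 h2 m rfl
  have hI0 : 0 ≤ ∫ z in D, nsq (fun j => F j z) * Real.exp (-φ z) :=
    integral_nonneg fun z => mul_nonneg (BASB_nsq_nonneg _) (Real.exp_pos _).le
  refine ⟨?_, fun θ hθ => ?_⟩
  · have h3 := ge_of_tendsto' LQ (fun m => (hcut m).1)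
    linarith
  · have hS : 0 ≤ ∑ j, ∑ k, ∫ z in D, ‖θ j k z‖ ^ 2 * Real.exp (φ z) :=
      Finset.sum_nonneg fun j _ => Finset.sum_nonneg fun k _ =>
        integral_nonneg fun z => by positivity
    have L4 : ∀ j k, Tendsto (fun m => ∫ z in D, (η m z : ℂ) * F j z * dbar k (θ j k) z) atTop
        (𝓝 (∫ z in D, F j z * dbar k (θ j k) z)) := by
      intro j k
      have hθc : Continuous (dbar k (θ j k)) := (contDiff_dbar (hθ j k).smooth k).continuous
      have hint : IntegrableOn (fun z => ‖dbar k (θ j k) z‖ ^ 2 * Real.exp (φ z - l z)) D := by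
        have hT : IntegrableOn (fun z => ‖dbar k (θ j k) z‖ ^ 2 * Real.exp (φ z - l z))
            (tsupport (θ j k)) := by
          refine ContinuousOn.integrableOn_compact (hθ j k).supp ?_
          exact ((hθc.norm.pow 2).continuousOn).mul (Real.continuous_exp.comp_continuousOn
            ((hφc.sub hlc).mono (hθ j k).sub))
        refine hT.of_forall_sdiff_eq_zero hDm fun z hz => ?_
        have : dbar k (θ j k) z = 0 := by
          by_contra hne
          exact hz.2 (CALB_supp_dbar (θ j k) k hne)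
        rw [this]
        simp
      refine BASB_dom hDo (B := fun z => nsq (fun j => F j z) * Real.exp (l z - φ z) +
        ‖dbar k (θ j k) z‖ ^ 2 * Real.exp (φ z - l z)) ?_ (hF.add hint) ?_ ?_
      · intro m
        exact ((hηm m).mul (hFm j)).mul hθc.aestronglyMeasurable
      · intro m z hz
        rw [norm_mul, norm_mul]
        have k1 : ‖(η m z : ℂ)‖ * ‖F j z‖ ≤ ‖F j z‖ := by
          have := mul_le_mul_of_nonneg_right (hη1 m z) (norm_nonneg (F j z))
          linarith
        have k2 : ‖(η m z : ℂ)‖ * ‖F j z‖ * ‖dbar k (θ j k) z‖ ≤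
            ‖F j z‖ * ‖dbar k (θ j k) z‖ := mul_le_mul_of_nonneg_right k1 (norm_nonneg _)
        refine k2.trans ?_
        have k3 := BASB_le_nsq (fun j => F j z) j
        obtain ⟨a, ha⟩ : ∃ a, a = Real.exp ((l z - φ z) / 2) := ⟨_, rfl⟩
        obtain ⟨b, hb⟩ : ∃ b, b = Real.exp ((φ z - l z) / 2) := ⟨_, rfl⟩
        have ha2 : Real.exp (l z - φ z) = a ^ 2 := by
          rw [ha, ← Real.exp_nat_mul]; congr 1; push_cast; ring
        have hb2 : Real.exp (φ z - l z) = b ^ 2 := by
          rw [hb, ← Real.exp_nat_mul]; congr 1; push_cast; ring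
        have hab : a * b = 1 := by
          rw [ha, hb, ← Real.exp_add]
          have : (l z - φ z) / 2 + (φ z - l z) / 2 = 0 := by ring
          rw [this, Real.exp_zero]
        rw [ha2, hb2]
        have k4 : ‖F j z‖ ^ 2 * a ^ 2 ≤ nsq (fun j => F j z) * a ^ 2 :=
          mul_le_mul_of_nonneg_right k3 (by positivity)
        have k5 : ‖F j z‖ * ‖dbar k (θ j k) z‖ = (‖F j z‖ * a) * (‖dbar k (θ j k) z‖ * b) := by
          calc _ = ‖F j z‖ * ‖dbar k (θ j k) z‖ * (a * b) := by rw [hab, mul_one]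
            _ = _ := by ring
        rw [k5]
        nlinarith [sq_nonneg (‖F j z‖ * a - ‖dbar k (θ j k) z‖ * b),
          sq_nonneg (‖F j z‖ * a), sq_nonneg (‖dbar k (θ j k) z‖ * b)]
      · intro z hz
        filter_upwards [elim0 z hz] with m hm
        rw [hm.1, Complex.ofReal_one, one_mul]
    have L5 := (((tendsto_finsetSum Finset.univ fun j _ =>
      tendsto_finsetSum Finset.univ fun k _ => L4 j k).norm).pow 2)
    have L6 := LQ.mul_const (∑ j, ∑ k, ∫ z in D, ‖θ j k z‖ ^ 2 * Real.exp (φ z))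
    have h3 := le_of_tendsto_of_tendsto' L5 L6 (fun m => (hcut m).2 θ hθ)
    refine h3.trans (mul_le_mul_of_nonneg_right ?_ hS)
    have := mul_nonneg hM hI0
    linarith

end DN
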