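import Pool.Agent.H49.DN.WEY

/-! # BER: existence and uniqueness of the Bergman projection; multiplication operators

PROOF. `A²` = the submodule `{u | IsDbar0 Ω u 0}` (`isClosedOp_dbar0`: closed submodule, complete), `B` = its orthogonal
projection (`Submodule.starProjection`), `ker_dbar0`. Uniqueness: `B u - B' u ∈ A²` is orthogonal to itself (sums of
holomorphic functions are holomorphic: again through `IsDbar0`).
`exists_mul`: `ψ` is bounded on `Ω` (`closure Ω` compact), measurable on `Ω`; `u ↦ ψ u` on `Lp`: `MemLp.bdd_mul` or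
`MemLp.of_le_mul`, `LinearMap.mkContinuous`. `mul_adjoint`: integrals (`inner_int`). `bergman_*`: `B u = 0` iff `u ⊥ A²`,
`⟨B u, a⟩ = ⟨u, a⟩` for `a ∈ A²`. -/

set_option autoImplicit false

namespace DN

open MeasureTheory Set Filter Topology ContDiff

variable {n : ℕ}

theorem BER_uniq {Ω : Set (Cn n)} (hΩ : IsOpen Ω) {B B' : L20 Ω →L[ℂ] L20 Ω}
    (hB : IsBergman Ω B) (hB' : IsBergman Ω B') : B' = B := by
  ext1 u
  obtain ⟨h1, h2⟩ := hB u
  obtain ⟨h1', h2'⟩ := hB' u
  have h3 : IsHol Ω (B' u - B u) := by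
    rw [← ker_dbar0 hΩ]
    have hK := (ABSA_ker (isClosedOp_dbar0 hΩ)).sub_mem
      ((ABSA_mem_ker (isClosedOp_dbar0 hΩ) (B' u)).mpr ((ker_dbar0 hΩ _).mpr h1'))
      ((ABSA_mem_ker (isClosedOp_dbar0 hΩ) (B u)).mpr ((ker_dbar0 hΩ _).mpr h1))
    exact hK
  have h4 := h2 _ h3
  have h5 := h2' _ h3
  have h6 : inner ℂ (B' u - B u) (B' u - B u) = 0 := by
    have e : B' u - B u = (u - B u) - (u - B' u) := by abel
    calc inner ℂ (B' u - B u) (B' u - B u)
        = inner ℂ (B' u - B u) ((u - B u) - (u - B' u)) := by rw [← e]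
      _ = 0 := by rw [inner_sub_right, h4, h5, sub_zero]
  rw [inner_self_eq_zero, sub_eq_zero] at h6
  exact h6

theorem exists_bergman {Ω : Set (Cn n)} (hΩ : IsOpen Ω) : ∃! B, IsBergman Ω B := by
  have hT := isClosedOp_dbar0 hΩ
  have : CompleteSpace (ABSA_ker hT) := (ABSA_ker_closed hT).completeSpace_coe
  have hB : IsBergman Ω (ABSA_ker hT).starProjection := by
    intro u
    refine ⟨?_, fun a ha => ?_⟩
    · rw [← ker_dbar0 hΩ, ← ABSA_mem_ker hT]
      exact Submodule.starProjection_apply_mem _ _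
    · have h1 := (ABSA_ker hT).sub_starProjection_mem_orthogonal u
      have h2 : a ∈ ABSA_ker hT := (ABSA_mem_ker hT a).mpr ((ker_dbar0 hΩ a).mpr ha)
      exact (Submodule.mem_orthogonal _ _).mp h1 a h2
  exact ⟨_, hB, fun B' hB' => BER_uniq hΩ hB hB'⟩

theorem BER_memLp {Ω : Set (Cn n)} (hΩ : IsOpen Ω) {ψ : Cn n → ℂ} {C : ℝ}
    (hψ : ContinuousOn ψ Ω) (hC : ∀ z ∈ Ω, ‖ψ z‖ ≤ C) (u : L20 Ω) :
    MemLp (fun z => ψ z * u z) 2 (volume.restrict Ω) := by
  refine (Lp.memLp u).of_le_mul (c := C)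
    ((hψ.aestronglyMeasurable hΩ.measurableSet).mul (Lp.aestronglyMeasurable u)) ?_
  filter_upwards [ae_restrict_mem hΩ.measurableSet] with z hz
  rw [norm_mul]
  exact mul_le_mul_of_nonneg_right (hC z hz) (norm_nonneg _)

theorem exists_mul {Ω : Set (Cn n)} (hΩ : IsOpen Ω) (hb : Bornology.IsBounded Ω) {ψ : Cn n → ℂ}
    (hψ : ContinuousOn ψ (closure Ω)) : ∃ M : L20 Ω →L[ℂ] L20 Ω, IsMul Ω ψ M := by
  obtain ⟨C, hC⟩ := hb.isCompact_closure.exists_bound_of_continuousOn hψ
  have hψ' : ContinuousOn ψ Ω := hψ.mono subset_closure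
  have hC' : ∀ z ∈ Ω, ‖ψ z‖ ≤ C := fun z hz => hC z (subset_closure hz)
  have hm := BER_memLp hΩ hψ' hC'
  let L : L20 Ω →ₗ[ℂ] L20 Ω :=
    { toFun := fun u => (hm u).toLp _
      map_add' := by
        intro u v
        rw [← MemLp.toLp_add]
        refine MemLp.toLp_congr _ _ ?_
        filter_upwards [Lp.coeFn_add u v] with z hz
        rw [hz, Pi.add_apply, Pi.add_apply]
        ring
      map_smul' := by
        intro c u
        rw [RingHom.id_apply, ← MemLp.toLp_const_smul]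
        refine MemLp.toLp_congr _ _ ?_
        filter_upwards [Lp.coeFn_smul c u] with z hz
        rw [hz, Pi.smul_apply, Pi.smul_apply, smul_eq_mul, smul_eq_mul]
        ring }
  have hL : ∀ u, ∀ᵐ z ∂(volume.restrict Ω), L u z = ψ z * u z := fun u => (hm u).coeFn_toLp
  refine ⟨L.mkContinuous C ?_, ?_⟩
  · intro u
    refine Lp.norm_le_mul_norm_of_ae_le_mul ?_
    filter_upwards [hL u, ae_restrict_mem hΩ.measurableSet] with z hz hz'
    rw [hz, norm_mul]
    exact mul_le_mul_of_nonneg_right (hC' z hz') (norm_nonneg _)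
  · intro u
    exact hL u

/-- multiplication by a real function is self-adjoint -/
theorem mul_adjoint {Ω : Set (Cn n)} {ψ : Cn n → ℝ} {M : L20 Ω →L[ℂ] L20 Ω}
    (hM : IsMul Ω (cx ψ) M) (u v : L20 Ω) : inner ℂ (M u) v = inner ℂ u (M v) := by
  rw [inner_int, inner_int]
  refine integral_congr_ae ?_
  filter_upwards [hM u, hM v] with z h1 h2
  rw [h1, h2]
  simp only [cx, map_mul, Complex.conj_ofReal]
  ring

theorem bergman_zero {Ω : Set (Cn n)} {B : L20 Ω →L[ℂ] L20 Ω} (hB : IsBergman Ω B) {u : L20 Ω}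
    (hu : ∀ a, IsHol Ω a → inner ℂ a u = 0) : B u = 0 := by
  obtain ⟨h1, h2⟩ := hB u
  have h3 := h2 _ h1
  rw [inner_sub_right, hu _ h1, zero_sub, neg_eq_zero, inner_self_eq_zero] at h3
  exact h3

theorem bergman_inner {Ω : Set (Cn n)} {B : L20 Ω →L[ℂ] L20 Ω} (hB : IsBergman Ω B)
    (u a : L20 Ω) (ha : IsHol Ω a) : inner ℂ (B u) a = inner ℂ u a := by
  have h1 := (hB u).2 a ha
  have h2 : inner ℂ (u - B u) a = 0 := by
    rw [← inner_conj_symm, h1, map_zero]
  rw [inner_sub_left, sub_eq_zero] at h2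
  exact h2.symm

end DN
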