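import Pool.Agent.H49.DN.Int

/-! # BRG: components of vector valued `L²` functions

`cmp j f` is the `j`-th component of `f ∈ L²(μ; ℂ^ι)`.

PROOFS. `EuclideanSpace.proj j : EuclideanSpace ℂ ι →L[ℂ] ℂ`, `ContinuousLinearMap.compLpL`,
`ContinuousLinearMap.coeFn_compLp`. `mk_memLp`: `MemLp` of `fun z => WithLp.toLp 2 (fun j => F j z)` (finite sums of
`MemLp.const_smul`-like terms, or `MemLp.of_le`/`memLp_pi`), then `MemLp.toLp`. `norm_sq`: `‖f‖² = ∫ ‖f z‖²`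
(`MeasureTheory.L2.inner_def`, `norm_sq_eq_re_inner`, or `MeasureTheory.Lp.norm_def`), `EuclideanSpace.norm_sq_eq`.
`inner_cmp`: `MeasureTheory.L2.inner_def`, `PiLp.inner_apply`, `integral_finset_sum`. -/

set_option autoImplicit false

namespace DN

open MeasureTheory Set Filter Topology

section

variable {Y ι : Type*} [MeasurableSpace Y] [Fintype ι] {μ : Measure Y}

/-- component -/
noncomputable def cmp (j : ι) : Lp (EuclideanSpace ℂ ι) 2 μ →L[ℂ] Lp ℂ 2 μ :=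
  ContinuousLinearMap.compLpL 2 μ (EuclideanSpace.proj j : EuclideanSpace ℂ ι →L[ℂ] ℂ)

theorem cmp_ae (j : ι) (f : Lp (EuclideanSpace ℂ ι) 2 μ) : ∀ᵐ z ∂μ, cmp j f z = f z j := by
  have h := ContinuousLinearMap.coeFn_compLpL (p := 2) (μ := μ)
    (EuclideanSpace.proj j : EuclideanSpace ℂ ι →L[ℂ] ℂ) f
  filter_upwards [h] with z hz
  exact hz

/-- every family of square integrable functions is the family of components of an element -/
theorem mk_memLp {F : ι → Y → ℂ} (hF : ∀ j, MemLp (F j) 2 μ) :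
    ∃ f : Lp (EuclideanSpace ℂ ι) 2 μ, ∀ᵐ z ∂μ, ∀ j, f z j = F j z := by
  have h : MemLp (fun z => (WithLp.toLp 2 (fun j => F j z) : EuclideanSpace ℂ ι)) 2 μ := by
    rw [memLp_piLp_iff]
    intro i
    exact hF i
  refine ⟨h.toLp _, ?_⟩
  filter_upwards [h.coeFn_toLp] with z hz j
  rw [hz]

theorem mk_lp (F : ι → Lp ℂ 2 μ) : ∃ f : Lp (EuclideanSpace ℂ ι) 2 μ, ∀ j, cmp j f = F j := by
  obtain ⟨f, hf⟩ := mk_memLp (F := fun j => (F j : Y → ℂ)) (μ := μ) fun j => Lp.memLp (F j)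
  refine ⟨f, fun j => ?_⟩
  apply Lp.ext
  filter_upwards [hf, cmp_ae j f] with z h1 h2
  rw [h2, h1 j]

theorem ext_cmp {f g : Lp (EuclideanSpace ℂ ι) 2 μ} (h : ∀ j, cmp j f = cmp j g) : f = g := by
  apply Lp.ext
  have h1 : ∀ᵐ z ∂μ, ∀ j, cmp j f z = f z j := ae_all_iff.2 fun j => cmp_ae j f
  have h2 : ∀ᵐ z ∂μ, ∀ j, cmp j g z = g z j := ae_all_iff.2 fun j => cmp_ae j g
  filter_upwards [h1, h2] with z h1 h2
  ext j
  rw [← h1 j, ← h2 j, h j]

private theorem BRG_norm {E : Type*} [NormedAddCommGroup E] [InnerProductSpace ℂ E]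
    (f : Lp E 2 μ) : ‖f‖ ^ 2 = ∫ z, ‖f z‖ ^ 2 ∂μ := by
  have h1 : inner ℂ f f = ∫ z, ((‖f z‖ ^ 2 : ℝ) : ℂ) ∂μ := by
    rw [L2.inner_def]
    refine integral_congr_ae (Eventually.of_forall fun z => ?_)
    show inner ℂ (f z) (f z) = _
    rw [inner_self_eq_norm_sq_to_K]
    push_cast
    rfl
  apply Complex.ofReal_injective
  rw [← integral_complex_ofReal, ← h1, inner_self_eq_norm_sq_to_K]
  push_cast
  rfl

private theorem BRG_inner (f g : Lp (EuclideanSpace ℂ ι) 2 μ) :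
    inner ℂ f g = ∑ j, inner ℂ (cmp j f) (cmp j g) := by
  have h1 : ∀ᵐ z ∂μ, ∀ j, cmp j f z = f z j := ae_all_iff.2 fun j => cmp_ae j f
  have h2 : ∀ᵐ z ∂μ, ∀ j, cmp j g z = g z j := ae_all_iff.2 fun j => cmp_ae j g
  have h3 : ∀ j, inner ℂ (cmp j f) (cmp j g) =
      ∫ z, inner ℂ ((cmp j f : Y → ℂ) z) ((cmp j g : Y → ℂ) z) ∂μ := fun j => L2.inner_def _ _
  simp_rw [h3]
  rw [L2.inner_def, ← integral_finsetSum]
  · refine integral_congr_ae ?_
    filter_upwards [h1, h2] with z h1 h2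
    rw [PiLp.inner_apply]
    refine Finset.sum_congr rfl fun j _ => ?_
    rw [h1 j, h2 j]
  · intro j _
    exact L2.integrable_inner _ _

theorem norm_sq_cmp (f : Lp (EuclideanSpace ℂ ι) 2 μ) : ‖f‖ ^ 2 = ∑ j, ‖cmp j f‖ ^ 2 := by
  have h : (((‖f‖ ^ 2 : ℝ)) : ℂ) = ((∑ j, ‖cmp j f‖ ^ 2 : ℝ) : ℂ) := by
    have h1 := BRG_inner f f
    rw [inner_self_eq_norm_sq_to_K] at h1
    push_cast
    refine h1.trans ?_
    refine Finset.sum_congr rfl fun j _ => ?_
    rw [inner_self_eq_norm_sq_to_K]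
    rfl
  exact_mod_cast h

theorem norm_sq_int (u : Lp ℂ 2 μ) : ‖u‖ ^ 2 = ∫ z, ‖u z‖ ^ 2 ∂μ := by
  exact BRG_norm u

theorem norm_sq_int' (f : Lp (EuclideanSpace ℂ ι) 2 μ) :
    ‖f‖ ^ 2 = ∫ z, ∑ j, ‖f z j‖ ^ 2 ∂μ := by
  rw [BRG_norm f]
  refine integral_congr_ae (Eventually.of_forall fun z => ?_)
  exact EuclideanSpace.norm_sq_eq _

theorem inner_cmp (f g : Lp (EuclideanSpace ℂ ι) 2 μ) :
    inner ℂ f g = ∑ j, inner ℂ (cmp j f) (cmp j g) := by
  exact BRG_inner f g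

theorem inner_int (u v : Lp ℂ 2 μ) :
    inner ℂ u v = ∫ z, (starRingEnd ℂ) (u z) * v z ∂μ := by
  rw [L2.inner_def]
  refine integral_congr_ae (Eventually.of_forall fun z => ?_)
  show inner ℂ (u z) (v z) = _
  rw [RCLike.inner_apply]
  ring

/-- the components, as a continuous map, have a continuous inverse -/
theorem exists_mkL : ∃ Φ : (ι → Lp ℂ 2 μ) →L[ℂ] Lp (EuclideanSpace ℂ ι) 2 μ,
    (∀ F j, cmp j (Φ F) = F j) ∧ ∀ f, Φ (fun j => cmp j f) = f := by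
  classical
  refine ⟨∑ j, (ContinuousLinearMap.compLpL 2 μ
    ((ContinuousLinearMap.id ℂ ℂ).smulRight (EuclideanSpace.single j (1:ℂ)))).comp
    (ContinuousLinearMap.proj j), ?_⟩
  have key : ∀ (F : ι → Lp ℂ 2 μ) (i : ι), cmp i ((∑ j, (ContinuousLinearMap.compLpL 2 μ
    ((ContinuousLinearMap.id ℂ ℂ).smulRight (EuclideanSpace.single j (1:ℂ)))).comp
    (ContinuousLinearMap.proj j) :
      (ι → Lp ℂ 2 μ) →L[ℂ] Lp (EuclideanSpace ℂ ι) 2 μ) F) = F i := by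
    intro F i
    rw [_root_.sum_apply, map_sum]
    rw [Finset.sum_eq_single i]
    · rw [ContinuousLinearMap.comp_apply, ContinuousLinearMap.proj_apply]
      apply Lp.ext
      have h1 := ContinuousLinearMap.coeFn_compLpL (p := 2) (μ := μ)
        ((ContinuousLinearMap.id ℂ ℂ).smulRight (EuclideanSpace.single i (1:ℂ))) (F i)
      filter_upwards [cmp_ae i _, h1] with z h2 h3
      rw [h2, h3]
      simp
    · intro j _ hj
      rw [ContinuousLinearMap.comp_apply, ContinuousLinearMap.proj_apply]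
      apply Lp.ext
      have h1 := ContinuousLinearMap.coeFn_compLpL (p := 2) (μ := μ)
        ((ContinuousLinearMap.id ℂ ℂ).smulRight (EuclideanSpace.single j (1:ℂ))) (F j)
      filter_upwards [cmp_ae i _, h1, Lp.coeFn_zero ℂ 2 μ] with z h2 h3 h4
      rw [h2, h3, h4]
      simp [hj.symm]
    · simp
  refine ⟨key, fun f => ?_⟩
  apply ext_cmp
  intro i
  exact key _ i

end

end DN
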