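import Pool.Agent.H49.DN.Int

/-! # CALA: first order calculus for `dbar`, `dd`

PROOFS. Unfold `dbar`, `dd` and use the rules for `fderiv ℝ` (`fderiv_add`, `fderiv_mul`, ...; `conj` is
`Complex.conjCLE`, real linear; `conj I = -I`). `dbar_comp`: `fderiv` of `fun w => ((g (v w) : ℝ) : ℂ)` is
`deriv g (v z) •` the one of `fun w => (v w : ℂ)` (`Complex.ofRealCLM`, `HasDerivAt.scomp`/`comp_hasFDerivAt`).
`dbar_nsq`: `nsq (w - p) = ∑ (w_j - p_j) * conj (w_j - p_j)`; `dbar j (fun w => w k) = 0`,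
`dbar j (fun w => conj (w k)) = if j = k then 1 else 0`, `dd j (fun w => w k) = if j = k then 1 else 0`. -/

set_option autoImplicit false

namespace DN

open MeasureTheory Set Filter Topology ContDiff

variable {n : ℕ}

theorem dbar_congr {u v : Cn n → ℂ} {z : Cn n} (h : u =ᶠ[𝓝 z] v) (j : Fin n) :
    dbar j u z = dbar j v z := by
  unfold dbar
  rw [h.fderiv_eq]

theorem dd_congr {u v : Cn n → ℂ} {z : Cn n} (h : u =ᶠ[𝓝 z] v) (j : Fin n) :
    dd j u z = dd j v z := by
  unfold dd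
  rw [h.fderiv_eq]

theorem dbar_const (c : ℂ) (j : Fin n) (z : Cn n) : dbar j (fun _ => c) z = 0 := by
  unfold dbar
  simp

theorem dd_const (c : ℂ) (j : Fin n) (z : Cn n) : dd j (fun _ => c) z = 0 := by
  unfold dd
  simp

theorem dbar_add {u v : Cn n → ℂ} {z : Cn n} (hu : DifferentiableAt ℝ u z)
    (hv : DifferentiableAt ℝ v z) (j : Fin n) :
    dbar j (fun w => u w + v w) z = dbar j u z + dbar j v z := by
  unfold dbar
  rw [fderiv_fun_add hu hv]
  simp only [add_apply]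
  ring

theorem dd_add {u v : Cn n → ℂ} {z : Cn n} (hu : DifferentiableAt ℝ u z)
    (hv : DifferentiableAt ℝ v z) (j : Fin n) :
    dd j (fun w => u w + v w) z = dd j u z + dd j v z := by
  unfold dd
  rw [fderiv_fun_add hu hv]
  simp only [add_apply]
  ring

theorem dbar_sub {u v : Cn n → ℂ} {z : Cn n} (hu : DifferentiableAt ℝ u z)
    (hv : DifferentiableAt ℝ v z) (j : Fin n) :
    dbar j (fun w => u w - v w) z = dbar j u z - dbar j v z := by
  unfold dbar
  rw [fderiv_fun_sub hu hv]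
  simp only [sub_apply]
  ring

theorem dd_sub {u v : Cn n → ℂ} {z : Cn n} (hu : DifferentiableAt ℝ u z)
    (hv : DifferentiableAt ℝ v z) (j : Fin n) :
    dd j (fun w => u w - v w) z = dd j u z - dd j v z := by
  unfold dd
  rw [fderiv_fun_sub hu hv]
  simp only [sub_apply]
  ring

theorem dbar_mul {u v : Cn n → ℂ} {z : Cn n} (hu : DifferentiableAt ℝ u z)
    (hv : DifferentiableAt ℝ v z) (j : Fin n) :
    dbar j (fun w => u w * v w) z = dbar j u z * v z + u z * dbar j v z := by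
  unfold dbar
  rw [fderiv_fun_mul hu hv]
  simp only [add_apply, smul_apply, smul_eq_mul]
  ring

theorem dd_mul {u v : Cn n → ℂ} {z : Cn n} (hu : DifferentiableAt ℝ u z)
    (hv : DifferentiableAt ℝ v z) (j : Fin n) :
    dd j (fun w => u w * v w) z = dd j u z * v z + u z * dd j v z := by
  unfold dd
  rw [fderiv_fun_mul hu hv]
  simp only [add_apply, smul_apply, smul_eq_mul]
  ring

theorem CALA_conj {u : Cn n → ℂ} {z : Cn n} (hu : DifferentiableAt ℝ u z) (e : Cn n) :
    fderiv ℝ (fun w => (starRingEnd ℂ) (u w)) z e = (starRingEnd ℂ) (fderiv ℝ u z e) := by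
  have h := (Complex.conjCLE.toContinuousLinearMap.hasFDerivAt (x := u z)).comp z hu.hasFDerivAt
  have h2 : HasFDerivAt (fun w => (starRingEnd ℂ) (u w))
      (Complex.conjCLE.toContinuousLinearMap.comp (fderiv ℝ u z)) z := h
  rw [h2.fderiv]
  rfl

theorem dbar_conj {u : Cn n → ℂ} {z : Cn n} (hu : DifferentiableAt ℝ u z) (j : Fin n) :
    dbar j (fun w => (starRingEnd ℂ) (u w)) z = (starRingEnd ℂ) (dd j u z) := by
  unfold dbar dd
  rw [CALA_conj hu, CALA_conj hu]
  simp only [map_mul, map_sub, Complex.conj_I, map_div₀, map_one, map_ofNat]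
  ring

theorem dd_conj {u : Cn n → ℂ} {z : Cn n} (hu : DifferentiableAt ℝ u z) (j : Fin n) :
    dd j (fun w => (starRingEnd ℂ) (u w)) z = (starRingEnd ℂ) (dbar j u z) := by
  unfold dbar dd
  rw [CALA_conj hu, CALA_conj hu]
  simp only [map_mul, map_add, Complex.conj_I, map_div₀, map_one, map_ofNat]
  ring

theorem CALA_cx {v : Cn n → ℝ} {z : Cn n} {L : Cn n →L[ℝ] ℝ} (hv : HasFDerivAt v L z)
    (e : Cn n) : fderiv ℝ (cx v) z e = ((L e : ℝ) : ℂ) := by
  have h := (Complex.ofRealCLM.hasFDerivAt (x := v z)).comp z hv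
  have h2 : HasFDerivAt (cx v) (Complex.ofRealCLM.comp L) z := h
  rw [h2.fderiv]
  rfl

theorem CALA_comp {g : ℝ → ℝ} {v : Cn n → ℝ} {z : Cn n} (hv : DifferentiableAt ℝ v z)
    (hg : DifferentiableAt ℝ g (v z)) (e : Cn n) :
    fderiv ℝ (cx (fun w => g (v w))) z e =
      ((deriv g (v z) : ℝ) : ℂ) * fderiv ℝ (cx v) z e := by
  have h1 : HasFDerivAt (fun w => g (v w)) (deriv g (v z) • fderiv ℝ v z) z :=
    hg.hasDerivAt.comp_hasFDerivAt z hv.hasFDerivAt
  rw [CALA_cx h1, CALA_cx hv.hasFDerivAt]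
  simp only [smul_apply, smul_eq_mul, Complex.ofReal_mul]

theorem dbar_comp {g : ℝ → ℝ} {v : Cn n → ℝ} {z : Cn n} (hv : DifferentiableAt ℝ v z)
    (hg : DifferentiableAt ℝ g (v z)) (j : Fin n) :
    dbar j (cx (fun w => g (v w))) z = ((deriv g (v z) : ℝ) : ℂ) * dbar j (cx v) z := by
  unfold dbar
  rw [CALA_comp hv hg, CALA_comp hv hg]
  ring

theorem dd_comp {g : ℝ → ℝ} {v : Cn n → ℝ} {z : Cn n} (hv : DifferentiableAt ℝ v z)
    (hg : DifferentiableAt ℝ g (v z)) (j : Fin n) :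
    dd j (cx (fun w => g (v w))) z = ((deriv g (v z) : ℝ) : ℂ) * dd j (cx v) z := by
  unfold dd
  rw [CALA_comp hv hg, CALA_comp hv hg]
  ring

theorem CALA_nsq (M : ℝ) (p z : Cn n) (j : Fin n) (c : ℂ) :
    fderiv ℝ (cx (fun w => M * nsq (w - p))) z (Pi.single j c) =
      ((M * (2 * (c * (starRingEnd ℂ) (z j - p j)).re) : ℝ) : ℂ) := by
  have h1 : ∀ k : Fin n, HasFDerivAt (fun w : Cn n => w k - p k)
      (ContinuousLinearMap.proj (R := ℝ) (φ := fun _ : Fin n => ℂ) k) z := by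
    intro k
    exact (ContinuousLinearMap.proj (R := ℝ) (φ := fun _ : Fin n => ℂ) k).hasFDerivAt.sub_const _
  have h2 := HasFDerivAt.fun_sum (u := Finset.univ) (fun k (_ : k ∈ Finset.univ) => (h1 k).norm_sq)
  have h3 := h2.const_mul M
  have h4 : HasFDerivAt (fun w : Cn n => M * nsq (w - p)) _ z := h3
  rw [CALA_cx h4]
  congr 1
  simp only [smul_apply, sum_apply, smul_eq_mul,
    ContinuousLinearMap.comp_apply, ContinuousLinearMap.proj_apply, innerSL_apply_apply,
    Complex.inner, nsmul_eq_mul]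
  congr 1
  rw [Finset.sum_eq_single j]
  · simp
  · intro k _ hk
    simp [Pi.single_eq_of_ne hk]
  · intro h
    exact absurd (Finset.mem_univ j) h

theorem dbar_nsq (M : ℝ) (p : Cn n) (j : Fin n) (z : Cn n) :
    dbar j (cx (fun w => M * nsq (w - p))) z = (M : ℂ) * (z j - p j) := by
  unfold dbar
  rw [CALA_nsq, CALA_nsq]
  apply Complex.ext <;> simp <;> ring

theorem dd_nsq (M : ℝ) (p : Cn n) (j : Fin n) (z : Cn n) :
    dd j (cx (fun w => M * nsq (w - p))) z = (M : ℂ) * (starRingEnd ℂ) (z j - p j) := by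
  unfold dd
  rw [CALA_nsq, CALA_nsq]
  apply Complex.ext <;> simp <;> ring

theorem contDiff_nsq (M : ℝ) (p : Cn n) : ContDiff ℝ ∞ (fun w : Cn n => M * nsq (w - p)) := by
  unfold nsq
  refine contDiff_const.mul (ContDiff.sum fun j _ => ?_)
  exact ((contDiff_apply ℝ ℂ j).sub contDiff_const).norm_sq ℝ

end DN
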