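import Pool.Agent.H49.DN.CALA

/-! # CALB: second order calculus, supports, the Levi form

PROOFS. `fderiv ℝ u` is `C^m` if `u` is `C^{m+1}` (`ContDiffAt.fderiv_right`), evaluation at a fixed vector is
continuous linear. Supports: `tsupport_fderiv_subset`. Symmetry of the second derivative:
`ContDiffAt.isSymmSndFDerivAt` (`minSmoothness ℝ 2 = 2`); `fderiv ℝ (fun w => fderiv ℝ u w a) z b =
fderiv ℝ (fderiv ℝ u) z b a`. `levi_add`, `levi_nsq`, `levi_comp`: from CALA (`dbar_comp`, `dd_comp`, `dd_mul`);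
`levi_comp`: `dbar k (cx (g ∘ v)) = g'(v) dbar k (cx v)` near `z`, `dd j` of the product
`= g''(v) dd j (cx v) dbar k (cx v) + g'(v) dd j (dbar k (cx v))`; `dbar k (cx v) = conj (dd k (cx v))`. -/

set_option autoImplicit false

namespace DN

open MeasureTheory Set Filter Topology ContDiff

variable {n : ℕ}

theorem contDiff_dbar {u : Cn n → ℂ} (hu : ContDiff ℝ ∞ u) (j : Fin n) :
    ContDiff ℝ ∞ (dbar j u) := by
  have h : ContDiff ℝ ∞ (fderiv ℝ u) := hu.fderiv_right (by simp)
  unfold dbar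
  exact contDiff_const.mul ((h.clm_apply contDiff_const).add
    (contDiff_const.mul (h.clm_apply contDiff_const)))

theorem contDiff_dd {u : Cn n → ℂ} (hu : ContDiff ℝ ∞ u) (j : Fin n) :
    ContDiff ℝ ∞ (dd j u) := by
  have h : ContDiff ℝ ∞ (fderiv ℝ u) := hu.fderiv_right (by simp)
  unfold dd
  exact contDiff_const.mul ((h.clm_apply contDiff_const).sub
    (contDiff_const.mul (h.clm_apply contDiff_const)))

theorem contDiffAt_dbar {u : Cn n → ℂ} {z : Cn n} {m : ℕ} (hu : ContDiffAt ℝ (m + 1) u z)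
    (j : Fin n) : ContDiffAt ℝ m (dbar j u) z := by
  have h : ContDiffAt ℝ m (fderiv ℝ u) z := hu.fderiv_right le_rfl
  unfold dbar
  exact contDiffAt_const.mul ((h.clm_apply contDiffAt_const).add
    (contDiffAt_const.mul (h.clm_apply contDiffAt_const)))

theorem contDiffAt_dd {u : Cn n → ℂ} {z : Cn n} {m : ℕ} (hu : ContDiffAt ℝ (m + 1) u z)
    (j : Fin n) : ContDiffAt ℝ m (dd j u) z := by
  have h : ContDiffAt ℝ m (fderiv ℝ u) z := hu.fderiv_right le_rfl
  unfold dd
  exact contDiffAt_const.mul ((h.clm_apply contDiffAt_const).sub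
    (contDiffAt_const.mul (h.clm_apply contDiffAt_const)))

theorem CALB_supp_dbar (u : Cn n → ℂ) (j : Fin n) : Function.support (dbar j u) ⊆ tsupport u := by
  intro z hz
  refine support_fderiv_subset ℝ (f := u) ?_
  intro h
  apply hz
  simp [dbar, h]

theorem CALB_supp_dd (u : Cn n → ℂ) (j : Fin n) : Function.support (dd j u) ⊆ tsupport u := by
  intro z hz
  refine support_fderiv_subset ℝ (f := u) ?_
  intro h
  apply hz
  simp [dd, h]

theorem tsupport_dbar (u : Cn n → ℂ) (j : Fin n) : tsupport (dbar j u) ⊆ tsupport u :=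
  closure_minimal (CALB_supp_dbar u j) (isClosed_tsupport u)

theorem tsupport_dd (u : Cn n → ℂ) (j : Fin n) : tsupport (dd j u) ⊆ tsupport u :=
  closure_minimal (CALB_supp_dd u j) (isClosed_tsupport u)

theorem Test.dbar {Ω : Set (Cn n)} {u : Cn n → ℂ} (hu : Test Ω u) (j : Fin n) :
    Test Ω (dbar j u) :=
  ⟨contDiff_dbar hu.smooth j, hu.supp.mono' (CALB_supp_dbar u j),
    (tsupport_dbar u j).trans hu.sub⟩

theorem Test.dd {Ω : Set (Cn n)} {u : Cn n → ℂ} (hu : Test Ω u) (j : Fin n) :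
    Test Ω (dd j u) :=
  ⟨contDiff_dd hu.smooth j, hu.supp.mono' (CALB_supp_dd u j),
    (tsupport_dd u j).trans hu.sub⟩

theorem Test.conj {Ω : Set (Cn n)} {u : Cn n → ℂ} (hu : Test Ω u) :
    Test Ω (fun z => (starRingEnd ℂ) (u z)) := by
  have hs : Function.support (fun z => (starRingEnd ℂ) (u z)) = Function.support u := by
    ext z
    simp [Function.mem_support]
  have ht : tsupport (fun z => (starRingEnd ℂ) (u z)) = tsupport u := by
    unfold tsupport
    rw [hs]
  refine ⟨Complex.conjCLE.contDiff.comp hu.smooth, ?_, ?_⟩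
  · have := hu.supp
    unfold HasCompactSupport at this ⊢
    rw [ht]
    exact this
  · rw [ht]
    exact hu.sub

/-- product of a test function with a function which is smooth near its support -/
theorem Test.mul {Ω D : Set (Cn n)} {u v : Cn n → ℂ} (hu : Test Ω u) (hD : IsOpen D)
    (hv : ContDiffOn ℝ ∞ v D) (hsub : tsupport u ⊆ D) : Test Ω (fun z => v z * u z) := by
  refine ⟨?_, ?_, ?_⟩
  · rw [contDiff_iff_contDiffAt]
    intro z
    by_cases hz : z ∈ tsupport u
    · exact (hv.contDiffAt (hD.mem_nhds (hsub hz))).mul hu.smooth.contDiffAt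
    · have h1 : (fun z => v z * u z) =ᶠ[𝓝 z] fun _ => 0 := by
        filter_upwards [(isClosed_tsupport u).isOpen_compl.mem_nhds hz] with w hw
        rw [image_eq_zero_of_notMem_tsupport hw, mul_zero]
      exact contDiffAt_const.congr_of_eventuallyEq h1
  · exact hu.supp.mul_left
  · exact (tsupport_mul_subset_right (f := v) (g := u)).trans hu.sub

/-! ### second derivatives -/

theorem CALB_fd {u : Cn n → ℂ} {z : Cn n} (hu : ContDiffAt ℝ 2 u z) :
    DifferentiableAt ℝ (fderiv ℝ u) z :=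
  (hu.fderiv_right (m := 1) (by norm_num)).differentiableAt one_ne_zero

theorem CALB_fa {u : Cn n → ℂ} {z : Cn n} (hu : ContDiffAt ℝ 2 u z) (a b : Cn n) :
    fderiv ℝ (fun w => fderiv ℝ u w a) z b = fderiv ℝ (fderiv ℝ u) z b a := by
  rw [fderiv_clm_apply (CALB_fd hu) (differentiableAt_const a)]
  simp

theorem CALB_dfa {u : Cn n → ℂ} {z : Cn n} (hu : ContDiffAt ℝ 2 u z) (a : Cn n) :
    DifferentiableAt ℝ (fun w => fderiv ℝ u w a) z :=
  (CALB_fd hu).clm_apply (differentiableAt_const a)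

theorem CALB_dbar {u : Cn n → ℂ} {z : Cn n} (hu : ContDiffAt ℝ 2 u z) (j : Fin n) (b : Cn n) :
    fderiv ℝ (dbar j u) z b = 1 / 2 * (fderiv ℝ (fderiv ℝ u) z b (Pi.single j 1) +
      Complex.I * fderiv ℝ (fderiv ℝ u) z b (Pi.single j Complex.I)) := by
  have h1 := CALB_dfa hu (Pi.single j 1)
  have h2 := CALB_dfa hu (Pi.single j Complex.I)
  have e : dbar j u = fun w => 1 / 2 * (fderiv ℝ u w (Pi.single j 1) +
      Complex.I * fderiv ℝ u w (Pi.single j Complex.I)) := rfl
  have h3 : HasFDerivAt (fun w => 1 / 2 * (fderiv ℝ u w (Pi.single j 1) +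
      Complex.I * fderiv ℝ u w (Pi.single j Complex.I))) _ z :=
    (h1.hasFDerivAt.add (h2.hasFDerivAt.const_mul Complex.I)).const_mul (1 / 2 : ℂ)
  rw [e, h3.fderiv]
  simp only [ContinuousLinearMap.smul_apply, ContinuousLinearMap.add_apply, smul_eq_mul]
  rw [CALB_fa hu, CALB_fa hu]

theorem CALB_dd {u : Cn n → ℂ} {z : Cn n} (hu : ContDiffAt ℝ 2 u z) (j : Fin n) (b : Cn n) :
    fderiv ℝ (dd j u) z b = 1 / 2 * (fderiv ℝ (fderiv ℝ u) z b (Pi.single j 1) -
      Complex.I * fderiv ℝ (fderiv ℝ u) z b (Pi.single j Complex.I)) := by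
  have h1 := CALB_dfa hu (Pi.single j 1)
  have h2 := CALB_dfa hu (Pi.single j Complex.I)
  have e : dd j u = fun w => 1 / 2 * (fderiv ℝ u w (Pi.single j 1) -
      Complex.I * fderiv ℝ u w (Pi.single j Complex.I)) := rfl
  have h3 : HasFDerivAt (fun w => 1 / 2 * (fderiv ℝ u w (Pi.single j 1) -
      Complex.I * fderiv ℝ u w (Pi.single j Complex.I))) _ z :=
    (h1.hasFDerivAt.sub (h2.hasFDerivAt.const_mul Complex.I)).const_mul (1 / 2 : ℂ)
  rw [e, h3.fderiv]
  simp only [ContinuousLinearMap.smul_apply, ContinuousLinearMap.sub_apply, smul_eq_mul]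
  rw [CALB_fa hu, CALB_fa hu]

theorem CALB_symm {u : Cn n → ℂ} {z : Cn n} (hu : ContDiffAt ℝ 2 u z) (a b : Cn n) :
    fderiv ℝ (fderiv ℝ u) z a b = fderiv ℝ (fderiv ℝ u) z b a :=
  (hu.isSymmSndFDerivAt (by simp)).eq a b

theorem dbar_dd_comm {u : Cn n → ℂ} {z : Cn n} (hu : ContDiffAt ℝ 2 u z) (j k : Fin n) :
    dbar k (dd j u) z = dd j (dbar k u) z := by
  have h1 : dbar k (dd j u) z = 1 / 2 * (fderiv ℝ (dd j u) z (Pi.single k 1) +
    Complex.I * fderiv ℝ (dd j u) z (Pi.single k Complex.I)) := rfl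
  have h2 : dd j (dbar k u) z = 1 / 2 * (fderiv ℝ (dbar k u) z (Pi.single j 1) -
    Complex.I * fderiv ℝ (dbar k u) z (Pi.single j Complex.I)) := rfl
  rw [h1, h2, CALB_dd hu, CALB_dd hu, CALB_dbar hu, CALB_dbar hu,
    CALB_symm hu (Pi.single k 1) (Pi.single j 1),
    CALB_symm hu (Pi.single k 1) (Pi.single j Complex.I),
    CALB_symm hu (Pi.single k Complex.I) (Pi.single j 1),
    CALB_symm hu (Pi.single k Complex.I) (Pi.single j Complex.I)]
  ring

theorem dbar_dbar_comm {u : Cn n → ℂ} {z : Cn n} (hu : ContDiffAt ℝ 2 u z) (j k : Fin n) :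
    dbar k (dbar j u) z = dbar j (dbar k u) z := by
  have h1 : dbar k (dbar j u) z = 1 / 2 * (fderiv ℝ (dbar j u) z (Pi.single k 1) +
    Complex.I * fderiv ℝ (dbar j u) z (Pi.single k Complex.I)) := rfl
  have h2 : dbar j (dbar k u) z = 1 / 2 * (fderiv ℝ (dbar k u) z (Pi.single j 1) +
    Complex.I * fderiv ℝ (dbar k u) z (Pi.single j Complex.I)) := rfl
  rw [h1, h2, CALB_dbar hu, CALB_dbar hu, CALB_dbar hu, CALB_dbar hu,
    CALB_symm hu (Pi.single k 1) (Pi.single j 1),
    CALB_symm hu (Pi.single k 1) (Pi.single j Complex.I),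
    CALB_symm hu (Pi.single k Complex.I) (Pi.single j 1),
    CALB_symm hu (Pi.single k Complex.I) (Pi.single j Complex.I)]
  ring

/-! ### the Levi form -/

theorem CALB_cx_congr {u v : Cn n → ℝ} {z : Cn n} (h : u =ᶠ[𝓝 z] v) : cx u =ᶠ[𝓝 z] cx v := by
  filter_upwards [h] with w hw
  unfold cx
  rw [hw]

theorem CALB_cx {v : Cn n → ℝ} {z : Cn n} {m : WithTop ℕ∞} (hv : ContDiffAt ℝ m v z) :
    ContDiffAt ℝ m (cx v) z :=
  Complex.ofRealCLM.contDiff.contDiffAt.comp z hv

theorem CALB_cxd {v : Cn n → ℝ} {z : Cn n} (hv : DifferentiableAt ℝ v z) :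
    DifferentiableAt ℝ (cx v) z :=
  Complex.ofRealCLM.differentiableAt.comp z hv

theorem CALB_dbard {v : Cn n → ℝ} {z : Cn n} (hv : ContDiffAt ℝ 2 v z) (k : Fin n) :
    DifferentiableAt ℝ (dbar k (cx v)) z := by
  have h := contDiffAt_dbar (m := 1) (j := k) (u := cx v) (z := z) (by
    have := CALB_cx hv
    norm_num
    exact this)
  exact h.differentiableAt (by simp)

theorem CALB_evd {v : Cn n → ℝ} {z : Cn n} (hv : ContDiffAt ℝ 2 v z) :
    ∀ᶠ w in 𝓝 z, DifferentiableAt ℝ v w := by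
  filter_upwards [hv.eventually (by simp)] with w hw
  exact hw.differentiableAt (by simp)

theorem levi_congr {u v : Cn n → ℝ} {z : Cn n} (h : u =ᶠ[𝓝 z] v) (a : Fin n → ℂ) :
    levi u z a = levi v z a := by
  have h1 : ∀ k, dbar k (cx u) =ᶠ[𝓝 z] dbar k (cx v) := by
    intro k
    filter_upwards [h.eventuallyEq_nhds] with w hw
    exact dbar_congr (CALB_cx_congr hw) k
  have h2 : ∀ j k, dd j (dbar k (cx u)) z = dd j (dbar k (cx v)) z := fun j k =>
    dd_congr (h1 k) j
  unfold levi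
  simp only [h2]

theorem levi_add {u v : Cn n → ℝ} {z : Cn n} (hu : ContDiffAt ℝ 2 u z)
    (hv : ContDiffAt ℝ 2 v z) (a : Fin n → ℂ) :
    levi (fun w => u w + v w) z a = levi u z a + levi v z a := by
  have h0 : cx (fun w => u w + v w) = fun w => cx u w + cx v w := by
    funext w
    simp [cx]
  have h1 : ∀ k, dbar k (cx (fun w => u w + v w)) =ᶠ[𝓝 z]
      fun w => dbar k (cx u) w + dbar k (cx v) w := by
    intro k
    filter_upwards [CALB_evd hu, CALB_evd hv] with w h1 h2
    rw [h0, dbar_add (CALB_cxd h1) (CALB_cxd h2)]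
  have h2 : ∀ j k, dd j (dbar k (cx (fun w => u w + v w))) z =
      dd j (dbar k (cx u)) z + dd j (dbar k (cx v)) z := fun j k => by
    rw [dd_congr (h1 k) j, dd_add (CALB_dbard hu k) (CALB_dbard hv k)]
  unfold levi
  simp only [h2]
  rw [← Complex.add_re, ← Finset.sum_add_distrib]
  congr 1
  refine Finset.sum_congr rfl fun j _ => ?_
  rw [← Finset.sum_add_distrib]
  exact Finset.sum_congr rfl fun k _ => by ring

theorem levi_const (c : ℝ) (z : Cn n) (a : Fin n → ℂ) : levi (fun _ => c) z a = 0 := by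
  have h0 : cx (fun _ : Cn n => c) = fun _ => (c : ℂ) := rfl
  have h1 : ∀ k : Fin n, dbar k (cx (fun _ : Cn n => c)) = fun _ => 0 := by
    intro k
    funext w
    rw [h0, dbar_const]
  unfold levi
  simp only [h1, dd_const]
  simp

theorem CALB_dd_lin (M c : ℂ) (j k : Fin n) (z : Cn n) :
    dd j (fun w : Cn n => M * (w k - c)) z = if j = k then M else 0 := by
  have h1 : ∀ b : Cn n, fderiv ℝ (fun w : Cn n => M * (w k - c)) z b = M * b k := by
    intro b
    have h2 : HasFDerivAt (fun w : Cn n => w k) (ContinuousLinearMap.proj (R := ℝ) k) z :=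
      hasFDerivAt_apply k z
    have h3 := (h2.sub_const c).const_mul M
    rw [h3.fderiv]
    simp
  unfold dd
  rw [h1, h1]
  split_ifs with h
  · subst h
    rw [Pi.single_eq_same, Pi.single_eq_same]
    linear_combination (-1 / 2 * M) * Complex.I_mul_I
  · rw [Pi.single_eq_of_ne (Ne.symm h), Pi.single_eq_of_ne (Ne.symm h)]
    ring

theorem levi_nsq (M : ℝ) (p z : Cn n) (a : Fin n → ℂ) :
    levi (fun w => M * nsq (w - p)) z a = M * nsq a := by
  have h1 : ∀ k, dbar k (cx (fun w : Cn n => M * nsq (w - p))) =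
      fun w : Cn n => (M : ℂ) * (w k - p k) := fun k => by
    funext w
    exact dbar_nsq M p k w
  unfold levi
  simp only [h1, CALB_dd_lin]
  have h2 : (∑ j, ∑ k, (if j = k then (M : ℂ) else 0) * a j * (starRingEnd ℂ) (a k)) =
      ((M * nsq a : ℝ) : ℂ) := by
    unfold nsq
    push_cast
    rw [Finset.mul_sum]
    refine Finset.sum_congr rfl fun j _ => ?_
    rw [Finset.sum_eq_single j]
    · rw [if_pos rfl, mul_assoc, Complex.mul_conj, Complex.normSq_eq_norm_sq]
      push_cast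
      rfl
    · intro k _ hk
      rw [if_neg (Ne.symm hk)]
      ring
    · intro h
      exact absurd (Finset.mem_univ j) h
  rw [h2, Complex.ofReal_re]

theorem CALB_dbar_real {v : Cn n → ℝ} {z : Cn n} (hv : DifferentiableAt ℝ v z) (k : Fin n) :
    dbar k (cx v) z = (starRingEnd ℂ) (dd k (cx v) z) := by
  rw [← dbar_conj (CALB_cxd hv)]
  congr 1
  funext w
  unfold cx
  rw [Complex.conj_ofReal]

theorem levi_comp {g : ℝ → ℝ} {v : Cn n → ℝ} {z : Cn n} (hv : ContDiffAt ℝ 2 v z)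
    (hg : ContDiffAt ℝ 2 g (v z)) (a : Fin n → ℂ) :
    levi (fun w => g (v w)) z a = deriv g (v z) * levi v z a +
      deriv (deriv g) (v z) * ‖∑ j, dd j (cx v) z * a j‖ ^ 2 := by
  have hvd : DifferentiableAt ℝ v z := hv.differentiableAt (by simp)
  have hgev : ∀ᶠ x in 𝓝 (v z), DifferentiableAt ℝ g x := by
    filter_upwards [hg.eventually (by simp)] with w hw
    exact hw.differentiableAt (by simp)
  have hgd : DifferentiableAt ℝ (deriv g) (v z) := by
    have h1 : DifferentiableAt ℝ (fderiv ℝ g) (v z) :=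
      (hg.fderiv_right (m := 1) (by norm_num)).differentiableAt one_ne_zero
    exact h1.clm_apply (differentiableAt_const (1 : ℝ))
  have h1 : ∀ k, dbar k (cx (fun w => g (v w))) =ᶠ[𝓝 z]
      fun w => cx (fun w => deriv g (v w)) w * dbar k (cx v) w := by
    intro k
    filter_upwards [CALB_evd hv, hvd.continuousAt.eventually hgev] with w h1 h2
    exact dbar_comp h1 h2 k
  have h3 : DifferentiableAt ℝ (cx (fun w => deriv g (v w))) z := CALB_cxd (hgd.comp z hvd)
  have h2 : ∀ j k, dd j (dbar k (cx (fun w => g (v w)))) z =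
      ((deriv (deriv g) (v z) : ℝ) : ℂ) * (dd j (cx v) z * (starRingEnd ℂ) (dd k (cx v) z)) +
      ((deriv g (v z) : ℝ) : ℂ) * dd j (dbar k (cx v)) z := by
    intro j k
    rw [dd_congr (h1 k) j, dd_mul h3 (CALB_dbard hv k), dd_comp hvd hgd, CALB_dbar_real hvd]
    show _ + ((deriv g (v z) : ℝ) : ℂ) * dd j (dbar k (cx v)) z = _
    ring
  have h4 : (∑ j, ∑ k, dd j (dbar k (cx (fun w => g (v w)))) z * a j * (starRingEnd ℂ) (a k)) =
      ((deriv g (v z) : ℝ) : ℂ) *
        (∑ j, ∑ k, dd j (dbar k (cx v)) z * a j * (starRingEnd ℂ) (a k)) +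
      ((deriv (deriv g) (v z) * ‖∑ j, dd j (cx v) z * a j‖ ^ 2 : ℝ) : ℂ) := by
    have h5 : ((‖∑ j, dd j (cx v) z * a j‖ ^ 2 : ℝ) : ℂ) =
        ∑ j, ∑ k, (dd j (cx v) z * (starRingEnd ℂ) (dd k (cx v) z)) * a j *
          (starRingEnd ℂ) (a k) := by
      rw [← Complex.normSq_eq_norm_sq, ← Complex.mul_conj, map_sum, Finset.sum_mul_sum]
      refine Finset.sum_congr rfl fun j _ => Finset.sum_congr rfl fun k _ => ?_
      rw [map_mul]
      ring
    rw [Complex.ofReal_mul, h5, Finset.mul_sum, Finset.mul_sum, ← Finset.sum_add_distrib]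
    refine Finset.sum_congr rfl fun j _ => ?_
    rw [Finset.mul_sum, Finset.mul_sum, ← Finset.sum_add_distrib]
    refine Finset.sum_congr rfl fun k _ => ?_
    rw [h2]
    ring
  unfold levi
  rw [h4, Complex.add_re, Complex.re_ofReal_mul, Complex.ofReal_re]

end DN
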