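import Pool.Agent.H49.DN.ABSA
import Pool.Agent.H49.DN.BRG
import Pool.Agent.H49.DN.CALB

/-! # CLO: `IsDbar0`, `IsDbar1` are closed operators

PROOFS. Linearity: `Lp.coeFn_add`, `Lp.coeFn_smul`, linearity of the integrals (products of an `L²` function with
a bounded compactly supported continuous function are integrable: `MemLp` of the test function, Hölder, or
`Integrable.bdd_mul`...). Closedness: for a fixed bounded measurable compactly supported (so `L²`) function `θ` the maps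
`u ↦ ∫ z in Ω, u z * θ z` and `α ↦ ∫ z in Ω, α z j * θ z` are continuous on `Lp` (inner product with the class of
`conj θ`: `inner_int`, or `|∫| ≤ ‖u‖ ‖θ‖`), so the graph is an intersection of closed sets. Uniqueness: if
`∫ z in Ω, α z j * φ z = 0` for all test functions then `α z j = 0` a.e. on `Ω`
(`IsOpen.ae_eq_zero_of_integral_contDiff_smul_eq_zero`; `φ` real valued cast to `ℂ`; local integrability from
`L²`). `dbar_dbar`: for a test function `φ` insert the test functions `dbar j φ`, `dbar k φ` into `IsDbar0 u α`: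
`∫ (α_k dbar j φ - α_j dbar k φ) = -∫ u (dbar k (dbar j φ) - dbar j (dbar k φ)) = 0`. -/

set_option autoImplicit false

namespace DN

open MeasureTheory Set Filter Topology ContDiff

variable {n : ℕ}

/-- test functions detect zero -/
theorem ae_zero_of_test {Ω : Set (Cn n)} (hΩ : IsOpen Ω) {u : Cn n → ℂ}
    (hu : LocallyIntegrableOn u Ω) (h : ∀ φ, Test Ω φ → ∫ z in Ω, u z * φ z = 0) :
    ∀ᵐ z ∂(volume.restrict Ω), u z = 0 := by
  rw [ae_restrict_iff' hΩ.measurableSet]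
  refine hΩ.ae_eq_zero_of_integral_contDiff_smul_eq_zero hu ?_
  intro g hg hgc hgs
  have hT : Test Ω (fun z => ((g z : ℝ) : ℂ)) := by
    refine ⟨Complex.ofRealCLM.contDiff.comp hg, ?_, ?_⟩
    · exact hgc.comp_left (g := fun x : ℝ => (x : ℂ)) (by simp)
    · refine subset_trans ?_ hgs
      exact tsupport_comp_subset (g := fun x : ℝ => (x : ℂ)) (by simp) g
  have h1 := h _ hT
  rw [setIntegral_eq_integral_of_forall_compl_eq_zero] at h1
  · rw [← h1]
    refine integral_congr_ae (Filter.Eventually.of_forall fun z => ?_)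
    show g z • u z = u z * ((g z : ℝ) : ℂ)
    rw [Complex.real_smul, mul_comm]
  · intro z hz
    have : g z = 0 := by
      by_contra hne
      exact hz (hgs (subset_tsupport g hne))
    rw [this]
    simp

theorem CLO_memLp {Ω : Set (Cn n)} {φ : Cn n → ℂ} (hφ : Test Ω φ) :
    MemLp φ 2 (volume.restrict Ω) :=
  hφ.smooth.continuous.memLp_of_hasCompactSupport hφ.supp

theorem CLO_int {Ω : Set (Cn n)} {φ : Cn n → ℂ} (hφ : Test Ω φ) (u : L20 Ω) :
    Integrable (fun z => u z * φ z) (volume.restrict Ω) :=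
  (Lp.memLp u).integrable_mul (CLO_memLp hφ)

/-- pairing with a test function -/
theorem CLO_pair {Ω : Set (Cn n)} {φ : Cn n → ℂ} (hφ : Test Ω φ) :
    ∃ ℓ : L20 Ω →L[ℂ] ℂ, ∀ u, ℓ u = ∫ z in Ω, u z * φ z := by
  have hc := CLO_memLp hφ.conj
  refine ⟨innerSL ℂ (hc.toLp _), fun u => ?_⟩
  rw [innerSL_apply_apply, inner_int]
  refine integral_congr_ae ?_
  filter_upwards [hc.coeFn_toLp] with z hz
  rw [hz, starRingEnd_self_apply, mul_comm]

theorem CLO_cmp {ι : Type} [Fintype ι] {Ω : Set (Cn n)} {φ : Cn n → ℂ} (hφ : Test Ω φ) (j : ι) :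
    ∃ ℓ : Lp (EuclideanSpace ℂ ι) 2 (volume.restrict Ω) →L[ℂ] ℂ,
      (∀ f, ℓ f = ∫ z in Ω, f z j * φ z) ∧ ∀ f, ℓ f = ∫ z in Ω, cmp j f z * φ z := by
  obtain ⟨ℓ, hℓ⟩ := CLO_pair hφ
  have h1 : ∀ f : Lp (EuclideanSpace ℂ ι) 2 (volume.restrict Ω),
      ∫ z in Ω, cmp j f z * φ z = ∫ z in Ω, f z j * φ z := by
    intro f
    refine integral_congr_ae ?_
    filter_upwards [cmp_ae j f] with z hz
    rw [hz]
  refine ⟨ℓ ∘L cmp j, fun f => ?_, fun f => ?_⟩
  · rw [ContinuousLinearMap.comp_apply, hℓ, h1]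
  · rw [ContinuousLinearMap.comp_apply, hℓ]

theorem CLO_int_cmp {ι : Type} [Fintype ι] {Ω : Set (Cn n)} {φ : Cn n → ℂ} (hφ : Test Ω φ)
    (f : Lp (EuclideanSpace ℂ ι) 2 (volume.restrict Ω)) (j : ι) :
    Integrable (fun z => f z j * φ z) (volume.restrict Ω) := by
  refine (CLO_int hφ (cmp j f)).congr ?_
  filter_upwards [cmp_ae j f] with z hz
  rw [hz]

theorem CLO_zero {Ω : Set (Cn n)} (hΩ : IsOpen Ω) (u : L20 Ω)
    (h : ∀ φ, Test Ω φ → ∫ z in Ω, u z * φ z = 0) : u = 0 := by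
  rw [Lp.eq_zero_iff_ae_eq_zero]
  refine ae_zero_of_test hΩ ?_ h
  exact locallyIntegrableOn_of_locallyIntegrable_restrict
    ((Lp.memLp u).locallyIntegrable (by norm_num))

theorem CLO_ext {ι : Type} [Fintype ι] {Ω : Set (Cn n)} (hΩ : IsOpen Ω)
    {f g : Lp (EuclideanSpace ℂ ι) 2 (volume.restrict Ω)}
    (h : ∀ φ, Test Ω φ → ∀ j, ∫ z in Ω, f z j * φ z = ∫ z in Ω, g z j * φ z) : f = g := by
  refine ext_cmp fun j => ?_
  rw [← sub_eq_zero, ← map_sub]
  refine CLO_zero hΩ _ fun φ hφ => ?_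
  obtain ⟨ℓ, h1, h2⟩ := CLO_cmp hφ j
  rw [← h2, map_sub, h1, h1, h φ hφ j, sub_self]

/-- a relation given by continuous linear equations is a closed operator, if it is single valued -/
theorem CLO_rel {H0 H1 : Type*} [NormedAddCommGroup H0] [InnerProductSpace ℂ H0]
    [CompleteSpace H0] [NormedAddCommGroup H1] [InnerProductSpace ℂ H1] [CompleteSpace H1]
    {I : Type*} (A : I → H0 →L[ℂ] ℂ) (B : I → H1 →L[ℂ] ℂ) {T : H0 → H1 → Prop}
    (hT : ∀ u α, T u α ↔ ∀ i, A i u = -B i α) (hu : ∀ u α β, T u α → T u β → α = β) :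
    IsClosedOp T := by
  refine ⟨?_, ?_, hu, ?_⟩
  · rw [hT]
    intro i
    simp
  · intro u v α β c h1 h2
    rw [hT] at h1 h2 ⊢
    intro i
    rw [map_add, map_smul, map_add, map_smul, h1 i, h2 i, smul_neg, neg_add]
  · have : {q : H0 × H1 | T q.1 q.2} = ⋂ i, {q : H0 × H1 | A i q.1 = -B i q.2} := by
      ext q
      simp only [mem_ofPred_eq, mem_iInter]
      exact hT q.1 q.2
    rw [this]
    refine isClosed_iInter fun i => ?_
    exact isClosed_eq ((A i).continuous.comp continuous_fst)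
      ((B i).continuous.comp continuous_snd).neg

theorem isClosedOp_dbar0 {Ω : Set (Cn n)} (hΩ : IsOpen Ω) : IsClosedOp (IsDbar0 Ω) := by
  choose A hA using fun i : {φ : Cn n → ℂ // Test Ω φ} × Fin n => CLO_pair (i.1.2.dbar i.2)
  choose B hB _ using fun i : {φ : Cn n → ℂ // Test Ω φ} × Fin n =>
    CLO_cmp (ι := Fin n) i.1.2 i.2
  refine CLO_rel A B ?_ ?_
  · intro u α
    constructor
    · intro h i
      rw [hA, hB]
      exact h i.1.1 i.1.2 i.2
    · intro h φ hφ j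
      have := h (⟨φ, hφ⟩, j)
      rw [hA, hB] at this
      exact this
  · intro u α β h1 h2
    refine CLO_ext hΩ fun φ hφ j => ?_
    have e1 := h1 φ hφ j
    have e2 := h2 φ hφ j
    rw [e1] at e2
    exact neg_injective e2

theorem isClosedOp_dbar1 {Ω : Set (Cn n)} (hΩ : IsOpen Ω) : IsClosedOp (IsDbar1 Ω) := by
  choose A1 hA1 _ using fun i : {φ : Cn n → ℂ // Test Ω φ} × Pairs n =>
    CLO_cmp (ι := Fin n) (i.1.2.dbar i.2.1.1) i.2.1.2
  choose A2 hA2 _ using fun i : {φ : Cn n → ℂ // Test Ω φ} × Pairs n =>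
    CLO_cmp (ι := Fin n) (i.1.2.dbar i.2.1.2) i.2.1.1
  choose B hB _ using fun i : {φ : Cn n → ℂ // Test Ω φ} × Pairs n =>
    CLO_cmp (ι := Pairs n) i.1.2 i.2
  refine CLO_rel (fun i => A1 i - A2 i) B ?_ ?_
  · have key : ∀ (f : L21 Ω) (i : {φ : Cn n → ℂ // Test Ω φ} × Pairs n),
        (A1 i - A2 i) f = ∫ z in Ω, (f z i.2.1.2 * dbar i.2.1.1 i.1.1 z -
          f z i.2.1.1 * dbar i.2.1.2 i.1.1 z) := by
      intro f i
      rw [integral_sub (CLO_int_cmp (i.1.2.dbar i.2.1.1) f _)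
        (CLO_int_cmp (i.1.2.dbar i.2.1.2) f _), ← hA1, ← hA2]
      rfl
    intro f k
    constructor
    · intro h i
      show (A1 i - A2 i) f = _
      rw [key, hB]
      exact h i.1.1 i.1.2 i.2
    · intro h φ hφ p
      have h1 : (A1 (⟨φ, hφ⟩, p) - A2 (⟨φ, hφ⟩, p)) f = -B (⟨φ, hφ⟩, p) k := h (⟨φ, hφ⟩, p)
      rw [key, hB] at h1
      exact h1
  · intro u α β h1 h2
    refine CLO_ext hΩ fun φ hφ j => ?_
    have e1 := h1 φ hφ j
    have e2 := h2 φ hφ j
    rw [e1] at e2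
    exact neg_injective e2

theorem dbar_dbar {Ω : Set (Cn n)} (hΩ : IsOpen Ω) (u : L20 Ω) (α : L21 Ω)
    (h : IsDbar0 Ω u α) : IsDbar1 Ω α 0 := by
  intro φ hφ p
  have h0 : ∫ z in Ω, (0 : L22 Ω) z p * φ z = 0 := by
    have : ∫ z in Ω, (0 : L22 Ω) z p * φ z = ∫ _z in Ω, (0 : ℂ) := by
      refine integral_congr_ae ?_
      filter_upwards [Lp.coeFn_zero (EuclideanSpace ℂ (Pairs n)) 2 (volume.restrict Ω)] with z hz
      rw [hz]
      simp
    rw [this, integral_zero]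
  rw [h0, neg_zero, integral_sub (CLO_int_cmp (hφ.dbar p.1.1) α _)
        (CLO_int_cmp (hφ.dbar p.1.2) α _)]
  have h1 := h _ (hφ.dbar p.1.1) p.1.2
  have h2 := h _ (hφ.dbar p.1.2) p.1.1
  have h3 : ∀ z, dbar p.1.2 (dbar p.1.1 φ) z = dbar p.1.1 (dbar p.1.2 φ) z := by
    intro z
    exact dbar_dbar_comm (contDiff_infty.1 hφ.smooth 2).contDiffAt _ _
  simp only [h3] at h1
  rw [h1] at h2
  rw [neg_injective h2, sub_self]

end DN
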