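import Mathlib

/-! # CPT: a criterion for compactness

PROOF. Given `δ > 0`, choose `ε` with `4 ε ≤ δ² / 4` and the operators `K i`, `C ≥ 0` (replace `C` by `|C|`). The map
`x ↦ (K i x)_i` sends the closed unit ball into a compact subset of `Fin N → H'` (product of the compact sets of
`IsCompactOperator.image_closedBall_subset_compact` or `isCompact_closure_image_closedBall`), hence totally bounded:
finitely many `x_1, ..., x_r` in the unit ball with: for every `x` in the ball there is `s` with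
`∑ i ‖K i x - K i x_s‖ ≤ δ'`, `2 C δ' ≤ δ²/4`. Then `‖S x - S x_s‖² ≤ ε * 4 + C * 2 * δ' < δ²`. So the image of the unit
ball is totally bounded (`Metric.totallyBounded_iff`), its closure is compact (`H'` complete), and
`isCompactOperator_iff_isCompact_closure_image_closedBall`. -/

set_option autoImplicit false

namespace DN

open Set Filter Topology

theorem compact_of_ineq {H H' : Type*} [NormedAddCommGroup H] [InnerProductSpace ℂ H]
    [NormedAddCommGroup H'] [InnerProductSpace ℂ H'] [CompleteSpace H'] (S : H →L[ℂ] H')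
    (h : ∀ ε > 0, ∃ (N : ℕ) (K : Fin N → H →L[ℂ] H') (C : ℝ), (∀ i, IsCompactOperator (K i)) ∧
      ∀ x, ‖S x‖ ^ 2 ≤ ε * ‖x‖ ^ 2 + C * ‖x‖ * ∑ i, ‖K i x‖) : IsCompactOperator S := by
  have hTB : TotallyBounded (S '' Metric.closedBall 0 1) := by
    rw [Metric.totallyBounded_iff]
    intro δ hδ
    obtain ⟨N, K, C, hK, hS⟩ := h (δ ^ 2 / 16) (by positivity)
    set Φ : H → (Fin N → H') := fun x i => K i x with hΦ
    have hcs : ∀ i, ∃ L : Set H', IsCompact L ∧ K i '' Metric.closedBall 0 1 ⊆ L := fun i =>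
      (hK i).image_closedBall_subset_compact 1
    choose L hLc hLs using hcs
    have hΦTB : TotallyBounded (Φ '' Metric.closedBall 0 1) := by
      refine (isCompact_univ_pi hLc).totallyBounded.subset ?_
      rintro _ ⟨x, hx, rfl⟩ i -
      exact hLs i ⟨x, hx, rfl⟩
    set η : ℝ := δ ^ 2 / (8 * (|C| * N + 1)) with hη
    have hη0 : 0 < η := by positivity
    obtain ⟨t, hts, htf, htc⟩ := Metric.finite_approx_of_totallyBounded hΦTB η hη0
    have hch : ∀ y : Fin N → H', ∃ x : H, y ∈ t → x ∈ Metric.closedBall (0 : H) 1 ∧ Φ x = y := by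
      intro y
      by_cases hy : y ∈ t
      · obtain ⟨x, hx, hxy⟩ := hts hy
        exact ⟨x, fun _ => ⟨hx, hxy⟩⟩
      · exact ⟨0, fun h => absurd h hy⟩
    choose g hg using hch
    refine ⟨(fun y => S (g y)) '' t, htf.image _, ?_⟩
    rintro _ ⟨x, hx, rfl⟩
    have hx1 := htc ⟨x, hx, rfl⟩
    simp only [mem_iUnion, exists_prop] at hx1 ⊢
    obtain ⟨y, hyt, hy⟩ := hx1
    refine ⟨S (g y), ⟨y, hyt, rfl⟩, ?_⟩
    obtain ⟨hgb, hgy⟩ := hg y hyt
    rw [mem_closedBall_zero_iff] at hx hgb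
    have hxy : ‖x - g y‖ ≤ 2 := (norm_sub_le _ _).trans (by linarith)
    have hK1 : ∀ i, ‖K i (x - g y)‖ ≤ η := by
      intro i
      rw [Metric.mem_ball, ← hgy, dist_pi_lt_iff hη0] at hy
      have h1 := (hy i).le
      rw [dist_eq_norm] at h1
      simpa [hΦ, map_sub] using h1
    have hsum : ∑ i, ‖K i (x - g y)‖ ≤ N * η := by
      refine (Finset.sum_le_sum fun i _ => hK1 i).trans ?_
      simp
    have hsum0 : 0 ≤ ∑ i, ‖K i (x - g y)‖ := Finset.sum_nonneg fun i _ => norm_nonneg _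
    have h2 := hS (x - g y)
    have h3 : ‖x - g y‖ ^ 2 ≤ 4 := by nlinarith [norm_nonneg (x - g y)]
    have h4 : C * ‖x - g y‖ * ∑ i, ‖K i (x - g y)‖ ≤ |C| * 2 * (N * η) := by
      refine mul_le_mul ?_ hsum hsum0 (by positivity)
      exact mul_le_mul (le_abs_self C) hxy (norm_nonneg _) (abs_nonneg C)
    have h5 : |C| * 2 * (N * η) ≤ δ ^ 2 / 4 := by
      have h6 : |C| * 2 * (N * η) = (|C| * N) / (|C| * N + 1) * (δ ^ 2 / 4) := by
        rw [hη]; field_simp; ring
      rw [h6]
      have h7 : (|C| * N) / (|C| * N + 1) ≤ 1 := by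
        rw [div_le_one (by positivity)]
        linarith
      have h8 : 0 ≤ δ ^ 2 / 4 := by positivity
      nlinarith
    have h9 : ‖S (x - g y)‖ ^ 2 < δ ^ 2 := by
      have : δ ^ 2 / 16 * ‖x - g y‖ ^ 2 ≤ δ ^ 2 / 16 * 4 :=
        mul_le_mul_of_nonneg_left h3 (by positivity)
      have : 0 < δ ^ 2 := by positivity
      linarith
    rw [Metric.mem_ball, dist_eq_norm, ← map_sub]
    exact lt_of_pow_lt_pow_left₀ 2 hδ.le h9
  have hcl : IsCompact (closure (S '' Metric.closedBall 0 1)) :=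
    isCompact_iff_totallyBounded_isComplete.2 ⟨hTB.closure, isClosed_closure.isComplete⟩
  exact (isCompactOperator_iff_isCompact_closure_image_closedBall (S : H →ₗ[ℂ] H')
    one_pos).2 hcl

end DN
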