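import Pool.Agent.H49.DN.Int

/-! # LAT: a lattice sum of Gaussians

PROOF. Let `n ≥ 1` (if `n = 0` everything is trivial: `nsq = 0`, one point, `c₁ = c₂ = 1`). `s > 0` with
`n M s² = 1`. Index set: `Finset.Icc (-R) R` for the real and imaginary parts of each coordinate (`R : ℤ` large,
depending on `Ω`, `M`), points `p_m = (s (a_j + i b_j))_j`; `N` = number of indices, `Fin N ≃` index set (or state the
finite sum over a `Finset` and transport with `Finset.equivFin`/`Fintype.equivFin`). Lower bound: for `z ∈ Ω` round the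
coordinates of `z / s` (`round`): `|Re z_j - s a_j| ≤ s/2`, so `nsq (z - p) ≤ n s²/2`, `M nsq (z - p) ≤ 1/2`, and the sum
is `≥ exp(-1/2) ≥ exp (-1)`. Upper bound: the sum is at most the product over the `2n` real coordinates of
`∑_{k ∈ ℤ, |k| ≤ R} exp (-(t - k)²/n)` (`M s² = 1/n`), and each factor is `≤ c(n)`: compare: for `t ∈ ℝ`, `k ∈ ℤ`, the
values `|t - k|` take each of the intervals `[i, i+1)`, `i ∈ ℕ`, at most twice, so the factor is
`≤ 2 ∑_i exp (-i²/n) ≤ 2 ∑_i exp(-i/n) = 2 / (1 - exp (-1/n))` (`i² ≥ i`). -/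

set_option autoImplicit false

namespace DN

open MeasureTheory Set Filter Topology

private theorem LAT_summable {r : ℝ} (h0 : 0 ≤ r) (h1 : r < 1) :
    Summable fun m : ℤ => r ^ m.natAbs := by
  apply Summable.of_nat_of_neg
  · simpa using summable_geometric_of_lt_one h0 h1
  · simpa using summable_geometric_of_lt_one h0 h1

/-- the one dimensional sums are bounded -/
private theorem LAT_1d (n : ℕ) : ∃ C > 0, ∀ (t : ℝ) (S : Finset ℤ),
    ∑ k ∈ S, Real.exp (-((t - k) ^ 2 / (n + 1))) ≤ C := by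
  have hn : (0 : ℝ) < (n : ℝ) + 1 := by positivity
  obtain ⟨r, hr⟩ : ∃ r, r = Real.exp (-(1 / (2 * ((n : ℝ) + 1)))) := ⟨_, rfl⟩
  have hr0 : 0 < r := by rw [hr]; exact Real.exp_pos _
  have hr1 : r < 1 := by
    rw [hr, Real.exp_lt_one_iff, neg_lt_zero]
    positivity
  obtain ⟨c, hc⟩ : ∃ c, c = Real.exp (1 / ((n : ℝ) + 1)) := ⟨_, rfl⟩
  have hc0 : 0 < c := by rw [hc]; exact Real.exp_pos _
  have hs : Summable fun m : ℤ => c * r ^ m.natAbs := (LAT_summable hr0.le hr1).mul_left c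
  have hnn : ∀ m : ℤ, 0 ≤ c * r ^ m.natAbs := fun m => by positivity
  have hts : 0 ≤ ∑' m : ℤ, c * r ^ m.natAbs := tsum_nonneg hnn
  refine ⟨(∑' m : ℤ, c * r ^ m.natAbs) + 1, by linarith, ?_⟩
  intro t S
  have h1 : ∀ k : ℤ, Real.exp (-((t - k) ^ 2 / (n + 1))) ≤ c * r ^ (k - ⌊t⌋).natAbs := by
    intro k
    obtain ⟨m, hm⟩ : ∃ m : ℤ, m = k - ⌊t⌋ := ⟨_, rfl⟩
    rw [← hm, hc, hr, ← Real.exp_nat_mul, ← Real.exp_add, Real.exp_le_exp]
    have h2 : (k : ℝ) = m + ⌊t⌋ := by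
      have : k = m + ⌊t⌋ := by omega
      rw [this]
      push_cast
      ring
    have h3 : t - k = Int.fract t - m := by
      rw [h2]
      have := Int.floor_add_fract t
      linarith
    have h4 := Int.fract_nonneg t
    have h5 := (Int.fract_lt_one t).le
    have h6 : ((m.natAbs : ℕ) : ℝ) = |(m : ℝ)| := by
      rw [Nat.cast_natAbs]
      push_cast
      rfl
    have h7 : |(m : ℝ)| ≤ (m : ℝ) ^ 2 := by
      have h7' : |m| ≤ m ^ 2 := by
        rw [← sq_abs]
        rcases eq_or_lt_of_le (abs_nonneg m) with h | h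
        · rw [← h]
          norm_num
        · nlinarith
      exact_mod_cast h7'
    rw [h3, h6]
    have h8 : (m : ℝ) ^ 2 / 2 - 1 ≤ (Int.fract t - m) ^ 2 := by nlinarith [sq_nonneg (2 * Int.fract t - m)]
    have h9 : |(m : ℝ)| / 2 - 1 ≤ (Int.fract t - m) ^ 2 := by linarith
    have h10 : (|(m : ℝ)| / 2 - 1) / (n + 1) ≤ (Int.fract t - m) ^ 2 / (n + 1) :=
      div_le_div_of_nonneg_right h9 hn.le
    have h11 : 1 / ((n : ℝ) + 1) + |(m : ℝ)| * -(1 / (2 * ((n : ℝ) + 1))) =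
        -((|(m : ℝ)| / 2 - 1) / (n + 1)) := by
      field_simp
      ring
    rw [h11]
    linarith
  calc ∑ k ∈ S, Real.exp (-((t - k) ^ 2 / (n + 1)))
      ≤ ∑ k ∈ S, c * r ^ (k - ⌊t⌋).natAbs := Finset.sum_le_sum fun k _ => h1 k
    _ = ∑ m ∈ S.image (fun k => k - ⌊t⌋), c * r ^ m.natAbs := by
        rw [Finset.sum_image]
        intro a _ b _ hab
        simpa using hab
    _ ≤ ∑' m : ℤ, c * r ^ m.natAbs := hs.sum_le_tsum _ fun m _ => hnn m
    _ ≤ _ := by linarith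

private noncomputable def LAT_P (n : ℕ) (s : ℝ) (m : Fin n → ℤ × ℤ) : Cn n :=
  fun j => ⟨s * (m j).1, s * (m j).2⟩

private theorem LAT_nsq {n : ℕ} (s : ℝ) (m : Fin n → ℤ × ℤ) (z : Cn n) :
    nsq (z - LAT_P n s m) =
      ∑ j, (((z j).re - s * (m j).1) ^ 2 + ((z j).im - s * (m j).2) ^ 2) := by
  unfold nsq
  refine Finset.sum_congr rfl fun j _ => ?_
  rw [← Complex.normSq_eq_norm_sq, Complex.normSq_apply]
  simp only [Pi.sub_apply, LAT_P, Complex.sub_re, Complex.sub_im]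
  ring

private theorem LAT_exp {n : ℕ} (M s : ℝ) (m : Fin n → ℤ × ℤ) (z : Cn n) :
    Real.exp (-(M * nsq (z - LAT_P n s m))) =
      ∏ j, (Real.exp (-(M * ((z j).re - s * (m j).1) ^ 2)) *
        Real.exp (-(M * ((z j).im - s * (m j).2) ^ 2))) := by
  rw [LAT_nsq, Finset.mul_sum, ← Finset.sum_neg_distrib, Real.exp_sum]
  refine Finset.prod_congr rfl fun j _ => ?_
  rw [← Real.exp_add]
  congr 1
  ring

private theorem LAT_scale {n : ℕ} {M s : ℝ} (hs : 0 < s) (hM : (n + 1) * M * s ^ 2 = 1) (x : ℝ)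
    (k : ℤ) : M * (x - s * k) ^ 2 = (x / s - k) ^ 2 / (n + 1) := by
  have hn : (0 : ℝ) < (n : ℝ) + 1 := by positivity
  have h1 : x - s * k = s * (x / s - k) := by
    field_simp
  rw [h1, eq_div_iff hn.ne']
  linear_combination (x / s - k) ^ 2 * hM

theorem lattice_sum (n : ℕ) : ∃ c₁ > 0, ∃ c₂ > 0, ∀ M : ℝ, 0 < M → ∀ Ω : Set (Cn n),
    Bornology.IsBounded Ω → ∃ (N : ℕ) (p : Fin N → Cn n),
      (∀ z ∈ Ω, c₁ ≤ ∑ i, Real.exp (-(M * nsq (z - p i)))) ∧
      ∀ z, ∑ i, Real.exp (-(M * nsq (z - p i))) ≤ c₂ := by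
  obtain ⟨C, hC0, hC⟩ := LAT_1d n
  have hn : (0 : ℝ) < (n : ℝ) + 1 := by positivity
  refine ⟨Real.exp (-1), Real.exp_pos _, (C * C) ^ n, by positivity, ?_⟩
  intro M hM Ω hΩ
  obtain ⟨s, hs⟩ : ∃ s, s = Real.sqrt (1 / ((n + 1) * M)) := ⟨_, rfl⟩
  have hs0 : 0 < s := by rw [hs]; positivity
  have hs2 : s ^ 2 = 1 / ((n + 1) * M) := by rw [hs]; exact Real.sq_sqrt (by positivity)
  have hMs : ((n : ℝ) + 1) * M * s ^ 2 = 1 := by rw [hs2]; field_simp
  obtain ⟨D, hD⟩ := hΩ.exists_norm_le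
  obtain ⟨R, hR⟩ := exists_nat_gt (D / s + 1)
  obtain ⟨S, hS⟩ : ∃ S : Finset ℤ, S = Finset.Icc (-(R : ℤ)) R := ⟨_, rfl⟩
  obtain ⟨T, hT⟩ : ∃ T : Finset (Fin n → ℤ × ℤ), T = Fintype.piFinset fun _ => S ×ˢ S := ⟨_, rfl⟩
  refine ⟨T.card, fun i => LAT_P n s (T.equivFin.symm i), ?_⟩
  have hsum : ∀ z : Cn n, ∑ i : Fin T.card,
      Real.exp (-(M * nsq (z - LAT_P n s (T.equivFin.symm i)))) =
      ∑ m ∈ T, Real.exp (-(M * nsq (z - LAT_P n s m))) := by
    intro z
    rw [Equiv.sum_comp T.equivFin.symm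
      (fun m : T => Real.exp (-(M * nsq (z - LAT_P n s m))))]
    exact Finset.sum_coe_sort T (fun m => Real.exp (-(M * nsq (z - LAT_P n s m))))
  constructor
  · intro z hz
    rw [hsum z]
    obtain ⟨m, hm⟩ : ∃ m : Fin n → ℤ × ℤ,
      m = fun j => (round ((z j).re / s), round ((z j).im / s)) := ⟨_, rfl⟩
    have hrd : ∀ x : ℝ, |x| ≤ D → round (x / s) ∈ S := by
      intro x hx
      have h1 := abs_sub_round (x / s)
      have h2 : |x / s| ≤ D / s := by
        rw [abs_div, abs_of_pos hs0]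
        exact div_le_div_of_nonneg_right hx hs0.le
      have h3 := abs_le.1 h1
      have h4 := abs_le.1 h2
      rw [hS, Finset.mem_Icc]
      constructor
      · have : (-(R : ℤ) : ℝ) ≤ round (x / s) := by push_cast; linarith
        exact_mod_cast this
      · have : ((round (x / s) : ℤ) : ℝ) ≤ (R : ℤ) := by push_cast; linarith
        exact_mod_cast this
    have hzj : ∀ j, ‖z j‖ ≤ D := fun j => (norm_le_pi_norm z j).trans (hD z hz)
    have hmT : m ∈ T := by
      rw [hT, Fintype.mem_piFinset]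
      intro j
      rw [hm, Finset.mem_product]
      exact ⟨hrd _ ((Complex.abs_re_le_norm _).trans (hzj j)),
        hrd _ ((Complex.abs_im_le_norm _).trans (hzj j))⟩
    refine le_trans ?_ (Finset.single_le_sum
      (f := fun m => Real.exp (-(M * nsq (z - LAT_P n s m))))
      (fun m _ => (Real.exp_pos _).le) hmT)
    show Real.exp (-1) ≤ Real.exp (-(M * nsq (z - LAT_P n s m)))
    rw [Real.exp_le_exp, neg_le_neg_iff, LAT_nsq, Finset.mul_sum]
    have h1 : ∀ j ∈ (Finset.univ : Finset (Fin n)),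
        M * (((z j).re - s * (m j).1) ^ 2 + ((z j).im - s * (m j).2) ^ 2) ≤
          1 / ((n : ℝ) + 1) := by
      intro j _
      rw [mul_add, LAT_scale hs0 hMs, LAT_scale hs0 hMs, ← add_div]
      apply div_le_div_of_nonneg_right _ hn.le
      have h3 := abs_le.1 (abs_sub_round ((z j).re / s))
      have h4 := abs_le.1 (abs_sub_round ((z j).im / s))
      have h5 : ((m j).1 : ℝ) = round ((z j).re / s) := by rw [hm]
      have h6 : ((m j).2 : ℝ) = round ((z j).im / s) := by rw [hm]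
      rw [h5, h6]
      nlinarith
    refine (Finset.sum_le_sum h1).trans ?_
    rw [Finset.sum_const, Finset.card_univ, Fintype.card_fin, nsmul_eq_mul, mul_one_div,
      div_le_one hn]
    linarith
  · intro z
    rw [hsum z]
    obtain ⟨F, hF⟩ : ∃ F : Fin n → ℤ × ℤ → ℝ, F = fun j q =>
      Real.exp (-(((z j).re / s - q.1) ^ 2 / (n + 1))) *
      Real.exp (-(((z j).im / s - q.2) ^ 2 / (n + 1))) := ⟨_, rfl⟩
    have h1 : ∀ m ∈ T, Real.exp (-(M * nsq (z - LAT_P n s m))) = ∏ j, F j (m j) := by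
      intro m _
      rw [LAT_exp, hF]
      refine Finset.prod_congr rfl fun j _ => ?_
      rw [LAT_scale hs0 hMs, LAT_scale hs0 hMs]
    rw [Finset.sum_congr rfl h1, hT, ← Finset.prod_univ_sum (fun _ => S ×ˢ S) F]
    have h2 : ∀ j ∈ (Finset.univ : Finset (Fin n)), (∑ q ∈ S ×ˢ S, F j q) ≤ C * C := by
      intro j _
      rw [hF, Finset.sum_product]
      show ∑ a ∈ S, ∑ b ∈ S, Real.exp (-(((z j).re / s - a) ^ 2 / (n + 1))) *
        Real.exp (-(((z j).im / s - b) ^ 2 / (n + 1))) ≤ C * C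
      rw [← Finset.sum_mul_sum]
      exact mul_le_mul (hC _ S) (hC _ S) (Finset.sum_nonneg fun _ _ => (Real.exp_pos _).le) hC0.le
    refine (Finset.prod_le_prod ?_ h2).trans ?_
    · intro j _
      rw [hF]
      exact Finset.sum_nonneg fun q _ => by positivity
    · rw [Finset.prod_const, Finset.card_univ, Fintype.card_fin]

end DN
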