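import Pool.Agent.H49.DN.HOR
import Pool.Agent.H49.DN.BER
import Pool.Agent.H49.DN.CPT
import Pool.Agent.H49.DN.LAT

/-! # CSA: compact commutators imply that the canonical solution operator `S1` is compact

PROOF. `compact_of_ineq` for `S1`. Given `ε > 0`: `lattice_sum n`: `c₁, c₂`; choose `M > 0` with
`2 c₂ / (M c₁) ≤ ε`; `N`, `p i` for this `M` and `Ω`. `h i z = exp(-(M nsq (z - p i)))`, `m i` the multiplication operator
(`exists_mul`; `cx (h i)` is continuous), `K i = (B ∘ m i - m i ∘ B) ∘ S1` compact (`IsCompactOperator.comp_clm`).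
Let `c > 0` with `h i ≥ c` on `Ω` for all `i` (`Ω` bounded).
(a) Let `IsDbar1 Ω α 0`, `u = S1 α`: `IsDbar0 Ω u α`, `u ⊥ A²` (`IsSol1.orth` and `ker_dbar0`), `B u = 0`.
`hormander`: `v` with `IsDbar0 Ω v α`, `∫ |v|² h ≤ (2/M) ∫ nsq α h ≤ (2/M) ‖α‖²`, so `‖v‖² ≤ (2/(M c)) ‖α‖²`.
`a = u - v ∈ A²` (`isClosedOp_dbar0`, `ker_dbar0`), `‖a‖ ≤ ‖S1‖ ‖α‖ + ‖v‖ ≤ C₀ ‖α‖`.
`∫ |u|² h = ⟨u, m u⟩ = ⟨m u, v⟩ + ⟨m u, a⟩`, `⟨m u, a⟩ = ⟨B (m u), a⟩ = ⟨K i α, a⟩` (as `B u = 0`), and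
`|⟨m u, v⟩| ≤ (∫ |u|² h)^{1/2} (∫ |v|² h)^{1/2} ≤ ½ ∫ |u|² h + ½ ∫ |v|² h`. So
`∫ |u|² h_i ≤ (2/M) ∫ nsq α h_i + 2 C₀ ‖K i α‖ ‖α‖`.
(b) Sum over `i`: `c₁ ‖u‖² ≤ (2 c₂/M) ‖α‖² + 2 C₀ ‖α‖ ∑ ‖K i α‖`; divide by `c₁`.
(c) General `α`: `α = β + γ`, `β` the orthogonal projection onto the closed submodule `{β | IsDbar1 Ω β 0}`
(`isClosedOp_dbar1`), `S1 γ = 0` (`IsSol1.zero`), `‖β‖ ≤ ‖α‖`, `K i α = K i β`. -/

set_option autoImplicit false

namespace DN

open MeasureTheory Set Filter Topology ContDiff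

variable {n : ℕ}

theorem CSA_nsq_nonneg (a : Fin n → ℂ) : 0 ≤ nsq a := by
  unfold nsq; positivity

theorem CSA_exp_le {M : ℝ} (hM : 0 < M) (a : Fin n → ℂ) : Real.exp (-(M * nsq a)) ≤ 1 := by
  rw [Real.exp_le_one_iff]
  have := mul_nonneg hM.le (CSA_nsq_nonneg a)
  linarith

/-- the quadratic form of a multiplication operator -/
theorem CSA_quad {Ω : Set (Cn n)} {h : Cn n → ℝ} {m : L20 Ω →L[ℂ] L20 Ω}
    (hm : IsMul Ω (cx h) m) (u : L20 Ω) :
    inner ℂ (m u) u = ((∫ z in Ω, ‖u z‖ ^ 2 * h z : ℝ) : ℂ) := by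
  rw [inner_int, ← integral_complex_ofReal]
  refine integral_congr_ae ?_
  filter_upwards [hm u] with z hz
  rw [hz]
  unfold cx
  rw [map_mul, Complex.conj_ofReal, mul_assoc, Complex.conj_mul']
  push_cast
  ring

/-- the abstract inequality -/
theorem CSA_abs {H : Type*} [NormedAddCommGroup H] [InnerProductSpace ℂ H] (m : H →L[ℂ] H)
    (hs : ∀ x y, inner ℂ (m x) y = inner ℂ x (m y)) (hp : ∀ x, 0 ≤ (inner ℂ (m x) x).re)
    (u v : H) : (inner ℂ (m u) u).re ≤ (inner ℂ (m v) v).re + 2 * (inner ℂ (m u) (u - v)).re := by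
  have h1 := hp (u - v)
  have h2 : inner ℂ (m (u - v)) (u - v) =
      inner ℂ (m u) u - inner ℂ (m u) v - inner ℂ (m v) u + inner ℂ (m v) v := by
    rw [map_sub, inner_sub_left, inner_sub_right, inner_sub_right]
    ring
  have h3 : (inner ℂ (m v) u).re = (inner ℂ (m u) v).re := by
    rw [hs, ← inner_conj_symm, Complex.conj_re]
  rw [h2] at h1
  simp only [Complex.sub_re, Complex.add_re] at h1
  rw [inner_sub_right, Complex.sub_re]
  linarith

theorem CSA_intg {Ω : Set (Cn n)} (u : L20 Ω) : Integrable (fun z => ‖u z‖ ^ 2)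
    (volume.restrict Ω) := by
  have := (Lp.memLp u).integrable_norm_pow (by norm_num)
  simpa using this

theorem CSA_intg' {Ω : Set (Cn n)} (α : L21 Ω) : Integrable (fun z => nsq (fun j => α z j))
    (volume.restrict Ω) := by
  have h := (Lp.memLp α).integrable_norm_pow (by norm_num)
  simp only [ENNReal.toReal_ofNat] at h
  refine h.congr (Eventually.of_forall fun z => ?_)
  show ‖α z‖ ^ 2 = _
  rw [EuclideanSpace.norm_sq_eq]
  rfl

theorem CSA_intgw {Ω : Set (Cn n)} {f : Cn n → ℝ} (hf : Integrable f (volume.restrict Ω)) {M : ℝ}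
    (hM : 0 < M) (p : Cn n) :
    Integrable (fun z => f z * Real.exp (-(M * nsq (z - p)))) (volume.restrict Ω) := by
  have hc : Continuous fun z : Cn n => Real.exp (-(M * nsq (z - p))) :=
    Real.continuous_exp.comp (contDiff_nsq M p).continuous.neg
  refine hf.mul_bdd (c := 1) hc.aestronglyMeasurable (Eventually.of_forall fun z => ?_)
  rw [Real.norm_eq_abs, abs_of_pos (Real.exp_pos _)]
  exact CSA_exp_le hM _

theorem CSA_norm {Ω : Set (Cn n)} (α : L21 Ω) :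
    ‖α‖ ^ 2 = ∫ z in Ω, nsq (fun j => α z j) := norm_sq_int' α

/-- a positive lower bound for the weight -/
theorem CSA_low {Ω : Set (Cn n)} (hb : Bornology.IsBounded Ω) {M : ℝ} {N : ℕ} (p : Fin N → Cn n) :
    ∃ c > 0, ∀ i, ∀ z ∈ Ω, c ≤ Real.exp (-(M * nsq (z - p i))) := by
  have hK : IsCompact (closure Ω) := hb.isCompact_closure
  have h1 : ∀ i, ∃ c > 0, ∀ z ∈ Ω, c ≤ Real.exp (-(M * nsq (z - p i))) := by
    intro i
    have hc : Continuous fun z : Cn n => Real.exp (-(M * nsq (z - p i))) :=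
      Real.continuous_exp.comp (contDiff_nsq M (p i)).continuous.neg
    rcases Ω.eq_empty_or_nonempty with h0 | h0
    · exact ⟨1, one_pos, by simp [h0]⟩
    · obtain ⟨x, _, hx⟩ := hK.exists_isMinOn h0.closure hc.continuousOn
      exact ⟨_, Real.exp_pos _, fun z hz => hx (subset_closure hz)⟩
  choose c hc h using h1
  rcases N.eq_zero_or_pos with h0 | h0
  · subst h0
    exact ⟨1, one_pos, fun i => i.elim0⟩
  · haveI : Nonempty (Fin N) := ⟨⟨0, h0⟩⟩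
    obtain ⟨i0, hi0⟩ := Finite.exists_min c
    exact ⟨c i0, hc i0, fun i z hz => (hi0 i).trans (h i z hz)⟩

theorem CSA_main {Ω : Set (Cn n)} (hΩ : Pseudoconvex Ω) (hb : Bornology.IsBounded Ω)
    {B : L20 Ω →L[ℂ] L20 Ω} (hB : IsBergman Ω B)
    {S1 : L21 Ω →L[ℂ] L20 Ω} (hS1 : IsSol1 (IsDbar0 Ω) (IsDbar1 Ω) S1) {M : ℝ} (hM : 0 < M)
    (p : Cn n) {m : L20 Ω →L[ℂ] L20 Ω}
    (hm : IsMul Ω (cx fun z => Real.exp (-(M * nsq (z - p)))) m) {c : ℝ} (hc : 0 < c)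
    (hlow : ∀ z ∈ Ω, c ≤ Real.exp (-(M * nsq (z - p)))) {α : L21 Ω} (hα : IsDbar1 Ω α 0) :
    ∫ z in Ω, ‖S1 α z‖ ^ 2 * Real.exp (-(M * nsq (z - p))) ≤
      2 / M * (∫ z in Ω, nsq (fun j => α z j) * Real.exp (-(M * nsq (z - p)))) +
        2 * ((‖S1‖ + Real.sqrt (2 / (M * c))) * (‖α‖ * ‖((B ∘L m - m ∘L B) ∘L S1) α‖)) := by
  obtain ⟨v, hv, hvi⟩ := hormander hΩ hb hM p hα
  have hu : IsDbar0 Ω (S1 α) α := hS1.sol α hα
  have hBu : B (S1 α) = 0 := by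
    refine bergman_zero hB fun a ha => ?_
    exact hS1.orth α a ((ker_dbar0 hΩ.1 a).2 ha)
  have ha : IsHol Ω (S1 α - v) := by
    rw [← ker_dbar0 hΩ.1]
    have h2 := (isClosedOp_dbar0 hΩ.1).lin _ _ _ _ (-1) hu hv
    simpa [sub_eq_add_neg] using h2
  have hv2 : ‖v‖ ≤ Real.sqrt (2 / (M * c)) * ‖α‖ := by
    have h1 : c * ‖v‖ ^ 2 ≤ 2 / M * ‖α‖ ^ 2 := by
      calc c * ‖v‖ ^ 2 = ∫ z in Ω, c * ‖v z‖ ^ 2 := by
            rw [norm_sq_int, integral_const_mul]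
        _ ≤ ∫ z in Ω, ‖v z‖ ^ 2 * Real.exp (-(M * nsq (z - p))) := by
            refine integral_mono_ae ((CSA_intg v).const_mul c) (CSA_intgw (CSA_intg v) hM p) ?_
            refine (ae_restrict_iff' hΩ.1.measurableSet).2 (Eventually.of_forall fun z hz => ?_)
            show c * ‖v z‖ ^ 2 ≤ ‖v z‖ ^ 2 * Real.exp (-(M * nsq (z - p)))
            rw [mul_comm]
            exact mul_le_mul_of_nonneg_left (hlow z hz) (by positivity)
        _ ≤ _ := hvi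
        _ ≤ 2 / M * ‖α‖ ^ 2 := by
            rw [CSA_norm]
            refine mul_le_mul_of_nonneg_left ?_ (by positivity)
            refine integral_mono (CSA_intgw (CSA_intg' α) hM p) (CSA_intg' α) fun z => ?_
            exact mul_le_of_le_one_right (CSA_nsq_nonneg _) (CSA_exp_le hM _)
    have h2 : ‖v‖ ^ 2 ≤ (Real.sqrt (2 / (M * c)) * ‖α‖) ^ 2 := by
      rw [mul_pow, Real.sq_sqrt (by positivity)]
      have : 2 / (M * c) * ‖α‖ ^ 2 = (2 / M * ‖α‖ ^ 2) / c := by field_simp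
      rw [this, le_div_iff₀ hc]
      linarith
    exact le_of_sq_le_sq h2 (by positivity)
  have hnorm : ‖S1 α - v‖ ≤ (‖S1‖ + Real.sqrt (2 / (M * c))) * ‖α‖ := by
    calc ‖S1 α - v‖ ≤ ‖S1 α‖ + ‖v‖ := norm_sub_le _ _
      _ ≤ ‖S1‖ * ‖α‖ + Real.sqrt (2 / (M * c)) * ‖α‖ := add_le_add (S1.le_opNorm α) hv2
      _ = _ := by ring
  have hK : ((B ∘L m - m ∘L B) ∘L S1) α = B (m (S1 α)) := by
    simp [hBu]
  have hin : inner ℂ (m (S1 α)) (S1 α - v) = inner ℂ (B (m (S1 α))) (S1 α - v) :=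
    (bergman_inner hB _ _ ha).symm
  have habs := CSA_abs m (mul_adjoint hm) (by
    intro x
    rw [CSA_quad hm x, Complex.ofReal_re]
    exact integral_nonneg fun z => by positivity) (S1 α) v
  rw [CSA_quad hm, CSA_quad hm, Complex.ofReal_re, Complex.ofReal_re, hin, ← hK] at habs
  have hcs : (inner ℂ (((B ∘L m - m ∘L B) ∘L S1) α) (S1 α - v)).re ≤
      ‖((B ∘L m - m ∘L B) ∘L S1) α‖ * ‖S1 α - v‖ :=
    (Complex.re_le_norm _).trans (norm_inner_le_norm _ _)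
  have hfin : ‖((B ∘L m - m ∘L B) ∘L S1) α‖ * ‖S1 α - v‖ ≤
      (‖S1‖ + Real.sqrt (2 / (M * c))) * (‖α‖ * ‖((B ∘L m - m ∘L B) ∘L S1) α‖) := by
    calc _ ≤ ‖((B ∘L m - m ∘L B) ∘L S1) α‖ * ((‖S1‖ + Real.sqrt (2 / (M * c))) * ‖α‖) :=
          mul_le_mul_of_nonneg_left hnorm (norm_nonneg _)
      _ = _ := by ring
  linarith

theorem sol1_compact {Ω : Set (Cn n)} (hΩ : Pseudoconvex Ω) (hb : Bornology.IsBounded Ω)
    {B : L20 Ω →L[ℂ] L20 Ω} (hB : IsBergman Ω B) (hc : CompactCommutators Ω B)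
    {S1 : L21 Ω →L[ℂ] L20 Ω} (hS1 : IsSol1 (IsDbar0 Ω) (IsDbar1 Ω) S1) :
    IsCompactOperator S1 := by
  refine compact_of_ineq S1 fun ε hε => ?_
  obtain ⟨c₁, hc₁, c₂, hc₂, hlat⟩ := lattice_sum n
  set M : ℝ := 2 * c₂ / (c₁ * ε) with hM'
  have hM : 0 < M := by positivity
  obtain ⟨N, p, hp1, hp2⟩ := hlat M hM Ω hb
  have hm' : ∀ i, ∃ m : L20 Ω →L[ℂ] L20 Ω,
      IsMul Ω (cx fun z => Real.exp (-(M * nsq (z - p i)))) m := by
    intro i
    refine exists_mul hΩ.1 hb (Continuous.continuousOn ?_)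
    exact Complex.continuous_ofReal.comp
      (Real.continuous_exp.comp (contDiff_nsq M (p i)).continuous.neg)
  choose m hm using hm'
  obtain ⟨c, hcpos, hlow⟩ := CSA_low hb (M := M) p
  set C₀ : ℝ := ‖S1‖ + Real.sqrt (2 / (M * c)) with hC₀
  have hC₀0 : 0 ≤ C₀ := by positivity
  refine ⟨N, fun i => (B ∘L m i - m i ∘L B) ∘L S1, 2 * C₀ / c₁, ?_, ?_⟩
  · intro i
    have h1 : IsCompactOperator (B ∘L m i - m i ∘L B) := by
      refine hc _ (Continuous.continuousOn ?_) (m i) (hm i)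
      exact Complex.continuous_ofReal.comp
        (Real.continuous_exp.comp (contDiff_nsq M (p i)).continuous.neg)
    exact h1.comp_clm S1
  · -- closed forms
    have hcl : ∀ α : L21 Ω, IsDbar1 Ω α 0 → ‖S1 α‖ ^ 2 ≤ ε * ‖α‖ ^ 2 + 2 * C₀ / c₁ * ‖α‖ *
        ∑ i, ‖((B ∘L m i - m i ∘L B) ∘L S1) α‖ := by
      intro α hα
      have h1 : c₁ * ‖S1 α‖ ^ 2 ≤ ∑ i, ∫ z in Ω, ‖S1 α z‖ ^ 2 *
          Real.exp (-(M * nsq (z - p i))) := by
        rw [← integral_finsetSum _ fun i _ => CSA_intgw (CSA_intg (S1 α)) hM (p i),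
          norm_sq_int, ← integral_const_mul]
        refine integral_mono_ae ((CSA_intg _).const_mul c₁)
          (integrable_finsetSum _ fun i _ => CSA_intgw (CSA_intg (S1 α)) hM (p i)) ?_
        refine (ae_restrict_iff' hΩ.1.measurableSet).2 (Eventually.of_forall fun z hz => ?_)
        show c₁ * ‖S1 α z‖ ^ 2 ≤ ∑ i, ‖S1 α z‖ ^ 2 * Real.exp (-(M * nsq (z - p i)))
        rw [← Finset.mul_sum, mul_comm]
        exact mul_le_mul_of_nonneg_left (hp1 z hz) (by positivity)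
      have h2 : ∑ i, ∫ z in Ω, nsq (fun j => α z j) * Real.exp (-(M * nsq (z - p i))) ≤
          c₂ * ‖α‖ ^ 2 := by
        rw [← integral_finsetSum _ fun i _ => CSA_intgw (CSA_intg' α) hM (p i),
          CSA_norm, ← integral_const_mul]
        refine integral_mono
          (integrable_finsetSum _ fun i _ => CSA_intgw (CSA_intg' α) hM (p i))
          ((CSA_intg' α).const_mul c₂) fun z => ?_
        show ∑ i, nsq (fun j => α z j) * Real.exp (-(M * nsq (z - p i))) ≤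
          c₂ * nsq (fun j => α z j)
        rw [← Finset.mul_sum, mul_comm c₂]
        exact mul_le_mul_of_nonneg_left (hp2 z) (CSA_nsq_nonneg _)
      have h3 : ∑ i, ∫ z in Ω, ‖S1 α z‖ ^ 2 * Real.exp (-(M * nsq (z - p i))) ≤
          2 / M * (c₂ * ‖α‖ ^ 2) + 2 * C₀ * ‖α‖ *
            ∑ i, ‖((B ∘L m i - m i ∘L B) ∘L S1) α‖ := by
        calc _ ≤ ∑ i, (2 / M * (∫ z in Ω, nsq (fun j => α z j) *
              Real.exp (-(M * nsq (z - p i)))) +
              2 * (C₀ * (‖α‖ * ‖((B ∘L m i - m i ∘L B) ∘L S1) α‖))) :=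
              Finset.sum_le_sum fun i _ =>
                CSA_main hΩ hb hB hS1 hM (p i) (hm i) hcpos (hlow i) hα
          _ = 2 / M * ∑ i, (∫ z in Ω, nsq (fun j => α z j) *
              Real.exp (-(M * nsq (z - p i)))) + 2 * C₀ * ‖α‖ *
              ∑ i, ‖((B ∘L m i - m i ∘L B) ∘L S1) α‖ := by
              rw [Finset.sum_add_distrib, Finset.mul_sum, Finset.mul_sum]
              congr 1
              exact Finset.sum_congr rfl fun i _ => by ring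
          _ ≤ _ := by
              gcongr
      have h4 : 2 / M * (c₂ * ‖α‖ ^ 2) = c₁ * (ε * ‖α‖ ^ 2) := by
        rw [hM']
        field_simp
      have h5 : c₁ * ‖S1 α‖ ^ 2 ≤ c₁ * (ε * ‖α‖ ^ 2) + 2 * C₀ * ‖α‖ *
            ∑ i, ‖((B ∘L m i - m i ∘L B) ∘L S1) α‖ := by
        rw [← h4]
        exact h1.trans h3
      have h6 : c₁ * (ε * ‖α‖ ^ 2 + 2 * C₀ / c₁ * ‖α‖ *
          ∑ i, ‖((B ∘L m i - m i ∘L B) ∘L S1) α‖) = c₁ * (ε * ‖α‖ ^ 2) + 2 * C₀ * ‖α‖ *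
            ∑ i, ‖((B ∘L m i - m i ∘L B) ∘L S1) α‖ := by
        field_simp
      rw [← h6] at h5
      exact le_of_mul_le_mul_left h5 hc₁
    intro α
    have hcomp : CompleteSpace (ABSA_ker (isClosedOp_dbar1 hΩ.1)) :=
      (ABSA_ker_closed (isClosedOp_dbar1 hΩ.1)).completeSpace_coe
    set V := ABSA_ker (isClosedOp_dbar1 hΩ.1) with hV
    set β := V.starProjection α with hβ
    have hβ1 : IsDbar1 Ω β 0 :=
      (ABSA_mem_ker (isClosedOp_dbar1 hΩ.1) _).1 (Submodule.starProjection_apply_mem _ α)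
    have hβ2 : ‖β‖ ≤ ‖α‖ := Submodule.norm_starProjection_apply_le _ _
    have hβ3 : S1 α = S1 β := by
      have h1 : S1 (α - β) = 0 := by
        refine hS1.zero _ fun γ hγ => ?_
        have h2 := V.sub_starProjection_mem_orthogonal α
        exact (Submodule.mem_orthogonal _ _).1 h2 γ
          ((ABSA_mem_ker (isClosedOp_dbar1 hΩ.1) γ).2 hγ)
      rw [map_sub, sub_eq_zero] at h1
      exact h1
    have h1 := hcl β hβ1
    have h2 : ∀ i, ((B ∘L m i - m i ∘L B) ∘L S1) α = ((B ∘L m i - m i ∘L B) ∘L S1) β := by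
      intro i
      simp only [ContinuousLinearMap.comp_apply, hβ3]
    have h3 : ∑ i, ‖((B ∘L m i - m i ∘L B) ∘L S1) α‖ =
        ∑ i, ‖((B ∘L m i - m i ∘L B) ∘L S1) β‖ :=
      Finset.sum_congr rfl fun i _ => by rw [h2 i]
    rw [h3, hβ3]
    refine h1.trans ?_
    have h4 : 0 ≤ ∑ i, ‖((B ∘L m i - m i ∘L B) ∘L S1) β‖ :=
      Finset.sum_nonneg fun i _ => norm_nonneg _
    have h5 : ‖β‖ ^ 2 ≤ ‖α‖ ^ 2 := pow_le_pow_left₀ (norm_nonneg _) hβ2 2
    have h6 : 0 ≤ 2 * C₀ / c₁ := by positivity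
    exact add_le_add (mul_le_mul_of_nonneg_left h5 hε.le)
      (mul_le_mul_of_nonneg_right (mul_le_mul_of_nonneg_left hβ2 h6) h4)

end DN
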