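import Pool.Agent.H49.DN.MKB
import Pool.Agent.H49.DN.BER

/-! # CSB: forms orthogonal to the kernel of `∂̄`; compactness of `S2`

PROOF. `coeff`: `morrey_kohn` gives `a j` with `IsDbar0 Ω (cmp j f) (a j)`, `∑ ‖a j‖² ≤ ‖k‖²`. Let `b` be the form with
components `B (cmp j f)` (`mk_lp`). `IsDbar1 Ω b 0` (components satisfy `IsDbar0 _ 0` by `ker_dbar0`), so
`0 = ⟨b, f⟩ = ∑ ⟨B f_j, f_j⟩ = ∑ ‖B f_j‖²` (`inner_cmp`, `bergman_inner`): `B f_j = 0`, so `f_j ⊥ A²`, i.e.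
`⟨v, f_j⟩ = 0` for `IsDbar0 Ω v 0`.
`sol2_compact`: for `‖k‖ ≤ 1`, `f = S2 k`: `IsDbar1 Ω f k'`, `‖k'‖ ≤ 1` (`IsSol2.dom`), `f ⊥ ker` (`orth`). By `coeff`
`‖a j‖ ≤ 1`, `IsDbar1 Ω (a j) 0` (`dbar_dbar`), and `S1 (a j) = cmp j f`: both solve `IsDbar0 · (a j)`, and both are
orthogonal to `A²`. So `f = Φ (fun j => S1 (a j))` (`exists_mkL`), in the image under the continuous map `Φ` of the
compact set `Set.pi univ (fun _ => closure (S1 '' closedBall 0 1))` (`isCompact_univ_pi`). Conclude with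
`isCompactOperator_iff_...` (image of the unit ball contained in a compact set). -/

set_option autoImplicit false

namespace DN

open MeasureTheory Set Filter Topology ContDiff

variable {n : ℕ}

/-- integrals of the components of zero -/
private theorem CSB_zero {ι : Type} [Fintype ι] {Ω : Set (Cn n)} {φ : Cn n → ℂ} (hφ : Test Ω φ)
    (j : ι) : ∫ z in Ω, (0 : Lp (EuclideanSpace ℂ ι) 2 (volume.restrict Ω)) z j * φ z = 0 := by
  obtain ⟨ℓ, h1, -⟩ := CLO_cmp (ι := ι) hφ j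
  rw [← h1, map_zero]

/-- a form with `∂̄`-closed components is `∂̄`-closed -/
private theorem CSB_closed {Ω : Set (Cn n)} {b : L21 Ω} (hb : ∀ j, IsDbar0 Ω (cmp j b) 0) :
    IsDbar1 Ω b 0 := by
  intro φ hφ p
  have h1 : ∀ i j : Fin n, ∫ z in Ω, b z i * dbar j φ z = 0 := by
    intro i j
    obtain ⟨ℓ, e1, e2⟩ := CLO_cmp (ι := Fin n) (hφ.dbar j) i
    rw [← e1, e2, hb i φ hφ j, CSB_zero hφ j, neg_zero]
  rw [integral_sub (CLO_int_cmp (hφ.dbar p.1.1) b _) (CLO_int_cmp (hφ.dbar p.1.2) b _), h1, h1,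
    CSB_zero hφ p, sub_zero, neg_zero]

theorem coeff {Ω : Set (Cn n)} (hΩ : Pseudoconvex Ω) {f : L21 Ω} {k : L22 Ω}
    (hf : IsDbar1 Ω f k) (hort : ∀ a, IsDbar1 Ω a 0 → inner ℂ a f = 0) :
    ∃ a : Fin n → L21 Ω, (∀ j, IsDbar0 Ω (cmp j f) (a j)) ∧ (∑ j, ‖a j‖ ^ 2 ≤ ‖k‖ ^ 2) ∧
      ∀ j, ∀ v, IsDbar0 Ω v 0 → inner ℂ v (cmp j f) = 0 := by
  obtain ⟨a, ha, hsum⟩ := morrey_kohn hΩ hf hort
  obtain ⟨B, hB, -⟩ := exists_bergman hΩ.1
  obtain ⟨b, hb⟩ := mk_lp (fun j => B (cmp j f))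
  have hbc : IsDbar1 Ω b 0 := by
    refine CSB_closed fun j => ?_
    rw [hb j, ker_dbar0 hΩ.1]
    exact (hB (cmp j f)).1
  have h1 := hort b hbc
  rw [inner_cmp] at h1
  have h2 : ∀ j, inner ℂ (cmp j b) (cmp j f) = ((‖B (cmp j f)‖ ^ 2 : ℝ) : ℂ) := by
    intro j
    rw [hb j]
    have h3 := bergman_inner hB (cmp j f) (B (cmp j f)) (hB (cmp j f)).1
    rw [← inner_conj_symm, ← h3, inner_self_eq_norm_sq_to_K]
    simp
  rw [Finset.sum_congr rfl fun j _ => h2 j, ← Complex.ofReal_sum] at h1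
  have h3 : ∑ j, ‖B (cmp j f)‖ ^ 2 = 0 := by exact_mod_cast h1
  rw [Finset.sum_eq_zero_iff_of_nonneg fun j _ => sq_nonneg _] at h3
  refine ⟨a, ha, hsum, fun j v hv => ?_⟩
  have h4 : B (cmp j f) = 0 := by
    have := h3 j (Finset.mem_univ j)
    rw [sq_eq_zero_iff, norm_eq_zero] at this
    exact this
  have h5 := (hB (cmp j f)).2 v ((ker_dbar0 hΩ.1 v).1 hv)
  rw [h4, sub_zero] at h5
  exact h5

theorem sol2_compact {Ω : Set (Cn n)} (hΩ : Pseudoconvex Ω) {S1 : L21 Ω →L[ℂ] L20 Ω}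
    (hS1 : IsSol1 (IsDbar0 Ω) (IsDbar1 Ω) S1) {S2 : L22 Ω →L[ℂ] L21 Ω}
    (hS2 : IsSol2 (IsDbar1 Ω) S2) (hc : IsCompactOperator S1) : IsCompactOperator S2 := by
  obtain ⟨Φ, -, hΦ⟩ := exists_mkL (ι := Fin n) (μ := volume.restrict Ω)
  obtain ⟨K, hK, hKS⟩ := IsCompactOperator.image_closedBall_subset_compact
    (f := (S1 : L21 Ω →ₗ[ℂ] L20 Ω)) hc 1
  have hcl := isClosedOp_dbar0 (n := n) hΩ.1
  refine (isCompactOperator_iff_image_closedBall_subset_compact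
    (S2 : L22 Ω →ₗ[ℂ] L21 Ω) one_pos).2 ⟨Φ '' (Set.pi univ fun _ : Fin n => K),
    (isCompact_univ_pi fun _ => hK).image Φ.continuous, ?_⟩
  rintro _ ⟨k, hk, rfl⟩
  rw [mem_closedBall_zero_iff] at hk
  obtain ⟨k', hk', hkn, -⟩ := hS2.dom k
  obtain ⟨a, ha, hsum, hor⟩ := coeff hΩ hk' (hS2.orth k)
  have hnorm : ∀ j, ‖a j‖ ≤ 1 := by
    intro j
    have h1 : ‖a j‖ ^ 2 ≤ ∑ i, ‖a i‖ ^ 2 :=
      Finset.single_le_sum (f := fun i => ‖a i‖ ^ 2) (fun i _ => sq_nonneg _) (Finset.mem_univ j)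
    have h2 : ‖k'‖ ^ 2 ≤ 1 := by
      have := norm_nonneg k'
      nlinarith
    nlinarith [norm_nonneg (a j)]
  have heq : ∀ j, cmp j (S2 k) = S1 (a j) := by
    intro j
    have h1 := hS1.sol (a j) (dbar_dbar hΩ.1 _ _ (ha j))
    have h2 := hcl.lin _ _ _ _ (-1) (ha j) h1
    obtain ⟨w, hw⟩ : ∃ w, w = cmp j (S2 k) - S1 (a j) := ⟨_, rfl⟩
    have h3 : IsDbar0 Ω w 0 := by
      rw [neg_one_smul, neg_one_smul, ← sub_eq_add_neg, ← sub_eq_add_neg, sub_self, ← hw] at h2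
      exact h2
    have h4 := hor j w h3
    have h5 := hS1.orth (a j) w h3
    have h6 : inner ℂ w w = 0 := by
      have h7 : inner ℂ w (cmp j (S2 k) - S1 (a j)) = 0 := by
        rw [inner_sub_right, h4, h5, sub_zero]
      rwa [← hw] at h7
    rw [inner_self_eq_zero, hw, sub_eq_zero] at h6
    exact h6
  refine ⟨fun j => S1 (a j), ?_, ?_⟩
  · intro j _
    exact hKS ⟨a j, by rw [mem_closedBall_zero_iff]; exact hnorm j, rfl⟩
  · have h7 := hΦ (S2 k)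
    simp only [heq] at h7
    exact h7

end DN
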