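import Pool.Agent.H49.DN.CALB

/-! # CUT: cut off functions adapted to a defining function

PROOF. `E : ℝ → ℝ` smooth, `0 ≤ E ≤ 1`, `E t = 1` for `t ≤ -2`, `E t = 0` for `t ≥ -1`
(`Real.smoothTransition (-t - 1)`), `|E'| ≤ A` (`E'` is continuous with compact support in `[-2,-1]`).
`η m z = E ((m + 8) v z)` for `z ∈ D`, `0` for `z ∉ D`. `{z ∈ D | v z ≤ -c}` is compact for `c > 0`
(closed in `closure D` because `v ≥ 0` on the frontier, `v` continuous). So the support of `η m` is contained in the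
compact set `{z ∈ D | v z ≤ -1/(m+8)}`, and `η m` is smooth (locally it is `E ((m+8) v)` or `0`).
`η m = 1` where `v < -2/(m+8)`, in particular where `v < -1/4`. Gradient: `dbar j (cx η) = E' (m+8) dbar j (cx v)`
(`dbar_comp`), nonzero only if `1/(m+8) ≤ |v z| ≤ 2/(m+8)`, so `(m+8)² ≤ 4/(v z)²`:
`nsq ≤ A² (4/(v z)²) sup_{closure D} nsq (dbar v)`. -/

set_option autoImplicit false

namespace DN

open MeasureTheory Set Filter Topology ContDiff

variable {n : ℕ}

/-- the profile of the cut off functions -/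
noncomputable def CUT_E (t : ℝ) : ℝ := Real.smoothTransition (-t - 1)

theorem CUT_smooth : ContDiff ℝ ∞ CUT_E := by
  unfold CUT_E
  exact Real.smoothTransition.contDiff.comp ((contDiff_id.neg).sub contDiff_const)

theorem CUT_one {t : ℝ} (h : t ≤ -2) : CUT_E t = 1 :=
  Real.smoothTransition.one_of_one_le (by linarith)

theorem CUT_zero {t : ℝ} (h : -1 ≤ t) : CUT_E t = 0 :=
  Real.smoothTransition.zero_of_nonpos (by linarith)

theorem CUT_deriv_bound : ∃ A > 0, ∀ t, |t * deriv CUT_E t| ≤ A := by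
  have hc : Continuous fun t : ℝ => |t * deriv CUT_E t| := by
    have := CUT_smooth.continuous_deriv (by simp)
    exact (continuous_id.mul this).abs
  obtain ⟨A, hA⟩ := (isCompact_Icc (a := (-2 : ℝ)) (b := -1)).bddAbove_image hc.continuousOn
  refine ⟨max A 1, by positivity, fun t => ?_⟩
  by_cases ht : t ∈ Icc (-2 : ℝ) (-1)
  · exact le_trans (hA ⟨t, ht, rfl⟩) (le_max_left _ _)
  · have h0 : deriv CUT_E t = 0 := by
      rw [mem_Icc, not_and_or, not_le, not_le] at ht
      rcases ht with ht | ht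
      · have : CUT_E =ᶠ[𝓝 t] fun _ => 1 := by
          filter_upwards [Iio_mem_nhds ht] with s hs
          exact CUT_one (le_of_lt hs)
        rw [this.deriv_eq]; simp
      · have : CUT_E =ᶠ[𝓝 t] fun _ => 0 := by
          filter_upwards [Ioi_mem_nhds ht] with s hs
          exact CUT_zero (le_of_lt hs)
        rw [this.deriv_eq]; simp
    rw [h0]; simp

theorem exists_cutoffs {D : Set (Cn n)} {v : Cn n → ℝ} (hD : IsOpen D)
    (hDc : IsCompact (closure D)) (hv : ContDiff ℝ ∞ v) (hneg : ∀ z ∈ D, v z < 0)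
    (hfr : ∀ z ∈ frontier D, 0 ≤ v z) :
    ∃ C₁ > 0, ∃ η : ℕ → Cn n → ℝ, (∀ m, ContDiff ℝ ∞ (η m)) ∧ (∀ m z, 0 ≤ η m z) ∧
      (∀ m z, η m z ≤ 1) ∧ (∀ m, HasCompactSupport (η m)) ∧ (∀ m, tsupport (η m) ⊆ D) ∧
      (∀ z ∈ D, ∀ᶠ m in atTop, ∀ᶠ w in 𝓝 z, η m w = 1) ∧
      (∀ m, ∀ z ∈ D, v z < -(1 / 4) → ∀ᶠ w in 𝓝 z, η m w = 1) ∧
      ∀ m, ∀ z ∈ D, nsq (fun j => dbar j (cx (η m)) z) ≤ C₁ / v z ^ 2 := by
  classical
  obtain ⟨A, hA0, hA⟩ := CUT_deriv_bound
  -- bound of the gradient of `v`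
  have hcx : ContDiff ℝ ∞ (cx v) := by
    unfold cx
    exact Complex.ofRealCLM.contDiff.comp hv
  have hgc : Continuous fun z => nsq (fun j => dbar j (cx v) z) := by
    unfold nsq
    refine continuous_finsetSum _ fun j _ => ?_
    exact ((contDiff_dbar hcx j).continuous.norm).pow 2
  obtain ⟨S, hS⟩ := hDc.bddAbove_image hgc.continuousOn
  have hS' : ∀ z ∈ D, nsq (fun j => dbar j (cx v) z) ≤ max S 1 := fun z hz =>
    le_trans (hS ⟨z, subset_closure hz, rfl⟩) (le_max_left _ _)
  -- the compact sets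
  let K : ℕ → Set (Cn n) := fun m => closure D ∩ {z | ((m : ℝ) + 8) * v z ≤ -1}
  have hKcl : ∀ m, IsClosed {z | ((m : ℝ) + 8) * v z ≤ -1} := fun m =>
    isClosed_le (continuous_const.mul hv.continuous) continuous_const
  have hKc : ∀ m, IsCompact (K m) := fun m => hDc.inter_right (hKcl m)
  have hm8 : ∀ m : ℕ, (0 : ℝ) < (m : ℝ) + 8 := fun m => by positivity
  have hKD : ∀ m, K m ⊆ D := by
    rintro m z ⟨hz, hvz⟩
    by_contra hzD
    have hz' : z ∈ frontier D := by
      rw [frontier, hD.interior_eq]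
      exact ⟨hz, hzD⟩
    have h1 := hfr z hz'
    have h2 : (0 : ℝ) ≤ ((m : ℝ) + 8) * v z := mul_nonneg (hm8 m).le h1
    have h3 : ((m : ℝ) + 8) * v z ≤ -1 := hvz
    linarith
  let η : ℕ → Cn n → ℝ := fun m z => if z ∈ D then CUT_E (((m : ℝ) + 8) * v z) else 0
  have hηin : ∀ m, ∀ z ∈ D, η m =ᶠ[𝓝 z] fun w => CUT_E (((m : ℝ) + 8) * v w) := by
    intro m z hz
    filter_upwards [hD.mem_nhds hz] with w hw
    exact if_pos hw
  have hηsupp : ∀ m, Function.support (η m) ⊆ K m := by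
    intro m z hz
    by_cases hzD : z ∈ D
    · refine ⟨subset_closure hzD, ?_⟩
      by_contra hcon
      have hcon' : -1 ≤ ((m : ℝ) + 8) * v z := (not_le.mp hcon).le
      apply hz
      change (if z ∈ D then CUT_E (((m : ℝ) + 8) * v z) else 0) = 0
      rw [if_pos hzD, CUT_zero hcon']
    · exact absurd (if_neg hzD) hz
  have hηts : ∀ m, tsupport (η m) ⊆ K m := fun m =>
    closure_minimal (hηsupp m) (hKc m).isClosed
  have hone : ∀ m : ℕ, ∀ z ∈ D, ((m : ℝ) + 8) * v z < -2 → ∀ᶠ w in 𝓝 z, η m w = 1 := by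
    intro m z hz hlt
    have h1 : ∀ᶠ w in 𝓝 z, ((m : ℝ) + 8) * v w < -2 :=
      (continuous_const.mul hv.continuous).continuousAt.eventually_lt continuousAt_const hlt
    filter_upwards [h1, hηin m z hz] with w hw1 hw2
    rw [hw2]
    exact CUT_one hw1.le
  refine ⟨A ^ 2 * max S 1, by positivity, η, ?_, ?_, ?_, ?_, ?_, ?_, ?_, ?_⟩
  · intro m
    rw [contDiff_iff_contDiffAt]
    intro z
    by_cases hz : z ∈ D
    · refine ContDiffAt.congr_of_eventuallyEq ?_ (hηin m z hz)
      exact (CUT_smooth.comp (contDiff_const.mul hv)).contDiffAt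
    · have hzK : z ∉ K m := fun h => hz (hKD m h)
      have : η m =ᶠ[𝓝 z] fun _ => 0 := by
        filter_upwards [(hKc m).isClosed.isOpen_compl.mem_nhds hzK] with w hw
        by_contra hne
        exact hw (hηsupp m hne)
      exact contDiffAt_const.congr_of_eventuallyEq this
  · intro m z
    change 0 ≤ (if z ∈ D then CUT_E (((m : ℝ) + 8) * v z) else 0)
    split_ifs
    · exact Real.smoothTransition.nonneg _
    · exact le_rfl
  · intro m z
    change (if z ∈ D then CUT_E (((m : ℝ) + 8) * v z) else 0) ≤ 1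
    split_ifs
    · exact Real.smoothTransition.le_one _
    · exact zero_le_one
  · intro m
    exact HasCompactSupport.of_support_subset_isCompact (hKc m) (hηsupp m)
  · intro m
    exact (hηts m).trans (hKD m)
  · intro z hz
    have hvz := hneg z hz
    obtain ⟨N, hN⟩ := exists_nat_gt (2 / (-v z))
    filter_upwards [eventually_ge_atTop N] with m hm
    apply hone m z hz
    have h1 : (2 : ℝ) / (-v z) < m := lt_of_lt_of_le hN (by exact_mod_cast hm)
    rw [div_lt_iff₀ (by linarith)] at h1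
    nlinarith
  · intro m z hz hlt
    apply hone m z hz
    have : (0 : ℝ) ≤ m := Nat.cast_nonneg m
    nlinarith
  · intro m z hz
    have hvz := hneg z hz
    have hd : ∀ j, dbar j (cx (η m)) z =
        ((((m : ℝ) + 8) * deriv CUT_E (((m : ℝ) + 8) * v z) : ℝ) : ℂ) * dbar j (cx v) z := by
      intro j
      have h1 : cx (η m) =ᶠ[𝓝 z] cx (fun w => CUT_E (((m : ℝ) + 8) * v w)) := by
        filter_upwards [hηin m z hz] with w hw
        unfold cx
        rw [hw]
      rw [dbar_congr h1]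
      have hdE : Differentiable ℝ CUT_E := CUT_smooth.differentiable (by simp)
      have hg : DifferentiableAt ℝ (fun t => CUT_E (((m : ℝ) + 8) * t)) (v z) :=
        (hdE _).comp (v z) ((differentiableAt_id).const_mul _)
      have h2 := dbar_comp (g := fun t => CUT_E (((m : ℝ) + 8) * t)) (v := v) (z := z)
        ((hv.differentiable (by simp)) z) hg j
      rw [h2]
      congr 2
      have h3 : HasDerivAt (fun t => CUT_E (((m : ℝ) + 8) * t))
          (deriv CUT_E (((m : ℝ) + 8) * v z) * (((m : ℝ) + 8) * 1)) (v z) :=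
        ((hdE (((m : ℝ) + 8) * v z)).hasDerivAt).comp (v z)
          ((hasDerivAt_id (v z)).const_mul ((m : ℝ) + 8))
      rw [h3.deriv]; ring
    have hns : nsq (fun j => dbar j (cx (η m)) z) =
        (((m : ℝ) + 8) * deriv CUT_E (((m : ℝ) + 8) * v z)) ^ 2 *
          nsq (fun j => dbar j (cx v) z) := by
      unfold nsq
      rw [Finset.mul_sum]
      refine Finset.sum_congr rfl fun j _ => ?_
      change ‖dbar j (cx (η m)) z‖ ^ 2 = _
      rw [hd j, norm_mul, mul_pow, Complex.norm_real, Real.norm_eq_abs, sq_abs]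
    have hv2 : 0 < v z ^ 2 := by nlinarith
    rw [hns, le_div_iff₀ hv2]
    have hAz := hA (((m : ℝ) + 8) * v z)
    have h4 : (((m : ℝ) + 8) * v z * deriv CUT_E (((m : ℝ) + 8) * v z)) ^ 2 ≤ A ^ 2 := by
      rw [← sq_abs]
      exact pow_le_pow_left₀ (abs_nonneg _) hAz 2
    have h5 : 0 ≤ nsq (fun j => dbar j (cx v) z) :=
      Finset.sum_nonneg fun j _ => sq_nonneg _
    calc (((m : ℝ) + 8) * deriv CUT_E (((m : ℝ) + 8) * v z)) ^ 2 *
          nsq (fun j => dbar j (cx v) z) * v z ^ 2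
        = (((m : ℝ) + 8) * v z * deriv CUT_E (((m : ℝ) + 8) * v z)) ^ 2 *
          nsq (fun j => dbar j (cx v) z) := by ring
      _ ≤ A ^ 2 * max S 1 := mul_le_mul h4 (hS' z hz) h5 (by positivity)

end DN
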