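import Mathlib

/-!
# The `∂̄`-Neumann operator and the Bergman projection

`Cn n = ℂ^n`, `Ω ⊆ ℂ^n` open.

* `dbar j φ = ∂φ/∂z̄_j`.
* `L20 Ω`, `L21 Ω`, `L22 Ω`: square integrable functions, `(0,1)`-forms, `(0,2)`-forms on `Ω`
  (a form is the vector of its coefficients; `(0,2)`-forms are indexed by the pairs `j < k`).
* `IsDbar0 u α`, `IsDbar1 f k`: `∂̄u = α`, `∂̄f = k` in the sense of distributions on `Ω` (the maximal
  `L²` extension of `∂̄`).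
* `IsStar0 f u`, `IsStar1 k f`: `∂̄^* f = u`, `∂̄^* k = f` (Hilbert space adjoints).
* `IsBox f g`: `f ∈ Dom □₁` and `□₁ f = (∂̄ ∂̄^* + ∂̄^* ∂̄) f = g`.
-/

set_option autoImplicit false

namespace DN

open MeasureTheory Set Filter Topology ContDiff

/-- `ℂ^n` -/
abbrev Cn (n : ℕ) : Type := Fin n → ℂ

variable {n : ℕ}

/-- `∂φ/∂z̄_j` -/
noncomputable def dbar (j : Fin n) (φ : Cn n → ℂ) (z : Cn n) : ℂ :=
  1 / 2 * (fderiv ℝ φ z (Pi.single j 1) + Complex.I * fderiv ℝ φ z (Pi.single j Complex.I))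

/-- `φ` is a test function on `Ω`: smooth with compact support in `Ω`. -/
structure Test (Ω : Set (Cn n)) (φ : Cn n → ℂ) : Prop where
  smooth : ContDiff ℝ ∞ φ
  supp : HasCompactSupport φ
  sub : tsupport φ ⊆ Ω

/-- pairs `j < k` -/
abbrev Pairs (n : ℕ) : Type := {p : Fin n × Fin n // p.1 < p.2}

/-- square integrable functions on `Ω` -/
abbrev L20 (Ω : Set (Cn n)) : Type := Lp ℂ 2 (volume.restrict Ω)

/-- square integrable `(0,1)`-forms on `Ω` -/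
abbrev L21 (Ω : Set (Cn n)) : Type := Lp (EuclideanSpace ℂ (Fin n)) 2 (volume.restrict Ω)

/-- square integrable `(0,2)`-forms on `Ω` -/
abbrev L22 (Ω : Set (Cn n)) : Type := Lp (EuclideanSpace ℂ (Pairs n)) 2 (volume.restrict Ω)

/-- `∂̄u = α` weakly, for a function `u` -/
def IsDbar0 (Ω : Set (Cn n)) (u : L20 Ω) (α : L21 Ω) : Prop :=
  ∀ φ, Test Ω φ → ∀ j, ∫ z in Ω, u z * dbar j φ z = -∫ z in Ω, α z j * φ z

/-- `∂̄f = k` weakly, for a `(0,1)`-form `f`: `∂f_k/∂z̄_j - ∂f_j/∂z̄_k = k_{jk}` for `j < k` -/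
def IsDbar1 (Ω : Set (Cn n)) (f : L21 Ω) (k : L22 Ω) : Prop :=
  ∀ φ, Test Ω φ → ∀ p : Pairs n,
    ∫ z in Ω, (f z p.1.2 * dbar p.1.1 φ z - f z p.1.1 * dbar p.1.2 φ z) =
      -∫ z in Ω, k z p * φ z

/-- `f ∈ Dom ∂̄^*` and `∂̄^* f = u`, for a `(0,1)`-form `f` -/
def IsStar0 (Ω : Set (Cn n)) (f : L21 Ω) (u : L20 Ω) : Prop :=
  ∀ v α, IsDbar0 Ω v α → inner ℂ α f = inner ℂ v u

/-- `k ∈ Dom ∂̄^*` and `∂̄^* k = f`, for a `(0,2)`-form `k` -/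
def IsStar1 (Ω : Set (Cn n)) (k : L22 Ω) (f : L21 Ω) : Prop :=
  ∀ h l, IsDbar1 Ω h l → inner ℂ l k = inner ℂ h f

/-- `f ∈ Dom □₁` and `□₁ f = ∂̄ ∂̄^* f + ∂̄^* ∂̄ f = g` -/
def IsBox (Ω : Set (Cn n)) (f g : L21 Ω) : Prop :=
  ∃ (u : L20 Ω) (k : L22 Ω) (a b : L21 Ω),
    IsStar0 Ω f u ∧ IsDbar0 Ω u a ∧ IsDbar1 Ω f k ∧ IsStar1 Ω k b ∧ g = a + b

/-- The `∂̄`-Neumann operator `N₁` (the bounded inverse of `□₁`) exists and is compact. -/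
def CompactNeumann (Ω : Set (Cn n)) : Prop :=
  ∃ N : L21 Ω →L[ℂ] L21 Ω, IsCompactOperator N ∧ (∀ g, IsBox Ω (N g) g) ∧
    ∀ f g, IsBox Ω f g → N g = f

/-- `κ` is a continuous plurisubharmonic function on `Ω`. -/
def IsPsh (Ω : Set (Cn n)) (κ : Cn n → ℝ) : Prop :=
  ContinuousOn κ Ω ∧ ∀ z w : Cn n, (∀ ζ : ℂ, ‖ζ‖ ≤ 1 → z + ζ • w ∈ Ω) →
    κ z ≤ 1 / (2 * Real.pi) *
      ∫ t in (0 : ℝ)..(2 * Real.pi), κ (z + Complex.exp (t * Complex.I) • w)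

/-- `Ω` is pseudoconvex: it is open and has a continuous plurisubharmonic exhaustion function. -/
def Pseudoconvex (Ω : Set (Cn n)) : Prop :=
  IsOpen Ω ∧ ∃ κ : Cn n → ℝ, IsPsh Ω κ ∧ ∀ c : ℝ, IsCompact {z ∈ Ω | κ z ≤ c}

/-- `u` is (a.e. equal to) a holomorphic function. -/
def IsHol (Ω : Set (Cn n)) (u : L20 Ω) : Prop :=
  ∃ h : Cn n → ℂ, DifferentiableOn ℂ h Ω ∧ ∀ᵐ z ∂(volume.restrict Ω), u z = h z

/-- `B` is the Bergman projection: the orthogonal projection of `L²(Ω)` onto the subspace of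
holomorphic functions. -/
def IsBergman (Ω : Set (Cn n)) (B : L20 Ω →L[ℂ] L20 Ω) : Prop :=
  ∀ u, IsHol Ω (B u) ∧ ∀ a, IsHol Ω a → inner ℂ a (u - B u) = 0

/-- `M` is the operator of multiplication by `ψ` on `L²(Ω)`. -/
def IsMul (Ω : Set (Cn n)) (ψ : Cn n → ℂ) (M : L20 Ω →L[ℂ] L20 Ω) : Prop :=
  ∀ u, ∀ᵐ z ∂(volume.restrict Ω), M u z = ψ z * u z

/-- The commutators of `B` with the multiplications by the continuous functions on the closure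
of `Ω` are compact. -/
def CompactCommutators (Ω : Set (Cn n)) (B : L20 Ω →L[ℂ] L20 Ω) : Prop :=
  ∀ ψ : Cn n → ℂ, ContinuousOn ψ (closure Ω) → ∀ M : L20 Ω →L[ℂ] L20 Ω, IsMul Ω ψ M →
    IsCompactOperator (B ∘L M - M ∘L B)

end DN
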