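import Pool.Agent.H49.DN.PSM

/-! # EXH: relatively compact strictly pseudoconvex subdomains

PROOF. `κ` exhaustion, `K ⊆ Ω` compact: choose `c` with `κ ≤ c` on `K` (`κ` continuous on `K`; if `K = ∅` any
`c`). `L = {z ∈ Ω | κ z ≤ c + 5}` compact. `smooth_psh` with `ε = 1/2`: `V`. Choose `e > 0` with
`e * nsq z ≤ 1/2` on `L`. `v z = V z + e * nsq z - (c + 2)` (`nsq (z - 0)`), smooth,
`levi v z a = levi V z a + e * nsq a ≥ e * nsq a` for `z ∈ L` (`levi_add`, `levi_nsq`, `levi_const`).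
`D = {z ∈ Ω | κ z < c + 4 ∧ v z < 0}`: open. For `z ∈ Ω`, `κ z ≤ c + 5`, `v z < 0`: `V z < c + 2`, `κ z < c + 5/2`.
So `closure D ⊆ {z ∈ Ω | κ z ≤ c + 5/2}` (compact, hence closed), `closure D` is compact. A point of the frontier has
`κ ≤ c + 5/2 < c + 4`, is in `Ω`, not in `D` (`D` open), so `v ≥ 0`. On `K`: `v ≤ c + 1/2 + 1/2 - c - 2 = -1`. -/

set_option autoImplicit false

namespace DN

open MeasureTheory Set Filter Topology ContDiff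

variable {n : ℕ}

theorem EXH_levi {V : Cn n → ℝ} (hV : ContDiff ℝ ∞ V) (e c : ℝ) (z : Cn n) (a : Fin n → ℂ) :
    levi (fun w => V w + e * nsq (w - 0) + -(c + 2)) z a = levi V z a + e * nsq a := by
  have h2 : ContDiffAt ℝ 2 V z := by
    exact_mod_cast (contDiff_infty.1 hV 2).contDiffAt
  have h3 : ContDiffAt ℝ 2 (fun w : Cn n => e * nsq (w - 0)) z := by
    exact_mod_cast (contDiff_infty.1 (contDiff_nsq e 0) 2).contDiffAt
  rw [levi_add (u := fun w => V w + e * nsq (w - 0)) (v := fun _ => -(c + 2)) (h2.add h3)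
    contDiffAt_const, levi_const, levi_add h2 h3, levi_nsq, add_zero]

theorem exists_exh {Ω K : Set (Cn n)} (hΩ : Pseudoconvex Ω) (hK : IsCompact K) (hKΩ : K ⊆ Ω) :
    ∃ (D : Set (Cn n)) (v : Cn n → ℝ) (c₀ : ℝ), IsOpen D ∧ K ⊆ D ∧ IsCompact (closure D) ∧
      D ⊆ Ω ∧ ContDiff ℝ ∞ v ∧ (∀ z ∈ D, v z < 0) ∧ (∀ z ∈ frontier D, 0 ≤ v z) ∧
      (∀ z ∈ K, v z ≤ -1) ∧ 0 < c₀ ∧ ∀ z ∈ D, ∀ a, c₀ * nsq a ≤ levi v z a := by
  obtain ⟨hopen, κ, hpsh, hex⟩ := hΩ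
  obtain ⟨c, hc⟩ := hK.exists_bound_of_continuousOn (hpsh.1.mono hKΩ)
  have hcK : ∀ z ∈ K, κ z ≤ c := fun z hz => (le_abs_self _).trans (hc z hz)
  have hL := hex (c + 5)
  obtain ⟨V, hV, hVκ, hVl⟩ := smooth_psh hopen hpsh hL (fun z hz => hz.1)
    (show (0 : ℝ) < 1 / 2 by norm_num)
  have hn1 : ContDiff ℝ ∞ (fun w : Cn n => 1 * nsq (w - 0)) := contDiff_nsq 1 0
  obtain ⟨C, hC⟩ := hL.exists_bound_of_continuousOn hn1.continuous.continuousOn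
  have hC' : ∀ z ∈ {z ∈ Ω | κ z ≤ c + 5}, nsq (z - 0) ≤ |C| := by
    intro z hz
    have h1 := hC z hz
    rw [one_mul] at h1
    exact (le_abs_self _).trans (h1.trans (le_abs_self _))
  have hnn : ∀ z : Cn n, 0 ≤ nsq z := fun z => Finset.sum_nonneg fun _ _ => by positivity
  set e : ℝ := 1 / (2 * (|C| + 1)) with he
  have hCp : 0 < 2 * (|C| + 1) := by positivity
  have he0 : 0 < e := by rw [he]; positivity
  have heC : ∀ z ∈ {z ∈ Ω | κ z ≤ c + 5}, e * nsq (z - 0) ≤ 1 / 2 := by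
    intro z hz
    have h1 : e * nsq (z - 0) ≤ e * (|C| + 1) :=
      mul_le_mul_of_nonneg_left ((hC' z hz).trans (by linarith)) he0.le
    have h2 : e * (|C| + 1) = 1 / 2 := by
      rw [he]; field_simp
    linarith
  set v : Cn n → ℝ := fun w => V w + e * nsq (w - 0) + -(c + 2) with hv
  have hvs : ContDiff ℝ ∞ v := (hV.add (contDiff_nsq e 0)).add contDiff_const
  have hvz : ∀ z, v z = V z + e * nsq (z - 0) + -(c + 2) := fun z => rfl
  have hkey : ∀ z, z ∈ Ω → κ z ≤ c + 5 → v z < 0 → κ z ≤ c + 5 / 2 := by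
    intro z h1 h2 h3
    have h4 := abs_le.1 (hVκ z ⟨h1, h2⟩)
    have h5 : 0 ≤ e * nsq (z - 0) := mul_nonneg he0.le (hnn _)
    rw [hvz] at h3
    linarith [h4.1]
  have hcl : closure {z | z ∈ Ω ∧ κ z < c + 4 ∧ v z < 0} ⊆ {z ∈ Ω | κ z ≤ c + 5 / 2} := by
    refine closure_minimal ?_ (hex (c + 5 / 2)).isClosed
    rintro z ⟨h1, h2, h3⟩
    exact ⟨h1, hkey z h1 (by linarith) h3⟩
  have hDo : IsOpen {z | z ∈ Ω ∧ κ z < c + 4 ∧ v z < 0} := by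
    have h1 : {z | z ∈ Ω ∧ κ z < c + 4 ∧ v z < 0} = (Ω ∩ κ ⁻¹' Iio (c + 4)) ∩ v ⁻¹' Iio 0 := by
      ext z
      exact ⟨fun h => ⟨⟨h.1, h.2.1⟩, h.2.2⟩, fun h => ⟨h.1.1, h.1.2, h.2⟩⟩
    rw [h1]
    exact (hpsh.1.isOpen_inter_preimage hopen isOpen_Iio).inter
      (isOpen_Iio.preimage hvs.continuous)
  have hvK : ∀ z ∈ K, v z ≤ -1 := by
    intro z hz
    have h1 : z ∈ {z ∈ Ω | κ z ≤ c + 5} := ⟨hKΩ hz, by linarith [hcK z hz]⟩
    have h4 := abs_le.1 (hVκ z h1)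
    have h5 := heC z h1
    rw [hvz]
    linarith [h4.2, hcK z hz]
  refine ⟨{z | z ∈ Ω ∧ κ z < c + 4 ∧ v z < 0}, v, e, hDo, ?_, ?_, fun z hz => hz.1, hvs,
    fun z hz => hz.2.2, ?_, hvK, he0, ?_⟩
  · intro z hz
    exact ⟨hKΩ hz, by linarith [hcK z hz], by linarith [hvK z hz]⟩
  · exact (hex (c + 5 / 2)).of_isClosed_subset isClosed_closure hcl
  · intro z hz
    have h1 := hcl hz.1
    by_contra hcon
    rw [not_le] at hcon
    refine hz.2 ?_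
    rw [hDo.interior_eq]
    exact ⟨h1.1, by linarith [h1.2], hcon⟩
  · intro z hz a
    rw [hv, EXH_levi hV e c z a]
    linarith [hVl z ⟨hz.1, by linarith [hz.2.1]⟩ a]

end DN
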