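import Pool.Agent.H49.DN.CSA
import Pool.Agent.H49.DN.CSB
import Pool.Agent.H49.DN.ABSB

/-! # FIN: assembly -/

set_option autoImplicit false

namespace DN

open MeasureTheory Set Filter Topology ContDiff

variable {n : ℕ}

private theorem FIN_nsq_nonneg (a : Fin n → ℂ) : 0 ≤ nsq a :=
  Finset.sum_nonneg fun _ _ => by positivity

private theorem FIN_bound {Ω : Set (Cn n)} (hb : Bornology.IsBounded Ω) :
    ∃ R : ℝ, ∀ z ∈ Ω, nsq z ≤ R := by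
  obtain ⟨D, hD⟩ := hb.exists_norm_le
  refine ⟨∑ _j : Fin n, D ^ 2, fun z hz => ?_⟩
  unfold nsq
  refine Finset.sum_le_sum fun j _ => ?_
  exact pow_le_pow_left₀ (norm_nonneg _) ((norm_le_pi_norm z j).trans (hD z hz)) 2

/-- solvability in degree one -/
private theorem FIN_one {Ω : Set (Cn n)} (hΩ : Pseudoconvex Ω) (hb : Bornology.IsBounded Ω) :
    ∃ C : ℝ, 0 ≤ C ∧ ∀ α, IsDbar1 Ω α 0 → ∃ u, IsDbar0 Ω u α ∧ ‖u‖ ≤ C * ‖α‖ := by
  obtain ⟨R, hR⟩ := FIN_bound hb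
  obtain ⟨c, hc⟩ : ∃ c, c = Real.exp (-R) := ⟨_, rfl⟩
  have hc0 : 0 < c := by rw [hc]; exact Real.exp_pos _
  refine ⟨Real.sqrt (2 / c), Real.sqrt_nonneg _, fun α hα => ?_⟩
  obtain ⟨v, hv, hest⟩ := hormander hΩ hb one_pos 0 hα
  refine ⟨v, hv, ?_⟩
  have hm : MeasurableSet Ω := hΩ.1.measurableSet
  have he : Continuous (fun z : Cn n => Real.exp (-(1 * nsq (z - 0)))) :=
    Real.continuous_exp.comp ((contDiff_nsq 1 0).continuous.neg)
  have he1 : ∀ z : Cn n, Real.exp (-(1 * nsq (z - 0))) ≤ 1 := by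
    intro z
    rw [Real.exp_le_one_iff, one_mul]
    have := FIN_nsq_nonneg (z - 0)
    linarith
  have hec : ∀ z ∈ Ω, c ≤ Real.exp (-(1 * nsq (z - 0))) := by
    intro z hz
    rw [hc, Real.exp_le_exp, one_mul, sub_zero]
    have := hR z hz
    linarith
  have iv : IntegrableOn (fun z => ‖v z‖ ^ 2) Ω := (Lp.memLp v).norm.integrable_sq
  have ia : IntegrableOn (fun z => nsq (fun j => α z j)) Ω := by
    have h1 : ∀ z, nsq (fun j => α z j) = ‖α z‖ ^ 2 := fun z => (EuclideanSpace.norm_sq_eq _).symm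
    simp only [h1]
    exact (Lp.memLp α).norm.integrable_sq
  have iv2 : IntegrableOn (fun z => ‖v z‖ ^ 2 * Real.exp (-(1 * nsq (z - 0)))) Ω := by
    refine Integrable.mono' iv (iv.aestronglyMeasurable.mul he.aestronglyMeasurable) ?_
    refine Eventually.of_forall fun z => ?_
    rw [Real.norm_of_nonneg (by positivity)]
    exact mul_le_of_le_one_right (by positivity) (he1 z)
  have ia2 : IntegrableOn (fun z => nsq (fun j => α z j) * Real.exp (-(1 * nsq (z - 0)))) Ω := by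
    refine Integrable.mono' ia (ia.aestronglyMeasurable.mul he.aestronglyMeasurable) ?_
    refine Eventually.of_forall fun z => ?_
    have := FIN_nsq_nonneg (fun j => α z j)
    rw [Real.norm_of_nonneg (mul_nonneg this (Real.exp_pos _).le)]
    exact mul_le_of_le_one_right this (he1 z)
  have n1 : c * ‖v‖ ^ 2 ≤ ∫ z in Ω, ‖v z‖ ^ 2 * Real.exp (-(1 * nsq (z - 0))) := by
    rw [norm_sq_int, ← integral_const_mul]
    refine setIntegral_mono_on (iv.const_mul c) iv2 hm fun z hz => ?_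
    rw [mul_comm c]
    exact mul_le_mul_of_nonneg_left (hec z hz) (by positivity)
  have n2 : ∫ z in Ω, nsq (fun j => α z j) * Real.exp (-(1 * nsq (z - 0))) ≤ ‖α‖ ^ 2 := by
    rw [norm_sq_int']
    refine setIntegral_mono_on ia2 ia hm fun z _ => ?_
    exact mul_le_of_le_one_right (FIN_nsq_nonneg _) (he1 z)
  have n3 : ‖v‖ ^ 2 ≤ 2 / c * ‖α‖ ^ 2 := by
    rw [div_mul_eq_mul_div, le_div_iff₀ hc0]
    have h4 : (2 : ℝ) / 1 * ∫ z in Ω, nsq (fun j => α z j) * Real.exp (-(1 * nsq (z - 0))) ≤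
        2 / 1 * ‖α‖ ^ 2 := mul_le_mul_of_nonneg_left n2 (by norm_num)
    linarith
  have n4 : ‖v‖ ^ 2 ≤ (Real.sqrt (2 / c) * ‖α‖) ^ 2 := by
    rw [mul_pow, Real.sq_sqrt (by positivity)]
    exact n3
  exact (pow_le_pow_iff_left₀ (norm_nonneg _) (by positivity) two_ne_zero).1 n4

/-- `h1`, `h2` of `exists_sol` for the `∂̄` complex on a bounded pseudoconvex domain.

PROOF. `h1`: `hormander` with `M = 1`, `p = 0`; on `Ω` bounded `exp(-nsq z) ≥ c > 0`, so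
`‖v‖² ≤ (2/c) ‖α‖²`. `h2`: `coeff`: `f_j` solves `IsDbar0 · (a j)` and is orthogonal to the kernel; with `u_j` from `h1`
for `a j` (`dbar_dbar`), `f_j - u_j` is in the kernel, so `‖f_j‖² = ⟨f_j, u_j⟩`, `‖f_j‖ ≤ ‖u_j‖ ≤ C ‖a j‖`, and
`‖f‖² = ∑ ‖f_j‖² ≤ C² ‖k‖²`. -/
theorem solvability {Ω : Set (Cn n)} (hΩ : Pseudoconvex Ω) (hb : Bornology.IsBounded Ω) :
    ∃ C : ℝ, (∀ α, IsDbar1 Ω α 0 → ∃ u, IsDbar0 Ω u α ∧ ‖u‖ ≤ C * ‖α‖) ∧
      ∀ f k, IsDbar1 Ω f k → (∀ α, IsDbar1 Ω α 0 → inner ℂ α f = 0) → ‖f‖ ≤ C * ‖k‖ := by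
  obtain ⟨C, hC0, hC⟩ := FIN_one hΩ hb
  refine ⟨C, hC, ?_⟩
  intro f k hf hort
  obtain ⟨a, ha, hak, hao⟩ := coeff hΩ hf hort
  have hj : ∀ j, ‖cmp j f‖ ≤ C * ‖a j‖ := by
    intro j
    obtain ⟨u, hu, hub⟩ := hC (a j) (dbar_dbar hΩ.1 _ _ (ha j))
    have h1 : IsDbar0 Ω (cmp j f - u) 0 := by
      have := (isClosedOp_dbar0 hΩ.1).lin _ _ _ _ (-1) (ha j) hu
      rwa [neg_one_smul, neg_one_smul, ← sub_eq_add_neg, ← sub_eq_add_neg, sub_self] at this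
    have h2 := hao j _ h1
    rw [inner_sub_left, sub_eq_zero] at h2
    have h3 : ‖cmp j f‖ ^ 2 ≤ ‖u‖ * ‖cmp j f‖ := by
      have h4 : ‖(inner ℂ (cmp j f) (cmp j f) : ℂ)‖ = ‖cmp j f‖ ^ 2 := by
        rw [inner_self_eq_norm_sq_to_K, norm_pow]
        simp
      rw [← h4, h2]
      exact norm_inner_le_norm _ _
    have h5 : ‖cmp j f‖ ≤ ‖u‖ := by
      rcases (norm_nonneg (cmp j f)).eq_or_lt with h0 | h0
      · rw [← h0]
        exact norm_nonneg _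
      · rw [pow_two] at h3
        exact le_of_mul_le_mul_right h3 h0
    exact h5.trans hub
  have h6 : ‖f‖ ^ 2 ≤ (C * ‖k‖) ^ 2 := by
    rw [norm_sq_cmp, mul_pow]
    calc ∑ j, ‖cmp j f‖ ^ 2 ≤ ∑ j, C ^ 2 * ‖a j‖ ^ 2 := by
          refine Finset.sum_le_sum fun j _ => ?_
          rw [← mul_pow]
          exact pow_le_pow_left₀ (norm_nonneg _) (hj j) 2
      _ = C ^ 2 * ∑ j, ‖a j‖ ^ 2 := by rw [Finset.mul_sum]
      _ ≤ C ^ 2 * ‖k‖ ^ 2 := mul_le_mul_of_nonneg_left hak (sq_nonneg _)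
  exact (pow_le_pow_iff_left₀ (norm_nonneg _) (mul_nonneg hC0 (norm_nonneg _)) two_ne_zero).1 h6

theorem main {Ω : Set (Cn n)} (hb : Bornology.IsBounded Ω) (hΩ : Pseudoconvex Ω)
    {B : L20 Ω →L[ℂ] L20 Ω} (hB : IsBergman Ω B) (hc : CompactCommutators Ω B) :
    CompactNeumann Ω := by
  obtain ⟨C, h1, h2⟩ := solvability hΩ hb
  obtain ⟨S1, S2, hS1, hS2⟩ := exists_sol (isClosedOp_dbar0 hΩ.1) (isClosedOp_dbar1 hΩ.1)
    (dbar_dbar hΩ.1) C h1 h2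
  have c1 := sol1_compact hΩ hb hB hc hS1
  have c2 := sol2_compact hΩ hS1 hS2 c1
  obtain ⟨N, hN, hN1, hN2⟩ := exists_neumann (isClosedOp_dbar0 hΩ.1) (isClosedOp_dbar1 hΩ.1)
    (dbar_dbar hΩ.1) hS1 hS2 c1 c2
  refine ⟨N, hN, fun g => ?_, fun f g hfg => ?_⟩
  · obtain ⟨u, k, a, b, q1, q2, q3, q4, q5⟩ := hN1 g
    exact ⟨u, k, a, b, q1, q2, q3, q4, q5⟩
  · obtain ⟨u, k, a, b, q1, q2, q3, q4, q5⟩ := hfg
    exact hN2 f g ⟨u, k, a, b, q1, q2, q3, q4, q5⟩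

end DN
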