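import Mathlib

/-! # RSZ: Riesz representation through a linear map

PROOF. `|ℓ v| ≤ C ‖A v‖` implies `ker A ⊆ ker ℓ`, so `ℓ` factors through `range A`: a linear functional on the submodule
`A.range` bounded by `C` (`LinearMap.range`, quotient or choice; e.g. `(LinearMap.ker A).liftQ`/`A.quotKerEquivRange`).
Extend to `X` with the same norm (`exists_extension_norm_eq`, Hahn-Banach over `ℂ`) and apply
`InnerProductSpace.toDual` (Riesz). If `C < 0` then `A v = 0` and... (`C ≥ 0` is assumed). -/

set_option autoImplicit false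

namespace DN

open Set Filter Topology

theorem riesz_factor {V X : Type*} [AddCommGroup V] [Module ℂ V] [NormedAddCommGroup X]
    [InnerProductSpace ℂ X] [CompleteSpace X] (A : V →ₗ[ℂ] X) (l : V →ₗ[ℂ] ℂ) {C : ℝ}
    (hC : 0 ≤ C) (h : ∀ v, ‖l v‖ ≤ C * ‖A v‖) :
    ∃ U : X, ‖U‖ ≤ C ∧ ∀ v, l v = inner ℂ U (A v) := by
  obtain ⟨s, hs⟩ := A.rangeRestrict.exists_rightInverse_of_surjective (LinearMap.range_rangeRestrict A)
  have hs' : ∀ w : LinearMap.range A, A (s w) = w := fun w => by
    have := LinearMap.congr_fun hs w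
    exact congrArg Subtype.val this
  have hl : ∀ v, l (s (A.rangeRestrict v)) = l v := fun v => by
    have h1 := h (s (A.rangeRestrict v) - v)
    rw [map_sub A, hs' (A.rangeRestrict v)] at h1
    have h2 : ((A.rangeRestrict v : LinearMap.range A) : X) = A v := rfl
    rw [h2, sub_self, norm_zero, mul_zero, map_sub] at h1
    exact sub_eq_zero.1 (norm_le_zero_iff.1 h1)
  let f : (LinearMap.range A) →L[ℂ] ℂ := (l ∘ₗ s).mkContinuous C (fun w => by
    have h1 := h (s w)
    rw [hs' w] at h1
    exact h1)
  obtain ⟨g, hg, hgn⟩ := exists_extension_norm_eq (LinearMap.range A) f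
  refine ⟨(InnerProductSpace.toDual ℂ X).symm g, ?_, fun v => ?_⟩
  · rw [LinearIsometryEquiv.norm_map, hgn]
    exact LinearMap.mkContinuous_norm_le _ hC _
  · rw [InnerProductSpace.toDual_symm_apply]
    have h1 := hg (A.rangeRestrict v)
    have h2 : ((A.rangeRestrict v : LinearMap.range A) : X) = A v := rfl
    rw [h2] at h1
    rw [h1]
    exact (hl v).symm

end DN
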