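import Pool.Agent.H49.DN.STR
import Pool.Agent.H49.DN.RSZ
import Pool.Agent.H49.DN.CLO

/-! # HOR: Hörmander's theorem

PROOF. `h z = exp(-(M nsq (z - p)))`, smooth, `0 < h ≤ 1`. `V` = the submodule of `Fin n → Cn n → ℂ` of the families
`g` with `Test Ω (g j)` for all `j` (here `g_j = conj (v_j) h`, so that everything is linear in `g`).
`l g = ∫ z in Ω, ∑ α_j g_j`, `A g` = class in `L20 Ω` of `-(∑ dbar j g_j) / sqrt h` (bounded, compact support).
With `v_j = conj (g_j) / h` (test functions): `∑ (dd j v_j - v_j M conj (z_j - p_j)) = h⁻¹ ∑ dd j (v_j h)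
= h⁻¹ conj (∑ dbar j g_j)`, so `star` says `|l g|² ≤ (2/M) ‖α‖_h² ‖A g‖²`. `riesz_factor`: `U` with
`l g = ⟨U, A g⟩`, `‖U‖² ≤ (2/M) ‖α‖_h²`. Put `u = conj(U) / sqrt h` (in `L²(Ω)` since `Ω` is bounded, so `h ≥ c > 0`
on `Ω`): `∫ u * dbar j φ = ∫ conj(U) * (dbar j φ / sqrt h) = -⟨U, A (φ e_j)⟩ = -∫ α_j φ`; `∫ |u|² h = ‖U‖²`.
(`Closed1 Ω α` follows from `IsDbar1 Ω α 0`.) -/

set_option autoImplicit false

namespace DN

open MeasureTheory Set Filter Topology ContDiff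

variable {n : ℕ}

theorem HOR_zero {Ω : Set (Cn n)} (φ : Cn n → ℂ) (p : Pairs n) :
    ∫ z in Ω, (0 : L22 Ω) z p * φ z = 0 := by
  have : ∫ z in Ω, (0 : L22 Ω) z p * φ z = ∫ _z in Ω, (0 : ℂ) := by
    refine integral_congr_ae ?_
    filter_upwards [Lp.coeFn_zero (EuclideanSpace ℂ (Pairs n)) 2 (volume.restrict Ω)] with z hz
    rw [hz]
    simp
  rw [this, integral_zero]

/-- `IsDbar1 Ω α 0` in terms of components -/
theorem closed1_of_dbar1 {Ω : Set (Cn n)} {α : L21 Ω} (hα : IsDbar1 Ω α 0) :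
    Closed1 Ω (fun j z => α z j) := by
  intro φ hφ j k
  have key : ∀ j k : Fin n, j < k →
      ∫ z in Ω, (α z k * dbar j φ z - α z j * dbar k φ z) = 0 := by
    intro j k hjk
    have := hα φ hφ ⟨(j, k), hjk⟩
    rw [HOR_zero, neg_zero] at this
    exact this
  rcases lt_trichotomy j k with h | h | h
  · exact key j k h
  · subst h
    simp
  · have h1 := key k j h
    have h2 : ∫ z in Ω, (α z k * dbar j φ z - α z j * dbar k φ z) =
        ∫ z in Ω, -(α z j * dbar k φ z - α z k * dbar j φ z) := by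
      congr 1
      funext z
      ring
    show ∫ z in Ω, (α z k * dbar j φ z - α z j * dbar k φ z) = 0
    rw [h2, integral_neg, h1, neg_zero]

theorem HOR_add {Ω : Set (Cn n)} {u v : Cn n → ℂ} (hu : Test Ω u) (hv : Test Ω v) :
    Test Ω (fun z => u z + v z) := by
  have h1 : Function.support (fun z => u z + v z) ⊆ tsupport u ∪ tsupport v := by
    refine (Function.support_add u v).trans ?_
    exact union_subset_union (subset_tsupport u) (subset_tsupport v)
  have h2 : tsupport (fun z => u z + v z) ⊆ tsupport u ∪ tsupport v :=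
    closure_minimal h1 ((isClosed_tsupport u).union (isClosed_tsupport v))
  exact ⟨hu.smooth.add hv.smooth, hu.supp.add hv.supp, h2.trans (union_subset hu.sub hv.sub)⟩

theorem HOR_zeroT (Ω : Set (Cn n)) : Test Ω (fun _ : Cn n => (0 : ℂ)) := by
  refine ⟨contDiff_const, HasCompactSupport.zero, ?_⟩
  have : tsupport (fun _ : Cn n => (0 : ℂ)) = ∅ := tsupport_eq_empty_iff.2 rfl
  rw [this]
  exact empty_subset _

theorem HOR_mul {Ω : Set (Cn n)} {u v : Cn n → ℂ} (hu : Test Ω u) (hv : ContDiff ℝ ∞ v) :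
    Test Ω (fun z => v z * u z) := hu.mul isOpen_univ hv.contDiffOn (subset_univ _)

theorem HOR_sum {Ω : Set (Cn n)} (F : Fin n → Cn n → ℂ) (hF : ∀ j, Test Ω (F j))
    (s : Finset (Fin n)) : Test Ω (fun z => ∑ j ∈ s, F j z) := by
  classical
  induction s using Finset.induction_on with
  | empty => simpa using HOR_zeroT Ω
  | insert a s ha ih =>
    have h1 : (fun z => ∑ j ∈ insert a s, F j z) = fun z => F a z + ∑ j ∈ s, F j z := by
      funext z
      rw [Finset.sum_insert ha]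
    rw [h1]
    exact HOR_add (hF a) ih

/-- tuples of test functions -/
def HOR_V (Ω : Set (Cn n)) : Submodule ℂ (Fin n → Cn n → ℂ) where
  carrier := {g | ∀ j, Test Ω (g j)}
  add_mem' := fun hg hg' j => HOR_add (hg j) (hg' j)
  zero_mem' := fun _ => HOR_zeroT Ω
  smul_mem' := fun c _ hg j => HOR_mul (hg j) (contDiff_const (c := c))

/-- divergence -/
noncomputable def HOR_D (g : Fin n → Cn n → ℂ) (z : Cn n) : ℂ := ∑ j, dbar j (g j) z

theorem HOR_D_test {Ω : Set (Cn n)} {g : Fin n → Cn n → ℂ} (hg : ∀ j, Test Ω (g j)) :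
    Test Ω (HOR_D g) := HOR_sum (fun j => dbar j (g j)) (fun j => (hg j).dbar j) Finset.univ

theorem HOR_diff {Ω : Set (Cn n)} {u : Cn n → ℂ} (hu : Test Ω u) (z : Cn n) :
    DifferentiableAt ℝ u z := (hu.smooth.differentiable (by simp)).differentiableAt

theorem HOR_D_add {Ω : Set (Cn n)} {g g' : Fin n → Cn n → ℂ} (hg : ∀ j, Test Ω (g j))
    (hg' : ∀ j, Test Ω (g' j)) (z : Cn n) : HOR_D (g + g') z = HOR_D g z + HOR_D g' z := by
  unfold HOR_D
  rw [← Finset.sum_add_distrib]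
  refine Finset.sum_congr rfl fun j _ => ?_
  exact dbar_add (HOR_diff (hg j) z) (HOR_diff (hg' j) z) j

theorem HOR_D_smul {Ω : Set (Cn n)} {g : Fin n → Cn n → ℂ} (hg : ∀ j, Test Ω (g j)) (c : ℂ)
    (z : Cn n) : HOR_D (c • g) z = c * HOR_D g z := by
  unfold HOR_D
  rw [Finset.mul_sum]
  refine Finset.sum_congr rfl fun j _ => ?_
  have h1 := dbar_mul (u := fun _ => c) (v := g j) (z := z) (differentiableAt_const c)
    (HOR_diff (hg j) z) j
  rw [dbar_const, zero_mul, zero_add] at h1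
  exact h1

/-- the square root of the inverse weight -/
noncomputable def HOR_k (M : ℝ) (p z : Cn n) : ℝ := Real.exp (M * nsq (z - p) / 2)

theorem HOR_k_smooth (M : ℝ) (p : Cn n) : ContDiff ℝ ∞ (fun z : Cn n => HOR_k M p z) := by
  unfold HOR_k
  exact ((contDiff_nsq M p).div_const 2).exp

theorem HOR_kc_smooth (M : ℝ) (p : Cn n) : ContDiff ℝ ∞ (fun z : Cn n => (HOR_k M p z : ℂ)) :=
  Complex.ofRealCLM.contDiff.comp (HOR_k_smooth M p)

theorem HOR_k_pos (M : ℝ) (p z : Cn n) : 0 < HOR_k M p z := Real.exp_pos _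

theorem HOR_kk (M : ℝ) (p z : Cn n) :
    HOR_k M p z ^ 2 * Real.exp (-(M * nsq (z - p))) = 1 := by
  unfold HOR_k
  rw [sq, ← Real.exp_add, ← Real.exp_add, Real.exp_eq_one_iff]
  ring

theorem HOR_E_test {Ω : Set (Cn n)} (M : ℝ) (p : Cn n) {g : Fin n → Cn n → ℂ}
    (hg : ∀ j, Test Ω (g j)) : Test Ω (fun z => (-(HOR_k M p z : ℂ)) * HOR_D g z) :=
  HOR_mul (HOR_D_test hg) (HOR_kc_smooth M p).neg

/-- the operator `A` -/
noncomputable def HOR_A (Ω : Set (Cn n)) (M : ℝ) (p : Cn n) : HOR_V Ω →ₗ[ℂ] L20 Ω where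
  toFun g := (CLO_memLp (HOR_E_test M p g.2)).toLp _
  map_add' g g' := by
    rw [← MemLp.toLp_add]
    refine MemLp.toLp_congr _ _ (Filter.Eventually.of_forall fun z => ?_)
    show (-(HOR_k M p z : ℂ)) * HOR_D (g.1 + g'.1) z =
      (-(HOR_k M p z : ℂ)) * HOR_D g.1 z + (-(HOR_k M p z : ℂ)) * HOR_D g'.1 z
    rw [HOR_D_add g.2 g'.2]
    ring
  map_smul' c g := by
    rw [RingHom.id_apply, ← MemLp.toLp_const_smul]
    refine MemLp.toLp_congr _ _ (Filter.Eventually.of_forall fun z => ?_)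
    show (-(HOR_k M p z : ℂ)) * HOR_D (c • g.1) z = c * ((-(HOR_k M p z : ℂ)) * HOR_D g.1 z)
    rw [HOR_D_smul g.2]
    ring

theorem HOR_A_ae {Ω : Set (Cn n)} (M : ℝ) (p : Cn n) (g : HOR_V Ω) :
    ∀ᵐ z ∂(volume.restrict Ω), HOR_A Ω M p g z = (-(HOR_k M p z : ℂ)) * HOR_D g.1 z :=
  (CLO_memLp (HOR_E_test M p g.2)).coeFn_toLp

/-- the functional `l` -/
noncomputable def HOR_l {Ω : Set (Cn n)} (α : L21 Ω) : HOR_V Ω →ₗ[ℂ] ℂ where
  toFun g := ∫ z in Ω, ∑ j, α z j * g.1 j z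
  map_add' g g' := by
    rw [← integral_add (integrable_finsetSum _ fun j _ => CLO_int_cmp (g.2 j) α j)
      (integrable_finsetSum _ fun j _ => CLO_int_cmp (g'.2 j) α j)]
    congr 1
    funext z
    rw [← Finset.sum_add_distrib]
    refine Finset.sum_congr rfl fun j _ => ?_
    show α z j * (g.1 j z + g'.1 j z) = _
    ring
  map_smul' c g := by
    rw [RingHom.id_apply, smul_eq_mul, ← integral_const_mul]
    congr 1
    funext z
    rw [Finset.mul_sum]
    refine Finset.sum_congr rfl fun j _ => ?_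
    show α z j * (c * g.1 j z) = _
    ring

theorem HOR_dd {Ω : Set (Cn n)} (M : ℝ) (p : Cn n) {g : Cn n → ℂ} (hg : Test Ω g) (j : Fin n)
    (z : Cn n) :
    dd j (fun w => ((HOR_k M p w ^ 2 : ℝ) : ℂ) * (starRingEnd ℂ) (g w)) z -
      ((HOR_k M p z ^ 2 : ℝ) : ℂ) * (starRingEnd ℂ) (g z) *
        ((M : ℂ) * (starRingEnd ℂ) (z j - p j)) =
      ((HOR_k M p z ^ 2 : ℝ) : ℂ) * (starRingEnd ℂ) (dbar j g z) := by
  have h0 : ∀ w : Cn n, HOR_k M p w ^ 2 = Real.exp (M * nsq (w - p)) := by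
    intro w
    unfold HOR_k
    rw [sq, ← Real.exp_add]
    congr 1
    ring
  have hn : DifferentiableAt ℝ (fun w : Cn n => M * nsq (w - p)) z :=
    ((contDiff_nsq M p).differentiable (by simp)).differentiableAt
  have h1 : dd j (fun w : Cn n => ((HOR_k M p w ^ 2 : ℝ) : ℂ)) z =
      ((HOR_k M p z ^ 2 : ℝ) : ℂ) * ((M : ℂ) * (starRingEnd ℂ) (z j - p j)) := by
    have h2 := dd_comp (g := Real.exp) hn Real.differentiableAt_exp j
    rw [dd_nsq, Real.deriv_exp, ← h0] at h2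
    rw [← h2]
    congr 1
    funext w
    unfold cx
    rw [h0]
  have hd1 : DifferentiableAt ℝ (fun w : Cn n => ((HOR_k M p w ^ 2 : ℝ) : ℂ)) z := by
    have : ContDiff ℝ ∞ (fun w : Cn n => ((HOR_k M p w ^ 2 : ℝ) : ℂ)) :=
      Complex.ofRealCLM.contDiff.comp ((HOR_k_smooth M p).pow 2)
    exact (this.differentiable (by simp)).differentiableAt
  rw [dd_mul hd1 (HOR_diff hg.conj z) j, h1, dd_conj (HOR_diff hg z) j]
  ring

theorem HOR_nsq_int {Ω : Set (Cn n)} (α : L21 Ω) :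
    IntegrableOn (fun z => nsq (fun j => α z j)) Ω := by
  have h1 := (memLp_two_iff_integrable_sq_norm (Lp.aestronglyMeasurable α)).1 (Lp.memLp α)
  refine h1.congr (Filter.Eventually.of_forall fun z => ?_)
  show ‖α z‖ ^ 2 = nsq (fun j => α z j)
  rw [EuclideanSpace.norm_sq_eq]
  rfl

theorem HOR_meas {Ω : Set (Cn n)} (α : L21 Ω) (j : Fin n) :
    AEStronglyMeasurable (fun z => α z j) (volume.restrict Ω) :=
  (Lp.aestronglyMeasurable (cmp j α)).congr (cmp_ae j α)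

theorem HOR_bound {Ω : Set (Cn n)} (hΩ : Pseudoconvex Ω) {M : ℝ}
    (hM : 0 < M) (p : Cn n) {α : L21 Ω} (hα : IsDbar1 Ω α 0) (g : HOR_V Ω) :
    ‖HOR_l α g‖ ^ 2 ≤
      2 / M * (∫ z in Ω, nsq (fun j => α z j) * Real.exp (-(M * nsq (z - p)))) *
        ‖HOR_A Ω M p g‖ ^ 2 := by
  have hT : ∀ j, Test Ω (fun w => ((HOR_k M p w ^ 2 : ℝ) : ℂ) * (starRingEnd ℂ) (g.1 j w)) :=
    fun j => HOR_mul (g.2 j).conj (Complex.ofRealCLM.contDiff.comp ((HOR_k_smooth M p).pow 2))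
  have h1 := star hΩ hM p (HOR_meas α) (HOR_nsq_int α) (closed1_of_dbar1 hα) hT
  have h2 : ∫ z in Ω, (∑ j, α z j * (starRingEnd ℂ)
      (((HOR_k M p z ^ 2 : ℝ) : ℂ) * (starRingEnd ℂ) (g.1 j z))) *
        (Real.exp (-(M * nsq (z - p))) : ℂ) = HOR_l α g := by
    show _ = ∫ z in Ω, ∑ j, α z j * g.1 j z
    congr 1
    funext z
    rw [Finset.sum_mul]
    refine Finset.sum_congr rfl fun j _ => ?_
    rw [map_mul, starRingEnd_self_apply, Complex.conj_ofReal]
    have h3 : ((HOR_k M p z ^ 2 : ℝ) : ℂ) * (Real.exp (-(M * nsq (z - p))) : ℂ) = 1 := by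
      rw [← Complex.ofReal_mul, HOR_kk, Complex.ofReal_one]
    linear_combination (α z j * g.1 j z) * h3
  have h4 : ∫ z in Ω, ‖∑ j, (dd j (fun w => ((HOR_k M p w ^ 2 : ℝ) : ℂ) *
      (starRingEnd ℂ) (g.1 j w)) z - ((HOR_k M p z ^ 2 : ℝ) : ℂ) * (starRingEnd ℂ) (g.1 j z) *
        ((M : ℂ) * (starRingEnd ℂ) (z j - p j)))‖ ^ 2 * Real.exp (-(M * nsq (z - p))) =
      ‖HOR_A Ω M p g‖ ^ 2 := by
    rw [norm_sq_int]
    refine integral_congr_ae ?_
    filter_upwards [HOR_A_ae M p g] with z hz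
    rw [hz]
    have h5 : ∑ j, (dd j (fun w => ((HOR_k M p w ^ 2 : ℝ) : ℂ) *
      (starRingEnd ℂ) (g.1 j w)) z - ((HOR_k M p z ^ 2 : ℝ) : ℂ) * (starRingEnd ℂ) (g.1 j z) *
        ((M : ℂ) * (starRingEnd ℂ) (z j - p j))) =
        ((HOR_k M p z ^ 2 : ℝ) : ℂ) * (starRingEnd ℂ) (HOR_D g.1 z) := by
      unfold HOR_D
      rw [map_sum, Finset.mul_sum]
      exact Finset.sum_congr rfl fun j _ => HOR_dd M p (g.2 j) j z
    rw [h5, norm_mul, norm_mul, norm_neg, Complex.norm_real, Complex.norm_real,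
      RCLike.norm_conj, Real.norm_eq_abs, Real.norm_eq_abs, abs_of_pos (HOR_k_pos M p z),
      abs_of_nonneg (sq_nonneg _)]
    have h6 := HOR_kk M p z
    calc (HOR_k M p z ^ 2 * ‖HOR_D g.1 z‖) ^ 2 * Real.exp (-(M * nsq (z - p)))
        = HOR_k M p z ^ 2 * ‖HOR_D g.1 z‖ ^ 2 *
          (HOR_k M p z ^ 2 * Real.exp (-(M * nsq (z - p)))) := by ring
      _ = _ := by rw [h6]; ring
  rw [h2, h4] at h1
  exact h1

theorem hormander {Ω : Set (Cn n)} (hΩ : Pseudoconvex Ω) (hb : Bornology.IsBounded Ω) {M : ℝ}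
    (hM : 0 < M) (p : Cn n) {α : L21 Ω} (hα : IsDbar1 Ω α 0) :
    ∃ v : L20 Ω, IsDbar0 Ω v α ∧
      ∫ z in Ω, ‖v z‖ ^ 2 * Real.exp (-(M * nsq (z - p))) ≤
        2 / M * ∫ z in Ω, nsq (fun j => α z j) * Real.exp (-(M * nsq (z - p))) := by
  classical
  set I := ∫ z in Ω, nsq (fun j => α z j) * Real.exp (-(M * nsq (z - p))) with hI
  have hI0 : 0 ≤ 2 / M * I := by
    refine mul_nonneg (by positivity) (integral_nonneg fun z => ?_)
    refine mul_nonneg (Finset.sum_nonneg fun j _ => by positivity) (Real.exp_pos _).le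
  obtain ⟨U, hU1, hU2⟩ := riesz_factor (HOR_A Ω M p) (HOR_l α) (C := √(2 / M * I))
    (Real.sqrt_nonneg _) (fun g => by
      have h1 := HOR_bound hΩ hM p hα g
      have h2 : ‖HOR_l α g‖ ^ 2 ≤ (√(2 / M * I) * ‖HOR_A Ω M p g‖) ^ 2 := by
        rw [mul_pow, Real.sq_sqrt hI0]
        exact h1
      exact le_of_sq_le_sq h2 (by positivity))
  -- the solution
  obtain ⟨K, hK⟩ : ∃ K, ∀ z ∈ Ω, HOR_k M p z ≤ K := by
    have hc : IsCompact (closure Ω) := hb.isCompact_closure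
    obtain ⟨K, hK⟩ := hc.exists_bound_of_continuousOn (f := fun z => HOR_k M p z)
      (HOR_k_smooth M p).continuous.continuousOn
    exact ⟨K, fun z hz => (le_abs_self _).trans (hK z (subset_closure hz))⟩
  have hmem : MemLp (fun z => (HOR_k M p z : ℂ) * (starRingEnd ℂ) (U z)) 2
      (volume.restrict Ω) := by
    refine MemLp.of_le_mul (c := K) (Lp.memLp U) ?_ ?_
    · exact (HOR_kc_smooth M p).continuous.aestronglyMeasurable.mul
        (Complex.continuous_conj.comp_aestronglyMeasurable (Lp.aestronglyMeasurable U))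
    · filter_upwards [ae_restrict_mem hΩ.1.measurableSet] with z hz
      rw [norm_mul, Complex.norm_real, RCLike.norm_conj, Real.norm_eq_abs,
        abs_of_pos (HOR_k_pos M p z)]
      exact mul_le_mul_of_nonneg_right (hK z hz) (norm_nonneg _)
  refine ⟨hmem.toLp _, ?_, ?_⟩
  · intro φ hφ j
    -- the tuple `φ e_j`
    have hgT : ∀ i, Test Ω ((Pi.single j φ : Fin n → Cn n → ℂ) i) := by
      intro i
      by_cases hij : i = j
      · subst hij
        rw [Pi.single_eq_same]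
        exact hφ
      · rw [Pi.single_eq_of_ne hij]
        exact HOR_zeroT Ω
    have hD : ∀ z, HOR_D (Pi.single j φ : Fin n → Cn n → ℂ) z = dbar j φ z := by
      intro z
      unfold HOR_D
      rw [Finset.sum_eq_single j]
      · rw [Pi.single_eq_same]
      · intro i _ hij
        rw [Pi.single_eq_of_ne hij]
        exact dbar_const 0 i z
      · intro h
        exact absurd (Finset.mem_univ j) h
    have h1 := hU2 ⟨Pi.single j φ, hgT⟩
    have h2 : HOR_l α ⟨Pi.single j φ, hgT⟩ = ∫ z in Ω, α z j * φ z := by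
      show ∫ z in Ω, ∑ i, α z i * (Pi.single j φ : Fin n → Cn n → ℂ) i z = _
      congr 1
      funext z
      rw [Finset.sum_eq_single j]
      · rw [Pi.single_eq_same]
      · intro i _ hij
        rw [Pi.single_eq_of_ne hij]
        show α z i * (0 : ℂ) = 0
        rw [mul_zero]
      · intro h
        exact absurd (Finset.mem_univ j) h
    rw [h2, inner_int] at h1
    rw [h1, ← integral_neg]
    refine integral_congr_ae ?_
    filter_upwards [hmem.coeFn_toLp, HOR_A_ae M p ⟨Pi.single j φ, hgT⟩] with z hz1 hz2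
    rw [hz1, hz2, hD]
    ring
  · have h1 : ∫ z in Ω, ‖(hmem.toLp _ : L20 Ω) z‖ ^ 2 * Real.exp (-(M * nsq (z - p))) =
        ‖U‖ ^ 2 := by
      rw [norm_sq_int]
      refine integral_congr_ae ?_
      filter_upwards [hmem.coeFn_toLp] with z hz
      rw [hz, norm_mul, Complex.norm_real, RCLike.norm_conj, Real.norm_eq_abs,
        abs_of_pos (HOR_k_pos M p z)]
      have h6 := HOR_kk M p z
      calc (HOR_k M p z * ‖U z‖) ^ 2 * Real.exp (-(M * nsq (z - p)))
          = ‖U z‖ ^ 2 * (HOR_k M p z ^ 2 * Real.exp (-(M * nsq (z - p)))) := by ring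
        _ = _ := by rw [h6]; ring
    rw [h1]
    calc ‖U‖ ^ 2 ≤ (√(2 / M * I)) ^ 2 := pow_le_pow_left₀ (norm_nonneg _) hU1 2
      _ = _ := Real.sq_sqrt hI0

end DN
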