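import Pool.Agent.H49.DN.CALB

/-! # IBP: integration by parts

PROOF. Mathlib: `integral_mul_fderiv_eq_neg_fderiv_mul_of_integrable` (or
`integral_bilinear_hasLineDerivAt_right_eq_neg_left_of_integrable`), for the directions `Pi.single j 1`,
`Pi.single j I`. All functions are continuous with compact support (`Continuous.integrable_of_hasCompactSupport`).
`volume` on `Fin n → ℂ` is an additive Haar measure. -/

set_option autoImplicit false

namespace DN

open MeasureTheory Set Filter Topology ContDiff

variable {n : ℕ}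

theorem IBP_compact {u : Cn n → ℂ} (hs : HasCompactSupport u) (e : Cn n) :
    HasCompactSupport fun z => fderiv ℝ u z e := by
  refine HasCompactSupport.of_support_subset_isCompact (K := tsupport u) hs ?_
  intro z hz
  by_contra hcon
  apply hz
  have h0 : u =ᶠ[𝓝 z] fun _ => 0 := notMem_tsupport_iff_eventuallyEq.mp hcon
  change fderiv ℝ u z e = 0
  rw [h0.fderiv_eq]
  simp

theorem IBP_cont {u : Cn n → ℂ} (hu : ContDiff ℝ 1 u) (e : Cn n) :
    Continuous fun z => fderiv ℝ u z e :=
  (hu.continuous_fderiv (by simp)).clm_apply continuous_const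

theorem IBP_integrable {u v : Cn n → ℂ} (hu : Continuous u) (hv : Continuous v)
    (hs : HasCompactSupport u ∨ HasCompactSupport v) : Integrable fun z => u z * v z := by
  refine (hu.mul hv).integrable_of_hasCompactSupport ?_
  rcases hs with h | h
  · exact h.mul_right
  · exact h.mul_left

theorem IBP_key {u v : Cn n → ℂ} (hu : ContDiff ℝ 1 u) (hv : ContDiff ℝ 1 v)
    (hs : HasCompactSupport u ∨ HasCompactSupport v) (e : Cn n) :
    Integrable (fun z => u z * fderiv ℝ v z e) ∧ Integrable (fun z => fderiv ℝ u z e * v z) ∧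
    ∫ z, u z * fderiv ℝ v z e = -∫ z, fderiv ℝ u z e * v z := by
  have h1 : Integrable (fun z => u z * fderiv ℝ v z e) :=
    IBP_integrable hu.continuous (IBP_cont hv e) (hs.imp id fun h => IBP_compact h e)
  have h2 : Integrable (fun z => fderiv ℝ u z e * v z) :=
    IBP_integrable (IBP_cont hu e) hv.continuous (hs.imp (fun h => IBP_compact h e) id)
  have h3 : Integrable (fun z => u z * v z) := IBP_integrable hu.continuous hv.continuous hs
  refine ⟨h1, h2, ?_⟩
  exact integral_mul_fderiv_eq_neg_fderiv_mul_of_integrable h2 h1 h3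
    (fun x _ => hu.differentiable (by simp) x) (fun x _ => hv.differentiable (by simp) x)

theorem ibp_dbar {u v : Cn n → ℂ} (hu : ContDiff ℝ 1 u) (hv : ContDiff ℝ 1 v)
    (hs : HasCompactSupport u ∨ HasCompactSupport v) (j : Fin n) :
    ∫ z, u z * dbar j v z = -∫ z, dbar j u z * v z := by
  obtain ⟨a1, a2, a3⟩ := IBP_key hu hv hs (Pi.single j 1)
  obtain ⟨b1, b2, b3⟩ := IBP_key hu hv hs (Pi.single j Complex.I)
  have e1 : (fun z => u z * dbar j v z) = fun z => 1 / 2 * (u z * fderiv ℝ v z (Pi.single j 1) +
      Complex.I * (u z * fderiv ℝ v z (Pi.single j Complex.I))) := by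
    funext z; unfold dbar; ring
  have e2 : (fun z => dbar j u z * v z) = fun z => 1 / 2 * (fderiv ℝ u z (Pi.single j 1) * v z +
      Complex.I * (fderiv ℝ u z (Pi.single j Complex.I) * v z)) := by
    funext z; unfold dbar; ring
  rw [e1, e2, integral_const_mul, integral_const_mul,
    integral_add a1 (b1.const_mul _), integral_add a2 (b2.const_mul _), integral_const_mul,
    integral_const_mul, a3, b3]
  ring

theorem ibp_dd {u v : Cn n → ℂ} (hu : ContDiff ℝ 1 u) (hv : ContDiff ℝ 1 v)
    (hs : HasCompactSupport u ∨ HasCompactSupport v) (j : Fin n) :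
    ∫ z, u z * dd j v z = -∫ z, dd j u z * v z := by
  obtain ⟨a1, a2, a3⟩ := IBP_key hu hv hs (Pi.single j 1)
  obtain ⟨b1, b2, b3⟩ := IBP_key hu hv hs (Pi.single j Complex.I)
  have e1 : (fun z => u z * dd j v z) = fun z => 1 / 2 * (u z * fderiv ℝ v z (Pi.single j 1) -
      Complex.I * (u z * fderiv ℝ v z (Pi.single j Complex.I))) := by
    funext z; unfold dd; ring
  have e2 : (fun z => dd j u z * v z) = fun z => 1 / 2 * (fderiv ℝ u z (Pi.single j 1) * v z -
      Complex.I * (fderiv ℝ u z (Pi.single j Complex.I) * v z)) := by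
    funext z; unfold dd; ring
  rw [e1, e2, integral_const_mul, integral_const_mul,
    integral_sub a1 (b1.const_mul _), integral_sub a2 (b2.const_mul _), integral_const_mul,
    integral_const_mul, a3, b3]
  ring

end DN
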