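import Pool.Agent.H49.DN.Defs

/-! # Internal definitions -/

set_option autoImplicit false

namespace DN

open MeasureTheory Set Filter Topology ContDiff

variable {n : ℕ}

/-- `∂φ/∂z_j` -/
noncomputable def dd (j : Fin n) (φ : Cn n → ℂ) (z : Cn n) : ℂ :=
  1 / 2 * (fderiv ℝ φ z (Pi.single j 1) - Complex.I * fderiv ℝ φ z (Pi.single j Complex.I))

/-- squared Euclidean norm -/
noncomputable def nsq (a : Fin n → ℂ) : ℝ := ∑ j, ‖a j‖ ^ 2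

/-- a real function as a complex function -/
noncomputable def cx (φ : Cn n → ℝ) (z : Cn n) : ℂ := (φ z : ℂ)

/-- the Levi form `∑ (∂²φ/∂z_j∂z̄_k) a_j ā_k` -/
noncomputable def levi (φ : Cn n → ℝ) (z : Cn n) (a : Fin n → ℂ) : ℝ :=
  (∑ j, ∑ k, dd j (dbar k (cx φ)) z * a j * (starRingEnd ℂ) (a k)).re

/-- standard mollifiers -/
noncomputable def mb (n m : ℕ) : ContDiffBump (0 : Cn n) :=
  ⟨1 / (2 * ((m : ℝ) + 1)), 1 / ((m : ℝ) + 1), by positivity, by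
    apply one_div_lt_one_div_of_lt <;> linarith [(Nat.cast_nonneg m : (0 : ℝ) ≤ m)]⟩

/-- standard mollifiers, integral 1 -/
noncomputable def mol (n m : ℕ) (z : Cn n) : ℝ := (mb n m).normed volume z

/-- mollification of `u` -/
noncomputable def cv (m : ℕ) (u : Cn n → ℂ) (z : Cn n) : ℂ :=
  ∫ w, ((mol n m (z - w) : ℝ) : ℂ) * u w

/-- `F` is weakly `∂̄`-closed on `D` -/
def Closed1 (D : Set (Cn n)) (F : Fin n → Cn n → ℂ) : Prop :=
  ∀ φ, Test D φ → ∀ j k, ∫ z in D, (F k z * dbar j φ z - F j z * dbar k φ z) = 0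

/-- Weights on `D`, for the `L²` estimates: `φ` and `l` are smooth on `D`; near `K`, `l = 0` and
`φ = M |z - p|²`; the Levi form of `φ` is at least `M + 2 |∂l|²`; `η` is a sequence of cut off functions
with `|∂̄η|² ≤ exp l`. The three weights are `φ - 2l`, `φ - l`, `φ`. -/
structure Weights (D K : Set (Cn n)) (M : ℝ) (p : Cn n) (φ l : Cn n → ℝ)
    (η : ℕ → Cn n → ℝ) : Prop where
  isOpen : IsOpen D
  sub : K ⊆ D
  smooth : ContDiffOn ℝ ∞ φ D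
  smoothl : ContDiffOn ℝ ∞ l D
  nonneg : ∀ z ∈ D, 0 ≤ l z
  near : ∀ z ∈ K, ∀ᶠ w in 𝓝 z, l w = 0 ∧ φ w = M * nsq (w - p)
  ge : ∀ z ∈ D, M * nsq (z - p) + 2 * l z ≤ φ z
  levi : ∀ z ∈ D, ∀ a, (M + 2 * nsq (fun j => dd j (cx l) z)) * nsq a ≤ levi φ z a
  esmooth : ∀ m, ContDiff ℝ ∞ (η m)
  enonneg : ∀ m z, 0 ≤ η m z
  ele : ∀ m z, η m z ≤ 1
  esupp : ∀ m, HasCompactSupport (η m)
  esub : ∀ m, tsupport (η m) ⊆ D
  elim : ∀ z ∈ D, ∀ᶠ m in atTop, ∀ᶠ w in 𝓝 z, η m w = 1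
  eK : ∀ m, ∀ z ∈ K, ∀ᶠ w in 𝓝 z, η m w = 1
  egrad : ∀ m, ∀ z ∈ D, nsq (fun j => dbar j (cx (η m)) z) ≤ Real.exp (l z)

end DN
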