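import Pool.Agent.H49.DN.BRG
import Pool.Agent.H49.DN.CALB

/-! # PRJ: projection onto the weakly closed forms in a weighted `L²` space

PROOF. `μ = (volume.restrict D).withDensity (fun z => ENNReal.ofReal (w z))`, `H = Lp (EuclideanSpace ℂ (Fin n)) 2 μ`.
`μ` and `volume.restrict D` have the same null sets (`w > 0` on `D`, measurable on `D`: `hw.aemeasurable`...;
`withDensity_absolutelyContinuous`, `withDensity_absolutelyContinuous'`), and
`∫ g ∂μ = ∫ z in D, g z * w z` (`integral_withDensity_eq_integral_smul₀` or `_toReal_smul`). `Z = {f ∈ H | Closed1 D f}` is a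
closed submodule: for each test function `θ` the functional `f ↦ ∫ z in D, f z k * θ' z = ∫ f z k * (θ' z / w z) ∂μ`
(`θ' = dbar j θ`, continuous with compact support in `D`, `w ≥ c > 0` there, so `θ'/w` is bounded with compact support and
in `L²(μ)`) is continuous on `H`. Take `f` = orthogonal projection of (the class of) `v` onto `Z`; last statement:
orthogonality; norm: `‖v - f‖ ≤ ‖v‖`. Translate with `mk_memLp` and measurable representatives.

(The proof below uses instead the unweighted space and the forms `√w * v`.) -/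

set_option autoImplicit false

namespace DN

open MeasureTheory Set Filter Topology ContDiff

variable {n : ℕ}

/-- division of a test function by the square root of the weight -/
theorem PRJ_cont {D : Set (Cn n)} {w : Cn n → ℝ} (hD : IsOpen D) (hw : ContinuousOn w D)
    (hw0 : ∀ z ∈ D, 0 < w z) {h : Cn n → ℂ} (hh : Test D h) :
    Continuous (fun z => h z / (Real.sqrt (w z) : ℂ)) ∧
      HasCompactSupport (fun z => h z / (Real.sqrt (w z) : ℂ)) := by
  constructor
  · rw [continuous_iff_continuousAt]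
    intro z
    by_cases hz : z ∈ D
    · have h1 : ContinuousAt w z := hw.continuousAt (hD.mem_nhds hz)
      have h2 : ContinuousAt (fun z => (Real.sqrt (w z) : ℂ)) z :=
        Complex.continuous_ofReal.continuousAt.comp (Real.continuous_sqrt.continuousAt.comp h1)
      refine hh.smooth.continuous.continuousAt.div h2 ?_
      have := Real.sqrt_pos.mpr (hw0 z hz)
      exact_mod_cast this.ne'
    · have hz' : z ∉ tsupport h := fun hc => hz (hh.sub hc)
      have h0 : h =ᶠ[𝓝 z] fun _ => 0 := notMem_tsupport_iff_eventuallyEq.mp hz'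
      have : (fun z => h z / (Real.sqrt (w z) : ℂ)) =ᶠ[𝓝 z] fun _ => 0 := by
        filter_upwards [h0] with y hy
        rw [hy, zero_div]
      exact (continuousAt_const).congr this.symm
  · refine HasCompactSupport.of_support_subset_isCompact hh.supp ?_
    intro z hz
    apply subset_tsupport
    intro h0
    apply hz
    change h z / _ = 0
    rw [h0, zero_div]

/-- the functionals -/
theorem PRJ_fun {D : Set (Cn n)} {w : Cn n → ℝ} (hD : IsOpen D) (hw : ContinuousOn w D)
    (hw0 : ∀ z ∈ D, 0 < w z) {h : Cn n → ℂ} (hh : Test D h) :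
    ∃ L : Lp ℂ 2 (volume.restrict D) →L[ℂ] ℂ, ∀ g : Lp ℂ 2 (volume.restrict D),
      Integrable (fun z => g z / (Real.sqrt (w z) : ℂ) * h z) (volume.restrict D) ∧
      L g = ∫ z in D, g z / (Real.sqrt (w z) : ℂ) * h z := by
  obtain ⟨h1, h2⟩ := PRJ_cont hD hw hw0 hh
  have h3 : MemLp (fun z => (starRingEnd ℂ) (h z / (Real.sqrt (w z) : ℂ))) 2
      (volume.restrict D) := by
    refine Continuous.memLp_of_hasCompactSupport (Complex.continuous_conj.comp h1) ?_
    exact h2.comp_left (g := starRingEnd ℂ) (map_zero _)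
  refine ⟨innerSL ℂ (h3.toLp _), fun g => ?_⟩
  have h4 : ∀ᵐ z ∂(volume.restrict D), inner ℂ (h3.toLp _ z) (g z) =
      g z / (Real.sqrt (w z) : ℂ) * h z := by
    filter_upwards [h3.coeFn_toLp] with z hz
    rw [hz, RCLike.inner_apply, Complex.conj_conj]
    ring
  constructor
  · exact (L2.integrable_inner (h3.toLp _) g).congr h4
  · rw [innerSL_apply_apply, L2.inner_def]
    exact integral_congr_ae h4

theorem exists_proj {D : Set (Cn n)} (hD : IsOpen D) {w : Cn n → ℝ} (hw : ContinuousOn w D)
    (hw0 : ∀ z ∈ D, 0 < w z) {v : Fin n → Cn n → ℂ}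
    (hvm : ∀ j, AEStronglyMeasurable (v j) (volume.restrict D))
    (hv : IntegrableOn (fun z => nsq (fun j => v j z) * w z) D) :
    ∃ f : Fin n → Cn n → ℂ, (∀ j, AEStronglyMeasurable (f j) (volume.restrict D)) ∧
      IntegrableOn (fun z => nsq (fun j => f j z) * w z) D ∧ Closed1 D f ∧
      (∫ z in D, nsq (fun j => v j z - f j z) * w z ≤
        ∫ z in D, nsq (fun j => v j z) * w z) ∧
      ∀ a : Fin n → Cn n → ℂ, (∀ j, AEStronglyMeasurable (a j) (volume.restrict D)) →
        IntegrableOn (fun z => nsq (fun j => a j z) * w z) D → Closed1 D a →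
        ∫ z in D, (∑ j, (v j z - f j z) * (starRingEnd ℂ) (a j z)) * (w z : ℂ) = 0 := by
  classical
  -- the square root of the weight
  have hsm : AEStronglyMeasurable (fun z => (Real.sqrt (w z) : ℂ)) (volume.restrict D) := by
    have : ContinuousOn (fun z => (Real.sqrt (w z) : ℂ)) D :=
      Complex.continuous_ofReal.comp_continuousOn (Real.continuous_sqrt.comp_continuousOn hw)
    exact this.aestronglyMeasurable hD.measurableSet
  have hinD : ∀ᵐ z ∂(volume.restrict D), z ∈ D := ae_restrict_mem hD.measurableSet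
  have hsq : ∀ z ∈ D, (Real.sqrt (w z)) ^ 2 = w z := fun z hz => Real.sq_sqrt (hw0 z hz).le
  have hs0 : ∀ z ∈ D, (Real.sqrt (w z) : ℂ) ≠ 0 := fun z hz => by
    exact_mod_cast (Real.sqrt_pos.mpr (hw0 z hz)).ne'
  -- multiplication by the square root of the weight
  have hmul : ∀ a : Fin n → Cn n → ℂ, (∀ j, AEStronglyMeasurable (a j) (volume.restrict D)) →
      IntegrableOn (fun z => nsq (fun j => a j z) * w z) D →
      ∃ A : L21 D, ∀ᵐ z ∂(volume.restrict D), ∀ j, A z j = (Real.sqrt (w z) : ℂ) * a j z := by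
    intro a ham hai
    apply mk_memLp
    intro j
    have hm : AEStronglyMeasurable (fun z => (Real.sqrt (w z) : ℂ) * a j z)
        (volume.restrict D) := hsm.mul (ham j)
    rw [memLp_two_iff_integrable_sq_norm hm]
    refine Integrable.mono hai (hm.norm.pow 2) ?_
    filter_upwards [hinD] with z hz
    have e1 : ‖(Real.sqrt (w z) : ℂ) * a j z‖ ^ 2 = ‖a j z‖ ^ 2 * w z := by
      rw [norm_mul, Complex.norm_real, Real.norm_eq_abs, mul_pow, sq_abs, hsq z hz, mul_comm]
    have e2 : 0 ≤ nsq (fun j => a j z) := Finset.sum_nonneg fun _ _ => sq_nonneg _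
    rw [e1, Real.norm_of_nonneg (mul_nonneg (sq_nonneg _) (hw0 z hz).le),
      Real.norm_of_nonneg (mul_nonneg e2 (hw0 z hz).le)]
    refine mul_le_mul_of_nonneg_right ?_ (hw0 z hz).le
    exact Finset.single_le_sum (f := fun j => ‖a j z‖ ^ 2) (fun _ _ => sq_nonneg _)
      (Finset.mem_univ j)
  -- the functionals
  choose! L hL using fun (h : Cn n → ℂ) (hh : Test D h) => PRJ_fun hD hw hw0 hh
  let Λ : (Cn n → ℂ) → Fin n → Fin n → (L21 D →L[ℂ] ℂ) := fun θ j k =>
    (L (dbar j θ)).comp (cmp k) - (L (dbar k θ)).comp (cmp j)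
  have hΛ : ∀ θ, Test D θ → ∀ j k, ∀ g : L21 D, Λ θ j k g =
      ∫ z in D, (g z k / (Real.sqrt (w z) : ℂ) * dbar j θ z -
        g z j / (Real.sqrt (w z) : ℂ) * dbar k θ z) := by
    intro θ hθ j k g
    change L (dbar j θ) (cmp k g) - L (dbar k θ) (cmp j g) = _
    obtain ⟨a1, a2⟩ := hL _ (hθ.dbar j) (cmp k g)
    obtain ⟨b1, b2⟩ := hL _ (hθ.dbar k) (cmp j g)
    rw [a2, b2, ← integral_sub a1 b1]
    refine integral_congr_ae ?_
    filter_upwards [cmp_ae k g, cmp_ae j g] with z h1 h2
    rw [h1, h2]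
  let Z : Submodule ℂ (L21 D) :=
    { carrier := {g | ∀ θ, Test D θ → ∀ j k, Λ θ j k g = 0}
      add_mem' := by
        intro a b ha hb θ hθ j k
        rw [map_add, ha θ hθ j k, hb θ hθ j k, add_zero]
      zero_mem' := by
        intro θ _ j k
        exact map_zero _
      smul_mem' := by
        intro c a ha θ hθ j k
        rw [map_smul, ha θ hθ j k, smul_zero] }
  have hZc : IsClosed (Z : Set (L21 D)) := by
    have : (Z : Set (L21 D)) = ⋂ (θ : Cn n → ℂ) (_ : Test D θ) (j : Fin n) (k : Fin n),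
        {g | Λ θ j k g = 0} := by
      ext g
      simp only [mem_iInter, mem_ofPred_eq]
      exact Iff.rfl
    rw [this]
    refine isClosed_iInter fun θ => isClosed_iInter fun _ => isClosed_iInter fun j =>
      isClosed_iInter fun k => ?_
    exact isClosed_eq (Λ θ j k).continuous continuous_const
  have : CompleteSpace Z := hZc.completeSpace_coe
  -- members of `Z`
  have hZmem : ∀ (A : L21 D) (a : Fin n → Cn n → ℂ),
      (∀ᵐ z ∂(volume.restrict D), ∀ j, A z j / (Real.sqrt (w z) : ℂ) = a j z) →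
      (A ∈ Z ↔ Closed1 D a) := by
    intro A a hA
    constructor
    · intro h θ hθ j k
      rw [← h θ hθ j k, hΛ θ hθ j k A]
      refine integral_congr_ae ?_
      filter_upwards [hA] with z hz
      rw [hz, hz]
    · intro h θ hθ j k
      rw [← h θ hθ j k, hΛ θ hθ j k A]
      refine integral_congr_ae ?_
      filter_upwards [hA] with z hz
      rw [hz, hz]
  obtain ⟨V, hV⟩ := hmul v hvm hv
  obtain ⟨P, hP, R, hR, hVPR⟩ := Submodule.exists_add_mem_mem_orthogonal (K := Z) V
  have hadd : ∀ᵐ z ∂(volume.restrict D), V z = P z + R z := by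
    rw [hVPR]; exact Lp.coeFn_add P R
  refine ⟨fun j z => P z j / (Real.sqrt (w z) : ℂ), ?_, ?_, ?_, ?_, ?_⟩
  · intro j
    have h1 : AEStronglyMeasurable (fun z => (P z j : ℂ)) (volume.restrict D) :=
      ((Lp.memLp (cmp j P)).1).congr (cmp_ae j P)
    have h2 : AEStronglyMeasurable (fun z => (P z j : ℂ) * (Real.sqrt (w z) : ℂ)⁻¹)
        (volume.restrict D) := h1.mul (hsm.aemeasurable.inv.aestronglyMeasurable)
    exact h2
  · have h1 : Integrable (fun z => ∑ j, ‖P z j‖ ^ 2) (volume.restrict D) := by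
      refine integrable_finsetSum _ fun j _ => ?_
      have h2 := (Lp.memLp (cmp j P)).integrable_norm_pow (by norm_num)
      have h3 : (fun z => ‖(cmp j P : Cn n → ℂ) z‖ ^ (2 : ENNReal).toReal) =ᵐ[volume.restrict D]
          fun z => ‖P z j‖ ^ 2 := by
        filter_upwards [cmp_ae j P] with z hz
        rw [hz]; norm_num
      simpa using h2.congr (by
        filter_upwards [cmp_ae j P] with z hz
        rw [hz])
    refine h1.congr ?_
    filter_upwards [hinD] with z hz
    unfold nsq
    rw [Finset.sum_mul]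
    refine Finset.sum_congr rfl fun j _ => ?_
    rw [norm_div, Complex.norm_real, Real.norm_eq_abs, div_pow, sq_abs, hsq z hz,
      div_mul_cancel₀ _ (hw0 z hz).ne']
  · exact (hZmem P _ (Eventually.of_forall fun z j => rfl)).mp hP
  · have h1 : ∫ z in D, nsq (fun j => v j z - P z j / (Real.sqrt (w z) : ℂ)) * w z = ‖R‖ ^ 2 := by
      rw [norm_sq_int']
      refine integral_congr_ae ?_
      filter_upwards [hinD, hadd, hV] with z hz h1 h2
      unfold nsq
      rw [Finset.sum_mul]
      refine Finset.sum_congr rfl fun j _ => ?_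
      have h3 : R z j = (Real.sqrt (w z) : ℂ) * (v j z - P z j / (Real.sqrt (w z) : ℂ)) := by
        rw [mul_sub, mul_div_cancel₀ _ (hs0 z hz), ← h2 j, h1]
        simp
      rw [h3, norm_mul, Complex.norm_real, Real.norm_eq_abs, mul_pow, sq_abs, hsq z hz, mul_comm]
    have h2 : ∫ z in D, nsq (fun j => v j z) * w z = ‖V‖ ^ 2 := by
      rw [norm_sq_int']
      refine integral_congr_ae ?_
      filter_upwards [hinD, hV] with z hz h2
      unfold nsq
      rw [Finset.sum_mul]
      refine Finset.sum_congr rfl fun j _ => ?_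
      rw [h2 j, norm_mul, Complex.norm_real, Real.norm_eq_abs, mul_pow, sq_abs, hsq z hz, mul_comm]
    rw [h1, h2]
    have h3 : ‖V‖ * ‖V‖ = ‖P‖ * ‖P‖ + ‖R‖ * ‖R‖ := by
      rw [hVPR]
      exact norm_add_sq_eq_norm_sq_add_norm_sq_of_inner_eq_zero P R
        (Submodule.inner_right_of_mem_orthogonal hP hR)
    nlinarith [mul_self_nonneg ‖P‖]
  · intro a ham hai hac
    obtain ⟨A, hA⟩ := hmul a ham hai
    have hAZ : A ∈ Z := by
      rw [hZmem A a]
      · exact hac
      · filter_upwards [hinD, hA] with z hz h1 j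
        rw [h1 j, mul_div_cancel_left₀ _ (hs0 z hz)]
    have h0 : inner ℂ A R = 0 := Submodule.inner_right_of_mem_orthogonal hAZ hR
    rw [L2.inner_def] at h0
    rw [← h0]
    refine integral_congr_ae ?_
    filter_upwards [hinD, hadd, hV, hA] with z hz h1 h2 h3
    rw [PiLp.inner_apply, Finset.sum_mul]
    refine Finset.sum_congr rfl fun j _ => ?_
    have h4 : R z j = (Real.sqrt (w z) : ℂ) * (v j z - P z j / (Real.sqrt (w z) : ℂ)) := by
      rw [mul_sub, mul_div_cancel₀ _ (hs0 z hz), ← h2 j, h1]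
      simp
    have h5 : (Real.sqrt (w z) : ℂ) * (Real.sqrt (w z) : ℂ) = (w z : ℂ) := by
      rw [← Complex.ofReal_mul, ← sq, hsq z hz]
    rw [RCLike.inner_apply, h4, h3 j, map_mul, Complex.conj_ofReal, ← h5]
    ring

end DN
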