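import Pool.Agent.H49.DN.ONE
import Pool.Agent.H49.DN.CUT
import Pool.Agent.H49.DN.EXH

/-! # WTS: existence of the weights

PROOF. `exists_exh`, `exists_cutoffs` (constant `C₁`, cut offs `η`), `A` with `nsq (fun j => dd j (cx v) z) ≤ A` on
`closure D` (compact), `C₂ = 2 (A + 1) / c₀`; `one_var C₁ C₂`: `l₀, g₀`. `l z = l₀ (v z)`,
`φ z = M * nsq (z - p) + g₀ (v z)`. On `D`, `v < 0`, so they are smooth. `near`: on `K`, `v ≤ -1 < -1/2`, so
`v < -1/2` near `z`. `ge`: `g₀ ≥ 2 l₀`. `levi`: `levi_add`, `levi_nsq`, `levi_comp` (CALB):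
`levi φ z a = M nsq a + g₀' levi v z a + g₀'' |..|² ≥ M nsq a + g₀' c₀ nsq a`, and
`2 nsq (dd l) = 2 l₀'² nsq (dd v) ≤ 2 A l₀'² ≤ c₀ C₂ l₀'² ≤ c₀ g₀'`. `egrad`: if `v z ≥ -1/4`,
`nsq ≤ C₁/v² ≤ exp (l z)`; if `v z < -1/4`, `η m = 1` near `z` and the gradient vanishes. -/

set_option autoImplicit false

namespace DN

open MeasureTheory Set Filter Topology ContDiff

variable {n : ℕ}

private theorem WTS_cx {v : Cn n → ℝ} (hv : ContDiff ℝ ∞ v) : ContDiff ℝ ∞ (cx v) :=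
  Complex.ofRealCLM.contDiff.comp hv

private theorem WTS_bound {D : Set (Cn n)} {v : Cn n → ℝ} (hDc : IsCompact (closure D))
    (hv : ContDiff ℝ ∞ v) : ∃ A : ℝ, 0 ≤ A ∧ ∀ z ∈ D, nsq (fun j => dd j (cx v) z) ≤ A := by
  have h1 : Continuous (fun z => nsq (fun j => dd j (cx v) z)) := by
    unfold nsq
    refine continuous_finsetSum _ fun j _ => ?_
    exact ((contDiff_dd (WTS_cx hv) j).continuous.norm).pow 2
  obtain ⟨A, hA⟩ := hDc.exists_bound_of_continuousOn h1.continuousOn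
  refine ⟨|A|, abs_nonneg A, fun z hz => ?_⟩
  have h2 := hA z (subset_closure hz)
  rw [Real.norm_eq_abs] at h2
  exact (le_abs_self _).trans (h2.trans (le_abs_self A))

private theorem WTS_nsq_nonneg (a : Fin n → ℂ) : 0 ≤ nsq a :=
  Finset.sum_nonneg fun _ _ => by positivity

private theorem WTS_nsq_smul (c : ℝ) (a : Fin n → ℂ) :
    nsq (fun j => (c : ℂ) * a j) = c ^ 2 * nsq a := by
  unfold nsq
  rw [Finset.mul_sum]
  refine Finset.sum_congr rfl fun j _ => ?_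
  rw [norm_mul, mul_pow, Complex.norm_real, Real.norm_eq_abs, sq_abs]

theorem exists_weights {Ω K : Set (Cn n)} (hΩ : Pseudoconvex Ω) (hK : IsCompact K) (hKΩ : K ⊆ Ω)
    {M : ℝ} (hM : 0 ≤ M) (p : Cn n) :
    ∃ (D : Set (Cn n)) (φ l : Cn n → ℝ) (η : ℕ → Cn n → ℝ), D ⊆ Ω ∧ Weights D K M p φ l η := by
  obtain ⟨D, v, c₀, hDo, hKD, hDc, hDΩ, hv, hneg, hfr, hvK, hc₀, hlev⟩ := exists_exh hΩ hK hKΩ
  obtain ⟨C₁, hC₁, η, e1, e2, e3, e4, e5, e6, e7, e8⟩ := exists_cutoffs hDo hDc hv hneg hfr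
  obtain ⟨A, hA0, hA⟩ := WTS_bound hDc hv
  obtain ⟨C₂, hC₂⟩ : ∃ C₂, C₂ = 2 * (A + 1) / c₀ := ⟨_, rfl⟩
  have hC₂0 : 0 < C₂ := by rw [hC₂]; positivity
  obtain ⟨l₀, g₀, hl, hg, hzero, hpos, hexp⟩ := one_var C₁ C₂ hC₁ hC₂0
  have hmaps : MapsTo v D (Iio 0) := fun z hz => hneg z hz
  have hgat : ∀ z ∈ D, ContDiffAt ℝ ∞ g₀ (v z) := fun z hz =>
    hg.contDiffAt (Iio_mem_nhds (hneg z hz))
  have hlat : ∀ z ∈ D, ContDiffAt ℝ ∞ l₀ (v z) := fun z hz =>
    hl.contDiffAt (Iio_mem_nhds (hneg z hz))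
  refine ⟨D, fun z => M * nsq (z - p) + g₀ (v z), fun z => l₀ (v z), η, hDΩ, ?_⟩
  refine ⟨hDo, hKD, ?_, ?_, ?_, ?_, ?_, ?_, e1, e2, e3, e4, e5, e6, ?_, ?_⟩
  · exact (contDiff_nsq M p).contDiffOn.add (hg.comp hv.contDiffOn hmaps)
  · exact hl.comp hv.contDiffOn hmaps
  · intro z hz
    exact (hpos (v z) (hneg z hz)).1
  · intro z hz
    have h1 : v z < -(1 / 2) := by have := hvK z hz; linarith
    have h2 : ∀ᶠ w in 𝓝 z, v w < -(1 / 2) :=
      hv.continuous.continuousAt.eventually (gt_mem_nhds h1)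
    filter_upwards [h2] with w hw
    obtain ⟨h3, h4⟩ := hzero (v w) hw.le
    exact ⟨h3, by rw [h4, add_zero]⟩
  · intro z hz
    have := (hpos (v z) (hneg z hz)).2.1
    show M * nsq (z - p) + 2 * l₀ (v z) ≤ M * nsq (z - p) + g₀ (v z)
    linarith
  · intro z hz a
    obtain ⟨-, -, q1, q2, q3⟩ := hpos (v z) (hneg z hz)
    have h22 : (2 : WithTop ℕ∞) ≤ ∞ := ENat.LEInfty.out
    have hv2 : ContDiffAt ℝ 2 v z := hv.contDiffAt.of_le h22
    have hg2 : ContDiffAt ℝ 2 g₀ (v z) := (hgat z hz).of_le h22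
    have hn2 : ContDiffAt ℝ 2 (fun w : Cn n => M * nsq (w - p)) z :=
      (contDiff_nsq M p).contDiffAt.of_le h22
    have hgv2 : ContDiffAt ℝ 2 (fun w => g₀ (v w)) z := hg2.comp z hv2
    have k1 : levi (fun w => M * nsq (w - p) + g₀ (v w)) z a =
        M * nsq a + (deriv g₀ (v z) * levi v z a +
          deriv (deriv g₀) (v z) * ‖∑ j, dd j (cx v) z * a j‖ ^ 2) := by
      rw [levi_add hn2 hgv2, levi_nsq, levi_comp hv2 hg2]
    have k2 : nsq (fun j => dd j (cx (fun w => l₀ (v w))) z) =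
        (deriv l₀ (v z)) ^ 2 * nsq (fun j => dd j (cx v) z) := by
      rw [← WTS_nsq_smul]
      congr 1
      funext j
      exact dd_comp (hv2.differentiableAt (by norm_num))
        ((hlat z hz).differentiableAt (by simp)) j
    have na := WTS_nsq_nonneg a
    have k3 := hlev z hz a
    have k4 := hA z hz
    have k5 : 2 * ((deriv l₀ (v z)) ^ 2 * nsq (fun j => dd j (cx v) z)) ≤
        c₀ * deriv g₀ (v z) := by
      have j1 : (deriv l₀ (v z)) ^ 2 * nsq (fun j => dd j (cx v) z) ≤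
          (deriv l₀ (v z)) ^ 2 * (A + 1) :=
        mul_le_mul_of_nonneg_left (by linarith) (sq_nonneg _)
      have j2 : c₀ * (C₂ * (deriv l₀ (v z)) ^ 2) ≤ c₀ * deriv g₀ (v z) :=
        mul_le_mul_of_nonneg_left q3 hc₀.le
      have j3 : c₀ * (C₂ * (deriv l₀ (v z)) ^ 2) = 2 * ((deriv l₀ (v z)) ^ 2 * (A + 1)) := by
        rw [hC₂]
        field_simp
      linarith
    have k6 : deriv g₀ (v z) * (c₀ * nsq a) ≤ deriv g₀ (v z) * levi v z a :=
      mul_le_mul_of_nonneg_left k3 q1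
    have k7 : 0 ≤ deriv (deriv g₀) (v z) * ‖∑ j, dd j (cx v) z * a j‖ ^ 2 := by positivity
    have k8 := mul_le_mul_of_nonneg_right k5 na
    show (M + 2 * nsq (fun j => dd j (cx (fun w => l₀ (v w))) z)) * nsq a ≤
      levi (fun w => M * nsq (w - p) + g₀ (v w)) z a
    rw [k1, k2]
    calc (M + 2 * ((deriv l₀ (v z)) ^ 2 * nsq (fun j => dd j (cx v) z))) * nsq a
        = M * nsq a + 2 * ((deriv l₀ (v z)) ^ 2 * nsq (fun j => dd j (cx v) z)) * nsq a := by
          ring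
      _ ≤ M * nsq a + c₀ * deriv g₀ (v z) * nsq a := by linarith
      _ = M * nsq a + deriv g₀ (v z) * (c₀ * nsq a) := by ring
      _ ≤ _ := by linarith
  · intro m z hz
    refine e7 m z (hKD hz) ?_
    have := hvK z hz
    linarith
  · intro m z hz
    show nsq (fun j => dbar j (cx (η m)) z) ≤ Real.exp (l₀ (v z))
    rcases lt_or_ge (v z) (-(1 / 4)) with hlt | hge
    · have h1 := e7 m z hz hlt
      have h2 : ∀ j, dbar j (cx (η m)) z = 0 := by
        intro j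
        rw [dbar_congr (v := fun _ => 1) _ j, dbar_const]
        filter_upwards [h1] with w hw
        show ((η m w : ℝ) : ℂ) = 1
        rw [hw, Complex.ofReal_one]
      have h3 : nsq (fun j => dbar j (cx (η m)) z) = 0 := by
        unfold nsq
        refine Finset.sum_eq_zero fun j _ => ?_
        show ‖dbar j (cx (η m)) z‖ ^ 2 = 0
        rw [h2 j]
        simp
      rw [h3]
      exact (Real.exp_pos _).le
    · exact (e8 m z hz).trans (hexp (v z) hge (hneg z hz))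

end DN
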