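import Pool.Agent.H49.DN.BASB
import Pool.Agent.H49.DN.PRJ
import Pool.Agent.H49.DN.WTS

/-! # MKA: Morrey-Kohn inequality, local version

PROOF. `exists_weights` with `M = 0`, `p = 0`: `D, φ, l, η`; on `D`: `φ ≥ 2 l ≥ 0`, near `K`: `φ = l = 0`.
`w = exp(l - φ) ≤ 1` on `D`, `w = 1` on `K`. `exists_proj` for `v = f`: `f'`; `g' = f - f'`. `g'` is in `L²(D, w)`,
`∫_D nsq g' w ≤ ∫_D nsq f w ≤ ∫_Ω nsq f`. Weak curl of `g'` on `D` is `Gf` (test functions on `D` are test
functions on `Ω`; `f'` is closed). Formal adjoint zero: for `θ` a test function on `D`, `a_j = dbar j (conj θ)` is closed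
and in `L²(D, w)`, so `∫_D ∑ g'_j dd j θ w = 0`: `h1` of `basic` with `W = 0`. `basic` (second part):
`|∑∑ ∫_D g'_j dbar k θ_jk|² ≤ (½ ∑∑ ∫_D |Gf|² exp(-φ)) ∑∑ ∫_D |θ_jk|² exp φ`; for `θ` supported in `K`, `exp φ = 1` there.
Take `g = g'` on `K`, `0` elsewhere (`indicator`). -/

set_option autoImplicit false

namespace DN

open MeasureTheory Set Filter Topology ContDiff

variable {n : ℕ}

private theorem MKA_nsq_nonneg (a : Fin n → ℂ) : 0 ≤ nsq a :=
  Finset.sum_nonneg fun _ _ => by positivity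

private theorem MKA_le_nsq (a : Fin n → ℂ) (j : Fin n) : ‖a j‖ ^ 2 ≤ nsq a :=
  Finset.single_le_sum (f := fun i => ‖a i‖ ^ 2) (fun i _ => by positivity) (Finset.mem_univ j)

private theorem MKA_real {a b W s : ℝ} (hW : 0 < W) (hs : a ^ 2 ≤ s) :
    a * b ≤ s * W + b ^ 2 / W := by
  have h1 : a * b * W ≤ a ^ 2 * W * W + b ^ 2 := by nlinarith [sq_nonneg (a * W - b / 2)]
  have h2 : a ^ 2 * W ≤ s * W := mul_le_mul_of_nonneg_right hs hW.le
  have h3 : a * b ≤ a ^ 2 * W + b ^ 2 / W := by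
    rw [← sub_nonneg]
    have h4 : a ^ 2 * W + b ^ 2 / W - a * b = (a ^ 2 * W * W + b ^ 2 - a * b * W) / W := by
      field_simp
    rw [h4]
    exact div_nonneg (by linarith) hW.le
  linarith

private theorem MKA_int {D : Set (Cn n)} (hD : MeasurableSet D) {w : Cn n → ℝ}
    (hw : ContinuousOn w D) (hw0 : ∀ z ∈ D, 0 < w z) {F : Fin n → Cn n → ℂ}
    (hFm : ∀ j, AEStronglyMeasurable (F j) (volume.restrict D))
    (hF : IntegrableOn (fun z => nsq (fun j => F j z) * w z) D) {ψ : Cn n → ℂ}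
    (hψ : Continuous ψ) (hs : HasCompactSupport ψ) (hsub : tsupport ψ ⊆ D) (j : Fin n) :
    IntegrableOn (fun z => F j z * ψ z) D := by
  have q1 : IntegrableOn (fun z => ‖ψ z‖ ^ 2 / w z) (tsupport ψ) :=
    (ContinuousOn.div (hψ.norm.pow 2).continuousOn (hw.mono hsub)
      (fun z hz => (hw0 z (hsub hz)).ne')).integrableOn_compact hs
  have q2 : Integrable (fun z => ‖ψ z‖ ^ 2 / w z) := by
    refine (integrableOn_iff_integrable_of_support_subset ?_).mp q1
    intro z hz
    by_contra hcon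
    apply hz
    have h0 : ψ z = 0 := image_eq_zero_of_notMem_tsupport hcon
    show ‖ψ z‖ ^ 2 / w z = 0
    rw [h0]
    simp
  have q3 : IntegrableOn (fun z => nsq (fun j => F j z) * w z + ‖ψ z‖ ^ 2 / w z) D :=
    hF.add q2.integrableOn
  refine Integrable.mono' q3 ((hFm j).mul hψ.aestronglyMeasurable) ?_
  filter_upwards [ae_restrict_mem hD] with z hz
  rw [norm_mul]
  exact MKA_real (hw0 z hz) (MKA_le_nsq (fun j => F j z) j)

private theorem MKA_dbar0 {θ : Cn n → ℂ} {z : Cn n} (hz : z ∉ tsupport θ) (j : Fin n) :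
    dbar j θ z = 0 :=
  image_eq_zero_of_notMem_tsupport fun h => hz (tsupport_dbar θ j h)

private theorem MKA_set {A B : Set (Cn n)} (hB : MeasurableSet B) (hAB : A ⊆ B)
    {F : Cn n → ℂ} (h : ∀ z, z ∉ A → F z = 0) : ∫ z in B, F z = ∫ z in A, F z :=
  setIntegral_eq_of_subset_of_forall_diff_eq_zero hB hAB (fun z hz => h z hz.2)

private theorem MKA_ibp {D : Set (Cn n)} {u φ : Cn n → ℂ} (hu : Test D u) (hφ : Test D φ)
    (j k : Fin n) : Integrable (fun z => dbar k u z * dbar j φ z) ∧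
      ∫ z, dbar k u z * dbar j φ z = -∫ z, u z * dbar k (dbar j φ) z := by
  have a1 := hu.dbar k
  have a2 := hφ.dbar j
  refine ⟨(a1.smooth.continuous.mul a2.smooth.continuous).integrable_of_hasCompactSupport
    a1.supp.mul_right, ?_⟩
  have h1 := ibp_dbar (u := u) (v := dbar j φ) (hu.smooth.of_le (by simp))
    (a2.smooth.of_le (by simp)) (Or.inl hu.supp) k
  rw [h1, neg_neg]

private theorem MKA_closed {D : Set (Cn n)} {u : Cn n → ℂ} (hu : Test D u) :
    Closed1 D (fun j => dbar j u) := by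
  intro φ hφ j k
  have h0 : ∫ z in D, (dbar k u z * dbar j φ z - dbar j u z * dbar k φ z) =
      ∫ z, (dbar k u z * dbar j φ z - dbar j u z * dbar k φ z) := by
    refine setIntegral_eq_integral_of_forall_compl_eq_zero fun z hz => ?_
    have hz' : z ∉ tsupport φ := fun h => hz (hφ.sub h)
    rw [MKA_dbar0 hz', MKA_dbar0 hz']
    simp
  obtain ⟨i1, e1⟩ := MKA_ibp hu hφ j k
  obtain ⟨i2, e2⟩ := MKA_ibp hu hφ k j
  have e3 : ∀ z, dbar k (dbar j φ) z = dbar j (dbar k φ) z := fun z =>
    dbar_dbar_comm ((hφ.smooth.contDiffAt (x := z)).of_le ENat.LEInfty.out) j k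
  show ∫ z in D, (dbar k u z * dbar j φ z - dbar j u z * dbar k φ z) = 0
  rw [h0, integral_sub i1 i2, e1, e2]
  simp only [e3, sub_self]

/-- everything on `D`, with the weights -/
private theorem MKA_core {Ω K : Set (Cn n)} (hΩ : Pseudoconvex Ω) (hK : IsCompact K)
    (hKΩ : K ⊆ Ω)
    {f : Fin n → Cn n → ℂ} (hfm : ∀ j, AEStronglyMeasurable (f j) (volume.restrict Ω))
    (hf : IntegrableOn (fun z => nsq (fun j => f j z)) Ω) {Gf : Fin n → Fin n → Cn n → ℂ}
    (hGm : ∀ j k, AEStronglyMeasurable (Gf j k) (volume.restrict Ω))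
    (hG : ∀ j k, IntegrableOn (fun z => ‖Gf j k z‖ ^ 2) Ω)
    (h2 : ∀ θ, Test Ω θ → ∀ j k,
      ∫ z in Ω, (f k z * dbar j θ z - f j z * dbar k θ z) = -∫ z in Ω, Gf j k z * θ z) :
    ∃ (D : Set (Cn n)) (φ l : Cn n → ℝ) (g : Fin n → Cn n → ℂ), D ⊆ Ω ∧ K ⊆ D ∧ IsOpen D ∧
      (∀ z ∈ K, l z = 0 ∧ φ z = 0) ∧ (∀ z ∈ D, 0 ≤ φ z ∧ l z ≤ φ z) ∧
      ContinuousOn φ D ∧ ContinuousOn l D ∧
      (∀ j, AEStronglyMeasurable (g j) (volume.restrict D)) ∧
      IntegrableOn (fun z => nsq (fun j => g j z) * Real.exp (l z - φ z)) D ∧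
      (∫ z in D, nsq (fun j => g j z) * Real.exp (l z - φ z) ≤
        ∫ z in D, nsq (fun j => f j z) * Real.exp (l z - φ z)) ∧
      (∀ θ, Test D θ → ∀ j k,
        ∫ z in D, (g k z * dbar j θ z - g j z * dbar k θ z) = -∫ z in D, Gf j k z * θ z) ∧
      ∀ θ : Fin n → Fin n → Cn n → ℂ, (∀ j k, Test D (θ j k)) →
        ‖∑ j, ∑ k, ∫ z in D, g j z * dbar k (θ j k) z‖ ^ 2 ≤
          (1 / 2 * ∑ j, ∑ k, ∫ z in D, ‖Gf j k z‖ ^ 2 * Real.exp (-φ z)) *
            ∑ j, ∑ k, ∫ z in D, ‖θ j k z‖ ^ 2 * Real.exp (φ z) := by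
  obtain ⟨D, φ, l, η, hDΩ, hw⟩ := exists_weights hΩ hK hKΩ (M := 0) le_rfl (p := 0)
  have hDo := hw.isOpen
  have hDm := hDo.measurableSet
  have hφc : ContinuousOn φ D := hw.smooth.continuousOn
  have hlc : ContinuousOn l D := hw.smoothl.continuousOn
  have hge : ∀ z ∈ D, 0 ≤ φ z ∧ l z ≤ φ z := by
    intro z hz
    have h1 := hw.ge z hz
    have h3 := hw.nonneg z hz
    rw [zero_mul, zero_add] at h1
    constructor <;> linarith
  have hKv : ∀ z ∈ K, l z = 0 ∧ φ z = 0 := by
    intro z hz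
    obtain ⟨h1, h3⟩ := (hw.near z hz).self_of_nhds
    rw [zero_mul] at h3
    exact ⟨h1, h3⟩
  have hwc : ContinuousOn (fun z => Real.exp (l z - φ z)) D :=
    Real.continuous_exp.comp_continuousOn (hlc.sub hφc)
  have hw0 : ∀ z ∈ D, 0 < Real.exp (l z - φ z) := fun z _ => Real.exp_pos _
  have hw1 : ∀ z ∈ D, Real.exp (l z - φ z) ≤ 1 := fun z hz =>
    Real.exp_le_one_iff.mpr (by linarith [(hge z hz).2])
  have hfD : ∀ j, AEStronglyMeasurable (f j) (volume.restrict D) := fun j =>
    (hfm j).mono_measure (Measure.restrict_mono hDΩ le_rfl)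
  have hfi : IntegrableOn (fun z => nsq (fun j => f j z) * Real.exp (l z - φ z)) D := by
    refine Integrable.mono' (hf.mono_set hDΩ) ?_ ?_
    · exact (hf.mono_set hDΩ).aestronglyMeasurable.mul (hwc.aestronglyMeasurable hDm)
    · filter_upwards [ae_restrict_mem hDm] with z hz
      rw [Real.norm_eq_abs, abs_of_nonneg (mul_nonneg (MKA_nsq_nonneg _) (Real.exp_pos _).le)]
      calc nsq (fun j => f j z) * Real.exp (l z - φ z) ≤ nsq (fun j => f j z) * 1 :=
            mul_le_mul_of_nonneg_left (hw1 z hz) (MKA_nsq_nonneg _)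
        _ = _ := mul_one _
  obtain ⟨f', p1, p2, p3, p4, p5⟩ := exists_proj hDo hwc hw0 hfD hfi
  have hgm : ∀ j, AEStronglyMeasurable (fun z => f j z - f' j z) (volume.restrict D) :=
    fun j => (hfD j).sub (p1 j)
  have hgi : IntegrableOn (fun z => nsq (fun j => f j z - f' j z) * Real.exp (l z - φ z)) D := by
    have q : IntegrableOn (fun z => 2 * (nsq (fun j => f j z) * Real.exp (l z - φ z)) +
        2 * (nsq (fun j => f' j z) * Real.exp (l z - φ z))) D :=
      (hfi.const_mul 2).add (p2.const_mul 2)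
    refine Integrable.mono' q ?_ ?_
    · refine AEStronglyMeasurable.mul ?_ (hwc.aestronglyMeasurable hDm)
      unfold nsq
      exact Finset.aestronglyMeasurable_fun_sum _ fun j _ => (hgm j).norm.pow 2
    · filter_upwards with z
      rw [Real.norm_eq_abs, abs_of_nonneg (mul_nonneg (MKA_nsq_nonneg _) (Real.exp_pos _).le)]
      have h3 : nsq (fun j => f j z - f' j z) ≤
          2 * nsq (fun j => f j z) + 2 * nsq (fun j => f' j z) := by
        unfold nsq
        rw [Finset.mul_sum, Finset.mul_sum, ← Finset.sum_add_distrib]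
        refine Finset.sum_le_sum fun j _ => ?_
        have h4 := norm_sub_le (f j z) (f' j z)
        have h5 := norm_nonneg (f j z - f' j z)
        nlinarith [sq_nonneg (‖f j z‖ - ‖f' j z‖)]
      have h6 := mul_le_mul_of_nonneg_right h3 (Real.exp_pos (l z - φ z)).le
      linarith
  have hcurl : ∀ θ, Test D θ → ∀ j k,
      ∫ z in D, ((f k z - f' k z) * dbar j θ z - (f j z - f' j z) * dbar k θ z) =
        -∫ z in D, Gf j k z * θ z := by
    intro θ hθ j k
    have hθΩ : Test Ω θ := ⟨hθ.smooth, hθ.supp, hθ.sub.trans hDΩ⟩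
    have hΩm := hΩ.1.measurableSet
    have a1 := h2 θ hθΩ j k
    rw [MKA_set hΩm hDΩ (F := fun z => f k z * dbar j θ z - f j z * dbar k θ z) (by
      intro z hz
      have hz' : z ∉ tsupport θ := fun h => hz (hθ.sub h)
      show f k z * dbar j θ z - f j z * dbar k θ z = 0
      rw [MKA_dbar0 hz', MKA_dbar0 hz']
      simp), MKA_set hΩm hDΩ (F := fun z => Gf j k z * θ z) (by
      intro z hz
      have hz' : z ∉ tsupport θ := fun h => hz (hθ.sub h)
      show Gf j k z * θ z = 0
      rw [image_eq_zero_of_notMem_tsupport hz', mul_zero])] at a1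
    have a2 := p3 θ hθ j k
    have tj := hθ.dbar j
    have tk := hθ.dbar k
    have i1 := MKA_int hDm hwc hw0 hfD hfi tj.smooth.continuous tj.supp tj.sub k
    have i2 := MKA_int hDm hwc hw0 hfD hfi tk.smooth.continuous tk.supp tk.sub j
    have i3 := MKA_int hDm hwc hw0 p1 p2 tj.smooth.continuous tj.supp tj.sub k
    have i4 := MKA_int hDm hwc hw0 p1 p2 tk.smooth.continuous tk.supp tk.sub j
    have e : (fun z => (f k z - f' k z) * dbar j θ z - (f j z - f' j z) * dbar k θ z) =
        fun z => (f k z * dbar j θ z - f j z * dbar k θ z) -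
          (f' k z * dbar j θ z - f' j z * dbar k θ z) := by
      funext z
      ring
    have j1 : Integrable (fun z => f k z * dbar j θ z - f j z * dbar k θ z)
        (volume.restrict D) := i1.sub i2
    have j2 : Integrable (fun z => f' k z * dbar j θ z - f' j z * dbar k θ z)
        (volume.restrict D) := i3.sub i4
    rw [e, integral_sub j1 j2, a1, a2, sub_zero]
  have hadj : ∀ θ, Test D θ →
      ∫ z in D, (∑ j, (f j z - f' j z) * dd j θ z) * (Real.exp (l z - φ z) : ℂ) =
        ∫ z in D, (0 : ℂ) * θ z * (Real.exp (2 * l z - φ z) : ℂ) := by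
    intro θ hθ
    have hu := hθ.conj
    have hconj : ∀ j z, (starRingEnd ℂ) (dbar j (fun w => (starRingEnd ℂ) (θ w)) z) =
        dd j θ z := by
      intro j z
      rw [dbar_conj (hθ.smooth.differentiable (by simp) z), Complex.conj_conj]
    have a1 := p5 (fun j => dbar j (fun w => (starRingEnd ℂ) (θ w))) (fun j =>
      (hu.dbar j).smooth.continuous.aestronglyMeasurable) (by
        have q : Integrable (fun z => nsq (fun j =>
            dbar j (fun w => (starRingEnd ℂ) (θ w)) z)) := by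
          unfold nsq
          refine integrable_finsetSum _ fun j _ => ?_
          have tj := hu.dbar j
          refine (tj.smooth.continuous.norm.pow 2).integrable_of_hasCompactSupport ?_
          refine HasCompactSupport.intro tj.supp fun z hz => ?_
          show ‖dbar j (fun w => (starRingEnd ℂ) (θ w)) z‖ ^ 2 = 0
          rw [image_eq_zero_of_notMem_tsupport hz]
          simp
        refine Integrable.mono' q.integrableOn ?_ ?_
        · exact q.aestronglyMeasurable.restrict.mul (hwc.aestronglyMeasurable hDm)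
        · filter_upwards [ae_restrict_mem hDm] with z hz
          rw [Real.norm_eq_abs,
            abs_of_nonneg (mul_nonneg (MKA_nsq_nonneg _) (Real.exp_pos _).le)]
          calc _ ≤ nsq (fun j => dbar j (fun w => (starRingEnd ℂ) (θ w)) z) * 1 :=
                mul_le_mul_of_nonneg_left (hw1 z hz) (MKA_nsq_nonneg _)
            _ = _ := mul_one _) (MKA_closed hu)
    simp only [hconj] at a1
    rw [a1]
    simp
  have hGD : ∀ j k, AEStronglyMeasurable (Gf j k) (volume.restrict D) := fun j k =>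
    (hGm j k).mono_measure (Measure.restrict_mono hDΩ le_rfl)
  have hGi : ∀ j k, IntegrableOn (fun z => ‖Gf j k z‖ ^ 2 * Real.exp (-φ z)) D := by
    intro j k
    refine Integrable.mono' ((hG j k).mono_set hDΩ) ?_ ?_
    · exact ((hGD j k).norm.pow 2).mul
        ((Real.continuous_exp.comp_continuousOn hφc.neg).aestronglyMeasurable hDm)
    · filter_upwards [ae_restrict_mem hDm] with z hz
      have h3 : Real.exp (-φ z) ≤ 1 :=
        Real.exp_le_one_iff.mpr (by linarith [(hge z hz).1])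
      have h4 : 0 ≤ ‖Gf j k z‖ ^ 2 := by positivity
      rw [Real.norm_eq_abs, abs_of_nonneg (mul_nonneg h4 (Real.exp_pos _).le)]
      calc ‖Gf j k z‖ ^ 2 * Real.exp (-φ z) ≤ ‖Gf j k z‖ ^ 2 * 1 :=
            mul_le_mul_of_nonneg_left h3 h4
        _ = _ := mul_one _
  have hbas := basic hw le_rfl (F := fun j z => f j z - f' j z) (W := fun _ => 0) (Gf := Gf)
    hgm aestronglyMeasurable_const hGD hgi (by simp) hGi hadj hcurl
    (R := 1 / 2 * ∑ j, ∑ k, ∫ z in D, ‖Gf j k z‖ ^ 2 * Real.exp (-φ z)) (by simp)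
  exact ⟨D, φ, l, fun j z => f j z - f' j z, hDΩ, hw.sub, hDo, hKv, hge, hφc, hlc, hgm, hgi,
    p4, hcurl, hbas.2⟩

theorem mk_local {Ω K : Set (Cn n)} (hΩ : Pseudoconvex Ω) (hK : IsCompact K) (hKΩ : K ⊆ Ω)
    {f : Fin n → Cn n → ℂ} (hfm : ∀ j, AEStronglyMeasurable (f j) (volume.restrict Ω))
    (hf : IntegrableOn (fun z => nsq (fun j => f j z)) Ω) {Gf : Fin n → Fin n → Cn n → ℂ}
    (hGm : ∀ j k, AEStronglyMeasurable (Gf j k) (volume.restrict Ω))
    (hG : ∀ j k, IntegrableOn (fun z => ‖Gf j k z‖ ^ 2) Ω)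
    (h2 : ∀ θ, Test Ω θ → ∀ j k,
      ∫ z in Ω, (f k z * dbar j θ z - f j z * dbar k θ z) = -∫ z in Ω, Gf j k z * θ z) :
    ∃ g : Fin n → Cn n → ℂ, (∀ j, AEStronglyMeasurable (g j) (volume.restrict Ω)) ∧
      IntegrableOn (fun z => nsq (fun j => g j z)) Ω ∧
      (∫ z in Ω, nsq (fun j => g j z) ≤ ∫ z in Ω, nsq (fun j => f j z)) ∧
      (∀ θ, Test Ω θ → tsupport θ ⊆ K → ∀ j k,
        ∫ z in Ω, (g k z * dbar j θ z - g j z * dbar k θ z) = -∫ z in Ω, Gf j k z * θ z) ∧
      ∀ θ : Fin n → Fin n → Cn n → ℂ, (∀ j k, Test Ω (θ j k)) →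
        (∀ j k, tsupport (θ j k) ⊆ K) →
        ‖∑ j, ∑ k, ∫ z in Ω, g j z * dbar k (θ j k) z‖ ^ 2 ≤
          (1 / 2 * ∑ j, ∑ k, ∫ z in Ω, ‖Gf j k z‖ ^ 2) *
            ∑ j, ∑ k, ∫ z in Ω, ‖θ j k z‖ ^ 2 := by
  classical
  obtain ⟨D, φ, l, g, hDΩ, hKD, hDo, hKv, hge, hφc, hlc, hgm, hgi, hle, hcurl, hmain⟩ :=
    MKA_core hΩ hK hKΩ hfm hf hGm hG h2
  have hKm := hK.measurableSet
  have hDm := hDo.measurableSet
  have hΩm := hΩ.1.measurableSet
  have hw1 : ∀ z ∈ D, Real.exp (l z - φ z) ≤ 1 := fun z hz =>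
    Real.exp_le_one_iff.mpr (by linarith [(hge z hz).2])
  have hwK : ∀ z ∈ K, Real.exp (l z - φ z) = 1 := by
    intro z hz
    rw [(hKv z hz).1, (hKv z hz).2]
    simp
  have hfD : IntegrableOn (fun z => nsq (fun j => f j z)) D := hf.mono_set hDΩ
  -- the indicator
  have hnsq : (fun z => nsq (fun j => K.indicator (g j) z)) =
      K.indicator (fun z => nsq (fun j => g j z)) := by
    funext z
    by_cases hz : z ∈ K
    · rw [indicator_of_mem hz]
      simp only [indicator_of_mem hz]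
    · rw [indicator_of_notMem hz]
      simp only [indicator_of_notMem hz]
      unfold nsq
      simp
  have hgK : IntegrableOn (fun z => nsq (fun j => g j z)) K := by
    refine (hgi.mono_set hKD).congr_fun ?_ hKm
    intro z hz
    show nsq (fun j => g j z) * Real.exp (l z - φ z) = nsq (fun j => g j z)
    rw [hwK z hz, mul_one]
  refine ⟨fun j => K.indicator (g j), ?_, ?_, ?_, ?_, ?_⟩
  · intro j
    rw [aestronglyMeasurable_indicator_iff hKm, Measure.restrict_restrict hKm]
    exact (hgm j).mono_measure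
      (Measure.restrict_mono (inter_subset_left.trans hKD) le_rfl)
  · rw [hnsq]
    exact ((integrable_indicator_iff hKm).mpr hgK).integrableOn
  · rw [hnsq, setIntegral_indicator hKm, inter_eq_right.mpr hKΩ]
    calc ∫ z in K, nsq (fun j => g j z)
        = ∫ z in K, nsq (fun j => g j z) * Real.exp (l z - φ z) := by
          refine setIntegral_congr_fun hKm fun z hz => ?_
          show nsq (fun j => g j z) = nsq (fun j => g j z) * Real.exp (l z - φ z)
          rw [hwK z hz, mul_one]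
      _ ≤ ∫ z in D, nsq (fun j => g j z) * Real.exp (l z - φ z) := by
          refine setIntegral_mono_set hgi ?_ hKD.eventuallyLE
          filter_upwards with z
          exact mul_nonneg (MKA_nsq_nonneg _) (Real.exp_pos _).le
      _ ≤ ∫ z in D, nsq (fun j => f j z) * Real.exp (l z - φ z) := hle
      _ ≤ ∫ z in D, nsq (fun j => f j z) := by
          refine integral_mono_of_nonneg ?_ hfD ?_
          · filter_upwards with z
            exact mul_nonneg (MKA_nsq_nonneg _) (Real.exp_pos _).le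
          · filter_upwards [ae_restrict_mem hDm] with z hz
            calc nsq (fun j => f j z) * Real.exp (l z - φ z) ≤ nsq (fun j => f j z) * 1 :=
                  mul_le_mul_of_nonneg_left (hw1 z hz) (MKA_nsq_nonneg _)
              _ = _ := mul_one _
      _ ≤ ∫ z in Ω, nsq (fun j => f j z) := by
          refine setIntegral_mono_set hf ?_ hDΩ.eventuallyLE
          filter_upwards with z
          exact MKA_nsq_nonneg _
  · intro θ hθ hθK j k
    have hθD : Test D θ := ⟨hθ.smooth, hθ.supp, hθK.trans hKD⟩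
    have h0 : ∀ (a : Fin n → Cn n → ℂ) (z : Cn n), z ∉ K →
        a k z * dbar j θ z - a j z * dbar k θ z = 0 := by
      intro a z hz
      have hz' : z ∉ tsupport θ := fun h => hz (hθK h)
      rw [MKA_dbar0 hz', MKA_dbar0 hz']
      simp
    have h1 : ∀ z, z ∉ K → Gf j k z * θ z = 0 := by
      intro z hz
      have hz' : z ∉ tsupport θ := fun h => hz (hθK h)
      rw [image_eq_zero_of_notMem_tsupport hz', mul_zero]
    have a1 := hcurl θ hθD j k
    rw [MKA_set hDm hKD (h0 g), MKA_set hDm hKD h1] at a1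
    rw [MKA_set hΩm hKΩ (h0 (fun j => K.indicator (g j))), MKA_set hΩm hKΩ h1, ← a1]
    refine setIntegral_congr_fun hKm fun z hz => ?_
    simp only [indicator_of_mem hz]
  · intro θ hθ hθK
    have hθD : ∀ j k, Test D (θ j k) := fun j k =>
      ⟨(hθ j k).smooth, (hθ j k).supp, (hθK j k).trans hKD⟩
    have a1 := hmain θ hθD
    have e1 : ∀ j k, ∫ z in D, g j z * dbar k (θ j k) z =
        ∫ z in Ω, K.indicator (g j) z * dbar k (θ j k) z := by
      intro j k
      have h0 : ∀ (a : Cn n → ℂ) (z : Cn n), z ∉ K → a z * dbar k (θ j k) z = 0 := by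
        intro a z hz
        rw [MKA_dbar0 fun h => hz (hθK j k h), mul_zero]
      rw [MKA_set hDm hKD (h0 (g j)), MKA_set hΩm hKΩ (h0 (K.indicator (g j)))]
      refine setIntegral_congr_fun hKm fun z hz => ?_
      simp only [indicator_of_mem hz]
    have e2 : ∀ j k, ∫ z in D, ‖θ j k z‖ ^ 2 * Real.exp (φ z) =
        ∫ z in Ω, ‖θ j k z‖ ^ 2 := by
      intro j k
      have h0 : ∀ z, z ∉ K → θ j k z = 0 := fun z hz =>
        image_eq_zero_of_notMem_tsupport fun h => hz (hθK j k h)
      rw [setIntegral_eq_of_subset_of_forall_diff_eq_zero hDm hKD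
        (f := fun z => ‖θ j k z‖ ^ 2 * Real.exp (φ z)) (fun z hz => by
          show ‖θ j k z‖ ^ 2 * Real.exp (φ z) = 0
          rw [h0 z hz.2]; simp),
        setIntegral_eq_of_subset_of_forall_diff_eq_zero hΩm hKΩ
        (f := fun z => ‖θ j k z‖ ^ 2) (fun z hz => by
          show ‖θ j k z‖ ^ 2 = 0
          rw [h0 z hz.2]; simp)]
      refine setIntegral_congr_fun hKm fun z hz => ?_
      show ‖θ j k z‖ ^ 2 * Real.exp (φ z) = ‖θ j k z‖ ^ 2
      rw [(hKv z hz).2, Real.exp_zero, mul_one]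
    simp only [e1, e2] at a1
    refine a1.trans (mul_le_mul_of_nonneg_right ?_ ?_)
    · refine mul_le_mul_of_nonneg_left ?_ (by norm_num)
      refine Finset.sum_le_sum fun j _ => Finset.sum_le_sum fun k _ => ?_
      calc ∫ z in D, ‖Gf j k z‖ ^ 2 * Real.exp (-φ z) ≤ ∫ z in D, ‖Gf j k z‖ ^ 2 := by
            refine integral_mono_of_nonneg ?_ ((hG j k).mono_set hDΩ) ?_
            · filter_upwards with z
              have h4 : 0 ≤ ‖Gf j k z‖ ^ 2 := by positivity
              exact mul_nonneg h4 (Real.exp_pos _).le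
            · filter_upwards [ae_restrict_mem hDm] with z hz
              have h3 : Real.exp (-φ z) ≤ 1 :=
                Real.exp_le_one_iff.mpr (by linarith [(hge z hz).1])
              have h4 : 0 ≤ ‖Gf j k z‖ ^ 2 := by positivity
              calc ‖Gf j k z‖ ^ 2 * Real.exp (-φ z) ≤ ‖Gf j k z‖ ^ 2 * 1 :=
                    mul_le_mul_of_nonneg_left h3 h4
                _ = _ := mul_one _
        _ ≤ ∫ z in Ω, ‖Gf j k z‖ ^ 2 := by
            refine setIntegral_mono_set (hG j k) ?_ hDΩ.eventuallyLE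
            filter_upwards with z
            show (0 : ℝ) ≤ ‖Gf j k z‖ ^ 2
            positivity
    · refine Finset.sum_nonneg fun j _ => Finset.sum_nonneg fun k _ => ?_
      exact integral_nonneg fun z => by positivity

end DN
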