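import Mathlib

/-! # ULT: weak limits along an ultrafilter

PROOF. For `w : H` the scalars `inner ℂ (x m) w` are bounded by `C ‖w‖`, so they converge along `U` to a number
`L w` (the image ultrafilter contains a compact ball: `IsCompact.ultrafilter_le_nhds`). `L` is linear in `w` (limits of
sums; `inner ℂ (x m) w` is linear in `w`) with `|L w| ≤ C ‖w‖`: a continuous linear functional (`LinearMap.mkContinuous`).
Riesz: `InnerProductSpace.toDual` gives `x₀` with `inner ℂ x₀ w = L w`; `‖x₀‖ ≤ C` (take `w = x₀`). -/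

set_option autoImplicit false

namespace DN

open Set Filter Topology

theorem ultra_weak_limit {H : Type*} [NormedAddCommGroup H] [InnerProductSpace ℂ H]
    [CompleteSpace H] (U : Ultrafilter ℕ) (x : ℕ → H) {C : ℝ} (hC : ∀ m, ‖x m‖ ≤ C) :
    ∃ x₀ : H, ‖x₀‖ ≤ C ∧ ∀ w, Tendsto (fun m => inner ℂ (x m) w) U (𝓝 (inner ℂ x₀ w)) := by
  have hC0 : 0 ≤ C := (norm_nonneg _).trans (hC 0)
  have hlim : ∀ w : H, ∃ l ∈ Metric.closedBall (0 : ℂ) (C * ‖w‖),
      Tendsto (fun m => inner ℂ (x m) w) U (𝓝 l) := by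
    intro w
    have h1 : ((U.map (fun m => inner ℂ (x m) w) : Ultrafilter ℂ) : Filter ℂ) ≤
        𝓟 (Metric.closedBall (0 : ℂ) (C * ‖w‖)) := by
      rw [le_principal_iff, Ultrafilter.mem_coe, Ultrafilter.mem_map]
      refine univ_mem' fun m => ?_
      rw [mem_preimage, mem_closedBall_zero_iff]
      exact (norm_inner_le_norm (x m) w).trans
        (mul_le_mul_of_nonneg_right (hC m) (norm_nonneg w))
    obtain ⟨l, hl, h2⟩ := (isCompact_closedBall (0 : ℂ) (C * ‖w‖)).ultrafilter_le_nhds _ h1
    exact ⟨l, hl, h2⟩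
  choose L hL1 hL2 using hlim
  let Ll : H →ₗ[ℂ] ℂ :=
    { toFun := L
      map_add' := by
        intro w w'
        refine tendsto_nhds_unique (hL2 (w + w')) ?_
        have h1 := (hL2 w).add (hL2 w')
        refine h1.congr fun m => ?_
        rw [inner_add_right]
      map_smul' := by
        intro c w
        refine tendsto_nhds_unique (hL2 (c • w)) ?_
        have h1 := (hL2 w).const_mul c
        refine h1.congr fun m => ?_
        rw [inner_smul_right] }
  have hb : ∀ w, ‖Ll w‖ ≤ C * ‖w‖ := fun w => by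
    have := hL1 w
    rwa [mem_closedBall_zero_iff] at this
  refine ⟨(InnerProductSpace.toDual ℂ H).symm (Ll.mkContinuous C hb), ?_, ?_⟩
  · rw [LinearIsometryEquiv.norm_map]
    exact LinearMap.mkContinuous_norm_le _ hC0 hb
  · intro w
    rw [InnerProductSpace.toDual_symm_apply]
    exact hL2 w

end DN
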