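import Pool.Agent.H49.DN.MKA
import Pool.Agent.H49.DN.ULT
import Pool.Agent.H49.DN.RSZ
import Pool.Agent.H49.DN.CLO

/-! # MKB: Morrey-Kohn inequality for forms orthogonal to the kernel of `∂̄`

PROOF. Components `f_j z = f z j`; `Gf j k z = k z ⟨(j,k), _⟩` if `j < k`, `-(k z ⟨(k,j), _⟩)` if `k < j`, `0` if `j = k`:
`½ ∑∑ ∫ ‖Gf‖² = ‖k‖²` (`norm_sq_int'`). `κ` the exhaustion function, `K_m = {z ∈ Ω | κ z ≤ m}` compact; every compact
subset of `Ω` is contained in `K_m` for large `m` (`κ` is bounded on it). `mk_local` for `K_m`: `g_m`, as elements of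
`L21 Ω` (`mk_memLp`) with `‖g_m‖ ≤ ‖f‖`. `U = Ultrafilter.of atTop`; `ultra_weak_limit`: `g`, `‖g‖ ≤ ‖f‖`. Integrals
`∫ g_m k * θ` against bounded compactly supported `θ` are inner products with fixed elements of `L21 Ω`, so they converge
along `U`: `IsDbar1 Ω g k` (each test function is supported in `K_m` eventually), and
`|∑∑ ∫ g_j dbar k θ_jk|² ≤ ‖k‖² ∑∑ ∫ ‖θ_jk‖²` for all test functions `θ_jk` on `Ω`. `g - f` satisfies `IsDbar1 _ 0`, so
`⟨g - f, f⟩ = 0` and `‖g‖² = ‖f‖² + ‖g - f‖²`, hence `g = f`. Finally `riesz_factor`: `V` = families `θ` of test functions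
(a submodule of `Fin n → Fin n → Cn n → ℂ`), `A θ` = class of `θ` in `Lp (EuclideanSpace ℂ (Fin n × Fin n)) 2`,
`l θ = -∑∑ ∫ f_j dbar k θ_jk`: `l θ = ⟨b, A θ⟩`, `‖b‖ ≤ ‖k‖`, `a_{jk} = conj b_{jk}`, `a j` = the form with components
`a_{jk}`: `∫ f_j dbar k θ = -∫ a_{jk} θ`, i.e. `IsDbar0 Ω (cmp j f) (a j)`; `∑ ‖a j‖² = ‖b‖² ≤ ‖k‖²`. -/

set_option autoImplicit false

namespace DN

open MeasureTheory Set Filter Topology ContDiff

variable {n : ℕ}

private theorem MKB_add {Ω : Set (Cn n)} {u v : Cn n → ℂ} (hu : Test Ω u) (hv : Test Ω v) :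
    Test Ω (fun z => u z + v z) where
  smooth := hu.smooth.add hv.smooth
  supp := hu.supp.add hv.supp
  sub := by
    have h1 : tsupport (fun z => u z + v z) ⊆ tsupport u ∪ tsupport v := by
      refine closure_minimal ?_ ((isClosed_tsupport u).union (isClosed_tsupport v))
      intro z hz
      by_contra hcon
      rw [mem_union, not_or] at hcon
      apply hz
      change u z + v z = 0
      rw [image_eq_zero_of_notMem_tsupport hcon.1, image_eq_zero_of_notMem_tsupport hcon.2, add_zero]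
    exact h1.trans (union_subset hu.sub hv.sub)

private theorem MKB_smul {Ω : Set (Cn n)} {u : Cn n → ℂ} (hu : Test Ω u) (c : ℂ) :
    Test Ω (fun z => c * u z) :=
  hu.mul isOpen_univ contDiffOn_const (subset_univ _)

private theorem MKB_zero {Ω : Set (Cn n)} : Test Ω (fun _ => (0 : ℂ)) where
  smooth := contDiff_const
  supp := HasCompactSupport.zero
  sub := by
    have : tsupport (fun _ : Cn n => (0 : ℂ)) = ∅ := by
      rw [tsupport_eq_empty_iff]
      rfl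
    rw [this]
    exact empty_subset _

/-- the antisymmetric extension of `k` -/
private noncomputable def MKB_G {Ω : Set (Cn n)} (k : L22 Ω) (j l : Fin n) : L20 Ω :=
  if h : j < l then cmp (⟨(j, l), h⟩ : Pairs n) k
  else if h : l < j then -cmp (⟨(l, j), h⟩ : Pairs n) k else 0

private theorem MKB_sum (H : Fin n → Fin n → ℝ) (F : Pairs n → ℝ)
    (h1 : ∀ p : Pairs n, H p.1.1 p.1.2 = F p) (h2 : ∀ p : Pairs n, H p.1.2 p.1.1 = F p)
    (h0 : ∀ j, H j j = 0) : ∑ j, ∑ l, H j l = 2 * ∑ p, F p := by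
  have e1 : ∑ j, ∑ l, H j l = ∑ x : Fin n × Fin n, H x.1 x.2 := by
    rw [Fintype.sum_prod_type]
  have e2 : ∀ x : Fin n × Fin n, H x.1 x.2 =
      (if x.1 < x.2 then H x.1 x.2 else 0) + (if x.2 < x.1 then H x.1 x.2 else 0) := by
    intro x
    rcases lt_trichotomy x.1 x.2 with h | h | h
    · rw [if_pos h, if_neg h.not_gt, add_zero]
    · rw [h, if_neg (lt_irrefl _), h0, add_zero]
    · rw [if_neg h.not_gt, if_pos h, zero_add]
  have e3 : ∑ x : Fin n × Fin n, (if x.1 < x.2 then H x.1 x.2 else 0) = ∑ p, F p := by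
    rw [← Finset.sum_filter]
    rw [Finset.sum_subtype (p := fun x : Fin n × Fin n => x.1 < x.2) _ (by simp)]
    exact Finset.sum_congr rfl fun p _ => h1 p
  have e4 : ∑ x : Fin n × Fin n, (if x.2 < x.1 then H x.1 x.2 else 0) = ∑ p, F p := by
    have e5 : ∑ x : Fin n × Fin n, (if x.2 < x.1 then H x.1 x.2 else 0) =
        ∑ x : Fin n × Fin n, (if x.1 < x.2 then H x.2 x.1 else 0) :=
      (Equiv.sum_comp (Equiv.prodComm (Fin n) (Fin n))
        (fun x : Fin n × Fin n => if x.2 < x.1 then H x.1 x.2 else 0)).symm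
    rw [e5, ← Finset.sum_filter]
    rw [Finset.sum_subtype (p := fun x : Fin n × Fin n => x.1 < x.2) _ (by simp)]
    exact Finset.sum_congr rfl fun p _ => h2 p
  rw [e1, Finset.sum_congr rfl fun x _ => e2 x, Finset.sum_add_distrib, e3, e4]
  ring

private theorem MKB_G_norm {Ω : Set (Cn n)} (k : L22 Ω) :
    1 / 2 * ∑ j, ∑ l, ‖MKB_G k j l‖ ^ 2 = ‖k‖ ^ 2 := by
  rw [norm_sq_cmp k, MKB_sum (fun j l => ‖MKB_G k j l‖ ^ 2) (fun p => ‖cmp p k‖ ^ 2)]
  · ring
  · rintro ⟨⟨j, l⟩, h⟩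
    have h' : j < l := h
    simp only [MKB_G, dif_pos h']
  · rintro ⟨⟨j, l⟩, h⟩
    have h' : j < l := h
    simp only [MKB_G, dif_neg h'.not_gt, dif_pos h', norm_neg]
  · intro j
    simp only [MKB_G, dif_neg (lt_irrefl j), norm_zero]
    norm_num

private theorem MKB_c {ι : Type} [Fintype ι] {Ω : Set (Cn n)}
    (f : Lp (EuclideanSpace ℂ ι) 2 (volume.restrict Ω)) (j : ι) (φ : Cn n → ℂ) :
    ∫ z in Ω, f z j * φ z = ∫ z in Ω, cmp j f z * φ z := by
  refine integral_congr_ae ?_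
  filter_upwards [cmp_ae j f] with z hz
  rw [hz]

private theorem MKB_weak {Ω : Set (Cn n)} {f : L21 Ω} {k : L22 Ω} :
    IsDbar1 Ω f k ↔ ∀ φ, Test Ω φ → ∀ p : Pairs n,
      (∫ z in Ω, cmp p.1.2 f z * dbar p.1.1 φ z) - (∫ z in Ω, cmp p.1.1 f z * dbar p.1.2 φ z) =
        -∫ z in Ω, cmp p k z * φ z := by
  unfold IsDbar1
  refine forall_congr' fun φ => forall_congr' fun hφ => forall_congr' fun p => ?_
  rw [integral_sub (CLO_int_cmp (hφ.dbar p.1.1) f _) (CLO_int_cmp (hφ.dbar p.1.2) f _),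
    MKB_c, MKB_c, MKB_c]

private theorem MKB_weak' {Ω : Set (Cn n)} {f : L21 Ω} {k : L22 Ω} (hf : IsDbar1 Ω f k)
    {θ : Cn n → ℂ} (hθ : Test Ω θ) (j l : Fin n) :
    (∫ z in Ω, cmp l f z * dbar j θ z) - (∫ z in Ω, cmp j f z * dbar l θ z) =
      -∫ z in Ω, MKB_G k j l z * θ z := by
  obtain ⟨ℓ, hℓ⟩ := CLO_pair hθ
  rw [MKB_weak] at hf
  rw [← hℓ]
  rcases lt_trichotomy j l with h | h | h
  · rw [MKB_G, dif_pos h, hℓ]
    exact hf θ hθ ⟨(j, l), h⟩
  · subst h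
    rw [MKB_G, dif_neg (lt_irrefl j), dif_neg (lt_irrefl j), map_zero, neg_zero, sub_self]
  · rw [MKB_G, dif_neg h.not_gt, dif_pos h, map_neg, neg_neg, hℓ]
    have := hf θ hθ ⟨(l, j), h⟩
    rw [← neg_eq_iff_eq_neg, neg_sub] at this
    exact this

private theorem MKB_sq {Ω : Set (Cn n)} (u : L20 Ω) :
    Integrable (fun z => ‖u z‖ ^ 2) (volume.restrict Ω) :=
  (memLp_two_iff_integrable_sq_norm (Lp.aestronglyMeasurable u)).mp (Lp.memLp u)

private theorem MKB_loc {Ω K : Set (Cn n)} (hΩ : Pseudoconvex Ω) (hK : IsCompact K) (hKΩ : K ⊆ Ω)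
    {f : L21 Ω} {k : L22 Ω} (hf : IsDbar1 Ω f k) :
    ∃ G : L21 Ω, ‖G‖ ≤ ‖f‖ ∧
      (∀ θ, Test Ω θ → tsupport θ ⊆ K → ∀ j l,
        (∫ z in Ω, cmp l G z * dbar j θ z) - (∫ z in Ω, cmp j G z * dbar l θ z) =
          -∫ z in Ω, MKB_G k j l z * θ z) ∧
      ∀ θ : Fin n × Fin n → Cn n → ℂ, (∀ p, Test Ω (θ p)) → (∀ p, tsupport (θ p) ⊆ K) →
        ‖∑ p, ∫ z in Ω, cmp p.1 G z * dbar p.2 (θ p) z‖ ^ 2 ≤
          ‖k‖ ^ 2 * ∑ p, ∫ z in Ω, ‖θ p z‖ ^ 2 := by
  obtain ⟨g, hg1, hg2, hg3, hg4, hg5⟩ := mk_local hΩ hK hKΩ (f := fun j => (cmp j f : Cn n → ℂ))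
    (fun j => Lp.aestronglyMeasurable _) (by
      unfold nsq
      exact integrable_finsetSum _ fun j _ => MKB_sq (cmp j f))
    (Gf := fun j l => (MKB_G k j l : Cn n → ℂ)) (fun j l => Lp.aestronglyMeasurable _)
    (fun j l => MKB_sq _) (by
      intro θ hθ j l
      rw [integral_sub (CLO_int (hθ.dbar j) _) (CLO_int (hθ.dbar l) _)]
      exact MKB_weak' hf hθ j l)
  have hm : ∀ j, MemLp (g j) 2 (volume.restrict Ω) := by
    intro j
    rw [memLp_two_iff_integrable_sq_norm (hg1 j)]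
    refine Integrable.mono' hg2 ((hg1 j).norm.pow 2) ?_
    refine Filter.Eventually.of_forall fun z => ?_
    rw [Real.norm_of_nonneg (by positivity)]
    unfold nsq
    exact Finset.single_le_sum (f := fun j => ‖g j z‖ ^ 2) (fun i _ => by positivity)
      (Finset.mem_univ j)
  obtain ⟨G, hG⟩ := mk_memLp hm
  have hGc : ∀ j, ∀ᵐ z ∂(volume.restrict Ω), cmp j G z = g j z := by
    intro j
    filter_upwards [hG, cmp_ae j G] with z h1 h2
    rw [h2, h1 j]
  have hGi : ∀ j (φ : Cn n → ℂ), ∫ z in Ω, g j z * φ z = ∫ z in Ω, cmp j G z * φ z := by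
    intro j φ
    refine integral_congr_ae ?_
    filter_upwards [hGc j] with z hz
    rw [hz]
  have hgint : ∀ {φ : Cn n → ℂ}, Test Ω φ → ∀ j, Integrable (fun z => g j z * φ z)
      (volume.restrict Ω) := by
    intro φ hφ j
    refine (CLO_int hφ (cmp j G)).congr ?_
    filter_upwards [hGc j] with z hz
    rw [hz]
  refine ⟨G, ?_, ?_, ?_⟩
  · have e1 : ‖G‖ ^ 2 = ∫ z in Ω, nsq (fun j => g j z) := by
      rw [norm_sq_int']
      refine integral_congr_ae ?_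
      filter_upwards [hG] with z hz
      unfold nsq
      exact Finset.sum_congr rfl fun j _ => by rw [hz j]
    have e2 : ‖f‖ ^ 2 = ∫ z in Ω, nsq (fun j => cmp j f z) := by
      rw [norm_sq_cmp]
      unfold nsq
      rw [integral_finsetSum _ fun j _ => MKB_sq (cmp j f)]
      exact Finset.sum_congr rfl fun j _ => norm_sq_int _
    rw [← e1, ← e2] at hg3
    exact le_of_sq_le_sq hg3 (norm_nonneg _)
  · intro θ hθ hs j l
    have := hg4 θ hθ hs j l
    rw [integral_sub (hgint (hθ.dbar j) l) (hgint (hθ.dbar l) j), hGi, hGi] at this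
    exact this
  · intro θ hθ hs
    have := hg5 (fun j l => θ (j, l)) (fun j l => hθ _) (fun j l => hs _)
    have e1 : ∑ j, ∑ l, ∫ z in Ω, g j z * dbar l (θ (j, l)) z
        = ∑ p : Fin n × Fin n, ∫ z in Ω, cmp p.1 G z * dbar p.2 (θ p) z := by
      rw [Fintype.sum_prod_type]
      refine Finset.sum_congr rfl fun j _ => Finset.sum_congr rfl fun l _ => ?_
      exact hGi _ _
    have e2 : ∑ j, ∑ l, ∫ z in Ω, ‖θ (j, l) z‖ ^ 2
        = ∑ p : Fin n × Fin n, ∫ z in Ω, ‖θ p z‖ ^ 2 := by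
      rw [Fintype.sum_prod_type]
    have e3 : 1 / 2 * ∑ j, ∑ l, ∫ z in Ω, ‖MKB_G k j l z‖ ^ 2 = ‖k‖ ^ 2 := by
      rw [← MKB_G_norm k]
      congr 1
      exact Finset.sum_congr rfl fun j _ => Finset.sum_congr rfl fun l _ => (norm_sq_int _).symm
    rw [e1, e2, e3] at this
    exact this

private theorem MKB_glob {Ω : Set (Cn n)} (hΩ : Pseudoconvex Ω) {f : L21 Ω} {k : L22 Ω}
    (hf : IsDbar1 Ω f k) (hort : ∀ a, IsDbar1 Ω a 0 → inner ℂ a f = 0)
    (θ : Fin n × Fin n → Cn n → ℂ) (hθ : ∀ p, Test Ω (θ p)) :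
    ‖∑ p, ∫ z in Ω, cmp p.1 f z * dbar p.2 (θ p) z‖ ^ 2 ≤
      ‖k‖ ^ 2 * ∑ p, ∫ z in Ω, ‖θ p z‖ ^ 2 := by
  obtain ⟨hO, κ, hκ, hκc⟩ := hΩ
  have hΩ' : Pseudoconvex Ω := ⟨hO, κ, hκ, hκc⟩
  choose G hG1 hG2 hG3 using fun m : ℕ =>
    MKB_loc (K := {z ∈ Ω | κ z ≤ (m : ℝ)}) hΩ' (hκc m) (fun z hz => hz.1) hf
  obtain ⟨g0, hg0, hlim⟩ := ultra_weak_limit (Ultrafilter.of (atTop : Filter ℕ)) G hG1
  have hU : ((Ultrafilter.of (atTop : Filter ℕ) : Ultrafilter ℕ) : Filter ℕ) ≤ atTop :=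
    Ultrafilter.of_le _
  have hL : ∀ ℓ : L21 Ω →L[ℂ] ℂ,
      Tendsto (fun m => ℓ (G m)) (Ultrafilter.of (atTop : Filter ℕ)) (𝓝 (ℓ g0)) := by
    intro ℓ
    set w := (InnerProductSpace.toDual ℂ (L21 Ω)).symm ℓ with hw
    have e : ∀ v, ℓ v = (starRingEnd ℂ) (inner ℂ v w) := by
      intro v
      rw [inner_conj_symm, hw, InnerProductSpace.toDual_symm_apply]
    simp_rw [e]
    exact (Complex.continuous_conj.tendsto _).comp (hlim w)
  have hev : ∀ T : Set (Cn n), IsCompact T → T ⊆ Ω → ∀ᶠ m : ℕ in atTop,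
      T ⊆ {z ∈ Ω | κ z ≤ (m : ℝ)} := by
    intro T hT hTΩ
    obtain ⟨B, hB⟩ := (hT.image_of_continuousOn (hκ.1.mono hTΩ)).bddAbove
    obtain ⟨m0, hm0⟩ := exists_nat_ge B
    filter_upwards [eventually_ge_atTop m0] with m hm z hz
    refine ⟨hTΩ hz, ?_⟩
    have h1 : κ z ≤ B := hB (mem_image_of_mem κ hz)
    have h2 : (m0 : ℝ) ≤ m := by exact_mod_cast hm
    linarith
  -- the limit solves the same equation
  have hg1 : IsDbar1 Ω g0 k := by
    rw [MKB_weak]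
    intro φ hφ p
    obtain ⟨ℓ1, -, h1⟩ := CLO_cmp (ι := Fin n) (hφ.dbar p.1.1) p.1.2
    obtain ⟨ℓ2, -, h2⟩ := CLO_cmp (ι := Fin n) (hφ.dbar p.1.2) p.1.1
    have h3 := hL (ℓ1 - ℓ2)
    have h4 : ∀ v, (ℓ1 - ℓ2) v = (∫ z in Ω, cmp p.1.2 v z * dbar p.1.1 φ z)
        - (∫ z in Ω, cmp p.1.1 v z * dbar p.1.2 φ z) := by
      intro v
      rw [← h1, ← h2]
      rfl
    rw [← h4]
    refine tendsto_nhds_unique h3 ?_
    refine tendsto_const_nhds.congr' ?_
    have h5 := hU (hev _ hφ.supp hφ.sub)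
    filter_upwards [h5] with m hm
    rw [h4, hG2 m φ hφ hm]
    have hp : p.1.1 < p.1.2 := p.2
    rw [MKB_G, dif_pos hp]
  have hdiff : IsDbar1 Ω (g0 - f) 0 := by
    have h := (isClosedOp_dbar1 hO).lin g0 f k k (-1) hg1 hf
    rw [neg_one_smul, neg_one_smul, ← sub_eq_add_neg, ← sub_eq_add_neg, sub_self] at h
    exact h
  have hin := hort _ hdiff
  have hgf : g0 = f := by
    have e1 : ‖g0‖ ^ 2 = ‖f‖ ^ 2 + ‖g0 - f‖ ^ 2 := by
      have e2 : g0 = (g0 - f) + f := by abel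
      have e3 := norm_add_sq_eq_norm_sq_add_norm_sq_of_inner_eq_zero (𝕜 := ℂ) (g0 - f) f hin
      rw [← e2] at e3
      nlinarith
    have e2 : ‖g0‖ ^ 2 ≤ ‖f‖ ^ 2 := pow_le_pow_left₀ (norm_nonneg _) hg0 2
    have e3 : ‖g0 - f‖ ^ 2 = 0 := le_antisymm (by linarith) (by positivity)
    have e4 : g0 - f = 0 := by
      rw [← norm_eq_zero]
      exact pow_eq_zero_iff two_ne_zero |>.mp e3
    rwa [sub_eq_zero] at e4
  choose ℓ _ hℓ using fun p : Fin n × Fin n => CLO_cmp (ι := Fin n) ((hθ p).dbar p.2) p.1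
  have h3 := hL (∑ p, ℓ p)
  have h4 : ∀ v, (∑ p, ℓ p) v = ∑ p, ∫ z in Ω, cmp p.1 v z * dbar p.2 (θ p) z := by
    intro v
    rw [_root_.sum_apply]
    exact Finset.sum_congr rfl fun p _ => hℓ p v
  rw [hgf] at h3
  rw [← h4]
  refine le_of_tendsto (h3.norm.pow 2) ?_
  have h5 : ∀ᶠ m : ℕ in atTop, ∀ p, tsupport (θ p) ⊆ {z ∈ Ω | κ z ≤ (m : ℝ)} :=
    Filter.eventually_all.mpr fun p => hev _ (hθ p).supp (hθ p).sub
  have h6 := hU h5
  filter_upwards [h6] with m hm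
  rw [h4]
  exact hG3 m θ hθ hm

private theorem MKB_diff {Ω : Set (Cn n)} {u : Cn n → ℂ} (hu : Test Ω u) (z : Cn n) :
    DifferentiableAt ℝ u z := hu.smooth.differentiable (by simp) z

theorem morrey_kohn {Ω : Set (Cn n)} (hΩ : Pseudoconvex Ω) {f : L21 Ω} {k : L22 Ω}
    (hf : IsDbar1 Ω f k) (hort : ∀ a, IsDbar1 Ω a 0 → inner ℂ a f = 0) :
    ∃ a : Fin n → L21 Ω, (∀ j, IsDbar0 Ω (cmp j f) (a j)) ∧ ∑ j, ‖a j‖ ^ 2 ≤ ‖k‖ ^ 2 := by
  classical
  have hglob := MKB_glob hΩ hf hort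
  obtain ⟨Φ, hΦ, -⟩ := exists_mkL (ι := Fin n × Fin n) (μ := (volume.restrict Ω : Measure (Cn n)))
  let V : Submodule ℂ (Fin n × Fin n → Cn n → ℂ) :=
    { carrier := {θ | ∀ p, Test Ω (θ p)}
      zero_mem' := fun p => MKB_zero
      add_mem' := fun {a b} ha hb p => MKB_add (ha p) (hb p)
      smul_mem' := fun c a ha p => MKB_smul (ha p) c }
  have hV : ∀ (θ : V) (p : Fin n × Fin n), Test Ω ((θ : Fin n × Fin n → Cn n → ℂ) p) :=
    fun θ p => θ.2 p
  let B : V →ₗ[ℂ] (Fin n × Fin n → L20 Ω) :=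
    { toFun := fun θ p => (CLO_memLp (hV θ p)).toLp _
      map_add' := by
        intro θ θ'
        funext p
        exact MemLp.toLp_add (CLO_memLp (hV θ p)) (CLO_memLp (hV θ' p))
      map_smul' := by
        intro c θ
        funext p
        exact MemLp.toLp_const_smul c (CLO_memLp (hV θ p)) }
  let A : V →ₗ[ℂ] Lp (EuclideanSpace ℂ (Fin n × Fin n)) 2 (volume.restrict Ω) :=
    (Φ : (Fin n × Fin n → L20 Ω) →ₗ[ℂ] _) ∘ₗ B
  have hA : ∀ θ p, cmp p (A θ) = (CLO_memLp (hV θ p)).toLp _ := fun θ p => hΦ _ p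
  have hAn : ∀ θ, ‖A θ‖ ^ 2 = ∑ p, ∫ z in Ω, ‖(θ : Fin n × Fin n → Cn n → ℂ) p z‖ ^ 2 := by
    intro θ
    rw [norm_sq_cmp]
    refine Finset.sum_congr rfl fun p _ => ?_
    rw [hA, norm_sq_int]
    refine integral_congr_ae ?_
    filter_upwards [(CLO_memLp (hV θ p)).coeFn_toLp] with z hz
    rw [hz]
  let l : V →ₗ[ℂ] ℂ :=
    { toFun := fun θ => -∑ p, ∫ z in Ω, cmp p.1 f z *
        dbar p.2 ((θ : Fin n × Fin n → Cn n → ℂ) p) z
      map_add' := by
        intro θ θ'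
        rw [← neg_add, ← Finset.sum_add_distrib]
        congr 1
        refine Finset.sum_congr rfl fun p _ => ?_
        rw [← integral_add (CLO_int ((hV θ p).dbar p.2) _) (CLO_int ((hV θ' p).dbar p.2) _)]
        refine integral_congr_ae (Filter.Eventually.of_forall fun z => ?_)
        have e := dbar_add (MKB_diff (hV θ p) z) (MKB_diff (hV θ' p) z) p.2
        change cmp p.1 f z * dbar p.2 (fun w => (θ : Fin n × Fin n → Cn n → ℂ) p w +
          (θ' : Fin n × Fin n → Cn n → ℂ) p w) z = _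
        rw [e]
        ring
      map_smul' := by
        intro c θ
        rw [RingHom.id_apply, smul_eq_mul, mul_neg, Finset.mul_sum]
        congr 1
        refine Finset.sum_congr rfl fun p _ => ?_
        rw [← integral_const_mul]
        refine integral_congr_ae (Filter.Eventually.of_forall fun z => ?_)
        have e := dbar_mul (u := fun _ => c) (differentiableAt_const c) (MKB_diff (hV θ p) z) p.2
        rw [dbar_const, zero_mul, zero_add] at e
        change cmp p.1 f z * dbar p.2 (fun w => c * (θ : Fin n × Fin n → Cn n → ℂ) p w) z = _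
        rw [e]
        ring }
  have hl : ∀ θ, ‖l θ‖ ≤ ‖k‖ * ‖A θ‖ := by
    intro θ
    have h1 := hglob θ (hV θ)
    rw [← hAn, ← mul_pow] at h1
    have h2 : ‖l θ‖ = ‖∑ p, ∫ z in Ω, cmp p.1 f z *
        dbar p.2 ((θ : Fin n × Fin n → Cn n → ℂ) p) z‖ := norm_neg _
    rw [h2]
    exact le_of_sq_le_sq h1 (by positivity)
  obtain ⟨b, hb, hbl⟩ := riesz_factor A l (norm_nonneg k) hl
  have hmem : ∀ j l', MemLp (fun z => (starRingEnd ℂ) (cmp (j, l') b z)) 2
      (volume.restrict Ω) := fun j l' => (Lp.memLp (cmp (j, l') b)).star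
  choose a ha using fun j => mk_memLp (fun l' => hmem j l')
  refine ⟨a, ?_, ?_⟩
  · intro j φ hφ l'
    let θ0 : Fin n × Fin n → Cn n → ℂ := fun p => if p = (j, l') then φ else fun _ => 0
    have hθ0 : ∀ p, Test Ω (θ0 p) := by
      intro p
      by_cases h : p = (j, l')
      · simp only [θ0, if_pos h]
        exact hφ
      · simp only [θ0, if_neg h]
        exact MKB_zero
    have h1 := hbl ⟨θ0, hθ0⟩
    have h2 : l ⟨θ0, hθ0⟩ = -∫ z in Ω, cmp j f z * dbar l' φ z := by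
      change -∑ p, ∫ z in Ω, cmp p.1 f z * dbar p.2 (θ0 p) z = _
      rw [Finset.sum_eq_single (j, l')]
      · simp only [θ0, if_true]
      · intro p _ hp
        simp only [θ0, if_neg hp, dbar_const, mul_zero, integral_zero]
      · simp
    have h3 : inner ℂ b (A ⟨θ0, hθ0⟩) = ∫ z in Ω, a j z l' * φ z := by
      rw [inner_cmp, Finset.sum_eq_single (j, l')]
      · rw [hA, inner_int]
        refine integral_congr_ae ?_
        filter_upwards [(CLO_memLp (hV ⟨θ0, hθ0⟩ (j, l'))).coeFn_toLp, ha j] with z h4 h5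
        rw [h4, h5 l']
        simp only [θ0, if_true]
      · intro p _ hp
        rw [hA, inner_int]
        have : ∫ z in Ω, (starRingEnd ℂ) (cmp p b z) *
            ((CLO_memLp (hV ⟨θ0, hθ0⟩ p)).toLp _ : L20 Ω) z = ∫ _z in Ω, (0 : ℂ) := by
          refine integral_congr_ae ?_
          filter_upwards [(CLO_memLp (hV ⟨θ0, hθ0⟩ p)).coeFn_toLp] with z h4
          rw [h4]
          simp only [θ0, if_neg hp, mul_zero]
        rw [this, integral_zero]
      · simp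
    rw [h2, h3] at h1
    rw [← h1, neg_neg]
  · have e1 : ∀ j, ‖a j‖ ^ 2 = ∑ l', ‖cmp (j, l') b‖ ^ 2 := by
      intro j
      rw [norm_sq_cmp]
      refine Finset.sum_congr rfl fun l' _ => ?_
      rw [norm_sq_int, norm_sq_int]
      refine integral_congr_ae ?_
      filter_upwards [cmp_ae l' (a j), ha j] with z h1 h2
      rw [h1, h2 l', RCLike.norm_conj]
    have e2 : ∑ j, ‖a j‖ ^ 2 = ‖b‖ ^ 2 := by
      rw [norm_sq_cmp b, Fintype.sum_prod_type]
      exact Finset.sum_congr rfl fun j _ => e1 j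
    rw [e2]
    exact pow_le_pow_left₀ (norm_nonneg _) hb 2

end DN
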