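import Pool.Agent.H49.DN.CALB

/-! # MOLA: mollification and weak derivatives

PROOFS. `mol n m` is smooth, nonnegative, with integral `1`, support in `ball 0 (1/(m+1))`
(`ContDiffBump.normed`, `ContDiffBump.contDiff_normed`, `ContDiffBump.integral_normed`,
`ContDiffBump.support_normed_eq`); `mol n m (-z) = mol n m z` (`ContDiffBump.normed_neg`).
`cv m u` is the convolution of `mol` with `u` (`MeasureTheory.convolution`, `HasCompactSupport.contDiff_convolution_left`
or `_right`; `u` is locally integrable, since `MemLp u 2`). Derivatives fall on `mol`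
(`HasCompactSupport.hasFDerivAt_convolution_left/right`): `dbar j (cv m u) z = ∫ w, dbar j (cx (mol n m)) (z - w) * u w`.
`θ w = mol n m (z - w)` is a test function (on `univ`) with `dbar j θ w = -(dbar j (cx mol)) (z - w)`; insert it in
the weak equation. -/

set_option autoImplicit false

namespace DN

open MeasureTheory Set Filter Topology ContDiff

variable {n : ℕ}

theorem mol_nonneg (m : ℕ) (z : Cn n) : 0 ≤ mol n m z := (mb n m).nonneg_normed z

theorem mol_integral (m : ℕ) : ∫ z, mol n m z = 1 := (mb n m).integral_normed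

theorem mol_smooth (m : ℕ) : ContDiff ℝ ∞ (mol n m) := (mb n m).contDiff_normed

theorem mol_support (m : ℕ) : Function.support (mol n m) = Metric.ball 0 (1 / ((m : ℝ) + 1)) :=
  (mb n m).support_normed_eq

theorem mol_neg (m : ℕ) (z : Cn n) : mol n m (-z) = mol n m z := (mb n m).normed_neg z

private theorem MOLA_supp (m : ℕ) : HasCompactSupport (cx (mol n m)) :=
  HasCompactSupport.comp_left (g := fun x : ℝ => (x : ℂ)) (mb n m).hasCompactSupport_normed
    Complex.ofReal_zero

private theorem MOLA_smooth (m : ℕ) : ContDiff ℝ ∞ (cx (mol n m)) :=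
  Complex.ofRealCLM.contDiff.comp (mol_smooth m)

private theorem MOLA_cv (m : ℕ) (u : Cn n → ℂ) :
    cv m u = MeasureTheory.convolution u (cx (mol n m)) (ContinuousLinearMap.mul ℝ ℂ) volume := by
  funext z
  unfold cv MeasureTheory.convolution
  refine integral_congr_ae (ae_of_all _ fun w => ?_)
  simp only [ContinuousLinearMap.mul_apply']
  rw [mul_comm]
  rfl

theorem cv_smooth {u : Cn n → ℂ} (hu : LocallyIntegrable u) (m : ℕ) :
    ContDiff ℝ ∞ (cv m u) := by
  rw [MOLA_cv]
  exact (MOLA_supp m).contDiff_convolution_right (ContinuousLinearMap.mul ℝ ℂ) hu (MOLA_smooth m)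

/-- support of the mollification -/
theorem cv_zero {u : Cn n → ℂ} {K : Set (Cn n)} (h0 : ∀ z, z ∉ K → u z = 0) (m : ℕ) {z : Cn n}
    (hz : z ∉ Metric.cthickening 1 K) : cv m u z = 0 := by
  unfold cv
  rw [integral_eq_zero_of_ae]
  refine ae_of_all _ fun w => ?_
  by_contra hne
  have h1 := left_ne_zero_of_mul hne
  have h2 := right_ne_zero_of_mul hne
  have hw : w ∈ K := by
    by_contra hcon
    exact h2 (h0 w hcon)
  have h3 : mol n m (z - w) ≠ 0 := by exact_mod_cast h1
  have h4 : z - w ∈ Function.support (mol n m) := h3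
  rw [mol_support, mem_ball_zero_iff] at h4
  apply hz
  apply Metric.mem_cthickening_of_dist_le z w 1 K hw
  rw [dist_eq_norm]
  have h5 : 1 / ((m : ℝ) + 1) ≤ 1 := by
    rw [div_le_one (by positivity)]
    linarith [(Nat.cast_nonneg m : (0 : ℝ) ≤ m)]
  linarith

private theorem MOLA_int {u : Cn n → ℂ} (hu : LocallyIntegrable u) (m : ℕ) (z : Cn n) {g : Cn n → ℂ}
    (hg : Continuous g) (hc : HasCompactSupport g) : Integrable (fun w => u w * g (z - w)) := by
  have h1 : HasCompactSupport (fun w => g (z - w)) := by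
    have := hc.comp_homeomorph (Homeomorph.subLeft z)
    exact this
  have h2 : Continuous (fun w => g (z - w)) := hg.comp (continuous_const.sub continuous_id)
  have h3 := hu.integrable_smul_left_of_hasCompactSupport h2 h1
  refine h3.congr (ae_of_all _ fun w => ?_)
  simp only [smul_eq_mul]
  ring

private theorem MOLA_fderiv {u : Cn n → ℂ} (hu : LocallyIntegrable u) (m : ℕ) (z a : Cn n) :
    fderiv ℝ (cv m u) z a = ∫ w, u w * fderiv ℝ (cx (mol n m)) (z - w) a := by
  have h := (MOLA_supp (n := n) m).hasFDerivAt_convolution_right (ContinuousLinearMap.mul ℝ ℂ) hu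
    ((MOLA_smooth m).of_le (by exact_mod_cast le_top)) z
  rw [MOLA_cv, h.fderiv]
  rw [convolution_precompR_apply (ContinuousLinearMap.mul ℝ ℂ) hu
    ((MOLA_supp m).fderiv ℝ) ((MOLA_smooth m).continuous_fderiv (by simp))]
  rfl

private theorem MOLA_fc (m : ℕ) (a : Cn n) :
    Continuous (fun w => fderiv ℝ (cx (mol n m)) w a) ∧
      HasCompactSupport (fun w => fderiv ℝ (cx (mol n m)) w a) := by
  constructor
  · exact ((MOLA_smooth m).continuous_fderiv (by simp)).clm_apply continuous_const
  · exact ((MOLA_supp m).fderiv_apply ℝ a)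

private theorem MOLA_dbar {u : Cn n → ℂ} (hu : LocallyIntegrable u) (m : ℕ) (j : Fin n) (z : Cn n) :
    Integrable (fun w => u w * dbar j (cx (mol n m)) (z - w)) ∧
      dbar j (cv m u) z = ∫ w, u w * dbar j (cx (mol n m)) (z - w) := by
  have i1 := MOLA_int hu m z (MOLA_fc m (Pi.single j 1)).1 (MOLA_fc m (Pi.single j 1)).2
  have i2 := MOLA_int hu m z (MOLA_fc m (Pi.single j Complex.I)).1 (MOLA_fc m (Pi.single j Complex.I)).2
  have e : ∀ w, u w * dbar j (cx (mol n m)) (z - w)
      = 1 / 2 * (u w * fderiv ℝ (cx (mol n m)) (z - w) (Pi.single j 1)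
        + Complex.I * (u w * fderiv ℝ (cx (mol n m)) (z - w) (Pi.single j Complex.I))) := by
    intro w
    unfold dbar
    ring
  simp_rw [e]
  constructor
  · exact (i1.add (i2.const_mul Complex.I)).const_mul _
  · rw [integral_const_mul, integral_add i1 (i2.const_mul Complex.I), integral_const_mul]
    unfold dbar
    rw [MOLA_fderiv hu, MOLA_fderiv hu]

private theorem MOLA_dd {u : Cn n → ℂ} (hu : LocallyIntegrable u) (m : ℕ) (j : Fin n) (z : Cn n) :
    Integrable (fun w => u w * dd j (cx (mol n m)) (z - w)) ∧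
      dd j (cv m u) z = ∫ w, u w * dd j (cx (mol n m)) (z - w) := by
  have i1 := MOLA_int hu m z (MOLA_fc m (Pi.single j 1)).1 (MOLA_fc m (Pi.single j 1)).2
  have i2 := MOLA_int hu m z (MOLA_fc m (Pi.single j Complex.I)).1 (MOLA_fc m (Pi.single j Complex.I)).2
  have e : ∀ w, u w * dd j (cx (mol n m)) (z - w)
      = 1 / 2 * (u w * fderiv ℝ (cx (mol n m)) (z - w) (Pi.single j 1)
        - Complex.I * (u w * fderiv ℝ (cx (mol n m)) (z - w) (Pi.single j Complex.I))) := by
    intro w
    unfold dd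
    ring
  simp_rw [e]
  constructor
  · exact (i1.sub (i2.const_mul Complex.I)).const_mul _
  · rw [integral_const_mul, integral_sub i1 (i2.const_mul Complex.I), integral_const_mul]
    unfold dd
    rw [MOLA_fderiv hu, MOLA_fderiv hu]

private theorem MOLA_test (m : ℕ) (z : Cn n) : Test univ (fun w => cx (mol n m) (z - w)) where
  smooth := (MOLA_smooth m).comp (contDiff_const.sub contDiff_id)
  supp := (MOLA_supp m).comp_homeomorph (Homeomorph.subLeft z)
  sub := subset_univ _

private theorem MOLA_tf (m : ℕ) (z w a : Cn n) :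
    fderiv ℝ (fun w => cx (mol n m) (z - w)) w a = -fderiv ℝ (cx (mol n m)) (z - w) a := by
  have h1 : HasFDerivAt (cx (mol n m)) (fderiv ℝ (cx (mol n m)) (z - w)) (z - w) :=
    ((MOLA_smooth m).differentiable (by simp) _).hasFDerivAt
  have h2 : HasFDerivAt (fun w : Cn n => z - w) (-ContinuousLinearMap.id ℝ (Cn n)) w :=
    (hasFDerivAt_id w).const_sub z
  have h3 := (h1.comp w h2).fderiv
  have h4 : fderiv ℝ (fun w => cx (mol n m) (z - w)) w
      = (fderiv ℝ (cx (mol n m)) (z - w)).comp (-ContinuousLinearMap.id ℝ (Cn n)) := h3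
  rw [h4]
  simp

private theorem MOLA_tdbar (m : ℕ) (z w : Cn n) (j : Fin n) :
    dbar j (fun w => cx (mol n m) (z - w)) w = -dbar j (cx (mol n m)) (z - w) := by
  unfold dbar
  rw [MOLA_tf, MOLA_tf]
  ring

private theorem MOLA_tdd (m : ℕ) (z w : Cn n) (j : Fin n) :
    dd j (fun w => cx (mol n m) (z - w)) w = -dd j (cx (mol n m)) (z - w) := by
  unfold dd
  rw [MOLA_tf, MOLA_tf]
  ring

theorem weak_div_cv {F : Fin n → Cn n → ℂ} {W : Cn n → ℂ} (hF : ∀ j, LocallyIntegrable (F j))
    (hW : LocallyIntegrable W)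
    (h : ∀ θ, Test univ θ → ∑ j, ∫ z, F j z * dd j θ z = -∫ z, W z * θ z) (m : ℕ) (z : Cn n) :
    ∑ j, dd j (cv m (F j)) z = cv m W z := by
  have h1 := h _ (MOLA_test m z)
  simp_rw [MOLA_tdd, mul_neg, integral_neg] at h1
  rw [Finset.sum_neg_distrib, neg_inj] at h1
  have h2 : ∑ j, dd j (cv m (F j)) z = ∑ j, ∫ w, F j w * dd j (cx (mol n m)) (z - w) :=
    Finset.sum_congr rfl fun j _ => (MOLA_dd (hF j) m j z).2
  rw [h2, h1]
  unfold cv
  refine integral_congr_ae (ae_of_all _ fun w => ?_)
  simp only [cx]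
  ring

theorem weak_curl_cv {f g G : Cn n → ℂ} {j k : Fin n} (hf : LocallyIntegrable f)
    (hg : LocallyIntegrable g) (hG : LocallyIntegrable G)
    (h : ∀ θ, Test univ θ → ∫ z, (f z * dbar j θ z - g z * dbar k θ z) = -∫ z, G z * θ z)
    (m : ℕ) (z : Cn n) : dbar j (cv m f) z - dbar k (cv m g) z = cv m G z := by
  have h1 := h _ (MOLA_test m z)
  simp_rw [MOLA_tdbar] at h1
  rw [(MOLA_dbar hf m j z).2, (MOLA_dbar hg m k z).2,
    ← integral_sub (MOLA_dbar hf m j z).1 (MOLA_dbar hg m k z).1]
  have h2 : ∫ w, (f w * -dbar j (cx (mol n m)) (z - w) - g w * -dbar k (cx (mol n m)) (z - w))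
      = -∫ w, (f w * dbar j (cx (mol n m)) (z - w) - g w * dbar k (cx (mol n m)) (z - w)) := by
    rw [← integral_neg]
    refine integral_congr_ae (ae_of_all _ fun w => ?_)
    simp only
    ring
  rw [h2, neg_inj] at h1
  rw [h1]
  unfold cv
  refine integral_congr_ae (ae_of_all _ fun w => ?_)
  simp only [cx]
  ring

end DN
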