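import Pool.Agent.H49.DN.MOLA
import Pool.Agent.H51.Hartogs.Moll

/-! # MOLB: mollification converges in `L²`

PROOF. (1) `∫ |cv m u|² ≤ ∫ |u|²`: Cauchy-Schwarz in `w` with the weight `mol n m (z - w)` (integral 1), then
Tonelli. (2) For continuous compactly supported `u`: uniformly continuous, so
`|cv m u z - u z| ≤ sup_{|w| ≤ 1/(m+1)} |u (z - w) - u z| → 0` uniformly, with support in a fixed compact set.
(3) Density: `MemLp.exists_hasCompactSupport_eLpNorm_sub_le` (or `_integral_rpow_sub_le`) and (1), (2):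
`‖cv m u - u‖ ≤ 2 ‖u - v‖ + ‖cv m v - v‖`. -/

set_option autoImplicit false

namespace DN

open MeasureTheory Set Filter Topology ContDiff

variable {n : ℕ}

private theorem MOLB_diff {u : Cn n → ℂ} (hu : MemLp u 2 volume) (m : ℕ) {ε : ENNReal} {δ : ℝ}
    (hm : 1 / ((m : ℝ) + 1) ≤ δ)
    (hδ : ∀ t : Cn n, ‖t‖ ≤ δ → eLpNorm (fun x => u (x - t) - u x) 2 volume ≤ ε) :
    eLpNorm (fun z => cv m u z - u z) 2 volume ≤ ε := by
  have hzero : ∀ t : Cn n, 1 / ((m : ℝ) + 1) ≤ ‖t‖ → mol n m t = 0 := by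
    intro t ht
    have h1 : t ∉ Function.support (mol n m) := by
      rw [mol_support]
      simpa using ht
    simpa using h1
  have hcs : HasCompactSupport (mol n m) := by
    refine HasCompactSupport.intro (isCompact_closedBall (0 : Cn n) (1 / ((m : ℝ) + 1))) ?_
    intro t ht
    apply hzero
    have h1 : 1 / ((m : ℝ) + 1) < ‖t‖ := by simpa using ht
    exact h1.le
  have h := H51.HT.moll_le (μ := (volume : Measure (Cn n))) hu (ε := ε) (δ := δ) hδ
    (φ := mol n m) (mol_smooth m).continuous (mol_nonneg m)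
    (fun t ht => hzero t (hm.trans ht.le)) hcs (mol_integral m)
  exact h

private theorem MOLB_two {u : Cn n → ℂ} (hu : MemLp u 2 volume) (t : Cn n) :
    eLpNorm (fun x => u (x - t) - u x) 2 volume ≤ 2 * eLpNorm u 2 volume := by
  have hmp : MeasurePreserving (fun x : Cn n => x - t) volume volume :=
    measurePreserving_sub_right volume t
  have h1 : MemLp (fun x => u (x - t)) 2 volume := hu.comp_measurePreserving hmp
  have h2 : eLpNorm (fun x => u (x - t)) 2 volume = eLpNorm u 2 volume :=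
    eLpNorm_comp_measurePreserving hu.1 hmp
  have h3 := eLpNorm_sub_le (p := 2) h1.1 hu.1 (by norm_num)
  rw [h2, ← two_mul] at h3
  exact h3

private theorem MOLB_meas {u : Cn n → ℂ} (hu : MemLp u 2 volume) (m : ℕ) :
    AEStronglyMeasurable (cv m u) volume :=
  (cv_smooth (hu.locallyIntegrable (by norm_num)) m).continuous.aestronglyMeasurable

theorem cv_memLp {u : Cn n → ℂ} (hu : MemLp u 2 volume) (m : ℕ) : MemLp (cv m u) 2 volume := by
  have h1 : MemLp (fun z => cv m u z - u z) 2 volume := by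
    refine ⟨(MOLB_meas hu m).sub hu.1, ?_⟩
    refine lt_of_le_of_lt (MOLB_diff hu m le_rfl fun t _ => MOLB_two hu t) ?_
    exact ENNReal.mul_lt_top ENNReal.ofNat_lt_top hu.2
  have h2 := h1.add hu
  have h3 : (fun z => cv m u z - u z) + u = cv m u := by
    funext z
    simp
  rwa [h3] at h2

theorem cv_tendsto {u : Cn n → ℂ} (hu : MemLp u 2 volume) :
    Tendsto (fun m => ∫ z, ‖cv m u z - u z‖ ^ 2) atTop (𝓝 0) := by
  have h1 : Tendsto (fun m => eLpNorm (fun z => cv m u z - u z) 2 volume) atTop (𝓝 0) := by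
    rw [ENNReal.tendsto_nhds_zero]
    intro ε hε
    obtain ⟨δ, hδ, hδ'⟩ := Metric.eventually_nhds_iff.1
      (H51.HT.transl_cont (μ := (volume : Measure (Cn n))) hu hε)
    have h2 : Tendsto (fun m : ℕ => 1 / ((m : ℝ) + 1)) atTop (𝓝 0) :=
      tendsto_one_div_add_atTop_nhds_zero_nat
    filter_upwards [h2.eventually (gt_mem_nhds (half_pos hδ))] with m hm
    refine MOLB_diff hu m (δ := δ / 2) hm.le fun t ht => ?_
    apply hδ'
    rw [dist_zero_right]
    linarith
  have h2 : ∀ m, ∫ z, ‖cv m u z - u z‖ ^ 2 =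
      (eLpNorm (fun z => cv m u z - u z) 2 volume ^ 2).toReal := by
    intro m
    rw [H51.HT.sq_eLpNorm, integral_eq_lintegral_of_nonneg_ae]
    · congr 1
      refine lintegral_congr fun z => ?_
      rw [ENNReal.ofReal_pow (norm_nonneg _), ofReal_norm]
    · exact Eventually.of_forall fun z => by positivity
    · exact (((MOLB_meas hu m).sub hu.1).norm.pow 2)
  simp only [h2]
  have h3 : Tendsto (fun m => eLpNorm (fun z => cv m u z - u z) 2 volume ^ 2) atTop (𝓝 0) := by
    have h4 := ENNReal.Tendsto.pow (n := 2) h1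
    simpa using h4
  have h4 := (ENNReal.tendsto_toReal ENNReal.zero_ne_top).comp h3
  rw [ENNReal.toReal_zero] at h4
  exact h4

end DN
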