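import Mathlib

/-! # ONE: two functions of one variable

PROOF. `Θ x = x * exp(-1/x)` for `x > 0`, `0` for `x ≤ 0` (`Θ x = x * expNegInvGlue x`, smooth): `Θ ≥ 0`,
`Θ' ≥ 0`, `Θ'' = exp(-1/x)/x³ ≥ 0` for `x > 0`. For `t < 0` put `Θ = Θ (t + 1/2)`,
`l t = a Θ(t + 1/2) / (-t)`, `g t = b Θ(t + 1/2) / (-t)³`, with `a`, then `b` large.
(i) zero for `t ≤ -1/2`. (ii) `g', g'' ≥ 0`: `(-t)⁻³` is positive with positive first and second derivatives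
`3 (-t)⁻⁴`, `12 (-t)⁻⁵` on `t < 0`; products. (iii) `2 l ≤ g` iff `2 a t² ≤ b` when `Θ > 0` (`t² ≤ 1/4` there).
(iv) `l' = a (Θ'/(-t) + Θ/t²)`, `l'² ≤ 2 a² (Θ'²/t² + Θ²/t⁴)`, `g' = b (Θ' (-t)⁻³ + 3 Θ (-t)⁻⁴)`; for
`t ∈ (-1/2, 0)`: `Θ' ≤ 2`, `Θ ≤ 1`, `|t| ≤ 1/2`, so `Θ'²/t² ≤ 2 Θ' |t| (-t)⁻³ ≤ Θ' (-t)⁻³` and `Θ²/t⁴ ≤ Θ (-t)⁻⁴`:
`C₂ l'² ≤ 2 a² C₂ (Θ' (-t)⁻³ + Θ (-t)⁻⁴) ≤ g'` if `b ≥ 2 a² C₂`. (For `0 < x ≤ 1/2`: `Θ' = exp(-1/x) (1 + 1/x) ≤ 2`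
since `exp(-s) (1 + s) ≤ 1`.) (v) for `-1/4 ≤ t < 0`, `Θ(t + 1/2) ≥ Θ(1/4) = exp(-4)/4 =: θ₀` (monotone), so
`exp (l t) ≥ exp (a θ₀ / |t|) ≥ C₁ / t²` if `a` is large: `exp x ≥ x²/2` with `x = a θ₀/|t|`: `a² θ₀² / (2 t²) ≥ C₁/t²`
iff `a² θ₀² ≥ 2 C₁`. -/

set_option autoImplicit false

namespace DN

open Set Filter Topology ContDiff

/-- the basic function of one variable -/
noncomputable def ONE_T (x : ℝ) : ℝ := x * expNegInvGlue x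

theorem ONE_smooth : ContDiff ℝ ∞ ONE_T := contDiff_id.mul expNegInvGlue.contDiff

theorem ONE_neg {x : ℝ} (hx : x ≤ 0) : ONE_T x = 0 := by
  unfold ONE_T
  rw [expNegInvGlue.zero_of_nonpos hx, mul_zero]

theorem ONE_pos {x : ℝ} (hx : 0 < x) : ONE_T x = x * Real.exp (-x⁻¹) := by
  unfold ONE_T expNegInvGlue
  rw [if_neg (not_le.2 hx)]

theorem ONE_nonneg (x : ℝ) : 0 ≤ ONE_T x := by
  rcases le_or_gt x 0 with h | h
  · rw [ONE_neg h]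
  · rw [ONE_pos h]
    positivity

theorem ONE_le {x : ℝ} (hx : x ≤ 1) : ONE_T x ≤ 1 := by
  rcases le_or_gt x 0 with h | h
  · rw [ONE_neg h]
    norm_num
  · rw [ONE_pos h]
    have h1 : Real.exp (-x⁻¹) ≤ 1 := Real.exp_le_one_iff.2 (by
      have : 0 < x⁻¹ := inv_pos.2 h
      linarith)
    have h2 : 0 ≤ Real.exp (-x⁻¹) := (Real.exp_pos _).le
    nlinarith

/-- a continuous function which is nonnegative off 0 is nonnegative -/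
theorem ONE_dense {f : ℝ → ℝ} (hf : Continuous f) (h : ∀ x, x ≠ 0 → 0 ≤ f x) (x : ℝ) :
    0 ≤ f x := by
  have hc : IsClosed {x | 0 ≤ f x} := isClosed_le continuous_const hf
  have hd : Dense ({(0 : ℝ)}ᶜ) := dense_compl_singleton 0
  exact (hc.closure_subset_iff.2 (fun y hy => h y hy)) (hd x)

theorem ONE_c1 : Continuous (deriv ONE_T) :=
  ONE_smooth.continuous_deriv (by exact_mod_cast le_top)

theorem ONE_s1 : ContDiff ℝ ∞ (deriv ONE_T) := by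
  have h := ONE_smooth
  rw [show (∞ : WithTop ℕ∞) = ∞ + 1 from rfl, contDiff_succ_iff_deriv] at h
  exact h.2.2

theorem ONE_c2 : Continuous (deriv (deriv ONE_T)) :=
  ONE_s1.continuous_deriv (by exact_mod_cast le_top)

theorem ONE_h1 (x : ℝ) : HasDerivAt ONE_T (deriv ONE_T x) x :=
  (ONE_smooth.differentiable (by simp) x).hasDerivAt

theorem ONE_h2 (x : ℝ) : HasDerivAt (deriv ONE_T) (deriv (deriv ONE_T) x) x :=
  (ONE_s1.differentiable (by simp) x).hasDerivAt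

theorem ONE_d1_pos {x : ℝ} (hx : 0 < x) : deriv ONE_T x = Real.exp (-x⁻¹) * (1 + x⁻¹) := by
  have h1 : ONE_T =ᶠ[𝓝 x] fun x => x * Real.exp (-x⁻¹) := by
    filter_upwards [isOpen_Ioi.mem_nhds hx] with y hy
    exact ONE_pos hy
  rw [h1.deriv_eq]
  have h2 : HasDerivAt (fun x : ℝ => x * Real.exp (-x⁻¹))
      (1 * Real.exp (-x⁻¹) + x * (Real.exp (-x⁻¹) * (-(-(x ^ 2)⁻¹)))) x :=
    (hasDerivAt_id x).mul ((hasDerivAt_inv hx.ne').neg.exp)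
  rw [h2.deriv]
  have := hx.ne'
  field_simp

theorem ONE_d1_neg {x : ℝ} (hx : x < 0) : deriv ONE_T x = 0 := by
  have h1 : ONE_T =ᶠ[𝓝 x] fun _ => 0 := by
    filter_upwards [isOpen_Iio.mem_nhds hx] with y hy
    exact ONE_neg (le_of_lt hy)
  rw [h1.deriv_eq]
  simp

theorem ONE_d1_zero {x : ℝ} (hx : x ≤ 0) : deriv ONE_T x = 0 := by
  have hc : IsClosed {x | deriv ONE_T x = 0} := isClosed_eq ONE_c1 continuous_const
  have h2 : closure (Iio (0 : ℝ)) ⊆ {x | deriv ONE_T x = 0} :=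
    hc.closure_subset_iff.2 fun y hy => ONE_d1_neg hy
  rw [closure_Iio] at h2
  exact h2 hx

theorem ONE_d1_nonneg (x : ℝ) : 0 ≤ deriv ONE_T x := by
  rcases le_or_gt x 0 with h | h
  · rw [ONE_d1_zero h]
  · rw [ONE_d1_pos h]
    positivity

theorem ONE_d1_le (x : ℝ) : deriv ONE_T x ≤ 1 := by
  rcases le_or_gt x 0 with h | h
  · rw [ONE_d1_zero h]
    norm_num
  · rw [ONE_d1_pos h]
    have h1 := Real.add_one_le_exp x⁻¹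
    have h2 : Real.exp (-x⁻¹) * Real.exp x⁻¹ = 1 := by
      rw [← Real.exp_add]
      simp
    have h3 : 0 ≤ Real.exp (-x⁻¹) := (Real.exp_pos _).le
    nlinarith

theorem ONE_d2_nonneg (x : ℝ) : 0 ≤ deriv (deriv ONE_T) x := by
  refine ONE_dense ONE_c2 (fun x hx => ?_) x
  rcases lt_or_gt_of_ne hx with h | h
  · have h1 : deriv ONE_T =ᶠ[𝓝 x] fun _ => 0 := by
      filter_upwards [isOpen_Iio.mem_nhds h] with y hy
      exact ONE_d1_neg hy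
    rw [h1.deriv_eq]
    simp
  · have h1 : deriv ONE_T =ᶠ[𝓝 x] fun x => Real.exp (-x⁻¹) * (1 + x⁻¹) := by
      filter_upwards [isOpen_Ioi.mem_nhds h] with y hy
      exact ONE_d1_pos hy
    rw [h1.deriv_eq]
    have h2 : HasDerivAt (fun x : ℝ => Real.exp (-x⁻¹) * (1 + x⁻¹))
        (Real.exp (-x⁻¹) * (-(-(x ^ 2)⁻¹)) * (1 + x⁻¹) + Real.exp (-x⁻¹) * (-(x ^ 2)⁻¹)) x :=
      ((hasDerivAt_inv h.ne').neg.exp).mul ((hasDerivAt_inv h.ne').const_add 1)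
    rw [h2.deriv]
    have h3 : Real.exp (-x⁻¹) * (-(-(x ^ 2)⁻¹)) * (1 + x⁻¹) + Real.exp (-x⁻¹) * (-(x ^ 2)⁻¹) =
        Real.exp (-x⁻¹) * ((x ^ 2)⁻¹ * x⁻¹) := by ring
    rw [h3]
    positivity

/-- the reciprocal -/
theorem ONE_u {t : ℝ} (ht : t < 0) : HasDerivAt (fun t : ℝ => (-t)⁻¹) (((-t)⁻¹) ^ 2) t := by
  have h : HasDerivAt (fun t : ℝ => (-t)⁻¹) (-(-1) / (-t) ^ 2) t :=
    (hasDerivAt_id t).neg.inv (by simpa using ht.ne)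
  convert h using 1
  rw [inv_pow, neg_neg, one_div]

theorem ONE_Ts (t : ℝ) : HasDerivAt (fun t : ℝ => ONE_T (t + 1 / 2)) (deriv ONE_T (t + 1 / 2)) t := by
  simpa using (ONE_h1 (t + 1 / 2)).comp_add_const t (1 / 2)

theorem ONE_Ps (t : ℝ) : HasDerivAt (fun t : ℝ => deriv ONE_T (t + 1 / 2))
    (deriv (deriv ONE_T) (t + 1 / 2)) t := by
  simpa using (ONE_h2 (t + 1 / 2)).comp_add_const t (1 / 2)

theorem ONE_l1 (a : ℝ) {t : ℝ} (ht : t < 0) :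
    HasDerivAt (fun t : ℝ => a * (ONE_T (t + 1 / 2) * (-t)⁻¹))
      (a * (deriv ONE_T (t + 1 / 2) * (-t)⁻¹ + ONE_T (t + 1 / 2) * ((-t)⁻¹) ^ 2)) t :=
  ((ONE_Ts t).mul (ONE_u ht)).const_mul a

theorem ONE_g1 (b : ℝ) {t : ℝ} (ht : t < 0) :
    HasDerivAt (fun t : ℝ => b * (ONE_T (t + 1 / 2) * ((-t)⁻¹) ^ 3))
      (b * (deriv ONE_T (t + 1 / 2) * ((-t)⁻¹) ^ 3 + 3 * (ONE_T (t + 1 / 2) * ((-t)⁻¹) ^ 4))) t := by
  have h := ((ONE_Ts t).mul ((ONE_u ht).pow 3)).const_mul b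
  refine h.congr_deriv ?_
  simp only [Pi.pow_apply, Nat.add_one_sub_one, Nat.cast_ofNat]
  ring

theorem ONE_g2 (b : ℝ) {t : ℝ} (ht : t < 0) :
    HasDerivAt (fun t : ℝ => b * (deriv ONE_T (t + 1 / 2) * ((-t)⁻¹) ^ 3 +
        3 * (ONE_T (t + 1 / 2) * ((-t)⁻¹) ^ 4)))
      (b * (deriv (deriv ONE_T) (t + 1 / 2) * ((-t)⁻¹) ^ 3 +
        6 * (deriv ONE_T (t + 1 / 2) * ((-t)⁻¹) ^ 4) +
        12 * (ONE_T (t + 1 / 2) * ((-t)⁻¹) ^ 5))) t := by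
  have h1 := (ONE_Ps t).mul ((ONE_u ht).pow 3)
  have h2 := ((ONE_Ts t).mul ((ONE_u ht).pow 4)).const_mul 3
  have h := (h1.add h2).const_mul b
  refine h.congr_deriv ?_
  simp only [Pi.pow_apply, Nat.add_one_sub_one, Nat.cast_ofNat]
  ring

theorem ONE_arith {a b C₂ P T u : ℝ} (hC : 0 < C₂) (hP : 0 ≤ P) (hP1 : P ≤ 1) (hT : 0 ≤ T)
    (hT1 : T ≤ 1) (hu : 2 ≤ u) (hb : 2 * a ^ 2 * C₂ ≤ b) :
    C₂ * (a * (P * u + T * u ^ 2)) ^ 2 ≤ b * (P * u ^ 3 + 3 * (T * u ^ 4)) := by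
  have h1 : (P * u + T * u ^ 2) ^ 2 ≤ 2 * (P * u ^ 3 + T * u ^ 4) := by
    have e1 : (P * u + T * u ^ 2) ^ 2 ≤ 2 * ((P * u) ^ 2 + (T * u ^ 2) ^ 2) := by
      nlinarith [sq_nonneg (P * u - T * u ^ 2)]
    have e2 : (P * u) ^ 2 ≤ P * u ^ 3 := by
      have e3 : P * u ^ 3 - (P * u) ^ 2 = P * u ^ 2 * (u - P) := by ring
      have e4 : 0 ≤ P * u ^ 2 * (u - P) := mul_nonneg (by positivity) (by linarith)
      linarith
    have e5 : (T * u ^ 2) ^ 2 ≤ T * u ^ 4 := by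
      have e6 : T * u ^ 4 - (T * u ^ 2) ^ 2 = T * u ^ 4 * (1 - T) := by ring
      have e7 : 0 ≤ T * u ^ 4 * (1 - T) := mul_nonneg (by positivity) (by linarith)
      linarith
    linarith
  have h2 : 0 ≤ P * u ^ 3 := by positivity
  have h3 : 0 ≤ T * u ^ 4 := by positivity
  have h4 : C₂ * (a * (P * u + T * u ^ 2)) ^ 2 = a ^ 2 * C₂ * (P * u + T * u ^ 2) ^ 2 := by ring
  rw [h4]
  have h5 : a ^ 2 * C₂ * (P * u + T * u ^ 2) ^ 2 ≤ a ^ 2 * C₂ * (2 * (P * u ^ 3 + T * u ^ 4)) :=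
    mul_le_mul_of_nonneg_left h1 (by positivity)
  have h6 : a ^ 2 * C₂ * (2 * (P * u ^ 3 + T * u ^ 4)) = 2 * a ^ 2 * C₂ * (P * u ^ 3 + T * u ^ 4) := by
    ring
  have h7 : 2 * a ^ 2 * C₂ * (P * u ^ 3 + T * u ^ 4) ≤ b * (P * u ^ 3 + T * u ^ 4) :=
    mul_le_mul_of_nonneg_right hb (by linarith)
  have hb0 : 0 ≤ b := le_trans (by positivity) hb
  nlinarith [mul_nonneg hb0 h3]

theorem one_var (C₁ C₂ : ℝ) (h1 : 0 < C₁) (h2 : 0 < C₂) :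
    ∃ l g : ℝ → ℝ, ContDiffOn ℝ ∞ l (Iio 0) ∧ ContDiffOn ℝ ∞ g (Iio 0) ∧
      (∀ t ≤ -(1 / 2), l t = 0 ∧ g t = 0) ∧
      (∀ t < 0, 0 ≤ l t ∧ 2 * l t ≤ g t ∧ 0 ≤ deriv g t ∧ 0 ≤ deriv (deriv g) t ∧
        C₂ * (deriv l t) ^ 2 ≤ deriv g t) ∧
      ∀ t, -(1 / 4) ≤ t → t < 0 → C₁ / t ^ 2 ≤ Real.exp (l t) := by
  obtain ⟨θ, hθ, hθ2⟩ : ∃ θ : ℝ, 0 < θ ∧ ∀ x : ℝ, 1 / 4 ≤ x → θ ≤ ONE_T x := by
    refine ⟨1 / 4 * Real.exp (-4), by positivity, fun x hx => ?_⟩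
    have hx0 : 0 < x := by linarith
    rw [ONE_pos hx0]
    have e1 : Real.exp (-4) ≤ Real.exp (-x⁻¹) := by
      apply Real.exp_le_exp.2
      have : x⁻¹ ≤ (1 / 4 : ℝ)⁻¹ := inv_anti₀ (by norm_num) hx
      norm_num at this
      linarith
    exact mul_le_mul hx e1 (Real.exp_pos _).le hx0.le
  obtain ⟨a, ha, ha2⟩ : ∃ a : ℝ, 0 < a ∧ 2 * C₁ ≤ a ^ 2 * θ ^ 2 := by
    refine ⟨√(2 * C₁) / θ, by positivity, ?_⟩
    rw [div_pow, Real.sq_sqrt (by positivity), div_mul_cancel₀ _ (by positivity)]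
  obtain ⟨b, hb0, hb, hb2⟩ : ∃ b : ℝ, 0 < b ∧ a ≤ b ∧ 2 * a ^ 2 * C₂ ≤ b := by
    refine ⟨a + 2 * a ^ 2 * C₂, by positivity, ?_, ?_⟩
    · have : 0 < 2 * a ^ 2 * C₂ := by positivity
      linarith
    · linarith
  have hsT : ContDiff ℝ ∞ (fun t : ℝ => ONE_T (t + 1 / 2)) :=
    ONE_smooth.comp (contDiff_id.add contDiff_const)
  have hsu : ContDiffOn ℝ ∞ (fun t : ℝ => (-t)⁻¹) (Iio 0) :=
    contDiff_neg.contDiffOn.inv fun t ht => by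
      have : t < 0 := ht
      simpa using this.ne
  refine ⟨fun t => a * (ONE_T (t + 1 / 2) * (-t)⁻¹),
    fun t => b * (ONE_T (t + 1 / 2) * ((-t)⁻¹) ^ 3), ?_, ?_, ?_, ?_, ?_⟩
  · exact contDiffOn_const.mul (hsT.contDiffOn.mul hsu)
  · exact contDiffOn_const.mul (hsT.contDiffOn.mul (hsu.pow 3))
  · intro t ht
    have h0 : ONE_T (t + 1 / 2) = 0 := ONE_neg (by linarith)
    show a * (ONE_T (t + 1 / 2) * (-t)⁻¹) = 0 ∧ b * (ONE_T (t + 1 / 2) * ((-t)⁻¹) ^ 3) = 0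
    rw [h0]
    simp
  · intro t ht
    have hu0 : 0 < (-t)⁻¹ := inv_pos.2 (by linarith)
    have hT0 := ONE_nonneg (t + 1 / 2)
    have hP0 := ONE_d1_nonneg (t + 1 / 2)
    have hQ0 := ONE_d2_nonneg (t + 1 / 2)
    have hd1 : deriv (fun t : ℝ => b * (ONE_T (t + 1 / 2) * ((-t)⁻¹) ^ 3)) t =
      b * (deriv ONE_T (t + 1 / 2) * ((-t)⁻¹) ^ 3 + 3 * (ONE_T (t + 1 / 2) * ((-t)⁻¹) ^ 4)) :=
      (ONE_g1 b ht).deriv
    have hd2 : deriv (deriv (fun t : ℝ => b * (ONE_T (t + 1 / 2) * ((-t)⁻¹) ^ 3))) t =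
      b * (deriv (deriv ONE_T) (t + 1 / 2) * ((-t)⁻¹) ^ 3 +
        6 * (deriv ONE_T (t + 1 / 2) * ((-t)⁻¹) ^ 4) +
        12 * (ONE_T (t + 1 / 2) * ((-t)⁻¹) ^ 5)) := by
      have he : deriv (fun t : ℝ => b * (ONE_T (t + 1 / 2) * ((-t)⁻¹) ^ 3)) =ᶠ[𝓝 t]
          fun t : ℝ => b * (deriv ONE_T (t + 1 / 2) * ((-t)⁻¹) ^ 3 +
        3 * (ONE_T (t + 1 / 2) * ((-t)⁻¹) ^ 4)) := by
        filter_upwards [isOpen_Iio.mem_nhds ht] with s hs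
        exact (ONE_g1 b hs).deriv
      rw [he.deriv_eq]
      exact (ONE_g2 b ht).deriv
    have hdl : deriv (fun t : ℝ => a * (ONE_T (t + 1 / 2) * (-t)⁻¹)) t =
      a * (deriv ONE_T (t + 1 / 2) * (-t)⁻¹ + ONE_T (t + 1 / 2) * ((-t)⁻¹) ^ 2) :=
      (ONE_l1 a ht).deriv
    rw [hd1, hd2, hdl]
    refine ⟨by positivity, ?_, by positivity, by positivity, ?_⟩
    · rcases le_or_gt t (-(1 / 2)) with h | h
      · have h0 : ONE_T (t + 1 / 2) = 0 := ONE_neg (by linarith)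
        show 2 * (a * (ONE_T (t + 1 / 2) * (-t)⁻¹)) ≤ b * (ONE_T (t + 1 / 2) * ((-t)⁻¹) ^ 3)
        rw [h0, zero_mul, zero_mul, mul_zero, mul_zero, mul_zero]
      · have hu : 2 ≤ (-t)⁻¹ := by
          rw [le_inv_comm₀ (by norm_num) (by linarith)]
          linarith
        have e1 : 0 ≤ ONE_T (t + 1 / 2) * (-t)⁻¹ := by positivity
        have e2 : b * (ONE_T (t + 1 / 2) * ((-t)⁻¹) ^ 3) =
            b * (ONE_T (t + 1 / 2) * (-t)⁻¹) * ((-t)⁻¹) ^ 2 := by ring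
        have e3 : (4 : ℝ) ≤ ((-t)⁻¹) ^ 2 := by nlinarith
        have e4 : b * (ONE_T (t + 1 / 2) * (-t)⁻¹) * 4 ≤
            b * (ONE_T (t + 1 / 2) * (-t)⁻¹) * ((-t)⁻¹) ^ 2 :=
          mul_le_mul_of_nonneg_left e3 (by positivity)
        show 2 * (a * (ONE_T (t + 1 / 2) * (-t)⁻¹)) ≤ b * (ONE_T (t + 1 / 2) * ((-t)⁻¹) ^ 3)
        rw [e2]
        nlinarith [mul_le_mul_of_nonneg_right hb e1, mul_nonneg hb0.le e1]
    · rcases le_or_gt t (-(1 / 2)) with h | h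
      · have h0 : ONE_T (t + 1 / 2) = 0 := ONE_neg (by linarith)
        have h0' : deriv ONE_T (t + 1 / 2) = 0 := ONE_d1_zero (by linarith)
        rw [h0, h0']
        apply le_of_eq
        ring
      · have hu : 2 ≤ (-t)⁻¹ := by
          rw [le_inv_comm₀ (by norm_num) (by linarith)]
          linarith
        exact ONE_arith h2 hP0 (ONE_d1_le _) hT0 (ONE_le (by linarith)) hu hb2
  · intro t ht1 ht2
    have hu0 : 0 < (-t)⁻¹ := inv_pos.2 (by linarith)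
    have e1 : θ ≤ ONE_T (t + 1 / 2) := hθ2 _ (by linarith)
    show C₁ / t ^ 2 ≤ Real.exp (a * (ONE_T (t + 1 / 2) * (-t)⁻¹))
    have e2 : a * (θ * (-t)⁻¹) ≤ a * (ONE_T (t + 1 / 2) * (-t)⁻¹) :=
      mul_le_mul_of_nonneg_left (mul_le_mul_of_nonneg_right e1 hu0.le) ha.le
    refine le_trans ?_ (Real.exp_le_exp.2 e2)
    have e3 : 0 ≤ a * (θ * (-t)⁻¹) := by positivity
    have e4 := Real.quadratic_le_exp_of_nonneg e3
    have e5 : C₁ / t ^ 2 = C₁ * ((-t)⁻¹) ^ 2 := by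
      rw [inv_pow, neg_sq]
      rfl
    have e6 : (a * (θ * (-t)⁻¹)) ^ 2 / 2 = a ^ 2 * θ ^ 2 * ((-t)⁻¹) ^ 2 / 2 := by ring
    have e7 : 2 * C₁ * ((-t)⁻¹) ^ 2 ≤ a ^ 2 * θ ^ 2 * ((-t)⁻¹) ^ 2 :=
      mul_le_mul_of_nonneg_right ha2 (by positivity)
    rw [e5]
    linarith

end DN
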