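import Pool.Agent.H49.DN.MOLA

/-! # PSM: smooth approximation of continuous plurisubharmonic functions

PROOF. (A) `levi_of_submean`: let `V` be smooth near `z` and for every `a`, for all small `r > 0`:
`V z ≤ mean over t of V (z + exp(it) r a)`. Then `0 ≤ levi V z a`: Taylor at `z`: mean `= V z + r² levi V z a + o(r²)`
(second order Taylor of `ζ ↦ V (z + ζ a)`; the first order term and the `Re (c ζ²)` term have mean zero; the term
`|ζ|²` has coefficient `levi V z a = ∑∑ V_{j k̄} a_j ā_k`).
(B) Let `δ > 0` with `cthickening (3δ) L ⊆ Ω`, `χ` a smooth cut off (real), `= 1` on `cthickening (2δ) L`,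
compact support in `Ω`; `κ' = χ κ` continuous with compact support on `ℂ^n`. `V z = ∫ mol n m w * κ' (z - w)` for
`1/(m+1) < δ` (smooth: convolution). Uniform continuity of `κ'`: `|V - κ'| ≤ ε` everywhere for `m` large. For
`z ∈ L`, `r` small (`r ‖a‖ < δ`): `V z = ∫ mol w κ (z - w) ≤ ∫ mol w (mean_t κ (z - w + exp(it) r a))
= mean_t V (z + exp(it) r a)` (Fubini; `IsPsh` applied at the point `z - w`, the disc stays in `Ω`). (A) at all
`z ∈ L`. -/

set_option autoImplicit false

namespace DN

open MeasureTheory Set Filter Topology ContDiff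

variable {n : ℕ}

theorem PSM_single (j : Fin n) (c : ℂ) :
    (Pi.single j c : Cn n) = c.re • (Pi.single j 1 : Cn n) + c.im • (Pi.single j Complex.I : Cn n) := by
  funext i
  by_cases h : i = j
  · subst h
    simp
  · simp [h]

theorem PSM_exp (L : Cn n →L[ℝ] ℂ) (a : Cn n) :
    L a = ∑ j, (((a j).re : ℂ) * L (Pi.single j 1) + ((a j).im : ℂ) * L (Pi.single j Complex.I)) := by
  conv_lhs => rw [← Finset.univ_sum_single a]
  rw [map_sum]
  refine Finset.sum_congr rfl fun j _ => ?_
  rw [PSM_single, map_add, map_smul, map_smul, Complex.real_smul, Complex.real_smul]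

theorem PSM_dd (L : Cn n →L[ℝ] ℂ) (a : Cn n) :
    ∑ j, (1 / 2 * (L (Pi.single j 1) - Complex.I * L (Pi.single j Complex.I))) * a j =
      1 / 2 * (L a - Complex.I * L (Complex.I • a)) := by
  rw [PSM_exp L a, PSM_exp L (Complex.I • a), Finset.mul_sum, ← Finset.sum_sub_distrib, Finset.mul_sum]
  refine Finset.sum_congr rfl fun j _ => ?_
  have e1 : ((Complex.I • a) j).re = -(a j).im := by simp
  have e2 : ((Complex.I • a) j).im = (a j).re := by simp
  rw [e1, e2]
  have e3 : a j = (a j).re + (a j).im * Complex.I := (Complex.re_add_im (a j)).symm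
  conv_lhs => rw [e3]
  push_cast
  linear_combination (-(1 : ℂ) / 2 * (a j).im * L (Pi.single j Complex.I)) * Complex.I_sq

theorem PSM_dbar (L : Cn n →L[ℝ] ℂ) (a : Cn n) :
    ∑ j, (1 / 2 * (L (Pi.single j 1) + Complex.I * L (Pi.single j Complex.I))) * (starRingEnd ℂ) (a j) =
      1 / 2 * (L a + Complex.I * L (Complex.I • a)) := by
  rw [PSM_exp L a, PSM_exp L (Complex.I • a), Finset.mul_sum, ← Finset.sum_add_distrib, Finset.mul_sum]
  refine Finset.sum_congr rfl fun j _ => ?_
  have e1 : ((Complex.I • a) j).re = -(a j).im := by simp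
  have e2 : ((Complex.I • a) j).im = (a j).re := by simp
  rw [e1, e2]
  have e3 : (starRingEnd ℂ) (a j) = (a j).re - (a j).im * Complex.I := by
    apply Complex.ext <;> simp
  rw [e3]
  push_cast
  linear_combination (-(1 : ℂ) / 2 * (a j).im * L (Pi.single j Complex.I)) * Complex.I_sq

theorem PSM_levi {V : Cn n → ℝ} (hV : ContDiff ℝ ∞ V) (z a : Cn n) :
    levi V z a = 1 / 4 * (fderiv ℝ (fderiv ℝ V) z a a +
      fderiv ℝ (fderiv ℝ V) z (Complex.I • a) (Complex.I • a)) := by
  set b : Cn n := Complex.I • a with hb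
  have hV1 : Differentiable ℝ V := hV.differentiable (by simp)
  have hV2 : ContDiff ℝ ∞ (fderiv ℝ V) := hV.fderiv_right (by simp)
  have hu : ContDiff ℝ ∞ (cx V) := Complex.ofRealCLM.contDiff.comp hV
  have hdu : ∀ w v, fderiv ℝ (cx V) w v = ((fderiv ℝ V w v : ℝ) : ℂ) := by
    intro w v
    have h1 : HasFDerivAt (cx V) (Complex.ofRealCLM.comp (fderiv ℝ V w)) w :=
      Complex.ofRealCLM.hasFDerivAt.comp w (hV1 w).hasFDerivAt
    rw [h1.fderiv]
    rfl
  -- derivative of w ↦ V'(w) c
  have hD : ∀ c w, HasFDerivAt (fun w => ((fderiv ℝ V w c : ℝ) : ℂ))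
      (Complex.ofRealCLM.comp ((fderiv ℝ (fderiv ℝ V) w).flip c)) w := by
    intro c w
    have h1 : HasFDerivAt (fderiv ℝ V) (fderiv ℝ (fderiv ℝ V) w) w :=
      (hV2.differentiable (by simp) w).hasFDerivAt
    have h2 : HasFDerivAt (fun w => fderiv ℝ V w c) ((fderiv ℝ (fderiv ℝ V) w).flip c) w := by
      have := h1.clm_apply (hasFDerivAt_const c w)
      simpa using this
    exact Complex.ofRealCLM.hasFDerivAt.comp w h2
  have hdd : ∀ k, DifferentiableAt ℝ (dbar k (cx V)) z := fun k =>
    (contDiff_dbar hu k).differentiable (by simp) z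
  -- the sum over k
  have hG : ∀ w, ∑ k, dbar k (cx V) w * (starRingEnd ℂ) (a k) =
      1 / 2 * (((fderiv ℝ V w a : ℝ) : ℂ) + Complex.I * ((fderiv ℝ V w b : ℝ) : ℂ)) := by
    intro w
    have := PSM_dbar (fderiv ℝ (cx V) w) a
    rw [hdu, hdu] at this
    exact this
  have hG' : HasFDerivAt (fun w => ∑ k, dbar k (cx V) w * (starRingEnd ℂ) (a k))
      (∑ k, (starRingEnd ℂ) (a k) • fderiv ℝ (dbar k (cx V)) z) z := by
    have h1 : ∀ k ∈ (Finset.univ : Finset (Fin n)), HasFDerivAt (fun w => dbar k (cx V) w * (starRingEnd ℂ) (a k))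
        ((starRingEnd ℂ) (a k) • fderiv ℝ (dbar k (cx V)) z) z := fun k _ => (hdd k).hasFDerivAt.mul_const _
    exact HasFDerivAt.fun_sum h1
  have hG'' : HasFDerivAt (fun w => ∑ k, dbar k (cx V) w * (starRingEnd ℂ) (a k))
      ((1 / 2 : ℂ) • (Complex.ofRealCLM.comp ((fderiv ℝ (fderiv ℝ V) z).flip a) +
        Complex.I • Complex.ofRealCLM.comp ((fderiv ℝ (fderiv ℝ V) z).flip b))) z := by
    have h1 := ((hD a z).add ((hD b z).const_mul Complex.I)).const_mul (1 / 2 : ℂ)
    refine h1.congr_of_eventuallyEq (Eventually.of_forall fun w => ?_)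
    exact hG w
  have huniq := hG'.unique hG''
  have hv : ∀ v, ∑ k, (starRingEnd ℂ) (a k) * fderiv ℝ (dbar k (cx V)) z v =
      1 / 2 * (((fderiv ℝ (fderiv ℝ V) z v a : ℝ) : ℂ) + Complex.I * ((fderiv ℝ (fderiv ℝ V) z v b : ℝ) : ℂ)) := by
    intro v
    have := congrArg (fun L : Cn n →L[ℝ] ℂ => L v) huniq
    simp only [sum_apply, smul_apply, smul_eq_mul,
      add_apply, ContinuousLinearMap.comp_apply, ContinuousLinearMap.flip_apply,
      Complex.ofRealCLM_apply] at this
    exact this
  have hk : ∀ k, ∑ j, dd j (dbar k (cx V)) z * a j =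
      1 / 2 * (fderiv ℝ (dbar k (cx V)) z a - Complex.I * fderiv ℝ (dbar k (cx V)) z b) := fun k =>
    PSM_dd (fderiv ℝ (dbar k (cx V)) z) a
  unfold levi
  have hsum : (∑ j, ∑ k, dd j (dbar k (cx V)) z * a j * (starRingEnd ℂ) (a k)) =
      1 / 4 * ((((fderiv ℝ (fderiv ℝ V) z a a : ℝ) : ℂ) + Complex.I * ((fderiv ℝ (fderiv ℝ V) z a b : ℝ) : ℂ)) -
        Complex.I * (((fderiv ℝ (fderiv ℝ V) z b a : ℝ) : ℂ) + Complex.I * ((fderiv ℝ (fderiv ℝ V) z b b : ℝ) : ℂ))) := by
    rw [Finset.sum_comm]
    have h1 : ∀ k ∈ (Finset.univ : Finset (Fin n)), ∑ j, dd j (dbar k (cx V)) z * a j * (starRingEnd ℂ) (a k) =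
        1 / 2 * ((starRingEnd ℂ) (a k) * fderiv ℝ (dbar k (cx V)) z a) -
          1 / 2 * Complex.I * ((starRingEnd ℂ) (a k) * fderiv ℝ (dbar k (cx V)) z b) := by
      intro k _
      rw [← Finset.sum_mul, hk k]
      ring
    rw [Finset.sum_congr rfl h1, Finset.sum_sub_distrib, ← Finset.mul_sum, ← Finset.mul_sum, hv, hv]
    ring
  rw [hsum]
  simp [Complex.mul_re, Complex.mul_im]

theorem PSM_taylor {f f' f'' : ℝ → ℝ} (h1 : ∀ s, HasDerivAt f (f' s) s)
    (h2 : ∀ s, HasDerivAt f' (f'' s) s) {r c : ℝ} (hr : 0 ≤ r) (hc : ∀ s ∈ Icc 0 r, f'' s ≤ c) :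
    f r ≤ f 0 + r * f' 0 + r ^ 2 / 2 * c := by
  have hd1 : ∀ s ∈ Icc 0 r, f' s ≤ f' 0 + s * c := by
    intro s hs
    have hanti : AntitoneOn (fun x => f' x - x * c) (Icc 0 r) := by
      apply antitoneOn_of_hasDerivWithinAt_nonpos (convex_Icc 0 r) (f' := fun x => f'' x - 1 * c)
      · exact fun x _ => ((h2 x).continuousAt.sub (by fun_prop)).continuousWithinAt
      · intro x hx
        exact ((h2 x).sub ((hasDerivAt_id x).mul_const c)).hasDerivWithinAt
      · intro x hx
        rw [interior_Icc] at hx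
        have := hc x ⟨hx.1.le, hx.2.le⟩
        linarith
    have := hanti ⟨le_rfl, hr⟩ hs hs.1
    simp only at this
    linarith
  have hanti : AntitoneOn (fun x => f x - x * f' 0 - x ^ 2 / 2 * c) (Icc 0 r) := by
    apply antitoneOn_of_hasDerivWithinAt_nonpos (convex_Icc 0 r)
      (f' := fun x => f' x - 1 * f' 0 - (2 * x / 2) * c)
    · exact fun x _ => (((h1 x).continuousAt.sub (by fun_prop)).sub (by fun_prop)).continuousWithinAt
    · intro x hx
      have h3 : HasDerivAt (fun x : ℝ => x ^ 2 / 2 * c) ((2 * x / 2) * c) x := by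
        have := ((hasDerivAt_pow 2 x).div_const 2).mul_const c
        simpa using this
      exact (((h1 x).sub ((hasDerivAt_id x).mul_const (f' 0))).sub h3).hasDerivWithinAt
    · intro x hx
      rw [interior_Icc] at hx
      have := hd1 x ⟨hx.1.le, hx.2.le⟩
      linarith
  have := hanti ⟨le_rfl, hr⟩ ⟨hr, le_rfl⟩ hr
  simp only at this
  linarith

/-- the circle -/
noncomputable def PSM_h (a : Cn n) (t : ℝ) : Cn n := Real.cos t • a + Real.sin t • (Complex.I • a)

theorem PSM_h_eq (a : Cn n) (t : ℝ) : Complex.exp (t * Complex.I) • a = PSM_h a t := by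
  rw [Complex.exp_mul_I, PSM_h]
  funext i
  simp only [Pi.smul_apply, Pi.add_apply, smul_eq_mul, Complex.real_smul]
  push_cast
  ring

theorem PSM_h_cont (a : Cn n) : Continuous (PSM_h a) := by
  unfold PSM_h
  fun_prop

theorem PSM_sub {V : Cn n → ℝ} (hV : ContDiff ℝ ∞ V) (z a : Cn n)
    (h : ∀ᶠ r : ℝ in 𝓝[>] 0, 2 * Real.pi * V z ≤ ∫ t in (0 : ℝ)..(2 * Real.pi), V (z + r • PSM_h a t)) :
    0 ≤ levi V z a := by
  have hpi := Real.pi_pos
  have hV1 : Differentiable ℝ V := hV.differentiable (by simp)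
  have hV2 : ContDiff ℝ ∞ (fderiv ℝ V) := hV.fderiv_right (by simp)
  have hV3 : ContDiff ℝ ∞ (fderiv ℝ (fderiv ℝ V)) := hV2.fderiv_right (by simp)
  set H := fderiv ℝ (fderiv ℝ V) with hH
  have hHc : Continuous H := hV3.continuous
  have hhc := PSM_h_cont a
  rw [PSM_levi hV]
  set b : Cn n := Complex.I • a with hb
  -- approximate
  have key : ∀ η > 0, -(2 * η) ≤ H z a a + H z b b := by
    intro η hη
    have hcont : Continuous (fun p : ℝ × ℝ => H (z + p.1 • PSM_h a p.2) (PSM_h a p.2) (PSM_h a p.2) -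
        H z (PSM_h a p.2) (PSM_h a p.2)) := by
      have h1 : Continuous (fun p : ℝ × ℝ => PSM_h a p.2) := hhc.comp continuous_snd
      have h2 : Continuous (fun p : ℝ × ℝ => H (z + p.1 • PSM_h a p.2)) :=
        hHc.comp (continuous_const.add (continuous_fst.smul h1))
      exact ((h2.clm_apply h1).clm_apply h1).sub
        ((continuous_const.clm_apply h1).clm_apply h1)
    have hev : ∀ᶠ s : ℝ in 𝓝 0, ∀ t ∈ Icc 0 (2 * Real.pi), H (z + s • PSM_h a t) (PSM_h a t) (PSM_h a t) -
        H z (PSM_h a t) (PSM_h a t) < η := by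
      apply isCompact_Icc.eventually_forall_of_forall_eventually
      intro t _
      apply hcont.continuousAt.eventually_lt continuousAt_const
      simpa using hη
    obtain ⟨δ, hδ, hball⟩ := Metric.eventually_nhds_iff.1 hev
    have hev2 : ∀ᶠ r : ℝ in 𝓝[>] 0, r < δ ∧ 0 < r := by
      filter_upwards [Ioo_mem_nhdsGT hδ] with r hr
      exact ⟨hr.2, hr.1⟩
    obtain ⟨r, hr1, hr2, hr3⟩ := (h.and hev2).exists
    have hpt : ∀ t ∈ Icc 0 (2 * Real.pi), V (z + r • PSM_h a t) ≤
        V z + r * fderiv ℝ V z (PSM_h a t) + r ^ 2 / 2 * (H z (PSM_h a t) (PSM_h a t) + η) := by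
      intro t ht
      have hl : ∀ s : ℝ, HasDerivAt (fun s : ℝ => z + s • PSM_h a t) (PSM_h a t) s := by
        intro s
        have := ((hasDerivAt_id s).smul_const (PSM_h a t)).const_add z
        simpa using this
      have h1 : ∀ s : ℝ, HasDerivAt (fun s : ℝ => V (z + s • PSM_h a t))
          (fderiv ℝ V (z + s • PSM_h a t) (PSM_h a t)) s := fun s =>
        (hV1 _).hasFDerivAt.comp_hasDerivAt s (hl s)
      have h2 : ∀ s : ℝ, HasDerivAt (fun s : ℝ => fderiv ℝ V (z + s • PSM_h a t) (PSM_h a t))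
          (H (z + s • PSM_h a t) (PSM_h a t) (PSM_h a t)) s := by
        intro s
        have h3 : HasDerivAt (fun s : ℝ => fderiv ℝ V (z + s • PSM_h a t)) (H (z + s • PSM_h a t) (PSM_h a t)) s :=
          ((hV2.differentiable (by simp)) _).hasFDerivAt.comp_hasDerivAt s (hl s)
        have := h3.clm_apply (hasDerivAt_const s (PSM_h a t))
        simpa using this
      have := PSM_taylor h1 h2 hr3.le (c := H z (PSM_h a t) (PSM_h a t) + η) (by
        intro s hs
        have hs' : dist s 0 < δ := by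
          rw [Real.dist_eq, sub_zero, abs_of_nonneg hs.1]
          exact hs.2.trans_lt hr2
        have := hball hs' t ht
        linarith)
      simpa using this
    have hi1 : IntervalIntegrable (fun t => V (z + r • PSM_h a t)) volume 0 (2 * Real.pi) := by
      apply Continuous.intervalIntegrable
      exact hV.continuous.comp (continuous_const.add (hhc.const_smul r))
    have hlin : ∀ t, fderiv ℝ V z (PSM_h a t) = Real.cos t * fderiv ℝ V z a + Real.sin t * fderiv ℝ V z b := by
      intro t
      rw [PSM_h, map_add, map_smul, map_smul, smul_eq_mul, smul_eq_mul]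
    have hquad : ∀ t, H z (PSM_h a t) (PSM_h a t) = Real.cos t ^ 2 * H z a a +
        Real.sin t * Real.cos t * (H z a b + H z b a) + Real.sin t ^ 2 * H z b b := by
      intro t
      rw [PSM_h, map_add, map_smul, map_smul]
      simp only [add_apply, smul_apply, map_add, map_smul, smul_eq_mul]
      ring
    have hmono : ∫ t in (0 : ℝ)..(2 * Real.pi), V (z + r • PSM_h a t) ≤ ∫ t in (0 : ℝ)..(2 * Real.pi),
        (V z + r * fderiv ℝ V z (PSM_h a t) + r ^ 2 / 2 * (H z (PSM_h a t) (PSM_h a t) + η)) := by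
      apply intervalIntegral.integral_mono_on (by positivity) hi1 _ hpt
      apply Continuous.intervalIntegrable
      simp only [hlin, hquad]
      fun_prop
    have hval : ∫ t in (0 : ℝ)..(2 * Real.pi),
        (V z + r * fderiv ℝ V z (PSM_h a t) + r ^ 2 / 2 * (H z (PSM_h a t) (PSM_h a t) + η)) =
        2 * Real.pi * V z + r ^ 2 / 2 * (Real.pi * (H z a a + H z b b) + 2 * Real.pi * η) := by
      have e : ∀ t : ℝ, (V z + r * fderiv ℝ V z (PSM_h a t) + r ^ 2 / 2 * (H z (PSM_h a t) (PSM_h a t) + η)) =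
          (V z + r ^ 2 / 2 * η) + (r * fderiv ℝ V z a) * Real.cos t + (r * fderiv ℝ V z b) * Real.sin t +
          (r ^ 2 / 2 * H z a a) * Real.cos t ^ 2 + (r ^ 2 / 2 * (H z a b + H z b a)) * (Real.sin t * Real.cos t) +
          (r ^ 2 / 2 * H z b b) * Real.sin t ^ 2 := by
        intro t
        rw [hlin, hquad]
        ring
      simp only [e]
      have ci : ∀ (f : ℝ → ℝ), Continuous f → IntervalIntegrable f volume 0 (2 * Real.pi) :=
        fun f hf => hf.intervalIntegrable _ _
      rw [intervalIntegral.integral_add (ci _ (by fun_prop)) (ci _ (by fun_prop)),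
        intervalIntegral.integral_add (ci _ (by fun_prop)) (ci _ (by fun_prop)),
        intervalIntegral.integral_add (ci _ (by fun_prop)) (ci _ (by fun_prop)),
        intervalIntegral.integral_add (ci _ (by fun_prop)) (ci _ (by fun_prop)),
        intervalIntegral.integral_add (ci _ (by fun_prop)) (ci _ (by fun_prop)),
        intervalIntegral.integral_const_mul, intervalIntegral.integral_const_mul,
        intervalIntegral.integral_const_mul, intervalIntegral.integral_const_mul,
        intervalIntegral.integral_const_mul, intervalIntegral.integral_const,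
        integral_cos, integral_sin, integral_cos_sq, integral_sin_sq, integral_sin_mul_cos₁]
      simp
      ring
    have h5 := hr1.trans (hmono.trans_eq hval)
    have h6 : 0 ≤ r ^ 2 / 2 * (Real.pi * (H z a a + H z b b) + 2 * Real.pi * η) := by linarith
    have h7 : 0 ≤ Real.pi * (H z a a + H z b b) + 2 * Real.pi * η := by
      by_contra hneg
      push Not at hneg
      have : r ^ 2 / 2 * (Real.pi * (H z a a + H z b b) + 2 * Real.pi * η) < 0 :=
        mul_neg_of_pos_of_neg (by positivity) hneg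
      linarith
    have h8 : 0 ≤ Real.pi * ((H z a a + H z b b) + 2 * η) := by linarith
    have h9 := nonneg_of_mul_nonneg_right h8 hpi
    linarith
  have : 0 ≤ H z a a + H z b b := by
    by_contra hneg
    push Not at hneg
    have := key (-(H z a a + H z b b) / 4) (by linarith)
    linarith
  linarith

/-- the mean value property of the mollification -/
theorem PSM_mean {κ : Cn n → ℝ} (hc : Continuous κ) (hs : HasCompactSupport κ) (m : ℕ) {z a : Cn n} {r : ℝ}
    (h : ∀ w, ‖w‖ < 1 / ((m : ℝ) + 1) → 2 * Real.pi * κ (z - w) ≤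
      ∫ t in (0 : ℝ)..(2 * Real.pi), κ (z - w + r • PSM_h a t)) :
    2 * Real.pi * (∫ w, mol n m w * κ (z - w)) ≤
      ∫ t in (0 : ℝ)..(2 * Real.pi), ∫ w, mol n m w * κ (z + r • PSM_h a t - w) := by
  have hpi := Real.pi_pos
  have h2pi : (0 : ℝ) ≤ 2 * Real.pi := by positivity
  obtain ⟨C, hC⟩ := hs.exists_bound_of_continuous hc
  have hmi : Integrable (mol n m) := by
    by_contra hni
    have := mol_integral (n := n) m
    rw [integral_undef hni] at this
    exact zero_ne_one this
  have hmc : Continuous (mol n m) := (mol_smooth m).continuous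
  have hhc := PSM_h_cont a
  have hint : Integrable (Function.uncurry fun (w : Cn n) (t : ℝ) => mol n m w * κ (z + r • PSM_h a t - w))
      (volume.prod (volume.restrict (Ioc 0 (2 * Real.pi)))) := by
    have h1 : Integrable (fun p : Cn n × ℝ => mol n m p.1 * C)
        (volume.prod (volume.restrict (Ioc 0 (2 * Real.pi)))) :=
      hmi.mul_prod (integrable_const C)
    refine h1.mono' ?_ (Eventually.of_forall fun p => ?_)
    · apply Continuous.aestronglyMeasurable
      apply Continuous.mul
      · exact hmc.comp continuous_fst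
      · exact hc.comp ((continuous_const.add ((hhc.comp continuous_snd).const_smul r)).sub continuous_fst)
    · simp only [Function.uncurry]
      rw [norm_mul, Real.norm_of_nonneg (mol_nonneg m p.1)]
      exact mul_le_mul_of_nonneg_left (hC _) (mol_nonneg m p.1)
  have hswap := integral_integral_swap hint
  rw [intervalIntegral.integral_of_le h2pi, ← hswap, ← integral_const_mul]
  apply integral_mono
  · apply Integrable.const_mul
    refine (hmi.mul_const C).mono' ?_ (Eventually.of_forall fun w => ?_)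
    · exact (hmc.mul (hc.comp (continuous_const.sub continuous_id))).aestronglyMeasurable
    · rw [norm_mul, Real.norm_of_nonneg (mol_nonneg m w)]
      exact mul_le_mul_of_nonneg_left (hC _) (mol_nonneg m w)
  · exact hint.integral_prod_left
  · intro w
    simp only
    rw [integral_const_mul]
    by_cases hw : ‖w‖ < 1 / ((m : ℝ) + 1)
    · have h3 := h w hw
      rw [intervalIntegral.integral_of_le h2pi] at h3
      have h4 : ∀ t, z + r • PSM_h a t - w = z - w + r • PSM_h a t := fun t => by abel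
      simp only [h4]
      calc 2 * Real.pi * (mol n m w * κ (z - w)) = mol n m w * (2 * Real.pi * κ (z - w)) := by ring
        _ ≤ _ := mul_le_mul_of_nonneg_left h3 (mol_nonneg m w)
    · have h5 : mol n m w = 0 := by
        have : w ∉ Function.support (mol n m) := by
          rw [mol_support]
          simpa using hw
        simpa using this
      simp [h5]

theorem smooth_psh {Ω : Set (Cn n)} (hΩ : IsOpen Ω) {κ : Cn n → ℝ} (hκ : IsPsh Ω κ)
    {L : Set (Cn n)} (hL : IsCompact L) (hLΩ : L ⊆ Ω) {ε : ℝ} (hε : 0 < ε) :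
    ∃ V : Cn n → ℝ, ContDiff ℝ ∞ V ∧ (∀ z ∈ L, |V z - κ z| ≤ ε) ∧
      ∀ z ∈ L, ∀ a, 0 ≤ levi V z a := by
  have hpi := Real.pi_pos
  obtain ⟨δ, hδ, hδΩ⟩ := hL.exists_cthickening_subset_open hΩ hLΩ
  obtain ⟨χ, hχ1, hχ2, hχ3, hχ4⟩ := exists_continuousMap_one_of_isCompact_subset_isOpen
    (hL.cthickening (r := δ)) hΩ hδΩ
  set κ' : Cn n → ℝ := fun z => χ z * κ z with hκ'
  have hc : Continuous κ' := by
    rw [continuous_iff_continuousAt]
    intro z
    by_cases hz : z ∈ Ω
    · exact (map_continuous χ).continuousAt.mul (hκ.1.continuousAt (hΩ.mem_nhds hz))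
    · have hz' : z ∉ tsupport χ := fun h => hz (hχ3 h)
      have h1 : χ =ᶠ[𝓝 z] 0 := notMem_tsupport_iff_eventuallyEq.1 hz'
      have h2 : κ' =ᶠ[𝓝 z] fun _ => 0 := by
        filter_upwards [h1] with w hw
        simp only [hκ']
        rw [hw]
        simp
      exact (continuousAt_const).congr h2.symm
  have hs : HasCompactSupport κ' := by
    have : HasCompactSupport χ := hχ2
    exact this.mul_right
  have heq : ∀ w ∈ Metric.cthickening δ L, κ' w = κ w := by
    intro w hw
    simp only [hκ']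
    rw [hχ1 hw]
    simp
  have hu := hs.uniformContinuous_of_continuous hc
  obtain ⟨δ', hδ', hu'⟩ := Metric.uniformContinuous_iff.1 hu ε hε
  obtain ⟨m, hm⟩ := exists_nat_one_div_lt (show (0 : ℝ) < min (δ / 2) δ' by positivity)
  have hm1 : 1 / ((m : ℝ) + 1) < δ / 2 := hm.trans_le (min_le_left _ _)
  have hm2 : 1 / ((m : ℝ) + 1) < δ' := hm.trans_le (min_le_right _ _)
  set V : Cn n → ℝ := fun z => ∫ w, mol n m w * κ' (z - w) with hV
  have hVc : V = convolution ((mb n m).normed volume) κ' (ContinuousLinearMap.lsmul ℝ ℝ) volume := by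
    funext z
    rw [convolution_def]
    rfl
  have hVs : ContDiff ℝ ∞ V := by
    rw [hVc]
    exact HasCompactSupport.contDiff_convolution_left _ (mb n m).hasCompactSupport_normed
      (mb n m).contDiff_normed hc.locallyIntegrable
  refine ⟨V, hVs, fun z hz => ?_, fun z hz a => ?_⟩
  · rw [← heq z (Metric.self_subset_cthickening L hz), ← Real.dist_eq, hVc]
    apply ContDiffBump.dist_normed_convolution_le hc.aestronglyMeasurable
    intro x hx
    have : dist x z < δ' := (Metric.mem_ball.1 hx).trans hm2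
    exact (hu' this).le
  · apply PSM_sub hVs
    have hev : ∀ᶠ r : ℝ in 𝓝[>] 0, r * ‖a‖ < δ / 2 ∧ 0 < r := by
      have h1 : Tendsto (fun r : ℝ => r * ‖a‖) (𝓝[>] 0) (𝓝 (0 * ‖a‖)) :=
        (tendsto_nhdsWithin_of_tendsto_nhds tendsto_id).mul_const _
      rw [zero_mul] at h1
      filter_upwards [h1.eventually_lt_const (show (0 : ℝ) < δ / 2 by positivity), self_mem_nhdsWithin] with r h2 h3
      exact ⟨h2, h3⟩
    filter_upwards [hev] with r hr
    apply PSM_mean hc hs
    intro w hw
    have hmem : ∀ ζ : ℂ, ‖ζ‖ ≤ 1 → z - w + ζ • (r • a) ∈ Metric.cthickening δ L := by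
      intro ζ hζ
      apply Metric.mem_cthickening_of_dist_le _ z δ L hz
      rw [dist_eq_norm]
      have h1 : z - w + ζ • (r • a) - z = -w + ζ • (r • a) := by abel
      rw [h1]
      have h2 : ‖ζ • (r • a)‖ ≤ r * ‖a‖ := by
        rw [norm_smul, norm_smul, Real.norm_of_nonneg hr.2.le]
        exact mul_le_of_le_one_left (by have := hr.2; positivity) hζ
      calc ‖-w + ζ • (r • a)‖ ≤ ‖-w‖ + ‖ζ • (r • a)‖ := norm_add_le _ _
        _ ≤ δ := by rw [norm_neg]; linarith [hr.1]
    have hsm := hκ.2 (z - w) (r • a) (fun ζ hζ => hδΩ (hmem ζ hζ))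
    have h0 : κ' (z - w) = κ (z - w) := by
      apply heq
      have := hmem 0 (by simp)
      simpa using this
    have h1 : ∀ t : ℝ, κ' (z - w + r • PSM_h a t) = κ (z - w + Complex.exp (t * Complex.I) • (r • a)) := by
      intro t
      have h2 : r • PSM_h a t = Complex.exp (t * Complex.I) • (r • a) := by
        rw [← PSM_h_eq, smul_comm]
      rw [h2]
      apply heq
      apply hmem
      rw [Complex.norm_exp_ofReal_mul_I]
    rw [h0]
    simp only [h1]
    have h2 : 2 * Real.pi * κ (z - w) ≤ 2 * Real.pi * (1 / (2 * Real.pi) *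
      ∫ t in (0 : ℝ)..(2 * Real.pi), κ (z - w + Complex.exp (t * Complex.I) • (r • a))) :=
      mul_le_mul_of_nonneg_left hsm (by positivity)
    rw [← mul_assoc, mul_one_div_cancel (by positivity), one_mul] at h2
    exact h2

end DN
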