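import Pool.Agent.H49.DN.Defs

/-!
# The `∂̄`-Neumann operator and the Bergman projection (definitions used in the statement)

`Cn n = ℂ^n`, `Ω ⊆ ℂ^n` open.

* `dbar j φ = ∂φ/∂z̄_j`.
* `E0 Ω`, `E1 Ω`, `E2 Ω`: the Hilbert spaces of square integrable functions, `(0,1)`-forms, `(0,2)`-forms on `Ω`
  (a form is the vector of its coefficients; `(0,2)`-forms are indexed by the pairs `j < k`); `val0`, `val1`, `val2`: the
  values of a (representative of a) function or form.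
* `IsDbar0 u α`, `IsDbar1 f k`: `∂̄u = α`, `∂̄f = k` in the sense of distributions on `Ω` (the maximal `L²` extension
  of `∂̄`).
* `IsStar0 f u`, `IsStar1 k f`: `∂̄^* f = u`, `∂̄^* k = f` (Hilbert space adjoints).
* `IsBox f g`: `f ∈ Dom □₁` and `□₁ f = (∂̄ ∂̄^* + ∂̄^* ∂̄) f = g`.
-/

set_option autoImplicit false

namespace DNS

open MeasureTheory Set Filter Topology ContDiff

/-- `ℂ^n` -/
abbrev Cn (n : ℕ) : Type := Fin n → ℂ

variable {n : ℕ}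

/-- the real directional derivative of `φ` at `z` in the direction `v` -/
noncomputable def dir (φ : Cn n → ℂ) (z v : Cn n) : ℂ := fderiv ℝ φ z v

/-- `∂φ/∂z̄_j` -/
noncomputable def dbar (j : Fin n) (φ : Cn n → ℂ) (z : Cn n) : ℂ :=
  1 / 2 * (dir φ z (Pi.single j 1) + Complex.I * dir φ z (Pi.single j Complex.I))

/-- `φ` is a test function on `Ω`: smooth with compact support in `Ω`. -/
def Test (Ω : Set (Cn n)) (φ : Cn n → ℂ) : Prop :=
  ContDiff ℝ ∞ φ ∧ HasCompactSupport φ ∧ tsupport φ ⊆ Ω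

/-- pairs `j < k` -/
abbrev Pairs (n : ℕ) : Type := {p : Fin n × Fin n // p.1 < p.2}

/-- Lebesgue measure on `Ω` -/
noncomputable def leb (Ω : Set (Cn n)) : Measure (Cn n) := volume.restrict Ω

/-- square integrable functions on `Ω` -/
def E0 (Ω : Set (Cn n)) : Type := Lp ℂ 2 (leb Ω)

/-- square integrable `(0,1)`-forms on `Ω` -/
def E1 (Ω : Set (Cn n)) : Type := Lp (EuclideanSpace ℂ (Fin n)) 2 (leb Ω)

/-- square integrable `(0,2)`-forms on `Ω` -/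
def E2 (Ω : Set (Cn n)) : Type := Lp (EuclideanSpace ℂ (Pairs n)) 2 (leb Ω)

/-- the `L²` norm -/
@[reducible] noncomputable def nacg0 (Ω : Set (Cn n)) : NormedAddCommGroup (E0 Ω) :=
  (Lp.instNormedAddCommGroup : NormedAddCommGroup (Lp ℂ 2 (leb Ω)))

/-- the `L²` norm -/
@[reducible] noncomputable def nacg1 (Ω : Set (Cn n)) : NormedAddCommGroup (E1 Ω) :=
  (Lp.instNormedAddCommGroup : NormedAddCommGroup (Lp (EuclideanSpace ℂ (Fin n)) 2 (leb Ω)))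

/-- the `L²` norm -/
@[reducible] noncomputable def nacg2 (Ω : Set (Cn n)) : NormedAddCommGroup (E2 Ω) :=
  (Lp.instNormedAddCommGroup : NormedAddCommGroup (Lp (EuclideanSpace ℂ (Pairs n)) 2 (leb Ω)))

attribute [instance] nacg0 nacg1 nacg2

/-- the `L²` inner product -/
@[reducible] noncomputable def ips0 (Ω : Set (Cn n)) : InnerProductSpace ℂ (E0 Ω) :=
  (L2.innerProductSpace : InnerProductSpace ℂ (Lp ℂ 2 (leb Ω)))

/-- the `L²` inner product -/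
@[reducible] noncomputable def ips1 (Ω : Set (Cn n)) : InnerProductSpace ℂ (E1 Ω) :=
  (L2.innerProductSpace : InnerProductSpace ℂ (Lp (EuclideanSpace ℂ (Fin n)) 2 (leb Ω)))

/-- the `L²` inner product -/
@[reducible] noncomputable def ips2 (Ω : Set (Cn n)) : InnerProductSpace ℂ (E2 Ω) :=
  (L2.innerProductSpace : InnerProductSpace ℂ (Lp (EuclideanSpace ℂ (Pairs n)) 2 (leb Ω)))

attribute [instance] ips0 ips1 ips2

/-- values of a function -/
noncomputable def val0 {Ω : Set (Cn n)} (u : E0 Ω) (z : Cn n) : ℂ :=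
  (show Lp ℂ 2 (leb Ω) from u) z

/-- coefficients of a `(0,1)`-form -/
noncomputable def val1 {Ω : Set (Cn n)} (f : E1 Ω) (z : Cn n) (j : Fin n) : ℂ :=
  (show Lp (EuclideanSpace ℂ (Fin n)) 2 (leb Ω) from f) z j

/-- coefficients of a `(0,2)`-form -/
noncomputable def val2 {Ω : Set (Cn n)} (k : E2 Ω) (z : Cn n) (p : Pairs n) : ℂ :=
  (show Lp (EuclideanSpace ℂ (Pairs n)) 2 (leb Ω) from k) z p

/-- integral over `Ω` -/
noncomputable def int (Ω : Set (Cn n)) (F : Cn n → ℂ) : ℂ := ∫ z, F z ∂(leb Ω)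

/-- product of two complex numbers -/
noncomputable def mu (a b : ℂ) : ℂ := a * b

/-- `∂̄u = α` weakly, for a function `u` -/
def IsDbar0 (Ω : Set (Cn n)) (u : E0 Ω) (α : E1 Ω) : Prop :=
  ∀ φ, Test Ω φ → ∀ j,
    int Ω (fun z => mu (val0 u z) (dbar j φ z)) = -int Ω (fun z => mu (val1 α z j) (φ z))

/-- `∂̄f = k` weakly, for a `(0,1)`-form `f`: `∂f_k/∂z̄_j - ∂f_j/∂z̄_k = k_{jk}` for `j < k` -/
def IsDbar1 (Ω : Set (Cn n)) (f : E1 Ω) (k : E2 Ω) : Prop :=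
  ∀ φ, Test Ω φ → ∀ p : Pairs n,
    int Ω (fun z => mu (val1 f z p.1.2) (dbar p.1.1 φ z) - mu (val1 f z p.1.1) (dbar p.1.2 φ z)) =
      -int Ω (fun z => mu (val2 k z p) (φ z))

/-- `f ∈ Dom ∂̄^*` and `∂̄^* f = u`, for a `(0,1)`-form `f` -/
def IsStar0 (Ω : Set (Cn n)) (f : E1 Ω) (u : E0 Ω) : Prop :=
  ∀ v α, IsDbar0 Ω v α → inner ℂ α f = inner ℂ v u

/-- `k ∈ Dom ∂̄^*` and `∂̄^* k = f`, for a `(0,2)`-form `k` -/
def IsStar1 (Ω : Set (Cn n)) (k : E2 Ω) (f : E1 Ω) : Prop :=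
  ∀ h l, IsDbar1 Ω h l → inner ℂ l k = inner ℂ h f

/-- `f ∈ Dom □₁` and `□₁ f = ∂̄ ∂̄^* f + ∂̄^* ∂̄ f = g` -/
def IsBox (Ω : Set (Cn n)) (f g : E1 Ω) : Prop :=
  ∃ (u : E0 Ω) (k : E2 Ω) (a b : E1 Ω),
    IsStar0 Ω f u ∧ IsDbar0 Ω u a ∧ IsDbar1 Ω f k ∧ IsStar1 Ω k b ∧ g = a + b

/-- bounded operators on `L²(Ω)` -/
def Op0 (Ω : Set (Cn n)) : Type := E0 Ω →L[ℂ] E0 Ω

/-- bounded operators on the `(0,1)`-forms -/
def Op1 (Ω : Set (Cn n)) : Type := E1 Ω →L[ℂ] E1 Ω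

/-- value of an operator -/
noncomputable def ap0 {Ω : Set (Cn n)} (B : Op0 Ω) (u : E0 Ω) : E0 Ω := (show E0 Ω →L[ℂ] E0 Ω from B) u

/-- value of an operator -/
noncomputable def ap1 {Ω : Set (Cn n)} (N : Op1 Ω) (f : E1 Ω) : E1 Ω := (show E1 Ω →L[ℂ] E1 Ω from N) f

/-- compact operators -/
def Cpt0 {Ω : Set (Cn n)} (B : Op0 Ω) : Prop := IsCompactOperator (ap0 B)

/-- compact operators -/
def Cpt1 {Ω : Set (Cn n)} (N : Op1 Ω) : Prop := IsCompactOperator (ap1 N)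

/-- The `∂̄`-Neumann operator `N₁` (the bounded inverse of `□₁`) exists and is compact. -/
def CompactNeumann (Ω : Set (Cn n)) : Prop :=
  ∃ N : Op1 Ω, Cpt1 N ∧ (∀ g, IsBox Ω (ap1 N g) g) ∧ ∀ f g, IsBox Ω f g → ap1 N g = f

/-- `κ` is a continuous plurisubharmonic function on `Ω`. -/
def IsPsh (Ω : Set (Cn n)) (κ : Cn n → ℝ) : Prop :=
  ContinuousOn κ Ω ∧ ∀ z w : Cn n, (∀ ζ : ℂ, ‖ζ‖ ≤ 1 → z + ζ • w ∈ Ω) →
    κ z ≤ 1 / (2 * Real.pi) *
      ∫ t in (0 : ℝ)..(2 * Real.pi), κ (z + Complex.exp (t * Complex.I) • w)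

/-- `Ω` is pseudoconvex: it is open and has a continuous plurisubharmonic exhaustion function. -/
def Pseudoconvex (Ω : Set (Cn n)) : Prop :=
  IsOpen Ω ∧ ∃ κ : Cn n → ℝ, IsPsh Ω κ ∧ ∀ c : ℝ, IsCompact {z ∈ Ω | κ z ≤ c}

/-- `u` is (a.e. equal to) a holomorphic function. -/
def IsHol (Ω : Set (Cn n)) (u : E0 Ω) : Prop :=
  ∃ h : Cn n → ℂ, DifferentiableOn ℂ h Ω ∧ ∀ᵐ z ∂(leb Ω), val0 u z = h z

/-- `B` is the Bergman projection: the orthogonal projection of `L²(Ω)` onto the subspace of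
holomorphic functions. -/
def IsBergman (Ω : Set (Cn n)) (B : Op0 Ω) : Prop :=
  ∀ u, IsHol Ω (ap0 B u) ∧ ∀ a, IsHol Ω a → inner ℂ a (u - ap0 B u) = 0

/-- `M` is the operator of multiplication by `ψ` on `L²(Ω)`. -/
def IsMul (Ω : Set (Cn n)) (ψ : Cn n → ℂ) (M : Op0 Ω) : Prop :=
  ∀ u, ∀ᵐ z ∂(leb Ω), val0 (ap0 M u) z = mu (ψ z) (val0 u z)

/-- `C` is the commutator `[B, M] = B M - M B`. -/
def IsComm {Ω : Set (Cn n)} (B M C : Op0 Ω) : Prop :=
  ∀ u, ap0 C u = ap0 B (ap0 M u) - ap0 M (ap0 B u)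

/-- The commutators of `B` with the multiplications by the continuous functions on the closure
of `Ω` are compact. -/
def CompactCommutators (Ω : Set (Cn n)) (B : Op0 Ω) : Prop :=
  ∀ ψ : Cn n → ℂ, ContinuousOn ψ (closure Ω) → ∀ M C : Op0 Ω, IsMul Ω ψ M → IsComm B M C →
    Cpt0 C

end DNS
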