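import Pool.Agent.H49.DN.BASB
import Pool.Agent.H49.DN.PRJ
import Pool.Agent.H49.DN.WTS

/-! # STR: Hörmander's inequality for test forms

PROOF. `ψ z = M nsq (z - p)`, `K = ⋃ tsupport (v j)` compact in `Ω`. `exists_weights`: `D, φ, l, η`; on `D`:
`φ ≥ ψ + 2l ≥ 2l ≥ 0`. `w = exp(l - φ)`: `w ≤ exp(-ψ) ≤ 1` on `D`, `w = exp(-ψ)` near `K`. `exists_proj` for `v`: `f`.
(a) For `θ` a test function on `D`: `a_j = dbar j (conj θ)` is closed (`dbar_dbar_comm`, `ibp_dbar`) and in
`L²(D, w)`, so `∫ ∑ f_j dd j θ w = ∫ ∑ v_j dd j θ w` (`conj (dbar j (conj θ)) = dd j θ`) `= -∫ ∑ dd j (v_j w) θ` (`ibp_dd`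
for the global smooth function `v_j w`, `Test.mul`), and `dd j (v_j w) = w (dd j v_j - v_j dd j (φ - l))`, which on `K` equals
`exp(-ψ) (dd j v_j - v_j M conj (z_j - p_j))` (`near`, `dd_nsq`), and vanishes off `K`. So `h1` of `basic` holds with
`W z = -∑ (dd j (v j) z - v j z * (M conj(z_j - p_j)))` (supported in `K`, where `l = 0`, `φ = ψ`).
(b) `basic` with `Gf = 0`: `M ∫_D nsq f exp(-φ) ≤ 2 ∫_D ‖W‖² exp(2l - φ) = 2 ∫_Ω ‖W‖² exp(-ψ)`.
(c) `∫_Ω ∑ α_j conj(v_j) exp(-ψ) = ∫_D ∑ α_j conj(v_j) w = ∫_D ∑ α_j conj(f_j) w` (last clause of `exists_proj` with `a = α`,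
conjugated; `α` is closed on `D ⊆ Ω`, `w ≤ 1`). Cauchy-Schwarz: `|..|² ≤ (∫_D nsq α exp(-ψ)) (∫_D nsq f w² exp(ψ))` and
`w² exp ψ = exp(2l - 2φ + ψ) ≤ exp(-φ)`. Combine with (b). -/

set_option autoImplicit false

namespace DN

open MeasureTheory Set Filter Topology ContDiff

variable {n : ℕ}

theorem STR_real {x A B : ℝ} (hx : 0 ≤ x) (hA : 0 ≤ A) (hB : 0 ≤ B)
    (h : ∀ r : ℝ, 0 < r → 2 * x ≤ r * A + B / r) : x ^ 2 ≤ A * B := by
  rcases hx.eq_or_lt with h0 | h0
  · rw [← h0]
    have := mul_nonneg hA hB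
    simpa using this
  rcases hA.eq_or_lt with h1 | h1
  · exfalso
    have h2 := h ((B + 1) / x) (by positivity)
    rw [← h1] at h2
    have h3 : B / ((B + 1) / x) = x * (B / (B + 1)) := by field_simp
    have h4 : B / (B + 1) ≤ 1 := by
      rw [div_le_one (by positivity)]
      linarith
    rw [h3] at h2
    nlinarith
  · have h2 := h (x / A) (by positivity)
    have h3 : x / A * A = x := by field_simp
    have h4 : B / (x / A) = A * B / x := by field_simp
    rw [h3, h4] at h2
    have h5 : x ≤ A * B / x := by linarith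
    rw [le_div_iff₀ h0] at h5
    nlinarith

theorem STR_nsq_nonneg (a : Fin n → ℂ) : 0 ≤ nsq a :=
  Finset.sum_nonneg fun j _ => by positivity

theorem STR_pt (a b : Fin n → ℂ) {s t r : ℝ} (hs : 0 ≤ s) (ht : 0 ≤ t) (hr : 0 < r) :
    2 * ‖(∑ j, a j * (starRingEnd ℂ) (b j)) * ((s * t : ℝ) : ℂ)‖ ≤
      r * (nsq a * s ^ 2) + 1 / r * (nsq b * t ^ 2) := by
  rw [norm_mul, Complex.norm_real, Real.norm_of_nonneg (mul_nonneg hs ht)]
  have h1 : ‖∑ j, a j * (starRingEnd ℂ) (b j)‖ ≤ ∑ j, ‖a j‖ * ‖b j‖ := by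
    refine (norm_sum_le _ _).trans (le_of_eq ?_)
    refine Finset.sum_congr rfl fun j _ => ?_
    rw [norm_mul, RCLike.norm_conj]
  have h2 : 2 * ((∑ j, ‖a j‖ * ‖b j‖) * (s * t)) ≤
      r * (nsq a * s ^ 2) + 1 / r * (nsq b * t ^ 2) := by
    unfold nsq
    rw [Finset.sum_mul, Finset.mul_sum, Finset.sum_mul, Finset.mul_sum, Finset.sum_mul,
      Finset.mul_sum, ← Finset.sum_add_distrib]
    refine Finset.sum_le_sum fun j _ => ?_
    have h3 : 0 ≤ (r * (‖a j‖ * s) - ‖b j‖ * t) ^ 2 / r := by positivity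
    have h4 : (r * (‖a j‖ * s) - ‖b j‖ * t) ^ 2 / r =
        r * (‖a j‖ ^ 2 * s ^ 2) + 1 / r * (‖b j‖ ^ 2 * t ^ 2) -
          2 * (‖a j‖ * ‖b j‖ * (s * t)) := by
      field_simp
      ring
    linarith
  have h5 : ‖∑ j, a j * (starRingEnd ℂ) (b j)‖ * (s * t) ≤
      (∑ j, ‖a j‖ * ‖b j‖) * (s * t) := mul_le_mul_of_nonneg_right h1 (mul_nonneg hs ht)
  linarith

theorem STR_meas {μ : Measure (Cn n)} {a b : Fin n → Cn n → ℂ}
    (ha : ∀ j, AEStronglyMeasurable (a j) μ) (hb : ∀ j, AEStronglyMeasurable (b j) μ)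
    {w : Cn n → ℝ} (hw : AEStronglyMeasurable w μ) :
    AEStronglyMeasurable (fun z => (∑ j, a j z * (starRingEnd ℂ) (b j z)) * (w z : ℂ)) μ := by
  have h1 : AEStronglyMeasurable (fun z => ∑ j, a j z * (starRingEnd ℂ) (b j z)) μ := by
    refine Finset.aestronglyMeasurable_fun_sum _ fun j _ => ?_
    exact (ha j).mul (Complex.continuous_conj.comp_aestronglyMeasurable (hb j))
  exact h1.mul (Complex.continuous_ofReal.comp_aestronglyMeasurable hw)

theorem STR_cs {μ : Measure (Cn n)} {a b : Fin n → Cn n → ℂ}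
    (ha : ∀ j, AEStronglyMeasurable (a j) μ) (hb : ∀ j, AEStronglyMeasurable (b j) μ)
    {s t : Cn n → ℝ} (hs : AEStronglyMeasurable s μ) (ht : AEStronglyMeasurable t μ)
    (hs0 : ∀ z, 0 ≤ s z) (ht0 : ∀ z, 0 ≤ t z)
    (hia : Integrable (fun z => nsq (fun j => a j z) * s z ^ 2) μ)
    (hib : Integrable (fun z => nsq (fun j => b j z) * t z ^ 2) μ) :
    Integrable (fun z => (∑ j, a j z * (starRingEnd ℂ) (b j z)) * ((s z * t z : ℝ) : ℂ)) μ ∧
    ‖∫ z, (∑ j, a j z * (starRingEnd ℂ) (b j z)) * ((s z * t z : ℝ) : ℂ) ∂μ‖ ^ 2 ≤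
      (∫ z, nsq (fun j => a j z) * s z ^ 2 ∂μ) * ∫ z, nsq (fun j => b j z) * t z ^ 2 ∂μ := by
  have hm := STR_meas ha hb (hs.mul ht)
  have hi : Integrable (fun z => (∑ j, a j z * (starRingEnd ℂ) (b j z)) *
      ((s z * t z : ℝ) : ℂ)) μ := by
    refine Integrable.mono' (g := fun z => nsq (fun j => a j z) * s z ^ 2 +
      nsq (fun j => b j z) * t z ^ 2) (hia.add hib) hm (Eventually.of_forall fun z => ?_)
    have h1 := STR_pt (fun j => a j z) (fun j => b j z) (hs0 z) (ht0 z) one_pos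
    have h2 : 0 ≤ nsq (fun j => a j z) * s z ^ 2 :=
      mul_nonneg (STR_nsq_nonneg _) (by positivity)
    have h3 : 0 ≤ nsq (fun j => b j z) * t z ^ 2 :=
      mul_nonneg (STR_nsq_nonneg _) (by positivity)
    simp only [one_mul, div_one] at h1
    linarith
  refine ⟨hi, ?_⟩
  refine STR_real (norm_nonneg _) ?_ ?_ ?_
  · exact integral_nonneg fun z => mul_nonneg (STR_nsq_nonneg _) (by positivity)
  · exact integral_nonneg fun z => mul_nonneg (STR_nsq_nonneg _) (by positivity)
  · intro r hr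
    have h1 : ‖∫ z, (∑ j, a j z * (starRingEnd ℂ) (b j z)) * ((s z * t z : ℝ) : ℂ) ∂μ‖ ≤
        ∫ z, ‖(∑ j, a j z * (starRingEnd ℂ) (b j z)) * ((s z * t z : ℝ) : ℂ)‖ ∂μ :=
      norm_integral_le_integral_norm _
    have h2 : ∫ z, 2 * ‖(∑ j, a j z * (starRingEnd ℂ) (b j z)) * ((s z * t z : ℝ) : ℂ)‖ ∂μ ≤
        ∫ z, (r * (nsq (fun j => a j z) * s z ^ 2) +
          1 / r * (nsq (fun j => b j z) * t z ^ 2)) ∂μ := by
      refine integral_mono (hi.norm.const_mul 2) ((hia.const_mul r).add (hib.const_mul _)) ?_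
      intro z
      exact STR_pt (fun j => a j z) (fun j => b j z) (hs0 z) (ht0 z) hr
    rw [integral_const_mul, integral_add (hia.const_mul r) (hib.const_mul _),
      integral_const_mul, integral_const_mul] at h2
    have h3 : 1 / r * ∫ z, nsq (fun j => b j z) * t z ^ 2 ∂μ =
        (∫ z, nsq (fun j => b j z) * t z ^ 2 ∂μ) / r := by ring
    rw [h3] at h2
    linarith

theorem STR_int {μ : Measure (Cn n)} {a b : Fin n → Cn n → ℂ}
    (ha : ∀ j, AEStronglyMeasurable (a j) μ) (hb : ∀ j, AEStronglyMeasurable (b j) μ)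
    {w : Cn n → ℝ} (hw : AEStronglyMeasurable w μ)
    (hia : Integrable (fun z => nsq (fun j => a j z) * Real.exp (w z)) μ)
    (hib : Integrable (fun z => nsq (fun j => b j z) * Real.exp (w z)) μ) :
    Integrable (fun z => (∑ j, a j z * (starRingEnd ℂ) (b j z)) * (Real.exp (w z) : ℂ)) μ := by
  have hs : AEStronglyMeasurable (fun z => Real.exp (w z / 2)) μ :=
    (Real.continuous_exp.comp (continuous_id.div_const 2)).comp_aestronglyMeasurable hw
  have h1 : ∀ z, Real.exp (w z / 2) ^ 2 = Real.exp (w z) := by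
    intro z
    rw [← Real.exp_nat_mul]
    congr 1
    push_cast
    ring
  have h2 : ∀ z, Real.exp (w z / 2) * Real.exp (w z / 2) = Real.exp (w z) := by
    intro z
    rw [← Real.exp_add]
    congr 1
    ring
  have h := (STR_cs ha hb hs hs (fun z => (Real.exp_pos _).le) (fun z => (Real.exp_pos _).le)
    (by simpa only [h1] using hia) (by simpa only [h1] using hib)).1
  simpa only [h2] using h

theorem STR_io {E : Type*} [NormedAddCommGroup E] {D T : Set (Cn n)} (hD : IsOpen D)
    (hT : IsCompact T) (hTD : T ⊆ D) {g : Cn n → E} (hg : ContinuousOn g D)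
    (h0 : ∀ z ∈ D, z ∉ T → g z = 0) : IntegrableOn g D := by
  have h1 : IntegrableOn g T := (hg.mono hTD).integrableOn_compact hT
  exact h1.of_forall_sdiff_eq_zero hD.measurableSet fun z hz => h0 z hz.1 hz.2

theorem STR_closed {D : Set (Cn n)} {θ : Cn n → ℂ} (hθ : Test D θ) :
    Closed1 D (fun j => dbar j θ) := by
  intro χ hχ j k
  have e1 : ∫ z in D, (dbar k θ z * dbar j χ z - dbar j θ z * dbar k χ z) =
      ∫ z, (dbar k θ z * dbar j χ z - dbar j θ z * dbar k χ z) := by
    refine setIntegral_eq_integral_of_forall_compl_eq_zero fun z hz => ?_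
    have h1 : ∀ i, dbar i χ z = 0 := by
      intro i
      by_contra hcon
      exact hz (hχ.sub (CALB_supp_dbar χ i hcon))
    rw [h1, h1]
    ring
  rw [e1]
  have hs := hχ.supp
  have hθ1 : ∀ i, ContDiff ℝ 1 (dbar i θ) := fun i => (contDiff_dbar hθ.smooth i).of_le (by simp)
  have hχ1 : ContDiff ℝ 1 χ := hχ.smooth.of_le (by simp)
  have hi : ∀ i m, Integrable (fun z => dbar i θ z * dbar m χ z) := fun i m =>
    IBP_integrable (contDiff_dbar hθ.smooth i).continuous (contDiff_dbar hχ.smooth m).continuous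
      (Or.inr (hχ.dbar m).supp)
  rw [integral_sub (hi k j) (hi j k), ibp_dbar (hθ1 k) hχ1 (Or.inr hs) j,
    ibp_dbar (hθ1 j) hχ1 (Or.inr hs) k]
  have e2 : (fun z => dbar j (dbar k θ) z * χ z) = fun z => dbar k (dbar j θ) z * χ z := by
    funext z
    rw [dbar_dbar_comm (hθ.smooth.contDiffAt.of_le (by norm_cast)) k j]
  rw [e2]
  ring

theorem STR_dd_mul (M : ℝ) (p : Cn n) {v : Cn n → ℂ} (hv : ContDiff ℝ ∞ v) (j : Fin n)
    (z : Cn n) :
    dd j (fun w => (Real.exp (-(M * nsq (w - p))) : ℂ) * v w) z =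
      (Real.exp (-(M * nsq (z - p))) : ℂ) *
        (dd j v z - v z * ((M : ℂ) * (starRingEnd ℂ) (z j - p j))) := by
  have hd : DifferentiableAt ℝ (fun w : Cn n => M * nsq (w - p)) z :=
    ((contDiff_nsq M p).differentiable (by simp)) z
  have hE : (fun w : Cn n => (Real.exp (-(M * nsq (w - p))) : ℂ)) =
      cx (fun w => (fun x : ℝ => Real.exp (-x)) (M * nsq (w - p))) := by
    funext w
    rfl
  have hg : DifferentiableAt ℝ (fun x : ℝ => Real.exp (-x)) (M * nsq (z - p)) := by fun_prop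
  have h1 : dd j (fun w : Cn n => (Real.exp (-(M * nsq (w - p))) : ℂ)) z =
      -(Real.exp (-(M * nsq (z - p))) : ℂ) * ((M : ℂ) * (starRingEnd ℂ) (z j - p j)) := by
    rw [hE, dd_comp hd hg, dd_nsq]
    have h2 : deriv (fun x : ℝ => Real.exp (-x)) (M * nsq (z - p)) =
        -Real.exp (-(M * nsq (z - p))) := by
      have h3 := ((hasDerivAt_neg (M * nsq (z - p))).exp).deriv
      rw [h3]
      ring
    rw [h2]
    push_cast
    ring
  have hEd : DifferentiableAt ℝ (fun w : Cn n => (Real.exp (-(M * nsq (w - p))) : ℂ)) z := by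
    rw [hE]
    exact CALB_cxd (v := fun w => (fun x : ℝ => Real.exp (-x)) (M * nsq (w - p)))
      (DifferentiableAt.comp (g := fun x : ℝ => Real.exp (-x)) z hg hd)
  rw [dd_mul hEd ((hv.differentiable (by simp)) z), h1]
  ring

theorem star {Ω : Set (Cn n)} (hΩ : Pseudoconvex Ω) {M : ℝ} (hM : 0 < M) (p : Cn n)
    {α : Fin n → Cn n → ℂ} (hαm : ∀ j, AEStronglyMeasurable (α j) (volume.restrict Ω))
    (hα : IntegrableOn (fun z => nsq (fun j => α j z)) Ω) (hc : Closed1 Ω α)
    {v : Fin n → Cn n → ℂ} (hv : ∀ j, Test Ω (v j)) :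
    ‖∫ z in Ω, (∑ j, α j z * (starRingEnd ℂ) (v j z)) *
        (Real.exp (-(M * nsq (z - p))) : ℂ)‖ ^ 2 ≤
      2 / M * (∫ z in Ω, nsq (fun j => α j z) * Real.exp (-(M * nsq (z - p)))) *
        ∫ z in Ω, ‖∑ j, (dd j (v j) z - v j z * ((M : ℂ) * (starRingEnd ℂ) (z j - p j)))‖ ^ 2 *
          Real.exp (-(M * nsq (z - p))) := by
  obtain ⟨K, hKdef⟩ : ∃ K : Set (Cn n), K = ⋃ j, tsupport (v j) := ⟨_, rfl⟩
  have hK : IsCompact K := by
    rw [hKdef]
    exact isCompact_iUnion fun j => (hv j).supp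
  have hKΩ : K ⊆ Ω := by
    rw [hKdef]
    exact iUnion_subset fun j => (hv j).sub
  have hTK : ∀ j, tsupport (v j) ⊆ K := by
    intro j
    rw [hKdef]
    exact subset_iUnion (fun j => tsupport (v j)) j
  obtain ⟨D, φ, l, η, hDΩ, hW⟩ := exists_weights hΩ hK hKΩ hM.le p
  have hD := hW.isOpen
  have hKD := hW.sub
  have hψ0 : ∀ z, 0 ≤ M * nsq (z - p) := fun z => mul_nonneg hM.le (STR_nsq_nonneg _)
  have hφc : ContinuousOn φ D := hW.smooth.continuousOn
  have hlc : ContinuousOn l D := hW.smoothl.continuousOn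
  have hψc : Continuous fun z : Cn n => M * nsq (z - p) := (contDiff_nsq M p).continuous
  have hvc : ∀ j, Continuous (v j) := fun j => (hv j).smooth.continuous
  have hv0 : ∀ j, ∀ z ∉ K, v j z = 0 := fun j z hz =>
    image_eq_zero_of_notMem_tsupport fun h => hz (hTK j h)
  have hdv0 : ∀ j, ∀ z ∉ K, dd j (v j) z = 0 := by
    intro j z hz
    by_contra hcon
    exact hz (hTK j (CALB_supp_dd (v j) j hcon))
  have hKl : ∀ z ∈ K, l z = 0 := fun z hz => (hW.near z hz).self_of_nhds.1
  have hKφ : ∀ z ∈ K, φ z = M * nsq (z - p) := fun z hz => (hW.near z hz).self_of_nhds.2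
  obtain ⟨N, hN⟩ : ∃ N : Cn n → ℂ, N = fun z => ∑ j, (dd j (v j) z -
    v j z * ((M : ℂ) * (starRingEnd ℂ) (z j - p j))) := ⟨_, rfl⟩
  have hN0 : ∀ z ∉ K, N z = 0 := by
    intro z hz
    rw [hN]
    refine Finset.sum_eq_zero fun j _ => ?_
    rw [hv0 j z hz, hdv0 j z hz]
    ring
  have hNc : Continuous N := by
    rw [hN]
    refine continuous_finsetSum _ fun j _ => ?_
    have h1 := (contDiff_dd (hv j).smooth j).continuous
    have h2 : Continuous fun z : Cn n => (starRingEnd ℂ) (z j - p j) :=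
      Complex.continuous_conj.comp (by fun_prop)
    exact h1.sub ((hvc j).mul (continuous_const.mul h2))
  -- the projection
  have hwc : ContinuousOn (fun z => Real.exp (l z - φ z)) D :=
    Real.continuous_exp.comp_continuousOn (hlc.sub hφc)
  have hvm : ∀ j, AEStronglyMeasurable (v j) (volume.restrict D) := fun j =>
    (hvc j).aestronglyMeasurable
  have hnv : Continuous fun z => nsq (fun j => v j z) := by
    unfold nsq
    exact continuous_finsetSum _ fun j _ => (hvc j).norm.pow 2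
  have hvi : IntegrableOn (fun z => nsq (fun j => v j z) * Real.exp (l z - φ z)) D := by
    refine STR_io hD hK hKD (hnv.continuousOn.mul hwc) fun z _ hz => ?_
    have h1 : nsq (fun j => v j z) = 0 := by
      unfold nsq
      refine Finset.sum_eq_zero fun j _ => ?_
      show ‖v j z‖ ^ 2 = 0
      rw [hv0 j z hz]
      simp
    show nsq (fun j => v j z) * _ = 0
    rw [h1, zero_mul]
  obtain ⟨f, hfm, hfi, hfc, _, hfp⟩ := exists_proj hD hwc (fun z _ => Real.exp_pos _) hvm hvi
  have hlm : AEStronglyMeasurable (fun z => l z - φ z) (volume.restrict D) :=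
    (hlc.sub hφc).aestronglyMeasurable hD.measurableSet
  -- splitting
  have hsplit : ∀ a : Fin n → Cn n → ℂ, (∀ j, AEStronglyMeasurable (a j) (volume.restrict D)) →
      IntegrableOn (fun z => nsq (fun j => a j z) * Real.exp (l z - φ z)) D → Closed1 D a →
      ∫ z in D, (∑ j, f j z * (starRingEnd ℂ) (a j z)) * (Real.exp (l z - φ z) : ℂ) =
      ∫ z in D, (∑ j, v j z * (starRingEnd ℂ) (a j z)) * (Real.exp (l z - φ z) : ℂ) := by
    intro a ham hai hac
    have h1 := hfp a ham hai hac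
    have i1 := STR_int hvm ham hlm hvi hai
    have i2 := STR_int hfm ham hlm hfi hai
    have h2 : (fun z => (∑ j, (v j z - f j z) * (starRingEnd ℂ) (a j z)) *
        (Real.exp (l z - φ z) : ℂ)) = fun z =>
        (∑ j, v j z * (starRingEnd ℂ) (a j z)) * (Real.exp (l z - φ z) : ℂ) -
        (∑ j, f j z * (starRingEnd ℂ) (a j z)) * (Real.exp (l z - φ z) : ℂ) := by
      funext z
      rw [← sub_mul, ← Finset.sum_sub_distrib]
      congr 1
      refine Finset.sum_congr rfl fun j _ => ?_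
      ring
    rw [h2, integral_sub i1 i2] at h1
    exact (sub_eq_zero.1 h1).symm
  -- (a)
  have hA : ∀ θ, Test D θ → ∫ z in D, (∑ j, f j z * dd j θ z) * (Real.exp (l z - φ z) : ℂ) =
      ∫ z in D, -N z * θ z * (Real.exp (2 * l z - φ z) : ℂ) := by
    intro θ hθ
    have hθc := hθ.conj
    have hconj : ∀ j z, (starRingEnd ℂ) (dbar j (fun z => (starRingEnd ℂ) (θ z)) z) =
        dd j θ z := by
      intro j z
      rw [dbar_conj ((hθ.smooth.differentiable (by simp)) z), Complex.conj_conj]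
    have hbc : ∀ j, Continuous (dbar j (fun z => (starRingEnd ℂ) (θ z))) := fun j =>
      (contDiff_dbar hθc.smooth j).continuous
    have hnb : Continuous fun z => nsq (fun j => dbar j (fun z => (starRingEnd ℂ) (θ z)) z) := by
      unfold nsq
      exact continuous_finsetSum _ fun j _ => (hbc j).norm.pow 2
    have h1 := hsplit (fun j => dbar j (fun z => (starRingEnd ℂ) (θ z)))
      (fun j => (hbc j).aestronglyMeasurable) (by
        refine STR_io hD hθc.supp hθc.sub (hnb.continuousOn.mul hwc) fun z _ hz => ?_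
        have h1 : nsq (fun j => dbar j (fun z => (starRingEnd ℂ) (θ z)) z) = 0 := by
          unfold nsq
          refine Finset.sum_eq_zero fun j _ => ?_
          have h2 : dbar j (fun z => (starRingEnd ℂ) (θ z)) z = 0 := by
            by_contra hcon
            exact hz (CALB_supp_dbar _ j hcon)
          show ‖dbar j (fun z => (starRingEnd ℂ) (θ z)) z‖ ^ 2 = 0
          rw [h2]
          simp
        show nsq (fun j => dbar j (fun z => (starRingEnd ℂ) (θ z)) z) * _ = 0
        rw [h1, zero_mul]) (STR_closed hθc)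
    simp only [hconj] at h1
    rw [h1]
    -- replace the weight
    have h2 : ∫ z in D, (∑ j, v j z * dd j θ z) * (Real.exp (l z - φ z) : ℂ) =
        ∫ z, ∑ j, ((Real.exp (-(M * nsq (z - p))) : ℂ) * v j z) * dd j θ z := by
      refine Eq.trans (b := ∫ z in D, ∑ j, ((Real.exp (-(M * nsq (z - p))) : ℂ) * v j z) *
        dd j θ z) ?_ (setIntegral_eq_integral_of_forall_compl_eq_zero ?_)
      · refine setIntegral_congr_fun hD.measurableSet fun z _ => ?_
        by_cases hz : z ∈ K
        · show (∑ j, v j z * dd j θ z) * (Real.exp (l z - φ z) : ℂ) =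
            ∑ j, ((Real.exp (-(M * nsq (z - p))) : ℂ) * v j z) * dd j θ z
          rw [hKl z hz, hKφ z hz, Finset.sum_mul]
          refine Finset.sum_congr rfl fun j _ => ?_
          rw [zero_sub]
          ring
        · show (∑ j, v j z * dd j θ z) * (Real.exp (l z - φ z) : ℂ) =
            ∑ j, ((Real.exp (-(M * nsq (z - p))) : ℂ) * v j z) * dd j θ z
          simp only [hv0 _ z hz, zero_mul, mul_zero, Finset.sum_const_zero]
      · intro z hz
        have hz' : z ∉ K := fun h => hz (hKD h)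
        simp only [hv0 _ z hz', zero_mul, mul_zero, Finset.sum_const_zero]
    have hEs : ContDiff ℝ ∞ (fun z : Cn n => (Real.exp (-(M * nsq (z - p))) : ℂ)) := by
      have h3 : ContDiff ℝ ∞ (fun z : Cn n => Real.exp (-(M * nsq (z - p)))) :=
        (contDiff_nsq M p).neg.exp
      exact Complex.ofRealCLM.contDiff.comp h3
    have hUs : ∀ j, ContDiff ℝ ∞ (fun z => (Real.exp (-(M * nsq (z - p))) : ℂ) * v j z) :=
      fun j => hEs.mul (hv j).smooth
    have hUc : ∀ j, HasCompactSupport (fun z => (Real.exp (-(M * nsq (z - p))) : ℂ) * v j z) :=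
      fun j => (hv j).supp.mul_left
    have hθ1 : ContDiff ℝ 1 θ := hθ.smooth.of_le (by simp)
    rw [h2, integral_finsetSum _ fun j _ => IBP_integrable (hUs j).continuous
      (contDiff_dd hθ.smooth j).continuous (Or.inl (hUc j))]
    have h3 : ∀ j, ∫ z, ((Real.exp (-(M * nsq (z - p))) : ℂ) * v j z) * dd j θ z =
        -∫ z, ((Real.exp (-(M * nsq (z - p))) : ℂ) *
        (dd j (v j) z - v j z * ((M : ℂ) * (starRingEnd ℂ) (z j - p j)))) * θ z := by
      intro j
      rw [ibp_dd ((hUs j).of_le (by simp)) hθ1 (Or.inl (hUc j)) j]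
      congr 1
      refine integral_congr_ae (Eventually.of_forall fun z => ?_)
      show dd j (fun z => (Real.exp (-(M * nsq (z - p))) : ℂ) * v j z) z * θ z = _
      rw [STR_dd_mul M p (hv j).smooth j z]
    have hi : ∀ j, Integrable (fun z => ((Real.exp (-(M * nsq (z - p))) : ℂ) *
        (dd j (v j) z - v j z * ((M : ℂ) * (starRingEnd ℂ) (z j - p j)))) * θ z) := by
      intro j
      refine IBP_integrable ?_ hθ.smooth.continuous (Or.inr hθ.supp)
      have h1 := (contDiff_dd (hv j).smooth j).continuous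
      have h2 : Continuous fun z : Cn n => (starRingEnd ℂ) (z j - p j) :=
        Complex.continuous_conj.comp (by fun_prop)
      exact hEs.continuous.mul (h1.sub ((hvc j).mul (continuous_const.mul h2)))
    rw [Finset.sum_congr rfl fun j _ => h3 j, Finset.sum_neg_distrib,
      ← integral_finsetSum _ fun j _ => hi j, ← integral_neg]
    rw [← setIntegral_eq_integral_of_forall_compl_eq_zero (s := D)]
    · refine setIntegral_congr_fun hD.measurableSet fun z _ => ?_
      show -∑ j, ((Real.exp (-(M * nsq (z - p))) : ℂ) *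
        (dd j (v j) z - v j z * ((M : ℂ) * (starRingEnd ℂ) (z j - p j)))) * θ z =
        -N z * θ z * (Real.exp (2 * l z - φ z) : ℂ)
      rw [← Finset.sum_mul, ← Finset.mul_sum]
      have hNz : ∑ j, (dd j (v j) z - v j z * ((M : ℂ) * (starRingEnd ℂ) (z j - p j))) = N z := by
        rw [hN]
      rw [hNz]
      by_cases hz : z ∈ K
      · rw [hKl z hz, hKφ z hz, mul_zero, zero_sub]
        ring
      · rw [hN0 z hz]
        ring
    · intro z hz
      have h4 : θ z = 0 := image_eq_zero_of_notMem_tsupport fun h => hz (hθ.sub h)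
      simp only [h4, mul_zero, Finset.sum_const_zero, neg_zero]
  -- (b)
  have hNi : IntegrableOn (fun z => ‖-N z‖ ^ 2 * Real.exp (2 * l z - φ z)) D := by
    refine STR_io hD hK hKD ?_ fun z _ hz => ?_
    · exact ((hNc.neg.norm.pow 2).continuousOn).mul
        (Real.continuous_exp.comp_continuousOn ((continuousOn_const.mul hlc).sub hφc))
    · show ‖-N z‖ ^ 2 * _ = 0
      rw [hN0 z hz]
      simp
  have hB := (basic hW hM.le (F := f) (W := fun z => -N z) (Gf := fun _ _ _ => 0) hfm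
    hNc.neg.aestronglyMeasurable (fun _ _ => aestronglyMeasurable_const) hfi hNi
    (fun _ _ => by simp) hA (fun θ hθ j k => by
      rw [hfc θ hθ j k]
      simp) rfl).1
  have hNΩ : ∫ z in D, ‖-N z‖ ^ 2 * Real.exp (2 * l z - φ z) =
      ∫ z in Ω, ‖N z‖ ^ 2 * Real.exp (-(M * nsq (z - p))) := by
    refine Eq.trans (b := ∫ z in D, ‖N z‖ ^ 2 * Real.exp (-(M * nsq (z - p)))) ?_
      (setIntegral_eq_of_subset_of_forall_sdiff_eq_zero hΩ.1.measurableSet hDΩ ?_).symm
    · refine setIntegral_congr_fun hD.measurableSet fun z _ => ?_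
      show ‖-N z‖ ^ 2 * Real.exp (2 * l z - φ z) = ‖N z‖ ^ 2 * Real.exp (-(M * nsq (z - p)))
      rw [norm_neg]
      by_cases hz : z ∈ K
      · rw [hKl z hz, hKφ z hz, mul_zero, zero_sub]
      · rw [hN0 z hz]
        simp
    · intro z hz
      have hz' : z ∉ K := fun h => hz.2 (hKD h)
      rw [hN0 z hz']
      simp
  have hB2 : M * (∫ z in D, nsq (fun j => f j z) * Real.exp (-φ z)) ≤
      2 * ∫ z in Ω, ‖N z‖ ^ 2 * Real.exp (-(M * nsq (z - p))) := by
    refine hB.trans (le_of_eq ?_)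
    rw [hNΩ]
    simp
  -- (c)
  have hαD : ∀ j, AEStronglyMeasurable (α j) (volume.restrict D) := fun j =>
    (hαm j).mono_measure (Measure.restrict_mono hDΩ le_rfl)
  have hαDi : IntegrableOn (fun z => nsq (fun j => α j z)) D := hα.mono_set hDΩ
  have hφm : AEStronglyMeasurable φ (volume.restrict D) :=
    hφc.aestronglyMeasurable hD.measurableSet
  have hnsqm : ∀ {a : Fin n → Cn n → ℂ} {μ : Measure (Cn n)},
      (∀ j, AEStronglyMeasurable (a j) μ) →
      AEStronglyMeasurable (fun z => nsq (fun j => a j z)) μ := by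
    intro a μ ha
    unfold nsq
    exact Finset.aestronglyMeasurable_fun_sum _ fun j _ => (ha j).norm.pow 2
  have hαw : IntegrableOn (fun z => nsq (fun j => α j z) * Real.exp (l z - φ z)) D := by
    refine Integrable.mono hαDi ((hnsqm hαD).mul
      (Real.continuous_exp.comp_aestronglyMeasurable hlm)) ?_
    refine (ae_restrict_iff' hD.measurableSet).2 (Eventually.of_forall fun z hz => ?_)
    rw [norm_mul, Real.norm_of_nonneg (Real.exp_pos _).le]
    have h1 : Real.exp (l z - φ z) ≤ 1 := by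
      rw [Real.exp_le_one_iff]
      have := hW.ge z hz
      have := hW.nonneg z hz
      have := hψ0 z
      linarith
    exact mul_le_of_le_one_right (norm_nonneg _) h1
  have hαc : Closed1 D α := by
    intro χ hχ j k
    have hχ' : Test Ω χ := ⟨hχ.smooth, hχ.supp, hχ.sub.trans hDΩ⟩
    rw [← hc χ hχ' j k]
    refine (setIntegral_eq_of_subset_of_forall_sdiff_eq_zero hΩ.1.measurableSet hDΩ
      fun z hz => ?_).symm
    have h1 : ∀ i, dbar i χ z = 0 := by
      intro i
      by_contra hcon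
      exact hz.2 (hχ.sub (CALB_supp_dbar χ i hcon))
    rw [h1, h1]
    ring
  have hC := hsplit α hαD hαw hαc
  have hC2 : ∫ z in D, (∑ j, α j z * (starRingEnd ℂ) (f j z)) * (Real.exp (l z - φ z) : ℂ) =
      ∫ z in D, (∑ j, α j z * (starRingEnd ℂ) (v j z)) * (Real.exp (l z - φ z) : ℂ) := by
    have h1 : ∀ g : Fin n → Cn n → ℂ,
        ∫ z in D, (∑ j, α j z * (starRingEnd ℂ) (g j z)) * (Real.exp (l z - φ z) : ℂ) =
        (starRingEnd ℂ) (∫ z in D, (∑ j, g j z * (starRingEnd ℂ) (α j z)) *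
          (Real.exp (l z - φ z) : ℂ)) := by
      intro g
      rw [← integral_conj]
      refine integral_congr_ae (Eventually.of_forall fun z => ?_)
      show (∑ j, α j z * (starRingEnd ℂ) (g j z)) * (Real.exp (l z - φ z) : ℂ) =
        (starRingEnd ℂ) ((∑ j, g j z * (starRingEnd ℂ) (α j z)) * (Real.exp (l z - φ z) : ℂ))
      rw [map_mul, map_sum, Complex.conj_ofReal]
      congr 1
      refine Finset.sum_congr rfl fun j _ => ?_
      rw [map_mul, Complex.conj_conj]
      ring
    rw [h1, h1, hC]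
  have hC3 : ∫ z in Ω, (∑ j, α j z * (starRingEnd ℂ) (v j z)) *
        (Real.exp (-(M * nsq (z - p))) : ℂ) =
      ∫ z in D, (∑ j, α j z * (starRingEnd ℂ) (f j z)) * (Real.exp (l z - φ z) : ℂ) := by
    rw [hC2]
    refine Eq.trans (b := ∫ z in D, (∑ j, α j z * (starRingEnd ℂ) (v j z)) *
        (Real.exp (-(M * nsq (z - p))) : ℂ))
      (setIntegral_eq_of_subset_of_forall_sdiff_eq_zero hΩ.1.measurableSet hDΩ ?_) ?_
    rotate_left
    · refine setIntegral_congr_fun hD.measurableSet fun z _ => ?_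
      show (∑ j, α j z * (starRingEnd ℂ) (v j z)) * (Real.exp (-(M * nsq (z - p))) : ℂ) =
        (∑ j, α j z * (starRingEnd ℂ) (v j z)) * (Real.exp (l z - φ z) : ℂ)
      by_cases hz : z ∈ K
      · rw [hKl z hz, hKφ z hz, zero_sub]
      · simp only [hv0 _ z hz, map_zero, mul_zero, Finset.sum_const_zero, zero_mul]
    · intro z hz
      have hz' : z ∉ K := fun h => hz.2 (hKD h)
      simp only [hv0 _ z hz', map_zero, mul_zero, Finset.sum_const_zero, zero_mul]
  -- Cauchy-Schwarz
  have hsm : AEStronglyMeasurable (fun z : Cn n => Real.exp (-(M * nsq (z - p)) / 2))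
      (volume.restrict D) :=
    (Real.continuous_exp.comp (hψc.neg.div_const 2)).aestronglyMeasurable
  have htm : AEStronglyMeasurable (fun z : Cn n => Real.exp (l z - φ z + M * nsq (z - p) / 2))
      (volume.restrict D) :=
    Real.continuous_exp.comp_aestronglyMeasurable
      (hlm.add (hψc.div_const 2).aestronglyMeasurable)
  have hs2 : ∀ z : Cn n, Real.exp (-(M * nsq (z - p)) / 2) ^ 2 =
      Real.exp (-(M * nsq (z - p))) := by
    intro z
    rw [← Real.exp_nat_mul]
    congr 1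
    push_cast
    ring
  have hst : ∀ z : Cn n, Real.exp (-(M * nsq (z - p)) / 2) *
      Real.exp (l z - φ z + M * nsq (z - p) / 2) = Real.exp (l z - φ z) := by
    intro z
    rw [← Real.exp_add]
    congr 1
    ring
  have ht2 : ∀ z ∈ D, Real.exp (l z - φ z + M * nsq (z - p) / 2) ^ 2 ≤ Real.exp (-φ z) := by
    intro z hz
    rw [← Real.exp_nat_mul, Real.exp_le_exp]
    have := hW.ge z hz
    push_cast
    linarith
  have hαψ : ∀ S : Set (Cn n), S ⊆ Ω → IntegrableOn
      (fun z => nsq (fun j => α j z) * Real.exp (-(M * nsq (z - p)))) S := by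
    intro S hS
    have h1 : IntegrableOn (fun z => nsq (fun j => α j z)) S := hα.mono_set hS
    refine Integrable.mono h1 ((hnsqm fun j => (hαm j).mono_measure
      (Measure.restrict_mono hS le_rfl)).mul
      (Real.continuous_exp.comp hψc.neg).aestronglyMeasurable) ?_
    refine Eventually.of_forall fun z => ?_
    rw [norm_mul, Real.norm_of_nonneg (Real.exp_pos _).le]
    have h1 : Real.exp (-(M * nsq (z - p))) ≤ 1 := by
      rw [Real.exp_le_one_iff]
      have := hψ0 z
      linarith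
    exact mul_le_of_le_one_right (norm_nonneg _) h1
  have hfφ : IntegrableOn (fun z => nsq (fun j => f j z) * Real.exp (-φ z)) D := by
    refine Integrable.mono hfi ((hnsqm hfm).mul
      (Real.continuous_exp.comp_aestronglyMeasurable hφm.neg)) ?_
    refine (ae_restrict_iff' hD.measurableSet).2 (Eventually.of_forall fun z hz => ?_)
    rw [norm_mul, norm_mul, Real.norm_of_nonneg (Real.exp_pos _).le,
      Real.norm_of_nonneg (Real.exp_pos _).le]
    refine mul_le_mul_of_nonneg_left ?_ (norm_nonneg _)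
    rw [Real.exp_le_exp]
    have := hW.nonneg z hz
    linarith
  have hft : IntegrableOn (fun z => nsq (fun j => f j z) *
      Real.exp (l z - φ z + M * nsq (z - p) / 2) ^ 2) D := by
    refine Integrable.mono hfφ ((hnsqm hfm).mul (htm.pow 2)) ?_
    refine (ae_restrict_iff' hD.measurableSet).2 (Eventually.of_forall fun z hz => ?_)
    rw [norm_mul, norm_mul, norm_pow, Real.norm_of_nonneg (Real.exp_pos _).le,
      Real.norm_of_nonneg (Real.exp_pos _).le]
    exact mul_le_mul_of_nonneg_left (ht2 z hz) (norm_nonneg _)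
  have hαψ' : Integrable (fun z => nsq (fun j => α j z) *
      Real.exp (-(M * nsq (z - p)) / 2) ^ 2) (volume.restrict D) := by
    simp only [hs2]
    exact hαψ D hDΩ
  have hCS := (STR_cs hαD hfm hsm htm (fun z => (Real.exp_pos _).le)
    (fun z => (Real.exp_pos _).le) hαψ' hft).2
  simp only [hst, hs2] at hCS
  have h1 : ∫ z in D, nsq (fun j => α j z) * Real.exp (-(M * nsq (z - p))) ≤
      ∫ z in Ω, nsq (fun j => α j z) * Real.exp (-(M * nsq (z - p))) := by
    refine setIntegral_mono_set (hαψ Ω le_rfl) (Eventually.of_forall fun z => ?_)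
      hDΩ.eventuallyLE
    exact mul_nonneg (STR_nsq_nonneg _) (Real.exp_pos _).le
  have h2 : ∫ z in D, nsq (fun j => f j z) *
      Real.exp (l z - φ z + M * nsq (z - p) / 2) ^ 2 ≤
      ∫ z in D, nsq (fun j => f j z) * Real.exp (-φ z) := by
    refine setIntegral_mono_on hft hfφ hD.measurableSet fun z hz => ?_
    exact mul_le_mul_of_nonneg_left (ht2 z hz) (STR_nsq_nonneg _)
  have hP : 0 ≤ ∫ z in Ω, nsq (fun j => α j z) * Real.exp (-(M * nsq (z - p))) :=
    integral_nonneg fun z => mul_nonneg (STR_nsq_nonneg _) (Real.exp_pos _).le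
  have hQ : 0 ≤ ∫ z in D, nsq (fun j => f j z) *
      Real.exp (l z - φ z + M * nsq (z - p) / 2) ^ 2 :=
    integral_nonneg fun z => mul_nonneg (STR_nsq_nonneg _) (by positivity)
  rw [hC3]
  have hNz : ∀ z, ∑ j, (dd j (v j) z - v j z * ((M : ℂ) * (starRingEnd ℂ) (z j - p j))) = N z := by
    intro z
    rw [hN]
  simp only [hNz]
  refine hCS.trans ?_
  have h3 : ∫ z in D, nsq (fun j => f j z) * Real.exp (-φ z) ≤
      2 / M * ∫ z in Ω, ‖N z‖ ^ 2 * Real.exp (-(M * nsq (z - p))) := by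
    rw [div_mul_eq_mul_div, le_div_iff₀ hM, mul_comm]
    exact hB2
  calc (∫ z in D, nsq (fun j => α j z) * Real.exp (-(M * nsq (z - p)))) *
      ∫ z in D, nsq (fun j => f j z) * Real.exp (l z - φ z + M * nsq (z - p) / 2) ^ 2
      ≤ (∫ z in Ω, nsq (fun j => α j z) * Real.exp (-(M * nsq (z - p)))) *
        (2 / M * ∫ z in Ω, ‖N z‖ ^ 2 * Real.exp (-(M * nsq (z - p)))) :=
        mul_le_mul h1 (h2.trans h3) hQ hP
    _ = _ := by ring

end DN
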