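import Pool.Agent.H49.DN.SDefs
import Pool.Agent.H49.DN.FIN

/-! # Transfer to the definitions of `SDefs.lean` (they are definitionally the same) -/

set_option autoImplicit false

namespace DNS

open MeasureTheory Set Filter Topology ContDiff

variable {n : ℕ}

theorem test_iff (Ω : Set (Cn n)) (φ : Cn n → ℂ) : Test Ω φ ↔ DN.Test Ω φ :=
  ⟨fun h => ⟨h.1, h.2.1, h.2.2⟩, fun h => ⟨h.smooth, h.supp, h.sub⟩⟩

theorem dbar0_iff (Ω : Set (Cn n)) (u : E0 Ω) (α : E1 Ω) :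
    IsDbar0 Ω u α ↔ DN.IsDbar0 Ω (show DN.L20 Ω from u) (show DN.L21 Ω from α) :=
  ⟨fun h φ hφ j => h φ ((test_iff Ω φ).2 hφ) j, fun h φ hφ j => h φ ((test_iff Ω φ).1 hφ) j⟩

theorem dbar1_iff (Ω : Set (Cn n)) (f : E1 Ω) (k : E2 Ω) :
    IsDbar1 Ω f k ↔ DN.IsDbar1 Ω (show DN.L21 Ω from f) (show DN.L22 Ω from k) :=
  ⟨fun h φ hφ j => h φ ((test_iff Ω φ).2 hφ) j, fun h φ hφ j => h φ ((test_iff Ω φ).1 hφ) j⟩

theorem star0_iff (Ω : Set (Cn n)) (f : E1 Ω) (u : E0 Ω) :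
    IsStar0 Ω f u ↔ DN.IsStar0 Ω (show DN.L21 Ω from f) (show DN.L20 Ω from u) :=
  ⟨fun h v α hv => h v α ((dbar0_iff Ω v α).2 hv),
    fun h v α hv => h v α ((dbar0_iff Ω v α).1 hv)⟩

theorem star1_iff (Ω : Set (Cn n)) (k : E2 Ω) (f : E1 Ω) :
    IsStar1 Ω k f ↔ DN.IsStar1 Ω (show DN.L22 Ω from k) (show DN.L21 Ω from f) :=
  ⟨fun h v α hv => h v α ((dbar1_iff Ω v α).2 hv),
    fun h v α hv => h v α ((dbar1_iff Ω v α).1 hv)⟩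

theorem box_iff (Ω : Set (Cn n)) (f g : E1 Ω) :
    IsBox Ω f g ↔ DN.IsBox Ω (show DN.L21 Ω from f) (show DN.L21 Ω from g) := by
  constructor
  · rintro ⟨u, k, a, b, h1, h2, h3, h4, h5⟩
    exact ⟨u, k, a, b, (star0_iff Ω f u).1 h1, (dbar0_iff Ω u a).1 h2, (dbar1_iff Ω f k).1 h3,
      (star1_iff Ω k b).1 h4, h5⟩
  · rintro ⟨u, k, a, b, h1, h2, h3, h4, h5⟩
    exact ⟨u, k, a, b, (star0_iff Ω f u).2 h1, (dbar0_iff Ω u a).2 h2, (dbar1_iff Ω f k).2 h3,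
      (star1_iff Ω k b).2 h4, h5⟩

theorem neumann (Ω : Set (Cn n)) (h : DN.CompactNeumann Ω) : CompactNeumann Ω := by
  obtain ⟨N, h1, h2, h3⟩ := h
  exact ⟨N, h1, fun g => (box_iff Ω _ _).2 (h2 g), fun f g hfg => h3 f g ((box_iff Ω f g).1 hfg)⟩

theorem comm (Ω : Set (Cn n)) (B : Op0 Ω) (h : CompactCommutators Ω B) :
    DN.CompactCommutators Ω (show DN.L20 Ω →L[ℂ] DN.L20 Ω from B) := by
  intro ψ hψ M hM
  exact h ψ hψ M ((show DN.L20 Ω →L[ℂ] DN.L20 Ω from B) ∘L M -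
    M ∘L (show DN.L20 Ω →L[ℂ] DN.L20 Ω from B)) hM (fun u => rfl)

theorem transfer {Ω : Set (Cn n)} (hb : Bornology.IsBounded Ω) (hΩ : Pseudoconvex Ω) :
    (∃! B, IsBergman Ω B) ∧
      ∀ B, IsBergman Ω B → CompactCommutators Ω B → CompactNeumann Ω := by
  have hΩ' : DN.Pseudoconvex Ω := hΩ
  refine ⟨DN.exists_bergman hΩ'.1, fun B hB hc => ?_⟩
  exact neumann Ω (DN.main hb hΩ' (B := (show DN.L20 Ω →L[ℂ] DN.L20 Ω from B)) hB (comm Ω B hc))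

end DNS
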