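import Pool.Agent.H49.DN.APR
import Pool.Agent.H49.DN.MOLB

/-! # WAP: the a priori inequality for compactly supported forms with weak derivatives

PROOF. `F^m = cv m (F j)`: smooth, supported in the fixed compact set `K' = cthickening 1 K`; on `K'`, `φ`, `dd φ`, the
coefficients of the Levi form are bounded. By `weak_div_cv`, `weak_curl_cv`: `∑ dd j F^m_j = cv m W`,
`dbar j F^m_k - dbar k F^m_j = cv m (G j k)`. `apriori` for `F^m`:
`R_m := ∫ |cv m W - ∑ F^m_j dd j φ|² e^{-φ} + ½ ∑∑ ∫ |cv m (G j k)|² e^{-φ} - ∫ levi φ (F^m) e^{-φ}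
 = ∑∑ ∫ |dbar k F^m_j|² e^{-φ} ≥ 0`. By `cv_tendsto` (and boundedness of the weights on `K'`) `R_m → R`, the same
expression for `F, W, G`. (Quadratic expressions in `L²(K')`-convergent functions converge; a clean way: each term is
a continuous quadratic form.) For test functions `θ j k`: `∑∑ ∫ F^m_j dbar k θ_jk = -∑∑ ∫ dbar k F^m_j θ_jk`
(`ibp_dbar`), and Cauchy-Schwarz `|∑∑ ∫ dbar k F^m_j θ_jk|² ≤ (∑∑ ∫ |dbar k F^m_j|² e^{-φ}) (∑∑ ∫ |θ_jk|² e^{φ}) =
R_m · (∑∑ ∫ |θ_jk|² e^{φ})`; the left side converges. -/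

set_option autoImplicit false

namespace DN

open MeasureTheory Set Filter Topology ContDiff

variable {n : ℕ}

/-- convergence in `L²` of a sequence of functions -/
structure WAP_c (u : ℕ → Cn n → ℂ) (v : Cn n → ℂ) : Prop where
  mem : ∀ m, MemLp (u m) 2 volume
  lim : MemLp v 2 volume
  tend : Tendsto (fun m => eLpNorm (fun z => u m z - v z) 2 volume) atTop (𝓝 0)

theorem WAP_const {v : Cn n → ℂ} (hv : MemLp v 2 volume) : WAP_c (fun _ => v) v := by
  refine ⟨fun _ => hv, hv, ?_⟩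
  simp

theorem WAP_sub {u a : ℕ → Cn n → ℂ} {v b : Cn n → ℂ} (h : WAP_c u v) (h' : WAP_c a b) :
    WAP_c (fun m z => u m z - a m z) (fun z => v z - b z) := by
  refine ⟨fun m => (h.mem m).sub (h'.mem m), h.lim.sub h'.lim, ?_⟩
  have h0 : Tendsto (fun m => eLpNorm (fun z => u m z - v z) 2 volume +
      eLpNorm (fun z => a m z - b z) 2 volume) atTop (𝓝 0) := by
    simpa using h.tend.add h'.tend
  refine tendsto_of_tendsto_of_tendsto_of_le_of_le tendsto_const_nhds h0 (fun m => zero_le)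
    (fun m => ?_)
  have h1 : (fun z => u m z - a m z - (v z - b z)) =
      (fun z => u m z - v z) - fun z => a m z - b z := by
    ext z; simp only [Pi.sub_apply]; ring
  simp only [h1]
  exact eLpNorm_sub_le ((h.mem m).sub h.lim).1 ((h'.mem m).sub h'.lim).1 (by norm_num)

theorem WAP_add {u a : ℕ → Cn n → ℂ} {v b : Cn n → ℂ} (h : WAP_c u v) (h' : WAP_c a b) :
    WAP_c (fun m z => u m z + a m z) (fun z => v z + b z) := by
  refine ⟨fun m => (h.mem m).add (h'.mem m), h.lim.add h'.lim, ?_⟩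
  have h0 : Tendsto (fun m => eLpNorm (fun z => u m z - v z) 2 volume +
      eLpNorm (fun z => a m z - b z) 2 volume) atTop (𝓝 0) := by
    simpa using h.tend.add h'.tend
  refine tendsto_of_tendsto_of_tendsto_of_le_of_le tendsto_const_nhds h0 (fun m => zero_le)
    (fun m => ?_)
  have h1 : (fun z => u m z + a m z - (v z + b z)) =
      (fun z => u m z - v z) + fun z => a m z - b z := by
    ext z; simp only [Pi.add_apply]; ring
  simp only [h1]
  exact eLpNorm_add_le ((h.mem m).sub h.lim).1 ((h'.mem m).sub h'.lim).1 (by norm_num)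

theorem WAP_sum {ι : Type} (s : Finset ι) {u : ι → ℕ → Cn n → ℂ} {v : ι → Cn n → ℂ}
    (h : ∀ i, WAP_c (u i) (v i)) :
    WAP_c (fun m z => ∑ i ∈ s, u i m z) (fun z => ∑ i ∈ s, v i z) := by
  classical
  induction s using Finset.induction_on with
  | empty =>
    have := WAP_const (n := n) (v := fun _ => 0) MemLp.zero'
    simpa using this
  | insert i s hi ih =>
    have := WAP_add (h i) ih
    simpa [Finset.sum_insert hi] using this

theorem WAP_mul {u : ℕ → Cn n → ℂ} {v g : Cn n → ℂ} {K : Set (Cn n)} (h : WAP_c u v)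
    (hK : IsCompact K) (hg : Continuous g) (hu : ∀ m z, z ∉ K → u m z = 0)
    (hv : ∀ z, z ∉ K → v z = 0) : WAP_c (fun m z => g z * u m z) (fun z => g z * v z) := by
  obtain ⟨C, hC⟩ := hK.exists_bound_of_continuousOn hg.continuousOn
  set c : ℝ := max C 0 with hc
  have key : ∀ w : Cn n → ℂ, (∀ z, z ∉ K → w z = 0) → ∀ z, ‖g z * w z‖ ≤ c * ‖w z‖ := by
    intro w hw z
    by_cases hz : z ∈ K
    · rw [norm_mul]
      exact mul_le_mul_of_nonneg_right ((hC z hz).trans (le_max_left _ _)) (norm_nonneg _)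
    · rw [hw z hz]; simp
  have hm : ∀ w : Cn n → ℂ, MemLp w 2 volume → (∀ z, z ∉ K → w z = 0) →
      MemLp (fun z => g z * w z) 2 volume := fun w hw hw0 =>
    hw.of_le_mul (hg.aestronglyMeasurable.mul hw.1) (Eventually.of_forall (key w hw0))
  refine ⟨fun m => hm _ (h.mem m) (hu m), hm _ h.lim hv, ?_⟩
  have h0 : Tendsto (fun m => ENNReal.ofReal c * eLpNorm (fun z => u m z - v z) 2 volume)
      atTop (𝓝 0) := by
    have := ENNReal.Tendsto.const_mul h.tend (Or.inr (ENNReal.ofReal_ne_top (r := c)))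
    simpa using this
  refine tendsto_of_tendsto_of_tendsto_of_le_of_le tendsto_const_nhds h0 (fun m => zero_le)
    (fun m => ?_)
  have h1 : (fun z => g z * u m z - g z * v z) = fun z => g z * (u m z - v z) := by
    ext z; ring
  simp only [h1]
  refine eLpNorm_le_mul_eLpNorm_of_ae_le_mul (Eventually.of_forall fun z => ?_) 2
  exact key (fun z => u m z - v z) (fun z hz => by simp [hu m z hz, hv z hz]) z

theorem WAP_inner {u a : ℕ → Cn n → ℂ} {v b : Cn n → ℂ} (h : WAP_c u v) (h' : WAP_c a b) :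
    Tendsto (fun m => ∫ z, u m z * (starRingEnd ℂ) (a m z)) atTop
      (𝓝 (∫ z, v z * (starRingEnd ℂ) (b z))) := by
  have hlp : ∀ {u : ℕ → Cn n → ℂ} {v : Cn n → ℂ} (h : WAP_c u v),
      Tendsto (fun m => (h.mem m).toLp (u m)) atTop (𝓝 (h.lim.toLp v)) := by
    intro u v h
    rw [Lp.tendsto_Lp_iff_tendsto_eLpNorm'']
    exact h.tend
  have hin : ∀ {f g : Cn n → ℂ} (hf : MemLp f 2 volume) (hg : MemLp g 2 volume),
      inner ℂ (hg.toLp g) (hf.toLp f) = ∫ z, f z * (starRingEnd ℂ) (g z) := by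
    intro f g hf hg
    rw [L2.inner_def]
    refine integral_congr_ae ?_
    filter_upwards [hf.coeFn_toLp, hg.coeFn_toLp] with z h1 h2
    rw [h1, h2, RCLike.inner_apply]
  have := (hlp h').inner (𝕜 := ℂ) (hlp h)
  simpa only [hin] using this

theorem WAP_cv {u : Cn n → ℂ} (hu : MemLp u 2 volume) : WAP_c (fun m => cv m u) u := by
  refine ⟨fun m => cv_memLp hu m, hu, ?_⟩
  have h1 : ∀ m, eLpNorm (fun z => cv m u z - u z) 2 volume =
      ENNReal.ofReal ((∫ z, ‖cv m u z - u z‖ ^ 2) ^ ((1 : ℝ) / 2)) := by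
    intro m
    have hm : MemLp (fun z => cv m u z - u z) 2 volume := (cv_memLp hu m).sub hu
    rw [hm.eLpNorm_eq_integral_rpow_norm (by norm_num) (by norm_num)]
    norm_num
  simp only [h1]
  have h2 : Tendsto (fun m => (∫ z, ‖cv m u z - u z‖ ^ 2) ^ ((1 : ℝ) / 2)) atTop
      (𝓝 ((0 : ℝ) ^ ((1 : ℝ) / 2))) :=
    (cv_tendsto hu).rpow_const (Or.inr (by norm_num))
  rw [Real.zero_rpow (by norm_num)] at h2
  have := ENNReal.tendsto_ofReal h2
  simpa using this

theorem WAP_sq {u : ℕ → Cn n → ℂ} {v : Cn n → ℂ} {φ : Cn n → ℝ} {K : Set (Cn n)}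
    (h : WAP_c u v) (hK : IsCompact K) (hφ : Continuous φ) (hu : ∀ m z, z ∉ K → u m z = 0)
    (hv : ∀ z, z ∉ K → v z = 0) :
    Tendsto (fun m => ∫ z, ‖u m z‖ ^ 2 * Real.exp (-φ z)) atTop
      (𝓝 (∫ z, ‖v z‖ ^ 2 * Real.exp (-φ z))) := by
  have hg : Continuous fun z : Cn n => ((Real.exp (-φ z) : ℝ) : ℂ) := by fun_prop
  have h1 := WAP_inner (WAP_mul h hK hg hu hv) h
  have h2 : ∀ w : Cn n → ℂ, ∫ z, ((Real.exp (-φ z) : ℝ) : ℂ) * w z * (starRingEnd ℂ) (w z) =
      ((∫ z, ‖w z‖ ^ 2 * Real.exp (-φ z) : ℝ) : ℂ) := by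
    intro w
    rw [← integral_complex_ofReal]
    congr 1
    ext z
    rw [mul_assoc, Complex.mul_conj, Complex.normSq_eq_norm_sq]
    push_cast
    ring
  simp only [h2] at h1
  have h3 := (Complex.continuous_re.tendsto _).comp h1
  simpa [Function.comp_def] using h3

theorem WAP_levi {f : Fin n → Cn n → ℂ} {φ : Cn n → ℝ} {K : Set (Cn n)} (hK : IsCompact K)
    (hφ : ContDiff ℝ ∞ φ) (hf : ∀ j, MemLp (f j) 2 volume) (hf0 : ∀ j z, z ∉ K → f j z = 0) :
    ∫ z, levi φ z (fun j => f j z) * Real.exp (-φ z) =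
      (∑ j, ∑ k, ∫ z, ((Real.exp (-φ z) : ℝ) * dd j (dbar k (cx φ)) z) * f j z *
        (starRingEnd ℂ) (f k z)).re := by
  have hcx : ContDiff ℝ ∞ (cx φ) := Complex.ofRealCLM.contDiff.comp hφ
  have hL : ∀ j k : Fin n, Continuous fun z : Cn n =>
      ((Real.exp (-φ z) : ℝ) : ℂ) * dd j (dbar k (cx φ)) z := fun j k =>
    (Complex.continuous_ofReal.comp (Real.continuous_exp.comp hφ.continuous.neg)).mul
      (contDiff_dd (contDiff_dbar hcx k) j).continuous
  have hint : ∀ j k : Fin n, Integrable (fun z => ((Real.exp (-φ z) : ℝ) *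
      dd j (dbar k (cx φ)) z) * f j z * (starRingEnd ℂ) (f k z)) volume := by
    intro j k
    have h1 := (WAP_mul (WAP_const (hf j)) hK (hL j k) (fun _ => hf0 j) (hf0 j)).lim
    have h2 : MemLp (fun z => (starRingEnd ℂ) (f k z)) 2 volume := (hf k).star
    exact h1.integrable_mul h2
  have h3 : ∑ j, ∑ k, ∫ z, ((Real.exp (-φ z) : ℝ) * dd j (dbar k (cx φ)) z) * f j z *
        (starRingEnd ℂ) (f k z) = ∫ z, ∑ j, ∑ k, ((Real.exp (-φ z) : ℝ) *
        dd j (dbar k (cx φ)) z) * f j z * (starRingEnd ℂ) (f k z) := by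
    rw [integral_finsetSum]
    · refine Finset.sum_congr rfl fun j _ => ?_
      rw [integral_finsetSum]
      exact fun k _ => hint j k
    · exact fun j _ => integrable_finsetSum _ fun k _ => hint j k
  have hI : Integrable (fun z => ∑ j, ∑ k, ((Real.exp (-φ z) : ℝ) *
        dd j (dbar k (cx φ)) z) * f j z * (starRingEnd ℂ) (f k z)) volume :=
    integrable_finsetSum _ fun j _ => integrable_finsetSum _ fun k _ => hint j k
  rw [h3]
  have h4 := integral_re hI
  simp only [RCLike.re_eq_complex_re] at h4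
  rw [← h4]
  congr 1
  ext z
  have h5 : ∑ j, ∑ k, ((Real.exp (-φ z) : ℝ) * dd j (dbar k (cx φ)) z) * f j z *
      (starRingEnd ℂ) (f k z) = ((Real.exp (-φ z) : ℝ) : ℂ) * ∑ j, ∑ k,
        dd j (dbar k (cx φ)) z * f j z * (starRingEnd ℂ) (f k z) := by
    rw [Finset.mul_sum]
    refine Finset.sum_congr rfl fun j _ => ?_
    rw [Finset.mul_sum]
    refine Finset.sum_congr rfl fun k _ => ?_
    ring
  rw [h5, Complex.re_ofReal_mul, levi, mul_comm]

theorem WAP_levi_tendsto {u : Fin n → ℕ → Cn n → ℂ} {f : Fin n → Cn n → ℂ} {φ : Cn n → ℝ}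
    {K : Set (Cn n)} (hK : IsCompact K) (hφ : ContDiff ℝ ∞ φ) (h : ∀ j, WAP_c (u j) (f j))
    (hu : ∀ j m z, z ∉ K → u j m z = 0) (hf : ∀ j z, z ∉ K → f j z = 0) :
    Tendsto (fun m => ∫ z, levi φ z (fun j => u j m z) * Real.exp (-φ z)) atTop
      (𝓝 (∫ z, levi φ z (fun j => f j z) * Real.exp (-φ z))) := by
  have hcx : ContDiff ℝ ∞ (cx φ) := Complex.ofRealCLM.contDiff.comp hφ
  have hL : ∀ j k : Fin n, Continuous fun z : Cn n =>
      ((Real.exp (-φ z) : ℝ) : ℂ) * dd j (dbar k (cx φ)) z := fun j k =>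
    (Complex.continuous_ofReal.comp (Real.continuous_exp.comp hφ.continuous.neg)).mul
      (contDiff_dd (contDiff_dbar hcx k) j).continuous
  rw [WAP_levi hK hφ (fun j => (h j).lim) hf]
  have h1 : ∀ m, ∫ z, levi φ z (fun j => u j m z) * Real.exp (-φ z) =
      (∑ j, ∑ k, ∫ z, ((Real.exp (-φ z) : ℝ) * dd j (dbar k (cx φ)) z) * u j m z *
        (starRingEnd ℂ) (u k m z)).re := fun m =>
    WAP_levi hK hφ (fun j => (h j).mem m) fun j => hu j m
  simp only [h1]
  refine (Complex.continuous_re.tendsto _).comp ?_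
  refine tendsto_finsetSum _ fun j _ => tendsto_finsetSum _ fun k _ => ?_
  exact WAP_inner (WAP_mul (h j) hK (hL j k) (hu j) (hf j)) (h k)

/-- Cauchy-Schwarz -/
theorem WAP_cs {b θ : Fin n → Fin n → Cn n → ℂ} {φ : Cn n → ℝ} (hφ : Continuous φ)
    (hb : ∀ j k, Continuous (b j k)) (hbs : ∀ j k, HasCompactSupport (b j k))
    (hθ : ∀ j k, Continuous (θ j k)) (hθs : ∀ j k, HasCompactSupport (θ j k)) :
    ‖∑ j, ∑ k, ∫ z, b j k z * θ j k z‖ ^ 2 ≤
      (∑ j, ∑ k, ∫ z, ‖b j k z‖ ^ 2 * Real.exp (-φ z)) *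
        ∑ j, ∑ k, ∫ z, ‖θ j k z‖ ^ 2 * Real.exp (φ z) := by
  set Q := ∑ j, ∑ k, ∫ z, ‖b j k z‖ ^ 2 * Real.exp (-φ z) with hQ
  set T := ∑ j, ∑ k, ∫ z, ‖θ j k z‖ ^ 2 * Real.exp (φ z) with hT
  set X := ∑ j, ∑ k, ∫ z, ‖b j k z‖ * ‖θ j k z‖ with hX
  have h1 : ∀ j k, Integrable (fun z => ‖b j k z‖ ^ 2 * Real.exp (-φ z)) volume := fun j k =>
    Continuous.integrable_of_hasCompactSupport (by fun_prop)
      (((hbs j k).comp_left (g := fun x : ℂ => ‖x‖ ^ 2) (by simp)).mul_right)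
  have h2 : ∀ j k, Integrable (fun z => ‖θ j k z‖ ^ 2 * Real.exp (φ z)) volume := fun j k =>
    Continuous.integrable_of_hasCompactSupport (by fun_prop)
      (((hθs j k).comp_left (g := fun x : ℂ => ‖x‖ ^ 2) (by simp)).mul_right)
  have h3 : ∀ j k, Integrable (fun z => ‖b j k z‖ * ‖θ j k z‖) volume := fun j k =>
    Continuous.integrable_of_hasCompactSupport (by fun_prop) ((hbs j k).norm.mul_right)
  have hle : ‖∑ j, ∑ k, ∫ z, b j k z * θ j k z‖ ≤ X := by
    refine (norm_sum_le _ _).trans (Finset.sum_le_sum fun j _ => ?_)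
    refine (norm_sum_le _ _).trans (Finset.sum_le_sum fun k _ => ?_)
    refine (norm_integral_le_integral_norm _).trans (le_of_eq ?_)
    simp only [norm_mul]
  have hquad : ∀ t : ℝ, 0 ≤ Q * (t * t) + (-2 * X) * t + T := by
    intro t
    have h4 : Q * (t * t) + (-2 * X) * t + T = ∑ j, ∑ k, ∫ z,
        (t * ‖b j k z‖ * Real.exp (-φ z / 2) - ‖θ j k z‖ * Real.exp (φ z / 2)) ^ 2 := by
      rw [hQ, hT, hX]
      simp only [Finset.sum_mul, Finset.mul_sum, ← Finset.sum_add_distrib]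
      refine Finset.sum_congr rfl fun j _ => Finset.sum_congr rfl fun k _ => ?_
      rw [← integral_mul_const, ← integral_const_mul, ← integral_mul_const]
      have e1 : ∀ z, (t * ‖b j k z‖ * Real.exp (-φ z / 2) -
          ‖θ j k z‖ * Real.exp (φ z / 2)) ^ 2 =
          ‖b j k z‖ ^ 2 * Real.exp (-φ z) * (t * t) + -2 * (‖b j k z‖ * ‖θ j k z‖) * t +
            ‖θ j k z‖ ^ 2 * Real.exp (φ z) := by
        intro z
        have e2 : Real.exp (-φ z / 2) * Real.exp (-φ z / 2) = Real.exp (-φ z) := by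
          rw [← Real.exp_add]; congr 1; ring
        have e3 : Real.exp (φ z / 2) * Real.exp (φ z / 2) = Real.exp (φ z) := by
          rw [← Real.exp_add]; congr 1; ring
        have e4 : Real.exp (-φ z / 2) * Real.exp (φ z / 2) = 1 := by
          rw [← Real.exp_add]; rw [show -φ z / 2 + φ z / 2 = 0 by ring]; exact Real.exp_zero
        linear_combination (t * t * ‖b j k z‖ ^ 2) * e2 + ‖θ j k z‖ ^ 2 * e3 -
          2 * t * ‖b j k z‖ * ‖θ j k z‖ * e4
      simp only [e1]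
      have i1 : Integrable (fun z => ‖b j k z‖ ^ 2 * Real.exp (-φ z) * (t * t)) volume :=
        (h1 j k).mul_const _
      have i2 : Integrable (fun z => -2 * (‖b j k z‖ * ‖θ j k z‖) * t) volume :=
        ((h3 j k).const_mul _).mul_const _
      have i3 : Integrable (fun z => ‖b j k z‖ ^ 2 * Real.exp (-φ z) * (t * t) +
          -2 * (‖b j k z‖ * ‖θ j k z‖) * t) volume := i1.add i2
      rw [integral_add i3 (h2 j k), integral_add i1 i2]
    rw [h4]
    exact Finset.sum_nonneg fun j _ => Finset.sum_nonneg fun k _ =>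
      integral_nonneg fun z => sq_nonneg _
  have hd := discrim_le_zero hquad
  rw [discrim] at hd
  have hX0 : X ^ 2 ≤ Q * T := by nlinarith
  calc ‖∑ j, ∑ k, ∫ z, b j k z * θ j k z‖ ^ 2 ≤ X ^ 2 :=
        pow_le_pow_left₀ (norm_nonneg _) hle 2
    _ ≤ Q * T := hX0

theorem weak_apriori {F : Fin n → Cn n → ℂ} {W : Cn n → ℂ} {Gf : Fin n → Fin n → Cn n → ℂ}
    {φ : Cn n → ℝ} {K : Set (Cn n)} (hK : IsCompact K) (hφ : ContDiff ℝ ∞ φ)
    (hF : ∀ j, MemLp (F j) 2 volume) (hF0 : ∀ j z, z ∉ K → F j z = 0)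
    (hW : MemLp W 2 volume) (hW0 : ∀ z, z ∉ K → W z = 0)
    (hG : ∀ j k, MemLp (Gf j k) 2 volume) (hG0 : ∀ j k z, z ∉ K → Gf j k z = 0)
    (h1 : ∀ θ, Test univ θ → ∑ j, ∫ z, F j z * dd j θ z = -∫ z, W z * θ z)
    (h2 : ∀ θ, Test univ θ → ∀ j k,
      ∫ z, (F k z * dbar j θ z - F j z * dbar k θ z) = -∫ z, Gf j k z * θ z) {R : ℝ}
    (hR : R = (∫ z, ‖W z - ∑ j, F j z * dd j (cx φ) z‖ ^ 2 * Real.exp (-φ z)) +
      1 / 2 * (∑ j, ∑ k, ∫ z, ‖Gf j k z‖ ^ 2 * Real.exp (-φ z)) -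
      ∫ z, levi φ z (fun j => F j z) * Real.exp (-φ z)) :
    0 ≤ R ∧ ∀ θ : Fin n → Fin n → Cn n → ℂ, (∀ j k, Test univ (θ j k)) →
      ‖∑ j, ∑ k, ∫ z, F j z * dbar k (θ j k) z‖ ^ 2 ≤
        R * ∑ j, ∑ k, ∫ z, ‖θ j k z‖ ^ 2 * Real.exp (φ z) := by
  have hcx : ContDiff ℝ ∞ (cx φ) := Complex.ofRealCLM.contDiff.comp hφ
  set K' : Set (Cn n) := Metric.cthickening 1 K with hK'
  have hK'c : IsCompact K' := hK.cthickening
  have hsub : K ⊆ K' := Metric.self_subset_cthickening K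
  have hF0' : ∀ j z, z ∉ K' → F j z = 0 := fun j z hz => hF0 j z fun h => hz (hsub h)
  have hW0' : ∀ z, z ∉ K' → W z = 0 := fun z hz => hW0 z fun h => hz (hsub h)
  have hG0' : ∀ j k z, z ∉ K' → Gf j k z = 0 := fun j k z hz => hG0 j k z fun h => hz (hsub h)
  have hFl : ∀ j, LocallyIntegrable (F j) volume := fun j =>
    (hF j).locallyIntegrable (by norm_num)
  have hWl : LocallyIntegrable W volume := hW.locallyIntegrable (by norm_num)
  have hGl : ∀ j k, LocallyIntegrable (Gf j k) volume := fun j k =>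
    (hG j k).locallyIntegrable (by norm_num)
  have cF := fun j => WAP_cv (hF j)
  have cW := WAP_cv hW
  have cG := fun j k => WAP_cv (hG j k)
  have zF : ∀ j m z, z ∉ K' → cv m (F j) z = 0 := fun j m z hz => cv_zero (hF0 j) m hz
  have zW : ∀ m z, z ∉ K' → cv m W z = 0 := fun m z hz => cv_zero hW0 m hz
  have zG : ∀ j k m z, z ∉ K' → cv m (Gf j k) z = 0 := fun j k m z hz => cv_zero (hG0 j k) m hz
  have sF : ∀ m j, ContDiff ℝ ∞ (cv m (F j)) := fun m j => cv_smooth (hFl j) m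
  have kF : ∀ m j, HasCompactSupport (cv m (F j)) := fun m j =>
    HasCompactSupport.intro hK'c fun z hz => zF j m z hz
  -- the sequence
  set r : ℕ → ℝ := fun m => ∑ j, ∑ k, ∫ z, ‖dbar k (cv m (F j)) z‖ ^ 2 * Real.exp (-φ z) with hr
  have hr1 : ∀ m, r m = (∫ z, ‖cv m W z - ∑ j, cv m (F j) z * dd j (cx φ) z‖ ^ 2 *
      Real.exp (-φ z)) +
      1 / 2 * (∑ j, ∑ k, ∫ z, ‖cv m (Gf j k) z‖ ^ 2 * Real.exp (-φ z)) -
      ∫ z, levi φ z (fun j => cv m (F j) z) * Real.exp (-φ z) := by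
    intro m
    have h3 := apriori hφ (sF m) (kF m)
    have h4 : ∀ z, ∑ j, (dd j (cv m (F j)) z - cv m (F j) z * dd j (cx φ) z) =
        cv m W z - ∑ j, cv m (F j) z * dd j (cx φ) z := by
      intro z
      rw [Finset.sum_sub_distrib, weak_div_cv hFl hWl h1 m z]
    have h5 : ∀ j k z, dbar j (cv m (F k)) z - dbar k (cv m (F j)) z = cv m (Gf j k) z :=
      fun j k z => weak_curl_cv (hFl k) (hFl j) (hGl j k) (fun θ hθ => h2 θ hθ j k) m z
    simp only [h4, h5] at h3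
    rw [hr]
    linarith
  have hrlim : Tendsto r atTop (𝓝 R) := by
    have l1 : Tendsto (fun m => ∫ z, ‖cv m W z - ∑ j, cv m (F j) z * dd j (cx φ) z‖ ^ 2 *
        Real.exp (-φ z)) atTop
        (𝓝 (∫ z, ‖W z - ∑ j, F j z * dd j (cx φ) z‖ ^ 2 * Real.exp (-φ z))) := by
      have hsum : WAP_c (fun m z => ∑ j, cv m (F j) z * dd j (cx φ) z)
          (fun z => ∑ j, F j z * dd j (cx φ) z) := by
        refine WAP_sum Finset.univ (u := fun j m z => cv m (F j) z * dd j (cx φ) z)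
          (v := fun j z => F j z * dd j (cx φ) z) fun j => ?_
        have := WAP_mul (cF j) hK'c (contDiff_dd hcx j).continuous (zF j) (hF0' j)
        simpa only [mul_comm] using this
      refine WAP_sq (WAP_sub cW hsum) hK'c hφ.continuous ?_ ?_
      · intro m z hz
        simp only [zW m z hz]
        rw [Finset.sum_eq_zero fun j _ => by rw [zF j m z hz, zero_mul]]
        simp
      · intro z hz
        simp only [hW0' z hz]
        rw [Finset.sum_eq_zero fun j _ => by rw [hF0' j z hz, zero_mul]]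
        simp
    have l2 : Tendsto (fun m => ∑ j, ∑ k, ∫ z, ‖cv m (Gf j k) z‖ ^ 2 * Real.exp (-φ z)) atTop
        (𝓝 (∑ j, ∑ k, ∫ z, ‖Gf j k z‖ ^ 2 * Real.exp (-φ z))) :=
      tendsto_finsetSum _ fun j _ => tendsto_finsetSum _ fun k _ =>
        WAP_sq (cG j k) hK'c hφ.continuous (zG j k) (hG0' j k)
    have l3 := WAP_levi_tendsto hK'c hφ cF zF hF0'
    rw [hR]
    simp only [funext hr1]
    exact (l1.add (l2.const_mul _)).sub l3
  have hr0 : ∀ m, 0 ≤ r m := fun m => Finset.sum_nonneg fun j _ => Finset.sum_nonneg fun k _ =>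
    integral_nonneg fun z => by positivity
  refine ⟨ge_of_tendsto' hrlim hr0, fun θ hθ => ?_⟩
  have hcs : ∀ m, ‖∑ j, ∑ k, ∫ z, cv m (F j) z * dbar k (θ j k) z‖ ^ 2 ≤
      r m * ∑ j, ∑ k, ∫ z, ‖θ j k z‖ ^ 2 * Real.exp (φ z) := by
    intro m
    have h6 : ∀ j k, ∫ z, cv m (F j) z * dbar k (θ j k) z =
        -∫ z, dbar k (cv m (F j)) z * θ j k z := fun j k =>
      ibp_dbar ((sF m j).of_le (by simp)) ((hθ j k).smooth.of_le (by simp))
        (Or.inl (kF m j)) k
    simp only [h6, Finset.sum_neg_distrib, norm_neg]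
    refine WAP_cs (b := fun j k => dbar k (cv m (F j))) hφ.continuous ?_ ?_ ?_ ?_
    · exact fun j k => (contDiff_dbar (sF m j) k).continuous
    · exact fun j k => (kF m j).mono' (subset_tsupport _ |>.trans (tsupport_dbar _ k))
    · exact fun j k => (hθ j k).smooth.continuous
    · exact fun j k => (hθ j k).supp
  have hleft : Tendsto (fun m => ‖∑ j, ∑ k, ∫ z, cv m (F j) z * dbar k (θ j k) z‖ ^ 2) atTop
      (𝓝 (‖∑ j, ∑ k, ∫ z, F j z * dbar k (θ j k) z‖ ^ 2)) := by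
    refine (Tendsto.norm ?_).pow 2
    refine tendsto_finsetSum _ fun j _ => tendsto_finsetSum _ fun k _ => ?_
    have h7 : MemLp (fun z => (starRingEnd ℂ) (dbar k (θ j k) z)) 2 volume :=
      (((hθ j k).dbar k).smooth.continuous.memLp_of_hasCompactSupport
        ((hθ j k).dbar k).supp).star
    have h8 := WAP_inner (cF j) (WAP_const h7)
    simpa only [Complex.conj_conj] using h8
  exact le_of_tendsto_of_tendsto' hleft (hrlim.mul_const _) hcs

end DN
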