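import Pool.Agent.H49.DN.MOLB
import Pool.Agent.H49.DN.IBP
import Pool.Agent.H49.DN.CLO

/-! # WEY: the kernel of `∂̄` on functions is the Bergman space

PROOF. (←) `u = h` a.e., `h` holomorphic on `Ω` (hence smooth on `Ω`: `DifferentiableOn.analyticOnNhd` in several
variables, or real smoothness through Osgood/Hartogs in Mathlib), `φ` a test function: `h φ` (extended by `0`) is
smooth with compact support, `dbar j h = 0` on `Ω` (`fderiv ℝ h` is complex linear), so
`0 = ∫ dbar j (h φ) = ∫ h dbar j φ` (`ibp_dbar` with the constant function 1, `dbar_mul`).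
(→) Let `K₀ ⊆ Ω` be an open set with `cthickening (2δ) K₀ ⊆ Ω`; let `ũ` be `u` times the indicator of `Ω`
(locally integrable). For `m` with `1/(m+1) < δ` the function `u_m = cv m ũ` is smooth and satisfies `dbar j u_m = 0` on
`K₀` (insert the test function `w ↦ mol (z - w)`, supported in `Ω`), so it is holomorphic on `K₀`
(`fderiv ℝ` is complex linear there: `dbar j = 0` for all `j`; `DifferentiableAt` over `ℂ` from
`differentiableAt_iff_restrictScalars`). `u_m → u` in `L²` on compact sets (`cv_tendsto` for `u` times an indicator;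
near a point only finitely... it is enough that `cv_m` of the two functions agree near the point), so a subsequence converges
a.e.; the mean value property (product of discs, or `L²` norm on a ball controls the sup norm on a smaller ball for
holomorphic functions) shows that `u_m` converges locally uniformly on `K₀`; the limit is holomorphic
(`TendstoLocallyUniformlyOn.differentiableOn` is one variable; in several variables use: locally uniform limits are
holomorphic in each variable and continuous, or the following trick). TRICK avoiding limits of holomorphic functions: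
for holomorphic `g` near the closed polydisc of radius `1/(m+1)` about `z` one has `cv m g z = g z` if the mollifier is
invariant under rotations in each variable; `mol` is not, but one may use any other smooth mollifier `ρ` which is a product
of radial functions: then `ρ_ε * (ρ_δ * u) = ρ_δ * u` and `= ρ_ε * u` on `K₀`, so `ρ_δ * u = ρ_ε * u` for all small
`ε, δ`, and `ε → 0` gives `u = ρ_δ * u` a.e. on `K₀`, holomorphic. Glue over an exhaustion (two holomorphic functions which
are a.e. equal on an open set are equal there by continuity). Use any route; auxiliary statements are free. -/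

set_option autoImplicit false

namespace DN

open MeasureTheory Set Filter Topology ContDiff

variable {n : ℕ}

theorem WEY_single_I (j : Fin n) :
    (Pi.single j Complex.I : Cn n) = Complex.I • (Pi.single j 1 : Cn n) := by
  rw [← Pi.single_smul, smul_eq_mul, mul_one]

/-- `dbar j h = 0` for complex differentiable `h` -/
theorem WEY_dbar_zero {h : Cn n → ℂ} {z : Cn n} (hh : DifferentiableAt ℂ h z) (j : Fin n) :
    dbar j h z = 0 := by
  unfold dbar
  rw [hh.fderiv_restrictScalars ℝ]
  simp only [ContinuousLinearMap.coe_restrictScalars']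
  rw [WEY_single_I, map_smul, smul_eq_mul]
  linear_combination (1 / 2 * fderiv ℂ h z (Pi.single j 1)) * Complex.I_mul_I

/-- a real differentiable function with `dbar j h = 0` for all `j` is complex differentiable -/
theorem WEY_diff {h : Cn n → ℂ} {z : Cn n} (hh : DifferentiableAt ℝ h z)
    (h0 : ∀ j, dbar j h z = 0) : DifferentiableAt ℂ h z := by
  rw [differentiableAt_iff_restrictScalars ℝ hh]
  refine ⟨∑ j, (ContinuousLinearMap.proj (R := ℂ) (φ := fun _ : Fin n => ℂ) j).smulRight
    (fderiv ℝ h z (Pi.single j 1)), ?_⟩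
  ext v
  have hI : ∀ j, fderiv ℝ h z (Pi.single j Complex.I) =
      Complex.I * fderiv ℝ h z (Pi.single j 1) := by
    intro j
    have h1 := h0 j
    unfold dbar at h1
    have h2 : fderiv ℝ h z (Pi.single j 1) +
        Complex.I * fderiv ℝ h z (Pi.single j Complex.I) = 0 := by
      linear_combination 2 * h1
    linear_combination (-Complex.I) * h2 + fderiv ℝ h z (Pi.single j Complex.I) * Complex.I_mul_I
  have hv : v = ∑ j, (((v j).re • (Pi.single j 1 : Cn n)) +
      ((v j).im • (Pi.single j Complex.I : Cn n))) := by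
    rw [← Finset.univ_sum_single v]
    refine Finset.sum_congr rfl fun j _ => ?_
    rw [Finset.univ_sum_single, ← Pi.single_smul, ← Pi.single_smul, ← Pi.single_add]
    congr 1
    rw [Complex.real_smul, Complex.real_smul, mul_one]
    exact (Complex.re_add_im (v j)).symm
  conv_rhs => rw [hv]
  rw [map_sum]
  simp only [ContinuousLinearMap.coe_restrictScalars', sum_apply,
    ContinuousLinearMap.smulRight_apply, ContinuousLinearMap.proj_apply, smul_eq_mul, map_add,
    map_smul]
  refine Finset.sum_congr rfl fun j _ => ?_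
  rw [hI, Complex.real_smul, Complex.real_smul]
  linear_combination (-fderiv ℝ h z (Pi.single j 1)) * (Complex.re_add_im (v j))

/-- the derivative of a holomorphic function is continuous -/
theorem WEY_fderiv_cont {Ω : Set (Cn n)} (hΩ : IsOpen Ω) {h : Cn n → ℂ}
    (hh : DifferentiableOn ℂ h Ω) : ContinuousOn (fderiv ℂ h) Ω := by
  intro z0 hz0
  refine ContinuousAt.continuousWithinAt ?_
  obtain ⟨r, hr, hr2⟩ : ∃ r, 0 < r ∧ Metric.closedBall z0 r ⊆ Ω :=
    Metric.nhds_basis_closedBall.mem_iff.1 (hΩ.mem_nhds hz0)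
  have huc : UniformContinuousOn h (Metric.closedBall z0 r) :=
    (isCompact_closedBall z0 r).uniformContinuousOn_of_continuous
      (hh.continuousOn.mono hr2)
  rw [Metric.continuousAt_iff]
  intro ε hε
  rw [Metric.uniformContinuousOn_iff] at huc
  obtain ⟨δ, hδ, hδ2⟩ := huc (ε / 2 * (r / 2)) (by positivity)
  refine ⟨min δ (r / 2), lt_min hδ (by positivity), ?_⟩
  intro z hz
  have hz1 : dist z z0 < δ := lt_of_lt_of_le hz (min_le_left _ _)
  have hz2 : dist z z0 < r / 2 := lt_of_lt_of_le hz (min_le_right _ _)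
  rw [dist_eq_norm]
  refine lt_of_le_of_lt (b := ε / 2) ?_ (by linarith)
  refine ContinuousLinearMap.opNorm_le_of_unit_norm (by positivity) ?_
  intro e he
  have hin : ∀ (y : Cn n) (ζ : ℂ), dist y z0 < r / 2 → ‖ζ‖ ≤ r / 2 →
      y + ζ • e ∈ Metric.closedBall z0 r := by
    intro y ζ hy hζ
    rw [Metric.mem_closedBall, dist_eq_norm]
    have h1 : y + ζ • e - z0 = (y - z0) + ζ • e := by abel
    rw [h1]
    rw [dist_eq_norm] at hy
    refine (norm_add_le _ _).trans ?_
    rw [norm_smul, he, mul_one]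
    linarith
  have hd : ∀ (y : Cn n) (ζ : ℂ), dist y z0 < r / 2 → ‖ζ‖ ≤ r / 2 →
      HasDerivAt (fun ζ : ℂ => h (y + ζ • e)) (fderiv ℂ h (y + ζ • e) e) ζ := by
    intro y ζ hy hζ
    have h1 : HasFDerivAt h (fderiv ℂ h (y + ζ • e)) (y + ζ • e) :=
      (hh.differentiableAt (hΩ.mem_nhds (hr2 (hin y ζ hy hζ)))).hasFDerivAt
    have h2 : HasDerivAt (fun ζ : ℂ => y + ζ • e) e ζ := by
      have := ((hasDerivAt_id ζ).smul_const e).const_add y
      simpa using this
    exact h1.comp_hasDerivAt ζ h2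
  have hz00 : dist z0 z0 < r / 2 := by rw [dist_self]; positivity
  have hder : ∀ ζ : ℂ, ‖ζ‖ ≤ r / 2 → HasDerivAt (fun ζ : ℂ => h (z + ζ • e) - h (z0 + ζ • e))
      (fderiv ℂ h (z + ζ • e) e - fderiv ℂ h (z0 + ζ • e) e) ζ := by
    intro ζ hζ
    exact (hd z ζ hz2 hζ).sub (hd z0 ζ hz00 hζ)
  have h0 := (hder 0 (by rw [norm_zero]; positivity)).deriv
  rw [zero_smul, add_zero, add_zero] at h0
  rw [sub_apply, ← h0]
  have hb := Complex.norm_deriv_le_of_forall_mem_sphere_norm_le (c := 0) (R := r / 2)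
    (C := ε / 2 * (r / 2)) (f := fun ζ : ℂ => h (z + ζ • e) - h (z0 + ζ • e)) (by positivity) ?_ ?_
  · refine hb.trans (le_of_eq ?_)
    field_simp
  · refine DifferentiableOn.diffContOnCl ?_
    rw [closure_ball _ (by positivity)]
    intro ζ hζ
    rw [mem_closedBall_zero_iff] at hζ
    exact (hder ζ hζ).differentiableAt.differentiableWithinAt
  · intro ζ hζ
    rw [mem_sphere_zero_iff_norm] at hζ
    rw [← dist_eq_norm]
    refine (hδ2 _ (hin z ζ hz2 hζ.le) _ (hin z0 ζ hz00 hζ.le) ?_).le
    rw [dist_add_right]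
    exact hz1

theorem WEY_contDiffOn {Ω : Set (Cn n)} (hΩ : IsOpen Ω) {h : Cn n → ℂ}
    (hh : DifferentiableOn ℂ h Ω) : ContDiffOn ℝ 1 h Ω := by
  have h1 : ContDiffOn ℂ 1 h Ω := by
    have h2 : ContDiffOn ℂ (0 + 1) h Ω := by
      rw [contDiffOn_succ_iff_fderiv_of_isOpen hΩ]
      refine ⟨hh, fun h => absurd h (by simp), ?_⟩
      rw [contDiffOn_zero]
      exact WEY_fderiv_cont hΩ hh
    simpa using h2
  exact h1.restrict_scalars ℝ

theorem WEY_int_zero {w : Cn n → ℂ} (hw : ContDiff ℝ 1 w) (hc : HasCompactSupport w)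
    (j : Fin n) : ∫ z, dbar j w z = 0 := by
  have h1 := ibp_dbar (u := fun _ : Cn n => (1 : ℂ)) (v := w) contDiff_const hw (Or.inr hc) j
  have h2 : (fun z : Cn n => (1 : ℂ) * dbar j w z) = fun z => dbar j w z := by
    funext z
    rw [one_mul]
  have h3 : (fun z : Cn n => dbar j (fun _ : Cn n => (1 : ℂ)) z * w z) = fun _ => 0 := by
    funext z
    rw [dbar_const, zero_mul]
  rw [h2, h3] at h1
  simpa using h1

/-- holomorphic functions are weakly `∂̄`-closed -/
theorem WEY_hol_test {Ω : Set (Cn n)} (hΩ : IsOpen Ω) {h : Cn n → ℂ}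
    (hh : DifferentiableOn ℂ h Ω) {φ : Cn n → ℂ} (hφ : Test Ω φ) (j : Fin n) :
    ∫ z in Ω, h z * dbar j φ z = 0 := by
  have hC := WEY_contDiffOn hΩ hh
  have h1 : ContDiff ℝ 1 (fun z => h z * φ z) := by
    rw [contDiff_iff_contDiffAt]
    intro z
    by_cases hz : z ∈ tsupport φ
    · exact (hC.contDiffAt (hΩ.mem_nhds (hφ.sub hz))).mul
        (hφ.smooth.of_le (by exact_mod_cast le_top)).contDiffAt
    · have h1 : (fun z => h z * φ z) =ᶠ[𝓝 z] fun _ => 0 := by
        filter_upwards [(isClosed_tsupport φ).isOpen_compl.mem_nhds hz] with w hw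
        rw [image_eq_zero_of_notMem_tsupport hw, mul_zero]
      exact contDiffAt_const.congr_of_eventuallyEq h1
  have h2 : HasCompactSupport (fun z => h z * φ z) := hφ.supp.mul_left
  rw [setIntegral_eq_integral_of_forall_compl_eq_zero, ← WEY_int_zero h1 h2 j]
  · refine integral_congr_ae (ae_of_all _ fun z => ?_)
    simp only
    by_cases hz : z ∈ tsupport φ
    · have hd := hh.differentiableAt (hΩ.mem_nhds (hφ.sub hz))
      rw [dbar_mul (hd.restrictScalars ℝ) ((hφ.smooth.differentiable (by simp)) z) j,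
        WEY_dbar_zero hd j, zero_mul, zero_add]
    · have e1 : dbar j φ z = 0 := by
        by_contra hcon
        exact hz (CALB_supp_dbar φ j hcon)
      have e2 : dbar j (fun z => h z * φ z) z = 0 := by
        by_contra hcon
        have h3 := CALB_supp_dbar (fun z => h z * φ z) j hcon
        exact hz (tsupport_mul_subset_right h3)
      rw [e1, e2, mul_zero]
  · intro z hz
    have e1 : dbar j φ z = 0 := by
      by_contra hcon
      exact hz (hφ.sub (CALB_supp_dbar φ j hcon))
    rw [e1, mul_zero]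

theorem WEY_back {Ω : Set (Cn n)} (hΩ : IsOpen Ω) (u : L20 Ω) (hu : IsHol Ω u) :
    IsDbar0 Ω u 0 := by
  obtain ⟨h, hh, hae⟩ := hu
  intro φ hφ j
  have h1 : ∫ z in Ω, u z * dbar j φ z = ∫ z in Ω, h z * dbar j φ z := by
    refine integral_congr_ae ?_
    filter_upwards [hae] with z hz
    rw [hz]
  have h2 : ∫ z in Ω, (0 : L21 Ω) z j * φ z = 0 := by
    rw [integral_eq_zero_of_ae]
    filter_upwards [Lp.coeFn_zero (EuclideanSpace ℂ (Fin n)) 2 (volume.restrict Ω)] with z hz
    rw [hz]
    simp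
  rw [h1, h2, WEY_hol_test hΩ hh hφ j, neg_zero]

/-! ### mollification with a general kernel -/

/-- convolution with the kernel `χ` -/
noncomputable def WEY_cv (χ u : Cn n → ℂ) (z : Cn n) : ℂ := ∫ w, u w * χ (z - w)

theorem WEY_cv_eq (χ u : Cn n → ℂ) :
    WEY_cv χ u = MeasureTheory.convolution u χ (ContinuousLinearMap.mul ℝ ℂ) volume := rfl

theorem WEY_cv_smooth {χ u : Cn n → ℂ} (hu : LocallyIntegrable u) (hχ : ContDiff ℝ ∞ χ)
    (hc : HasCompactSupport χ) : ContDiff ℝ ∞ (WEY_cv χ u) := by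
  rw [WEY_cv_eq]
  exact hc.contDiff_convolution_right (ContinuousLinearMap.mul ℝ ℂ) hu hχ

theorem WEY_cv_int {u : Cn n → ℂ} (hu : LocallyIntegrable u) (z : Cn n) {g : Cn n → ℂ}
    (hg : Continuous g) (hc : HasCompactSupport g) : Integrable (fun w => u w * g (z - w)) := by
  have h1 : HasCompactSupport (fun w => g (z - w)) := by
    have := hc.comp_homeomorph (Homeomorph.subLeft z)
    exact this
  have h2 : Continuous (fun w => g (z - w)) := hg.comp (continuous_const.sub continuous_id)
  have h3 := hu.integrable_smul_left_of_hasCompactSupport h2 h1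
  refine h3.congr (ae_of_all _ fun w => ?_)
  simp only [smul_eq_mul]
  ring

theorem WEY_cv_fderiv {χ u : Cn n → ℂ} (hu : LocallyIntegrable u) (hχ : ContDiff ℝ ∞ χ)
    (hc : HasCompactSupport χ) (z a : Cn n) :
    fderiv ℝ (WEY_cv χ u) z a = ∫ w, u w * fderiv ℝ χ (z - w) a := by
  have h := hc.hasFDerivAt_convolution_right (ContinuousLinearMap.mul ℝ ℂ) hu
    (hχ.of_le (by exact_mod_cast le_top)) z
  rw [WEY_cv_eq, h.fderiv]
  rw [convolution_precompR_apply (ContinuousLinearMap.mul ℝ ℂ) hu
    (hc.fderiv ℝ) (hχ.continuous_fderiv (by simp))]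
  rfl

theorem WEY_cv_dbar {χ u : Cn n → ℂ} (hu : LocallyIntegrable u) (hχ : ContDiff ℝ ∞ χ)
    (hc : HasCompactSupport χ) (j : Fin n) (z : Cn n) :
    dbar j (WEY_cv χ u) z = ∫ w, u w * dbar j χ (z - w) := by
  have hcont : ∀ a : Cn n, Continuous (fun w => fderiv ℝ χ w a) := fun a =>
    (hχ.continuous_fderiv (by simp)).clm_apply continuous_const
  have i1 := WEY_cv_int hu z (hcont (Pi.single j 1)) (hc.fderiv_apply ℝ _)
  have i2 := WEY_cv_int hu z (hcont (Pi.single j Complex.I)) (hc.fderiv_apply ℝ _)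
  have e : ∀ w, u w * dbar j χ (z - w)
      = 1 / 2 * (u w * fderiv ℝ χ (z - w) (Pi.single j 1)
        + Complex.I * (u w * fderiv ℝ χ (z - w) (Pi.single j Complex.I))) := by
    intro w
    unfold dbar
    ring
  simp_rw [e]
  rw [integral_const_mul, integral_add i1 (i2.const_mul Complex.I), integral_const_mul]
  unfold dbar
  rw [WEY_cv_fderiv hu hχ hc, WEY_cv_fderiv hu hχ hc]

theorem WEY_tdbar {χ : Cn n → ℂ} (hχ : ContDiff ℝ ∞ χ) (z w : Cn n) (j : Fin n) :
    dbar j (fun w => χ (z - w)) w = -dbar j χ (z - w) := by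
  have h0 : ∀ a, fderiv ℝ (fun w => χ (z - w)) w a = -fderiv ℝ χ (z - w) a := by
    intro a
    have h1 : HasFDerivAt χ (fderiv ℝ χ (z - w)) (z - w) :=
      (hχ.differentiable (by simp) _).hasFDerivAt
    have h2 : HasFDerivAt (fun w : Cn n => z - w) (-ContinuousLinearMap.id ℝ (Cn n)) w :=
      (hasFDerivAt_id w).const_sub z
    have h3 := (h1.comp w h2).fderiv
    have h4 : fderiv ℝ (fun w => χ (z - w)) w
        = (fderiv ℝ χ (z - w)).comp (-ContinuousLinearMap.id ℝ (Cn n)) := h3
    rw [h4]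
    simp
  unfold dbar
  rw [h0, h0]
  ring

/-- mollifications of weakly closed functions are holomorphic -/
theorem WEY_cv_hol {Ω : Set (Cn n)} {χ u : Cn n → ℂ} (hu : LocallyIntegrable u)
    (h0 : ∀ φ, Test Ω φ → ∀ j, ∫ w, u w * dbar j φ w = 0) (hχ : ContDiff ℝ ∞ χ)
    (hc : HasCompactSupport χ) {z : Cn n} (hz : ∀ w, z - w ∈ tsupport χ → w ∈ Ω) :
    DifferentiableAt ℂ (WEY_cv χ u) z := by
  refine WEY_diff ((WEY_cv_smooth hu hχ hc).differentiable (by simp) z) fun j => ?_
  have hT : Test Ω (fun w => χ (z - w)) := by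
    refine ⟨hχ.comp (contDiff_const.sub contDiff_id), hc.comp_homeomorph (Homeomorph.subLeft z), ?_⟩
    intro w hw
    apply hz
    have h1 := tsupport_comp_subset_preimage χ (f := fun w : Cn n => z - w)
      (continuous_const.sub continuous_id)
    exact h1 hw
  have h1 := h0 _ hT j
  simp_rw [WEY_tdbar hχ, mul_neg, integral_neg, neg_eq_zero] at h1
  rw [WEY_cv_dbar hu hχ hc, h1]

theorem WEY_mol_supp (m : ℕ) : HasCompactSupport (cx (mol n m)) :=
  HasCompactSupport.comp_left (g := fun x : ℝ => (x : ℂ)) (mb n m).hasCompactSupport_normed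
    Complex.ofReal_zero

theorem WEY_mol_smooth (m : ℕ) : ContDiff ℝ ∞ (cx (mol n m)) :=
  Complex.ofRealCLM.contDiff.comp (mol_smooth m)

theorem WEY_cv_mol (m : ℕ) (u : Cn n → ℂ) : cv m u = WEY_cv (cx (mol n m)) u := by
  funext z
  unfold cv WEY_cv
  refine integral_congr_ae (ae_of_all _ fun w => ?_)
  simp only [cx]
  ring

/-- mollifications converge almost everywhere -/
theorem WEY_cv_ae {u : Cn n → ℂ} (hu : LocallyIntegrable u) :
    ∀ᵐ z, Tendsto (fun m => cv m u z) atTop (𝓝 (u z)) := by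
  have h1 := ContDiffBump.ae_convolution_tendsto_right_of_locallyIntegrable
    (μ := (volume : Measure (Cn n))) (φ := fun m => mb n m) (l := atTop) (K := 2) (g := u)
    (by
      simp only [mb]
      exact tendsto_one_div_add_atTop_nhds_zero_nat)
    (by
      refine Eventually.of_forall fun m => ?_
      simp only [mb]
      have : (0 : ℝ) < (m : ℝ) + 1 := by positivity
      apply le_of_eq
      field_simp) hu
  filter_upwards [h1] with z hz
  refine hz.congr fun m => ?_
  rw [convolution_eq_swap]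
  unfold cv
  refine integral_congr_ae (ae_of_all _ fun w => ?_)
  simp only [ContinuousLinearMap.lsmul_apply, Complex.real_smul, mol]

/-! ### a radial kernel and the mean value property -/

/-- a radial bump -/
noncomputable def WEY_rad (n : ℕ) (r : ℝ) (w : Cn n) : ℝ := expNegInvGlue (r ^ 2 - nsq w)

theorem WEY_nsq_smooth : ContDiff ℝ ∞ (fun w : Cn n => nsq w) := by
  unfold nsq
  refine ContDiff.sum fun j _ => ?_
  have h1 : ContDiff ℝ ∞ (fun w : Cn n => w j) :=
    (ContinuousLinearMap.proj (R := ℝ) (φ := fun _ : Fin n => ℂ) j).contDiff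
  exact h1.norm_sq ℝ

theorem WEY_rad_smooth (r : ℝ) : ContDiff ℝ ∞ (WEY_rad n r) := by
  unfold WEY_rad
  exact (expNegInvGlue.contDiff (n := ⊤)).comp (contDiff_const.sub WEY_nsq_smooth)

theorem WEY_rad_supp {r : ℝ} (hr : 0 < r) : Function.support (WEY_rad n r) ⊆
    Metric.closedBall 0 r := by
  intro w hw
  rw [mem_closedBall_zero_iff]
  by_contra hcon
  push Not at hcon
  apply hw
  unfold WEY_rad
  apply expNegInvGlue.zero_of_nonpos
  obtain ⟨j, hj⟩ : ∃ j, r < ‖w j‖ := by
    by_contra h1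
    push Not at h1
    exact absurd ((pi_norm_le_iff_of_nonneg hr.le).2 h1) (not_le.2 hcon)
  have h1 : ‖w j‖ ^ 2 ≤ nsq w := by
    unfold nsq
    exact Finset.single_le_sum (f := fun j => ‖w j‖ ^ 2) (fun i _ => by positivity)
      (Finset.mem_univ j)
  nlinarith

theorem WEY_rad_rot (r : ℝ) {c : ℂ} (hc : ‖c‖ = 1) (w : Cn n) :
    WEY_rad n r (c • w) = WEY_rad n r w := by
  unfold WEY_rad nsq
  simp [hc]

/-- a radial kernel -/
theorem WEY_kernel (n : ℕ) {r : ℝ} (hr : 0 < r) : ∃ χ : Cn n → ℂ, ContDiff ℝ ∞ χ ∧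
    HasCompactSupport χ ∧ tsupport χ ⊆ Metric.closedBall 0 r ∧
    (∀ c : ℂ, ‖c‖ = 1 → ∀ w, χ (c • w) = χ w) ∧ ∫ w, χ w = 1 := by
  have hs := WEY_rad_supp (n := n) hr
  have hcs : HasCompactSupport (WEY_rad n r) :=
    HasCompactSupport.of_support_subset_isCompact (isCompact_closedBall 0 r) hs
  have hpos : 0 < ∫ w, WEY_rad n r w := by
    refine (WEY_rad_smooth r).continuous.integral_pos_of_hasCompactSupport_nonneg_nonzero hcs
      (fun w => expNegInvGlue.nonneg _) (x := 0) ?_
    unfold WEY_rad nsq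
    simpa using hr.ne'
  refine ⟨fun w => ((WEY_rad n r w / ∫ w, WEY_rad n r w : ℝ) : ℂ), ?_, ?_, ?_, ?_, ?_⟩
  · exact Complex.ofRealCLM.contDiff.comp ((WEY_rad_smooth r).div_const _)
  · refine HasCompactSupport.of_support_subset_isCompact (isCompact_closedBall 0 r) ?_
    intro w hw
    apply hs
    intro h
    apply hw
    simp [h]
  · refine closure_minimal ?_ Metric.isClosed_closedBall
    intro w hw
    apply hs
    intro h
    apply hw
    simp [h]
  · intro c hc w
    simp only [WEY_rad_rot r hc w]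
  · have h9 : ∫ w, ((WEY_rad n r w / ∫ w, WEY_rad n r w : ℝ) : ℂ) =
        ((∫ w, (WEY_rad n r w / ∫ w, WEY_rad n r w) : ℝ) : ℂ) := integral_ofReal
    refine h9.trans ?_
    rw [integral_div, div_self hpos.ne']
    simp

theorem WEY_rot {c : ℂ} (hc : ‖c‖ = 1) (F : Cn n → ℂ) : ∫ w, F (c • w) = ∫ w, F w := by
  have h0 : c ≠ 0 := by
    intro h
    rw [h, norm_zero] at hc
    exact zero_ne_one hc
  have h1 : MeasurePreserving (fun w : Cn n => c • w) volume volume := by
    have h2 : MeasurePreserving (fun x : ℂ => c * x) volume volume := by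
      have h3 := (rotation ⟨c, by simpa [Submonoid.unitSphere] using hc⟩).measurePreserving
      exact h3
    exact volume_preserving_pi (f := fun _ : Fin n => fun x : ℂ => c * x) (fun _ => h2)
  exact h1.integral_comp (Homeomorph.smulOfNeZero c h0).measurableEmbedding F

/-- the mean value property -/
theorem WEY_mean {χ g : Cn n → ℂ} {r : ℝ} {z : Cn n} (hχ : Continuous χ)
    (hs : tsupport χ ⊆ Metric.closedBall 0 r) (hrot : ∀ c : ℂ, ‖c‖ = 1 → ∀ w, χ (c • w) = χ w)
    (h1 : ∫ w, χ w = 1) (hg : Continuous g)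
    (hd : ∀ w ∈ Metric.closedBall z r, DifferentiableAt ℂ g w) : WEY_cv χ g z = g z := by
  have e0 : WEY_cv χ g z = ∫ w, g (z - w) * χ w := by
    unfold WEY_cv
    rw [← integral_sub_left_eq_self (fun w => g (z - w) * χ w) volume z]
    refine integral_congr_ae (ae_of_all _ fun w => ?_)
    simp only [sub_sub_cancel]
  have hχ0 : ∀ w, w ∉ Metric.closedBall (0 : Cn n) r → χ w = 0 := by
    intro w hw
    by_contra hcon
    exact hw (hs (subset_tsupport χ hcon))
  -- the rotated integrals
  have e1 : ∀ θ : ℝ, ∫ w in Metric.closedBall (0 : Cn n) r,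
      g (z - circleMap 0 1 θ • w) * χ w = WEY_cv χ g z := by
    intro θ
    have hc : ‖circleMap 0 1 θ‖ = 1 := by simp
    rw [e0, ← WEY_rot hc (fun w => g (z - w) * χ w),
      setIntegral_eq_integral_of_forall_compl_eq_zero]
    · refine integral_congr_ae (ae_of_all _ fun w => ?_)
      simp only [hrot _ hc w]
    · intro w hw
      rw [hχ0 w hw, mul_zero]
  have e2 : ∫ θ in (0 : ℝ)..(2 * Real.pi), ∫ w in Metric.closedBall (0 : Cn n) r,
      g (z - circleMap 0 1 θ • w) * χ w = (2 * Real.pi : ℝ) • WEY_cv χ g z := by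
    simp only [e1]
    rw [intervalIntegral.integral_const, sub_zero]
  have e3 : ∀ w ∈ Metric.closedBall (0 : Cn n) r,
      ∫ θ in (0 : ℝ)..(2 * Real.pi), g (z - circleMap 0 1 θ • w) * χ w =
        (2 * Real.pi : ℝ) • (g z * χ w) := by
    intro w hw
    rw [intervalIntegral.integral_mul_const]
    have h2 : DiffContOnCl ℂ (fun ζ : ℂ => g (z - ζ • w)) (Metric.ball 0 |1|) := by
      refine DifferentiableOn.diffContOnCl ?_
      rw [abs_one, closure_ball _ one_ne_zero]
      intro ζ hζ
      rw [mem_closedBall_zero_iff] at hζ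
      have hin : z - ζ • w ∈ Metric.closedBall z r := by
        rw [Metric.mem_closedBall, dist_eq_norm, sub_sub_cancel_left, norm_neg, norm_smul]
        rw [mem_closedBall_zero_iff] at hw
        calc ‖ζ‖ * ‖w‖ ≤ 1 * ‖w‖ := by gcongr
          _ ≤ r := by rw [one_mul]; exact hw
      have h3 : DifferentiableAt ℂ (fun ζ : ℂ => z - ζ • w) ζ := by fun_prop
      exact ((hd _ hin).comp ζ h3).differentiableWithinAt
    have h4 := h2.circleAverage
    rw [Real.circleAverage_def] at h4
    simp only [zero_smul, sub_zero] at h4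
    have h5 : (2 * Real.pi : ℝ) ≠ 0 := by positivity
    rw [← h4, smul_mul_assoc, smul_smul, mul_inv_cancel₀ h5, one_smul]
  have e4 : ∫ θ in (0 : ℝ)..(2 * Real.pi), ∫ w in Metric.closedBall (0 : Cn n) r,
      g (z - circleMap 0 1 θ • w) * χ w = (2 * Real.pi : ℝ) • g z := by
    rw [intervalIntegral_integral_swap]
    · rw [setIntegral_congr_fun Metric.isClosed_closedBall.measurableSet e3, integral_smul,
        integral_const_mul, setIntegral_eq_integral_of_forall_compl_eq_zero hχ0, h1, mul_one]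
    · rw [Measure.prod_restrict]
      have hcont : Continuous (Function.uncurry fun (θ : ℝ) (w : Cn n) =>
          g (z - circleMap 0 1 θ • w) * χ w) := by
        have hcm : Continuous (fun p : ℝ × Cn n => circleMap 0 1 p.1) :=
          (continuous_circleMap 0 1).comp continuous_fst
        exact (hg.comp (continuous_const.sub (hcm.smul continuous_snd))).mul
          (hχ.comp continuous_snd)
      have h6 : IntegrableOn (Function.uncurry fun (θ : ℝ) (w : Cn n) =>
          g (z - circleMap 0 1 θ • w) * χ w)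
          (Icc (0 : ℝ) (2 * Real.pi) ×ˢ Metric.closedBall (0 : Cn n) r)
          ((volume : Measure ℝ).prod (volume : Measure (Cn n))) :=
        hcont.continuousOn.integrableOn_compact
          (isCompact_Icc.prod (isCompact_closedBall _ _))
      refine h6.mono_set (prod_mono ?_ subset_rfl)
      rw [uIoc_of_le (by positivity)]
      exact Ioc_subset_Icc_self
  rw [e4] at e2
  have h5 : (2 * Real.pi : ℝ) ≠ 0 := by positivity
  exact (smul_right_injective ℂ h5 e2).symm

/-! ### Weyl's lemma -/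

/-- convergence of convolutions at every point -/
theorem WEY_lim {χ u : Cn n → ℂ} (hu : MemLp u 2 volume) (hχ : Continuous χ)
    (hc : HasCompactSupport χ) (z : Cn n) :
    Tendsto (fun m => WEY_cv χ (cv m u) z) atTop (𝓝 (WEY_cv χ u z)) := by
  have hl : LocallyIntegrable u := hu.locallyIntegrable (by norm_num)
  have hχ1 : HasCompactSupport (fun w => χ (z - w)) := hc.comp_homeomorph (Homeomorph.subLeft z)
  have hχ2 : MemLp (fun w => χ (z - w)) 2 volume :=
    (hχ.comp (continuous_const.sub continuous_id)).memLp_of_hasCompactSupport hχ1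
  rw [tendsto_iff_norm_sub_tendsto_zero]
  have hb : ∀ m, ‖WEY_cv χ (cv m u) z - WEY_cv χ u z‖ ≤
      (∫ w, ‖cv m u w - u w‖ ^ 2) ^ (1 / 2 : ℝ) * (∫ w, ‖χ (z - w)‖ ^ 2) ^ (1 / 2 : ℝ) := by
    intro m
    have i1 := WEY_cv_int ((cv_memLp hu m).locallyIntegrable (by norm_num)) z hχ hc
    have i2 := WEY_cv_int hl z hχ hc
    unfold WEY_cv
    rw [← integral_sub i1 i2]
    have h1 := integral_mul_norm_le_Lp_mul_Lq (μ := (volume : Measure (Cn n)))
      (f := fun w => cv m u w - u w) (g := fun w => χ (z - w)) Real.HolderConjugate.two_two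
      (by
        have h8 : MemLp (fun w => cv m u w - u w) 2 volume := (cv_memLp hu m).sub hu
        have h9 : ENNReal.ofReal 2 = 2 := by simp
        rw [h9]
        exact h8) (by simpa using hχ2)
    have h2 : ∀ x : ℝ, x ^ (2 : ℝ) = x ^ 2 := fun x => Real.rpow_two x
    simp only [h2] at h1
    refine (norm_integral_le_integral_norm _).trans (le_trans (le_of_eq ?_) h1)
    refine integral_congr_ae (ae_of_all _ fun w => ?_)
    simp only
    rw [← norm_mul, sub_mul]
  have h3 : Tendsto (fun m => (∫ w, ‖cv m u w - u w‖ ^ 2) ^ (1 / 2 : ℝ) *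
      (∫ w, ‖χ (z - w)‖ ^ 2) ^ (1 / 2 : ℝ)) atTop (𝓝 0) := by
    have h4 := (cv_tendsto hu).rpow_const (p := (1 / 2 : ℝ)) (Or.inr (by norm_num))
    rw [Real.zero_rpow (by norm_num)] at h4
    simpa using h4.mul_const ((∫ w, ‖χ (z - w)‖ ^ 2) ^ (1 / 2 : ℝ))
  exact squeeze_zero (fun m => norm_nonneg _) hb h3

theorem WEY_local {Ω : Set (Cn n)} {u : Cn n → ℂ} (hu : MemLp u 2 volume)
    (h0 : ∀ φ, Test Ω φ → ∀ j, ∫ w, u w * dbar j φ w = 0) {z0 : Cn n} {r : ℝ} (hr : 0 < r)
    (hsub : Metric.ball z0 (3 * r) ⊆ Ω) :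
    ∃ H : Cn n → ℂ, DifferentiableOn ℂ H (Metric.ball z0 r) ∧
      ∀ᵐ z ∂(volume.restrict (Metric.ball z0 r)), u z = H z := by
  have hl : LocallyIntegrable u := hu.locallyIntegrable (by norm_num)
  obtain ⟨χ, c1, c2, c3, c4, c5⟩ := WEY_kernel n hr
  have hz1 : ∀ z ∈ Metric.ball z0 r, ∀ w, z - w ∈ tsupport χ → w ∈ Ω := by
    intro z hz w hw
    apply hsub
    have h1 := c3 hw
    rw [mem_closedBall_zero_iff, ← dist_eq_norm] at h1
    rw [Metric.mem_ball] at hz ⊢
    have h2 := dist_triangle w z z0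
    rw [dist_comm w z] at h2
    linarith
  refine ⟨WEY_cv χ u, fun z hz =>
    (WEY_cv_hol hl h0 c1 c2 (hz1 z hz)).differentiableWithinAt, ?_⟩
  -- the mollifications are holomorphic on the ball of radius `2 r`
  have hm : ∀ᶠ m : ℕ in atTop, 1 / ((m : ℝ) + 1) < r :=
    tendsto_one_div_add_atTop_nhds_zero_nat.eventually (gt_mem_nhds hr)
  have hm2 : ∀ᶠ m : ℕ in atTop, ∀ z ∈ Metric.ball z0 r, WEY_cv χ (cv m u) z = cv m u z := by
    filter_upwards [hm] with m hm z hz
    refine WEY_mean c1.continuous c3 c4 c5 (cv_smooth hl m).continuous ?_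
    intro y hy
    rw [WEY_cv_mol]
    refine WEY_cv_hol hl h0 (WEY_mol_smooth m) (WEY_mol_supp m) ?_
    intro w hw
    apply hsub
    have h1 : tsupport (cx (mol n m)) ⊆ Metric.closedBall (0 : Cn n) (1 / ((m : ℝ) + 1)) := by
      refine closure_minimal ?_ Metric.isClosed_closedBall
      intro x hx
      have h2 : x ∈ Function.support (mol n m) := by
        intro h
        apply hx
        simp [cx, h]
      rw [mol_support] at h2
      exact Metric.ball_subset_closedBall h2
    have h2 := h1 hw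
    rw [mem_closedBall_zero_iff, ← dist_eq_norm] at h2
    rw [Metric.mem_closedBall] at hy
    rw [Metric.mem_ball] at hz ⊢
    have h3 := dist_triangle w y z0
    have h4 := dist_triangle y z z0
    rw [dist_comm w y] at h3
    linarith
  have hae := ae_restrict_of_ae (s := Metric.ball z0 r) (WEY_cv_ae hl)
  filter_upwards [hae, ae_restrict_mem Metric.isOpen_ball.measurableSet] with z hz hzb
  refine tendsto_nhds_unique hz ?_
  refine (WEY_lim hu c1.continuous c2 z).congr' ?_
  filter_upwards [hm2] with m hm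
  exact hm z hzb

theorem WEY_forw {Ω : Set (Cn n)} (hΩ : IsOpen Ω) (u : L20 Ω) (hu : IsDbar0 Ω u 0) :
    IsHol Ω u := by
  have hml : MemLp (Ω.indicator (u : Cn n → ℂ)) 2 volume :=
    (memLp_indicator_iff_restrict hΩ.measurableSet).2 (Lp.memLp u)
  have h0 : ∀ φ, Test Ω φ → ∀ j, ∫ w, Ω.indicator (u : Cn n → ℂ) w * dbar j φ w = 0 := by
    intro φ hφ j
    have h1 := hu φ hφ j
    have h2 : ∫ z in Ω, (0 : L21 Ω) z j * φ z = 0 := by
      rw [integral_eq_zero_of_ae]
      filter_upwards [Lp.coeFn_zero (EuclideanSpace ℂ (Fin n)) 2 (volume.restrict Ω)] with z hz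
      rw [hz]
      simp
    rw [h2, neg_zero, ← integral_indicator hΩ.measurableSet] at h1
    rw [← h1]
    refine integral_congr_ae (ae_of_all _ fun w => ?_)
    by_cases hw : w ∈ Ω
    · simp [hw]
    · simp [hw]
  have hloc : ∀ z0 : Ω, ∃ r : ℝ, 0 < r ∧ Metric.ball (z0 : Cn n) r ⊆ Ω ∧
      ∃ H : Cn n → ℂ, DifferentiableOn ℂ H (Metric.ball (z0 : Cn n) r) ∧
      ∀ᵐ z ∂(volume.restrict (Metric.ball (z0 : Cn n) r)), u z = H z := by
    intro z0
    obtain ⟨r, hr, hr2⟩ := Metric.isOpen_iff.1 hΩ z0 z0.2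
    have hsub : Metric.ball (z0 : Cn n) (r / 3) ⊆ Ω :=
      (Metric.ball_subset_ball (by linarith)).trans hr2
    obtain ⟨H, hH, hH2⟩ := WEY_local hml h0 (z0 := z0) (r := r / 3) (by positivity)
      (by rw [mul_div_cancel₀ _ (by norm_num : (3 : ℝ) ≠ 0)]; exact hr2)
    refine ⟨r / 3, by positivity, hsub, H, hH, ?_⟩
    filter_upwards [hH2, ae_restrict_mem Metric.isOpen_ball.measurableSet] with z hz hzb
    rw [← hz, indicator_of_mem (hsub hzb)]
  choose r hr hrΩ H hH hH2 using hloc
  classical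
  -- the local functions agree
  have hag : ∀ a b : Ω, EqOn (H a) (H b) (Metric.ball (a : Cn n) (r a) ∩
      Metric.ball (b : Cn n) (r b)) := by
    intro a b
    refine Measure.eqOn_open_of_ae_eq (μ := (volume : Measure (Cn n))) ?_
      (Metric.isOpen_ball.inter Metric.isOpen_ball)
      ((hH a).continuousOn.mono inter_subset_left) ((hH b).continuousOn.mono inter_subset_right)
    filter_upwards [ae_mono (Measure.restrict_mono inter_subset_left le_rfl) (hH2 a),
      ae_mono (Measure.restrict_mono inter_subset_right le_rfl) (hH2 b)] with z h1 h2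
    rw [← h1, ← h2]
  have hh : ∀ a : Ω, EqOn (fun z => if hz : z ∈ Ω then H ⟨z, hz⟩ z else 0) (H a)
      (Metric.ball (a : Cn n) (r a)) := by
    intro a z hz
    have hzΩ := hrΩ a hz
    simp only [hzΩ, dite_true]
    exact hag ⟨z, hzΩ⟩ a ⟨Metric.mem_ball_self (hr _), hz⟩
  refine ⟨fun z => if hz : z ∈ Ω then H ⟨z, hz⟩ z else 0, ?_, ?_⟩
  · intro z hz
    have hnb : Metric.ball z (r ⟨z, hz⟩) ∈ 𝓝 z := Metric.ball_mem_nhds z (hr _)
    have h1 : DifferentiableAt ℂ (H ⟨z, hz⟩) z := (hH ⟨z, hz⟩).differentiableAt hnb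
    refine (h1.congr_of_eventuallyEq ?_).differentiableWithinAt
    filter_upwards [hnb] with w hw
    exact hh ⟨z, hz⟩ hw
  · rw [ae_restrict_iff' hΩ.measurableSet, ae_iff]
    refine measure_null_of_locally_null _ fun z hz => ?_
    have hzΩ : z ∈ Ω := by
      by_contra hcon
      exact hz fun h => absurd h hcon
    refine ⟨{w | ¬(w ∈ Ω → u w = if hz : w ∈ Ω then H ⟨w, hz⟩ w else 0)} ∩
      Metric.ball z (r ⟨z, hzΩ⟩), inter_mem_nhdsWithin _ (Metric.ball_mem_nhds z (hr _)), ?_⟩
    have h1 := hH2 ⟨z, hzΩ⟩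
    rw [ae_restrict_iff' Metric.isOpen_ball.measurableSet, ae_iff] at h1
    refine measure_mono_null ?_ h1
    rintro w ⟨hw1, hw2⟩ hcon
    apply hw1
    intro _
    rw [hcon hw2]
    exact (hh ⟨z, hzΩ⟩ hw2).symm

theorem ker_dbar0 {Ω : Set (Cn n)} (hΩ : IsOpen Ω) (u : L20 Ω) : IsDbar0 Ω u 0 ↔ IsHol Ω u :=
  ⟨WEY_forw hΩ u, WEY_back hΩ u⟩

end DN
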